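import Pool.Agent.Helper64.E8C.Main

/-!
# E8 at the prime 31: explicit vectors in the lattice

`mem_explicit`: a vector `y` of `V` with zero Cartan part and `31 y.x (sr j) = ∑_{i<30} a_ij ζ ^ (3 ^ i)`, `a_ij` integers, is in `L` if the
check `chkMem a` is successful (linear conditions modulo 31 on the `a_ij`).
-/

set_option autoImplicit false

namespace Pool.Agent.Helper64.E8C

open Pool.Agent.Helper73.E8 Pool.Agent.Helper2.E8A NumberField Polynomial

/-- Entry of a table of integers, reduced modulo 31. -/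
def ai (a : List (List ℤ)) (j i : ℕ) : ℕ := (((a.getD j []).getD i 0) % 31).toNat

/-- The coefficient of `λ ^ v`, up to the factor `1 / v!`. -/
def sv (a : List (List ℤ)) (v j : ℕ) : ℕ :=
  ((List.range 30).foldl (fun acc i => acc + ai a j i * 3 ^ ((i * v) % 30)) 0) % 31

/-- The check for the vector with the coefficients `a`. -/
def chkMem (a : List (List ℤ)) : Bool :=
  (List.range 8).all (fun j => sv a 0 j == 0) &&
  (List.range 30).all (fun v => v == 0 || (fun s : List ℕ => (Ub.getD (30 - v) []).all fun u =>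
    ((List.range 8).foldl (fun acc j => acc + s.getD j 0 * u.getD j 0) 0) % 31 == 0) ((List.range 8).map fun j => sv a v j))

theorem foldl_add_eq_sum (f : ℕ → ℕ) (n c : ℕ) :
    (List.range n).foldl (fun acc i => acc + f i) c = c + ∑ i ∈ Finset.range n, f i := by
  induction n with
  | zero => simp
  | succ n ih =>
    rw [List.range_succ, List.foldl_append, ih, Finset.sum_range_succ]
    simp [add_assoc]

theorem sv_cast (a : List (List ℤ)) (v j : ℕ) : ((sv a v j : ℕ) : F) =
    ∑ i ∈ Finset.range 30, (((a.getD j []).getD i 0 : ℤ) : F) * 3 ^ (i * v) := by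
  unfold sv
  rw [foldl_add_eq_sum, zero_add]
  have h31 : ∀ n : ℕ, ((n % 31 : ℕ) : F) = (n : F) := fun n => by
    rw [ZMod.natCast_mod]
  rw [h31, Nat.cast_sum]
  refine Finset.sum_congr rfl fun i _ => ?_
  rw [Nat.cast_mul, Nat.cast_pow]
  congr 1
  · unfold ai
    have h1 : ((((a.getD j []).getD i 0 % 31).toNat : ℕ) : ℤ) = (a.getD j []).getD i 0 % 31 :=
      Int.toNat_of_nonneg (Int.emod_nonneg _ (by norm_num))
    have h2 : (((((a.getD j []).getD i 0 % 31).toNat : ℕ) : ℤ) : F) = (((a.getD j []).getD i 0 % 31 : ℤ) : F) := by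
      rw [h1]
    rw [Int.cast_natCast] at h2
    rw [h2]
    exact ZMod.intCast_mod _ 31
  · have h3 : (3 : F) ^ 30 = 1 := by decide
    have h4 : (3 : F) ^ (i * v) = 3 ^ ((i * v) % 30) := by
      conv_lhs => rw [← Nat.div_add_mod (i * v) 30]
      rw [pow_add, pow_mul, h3, one_pow, one_mul]
    rw [h4]
    norm_num

/-- The coefficient of `λ ^ v` of `∑ a_i ζ ^ (3 ^ i)`. -/
theorem cf_sum (a : ℕ → ℤ) {v : ℕ} (hv : v < 30) :
    cf v (ev (∑ i ∈ Finset.range 30, (a i : O) * hζ.toInteger ^ 3 ^ i)) =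
      (∑ i ∈ Finset.range 30, (a i : F) * 3 ^ (i * v)) / (v.factorial : F) := by
  rw [map_sum, map_sum, Finset.sum_div]
  refine Finset.sum_congr rfl fun i _ => ?_
  have h1 : ev ((a i : O) * hζ.toInteger ^ 3 ^ i) = (algebraMap F B (a i : F)) * ev (hζ.toInteger ^ 3 ^ i) := by
    rw [map_mul, map_intCast, map_intCast]
  rw [h1, ← Algebra.smul_def, map_smul, cf_ev_pow hv, smul_eq_mul, mul_div_assoc]
  congr 2
  push_cast
  rw [← pow_mul]

theorem rt_zero (j : Fin 8) : rt 0 j = sr j := rfl

theorem integral_rt {y : Chev K} (hF : Fx σ y) {j : Fin 8} {X : O} (hX : (X : K) = 31 * y.x (sr j)) (k : ℕ) :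
    ∃ z : O, (z : K) = 31 * y.x (rt k j) := by
  induction k with
  | zero => exact ⟨X, hX⟩
  | succ k ih =>
    obtain ⟨z, hz⟩ := ih
    refine ⟨((et (rt k j).1 : ℤˣ) : ℤ) * so z, ?_⟩
    rw [rt_succ, hF.2 (rt k j)]
    change algebraMap O K _ = _
    rw [map_mul, map_intCast]
    have h1 : algebraMap O K (so z) = σ (z : K) := rfl
    rw [h1, hz, map_mul, map_ofNat]
    ring

theorem natCast_foldl (f : ℕ → ℕ) (n : ℕ) :
    (((List.range n).foldl (fun acc i => acc + f i) 0 : ℕ) : F) = ∑ i ∈ Finset.range n, (f i : F) := by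
  rw [foldl_add_eq_sum, zero_add, Nat.cast_sum]

/-- Explicit vectors in the lattice. -/
theorem InL_explicit {y : Chev K} (hF : Fx σ y) (h0 : y.h = 0) (a : List (List ℤ))
    (hx : ∀ j : Fin 8, 31 * y.x (sr j) = ∑ i ∈ Finset.range 30, (((a.getD j []).getD i 0 : ℤ) : K) * ζ ^ 3 ^ i)
    (hc : chkMem a = true) : InL y := by
  unfold chkMem at hc
  rw [Bool.and_eq_true, List.all_eq_true, List.all_eq_true] at hc
  set X : Fin 8 → O := fun j => ∑ i ∈ Finset.range 30, (((a.getD j []).getD i 0 : ℤ) : O) * hζ.toInteger ^ 3 ^ i with hXd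
  have hX : ∀ j, (X j : K) = 31 * y.x (sr j) := by
    intro j
    rw [hx]
    change algebraMap O K (X j) = _
    rw [hXd, map_sum]
    refine Finset.sum_congr rfl fun i _ => ?_
    rw [map_mul, map_intCast, map_pow]
    rfl
  have hall : ∀ r : Root, ∃ z : O, (z : K) = 31 * y.x r := by
    intro r
    obtain ⟨k, -, j, rfl⟩ := rt_surj r
    exact integral_rt hF (hX j) k
  choose g hg using hall
  have hinc : inc ⟨0, g⟩ = (31 : K) • y := by
    refine Chev.ext (funext fun i => ?_) (funext fun r => hg r)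
    change algebraMap O K 0 = 31 * y.h i
    rw [h0, map_zero]
    simp
  have hFO : Fx so (⟨0, g⟩ : Chev O) := by
    rw [← Fx_inc, hinc]
    have h1 := Fx_K_smul 31 hF
    have h2 : ((31 : ℚ) : K) = 31 := by norm_num
    rwa [h2] at h1
  have hgj : ∀ j, g (sr j) = X j := by
    intro j
    have h1 : algebraMap O K (g (sr j)) = algebraMap O K (X j) := (hg (sr j)).trans (hX j).symm
    exact FaithfulSMul.algebraMap_injective O K h1
  have hB : Fx sB (cm ev (⟨0, g⟩ : Chev O)) := Fx_cm ev_so hFO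
  have hE := (Fx_iff_cmp _).mp hB
  have hcoef : ∀ v < 30, ∀ j : Fin 8, (cmp v (cm ev (⟨0, g⟩ : Chev O))).x (sr j) =
      ((sv a v j : ℕ) : F) / (v.factorial : F) := by
    intro v hv j
    change cf v (ev (g (sr j))) = _
    rw [hgj, hXd, cf_sum (fun i => (a.getD j []).getD i 0) hv, sv_cast]
  have hh : ∀ v, (cmp v (cm ev (⟨0, g⟩ : Chev O))).h = 0 := by
    intro v
    funext i
    change cf v (ev 0) = 0
    rw [map_zero, map_zero]
  refine ⟨hF, ⟨0, g⟩, hinc, ?_, ?_⟩
  · have h1 := hE 0 (by norm_num)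
    have h2 : Ev 0 (0 : Chev F) := by
      constructor
      · intro j
        simp
      · intro r
        simp
    refine Ev_ext h1 h2 (hh 0) fun j => ?_
    rw [hcoef 0 (by norm_num) j]
    have h3 := hc.1 (j : ℕ) (List.mem_range.mpr j.2)
    rw [beq_iff_eq] at h3
    rw [h3]
    simp
  · intro v hv h1 k hk
    set s := cmp v (cm ev (⟨0, g⟩ : Chev O)) with hs
    set l : List ℕ := (List.ofFn fun j : Fin 8 => (s.x (sr j)).val) with hl
    have hlj : ∀ j : Fin 8, l.getD j 0 = (s.x (sr j)).val := by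
      intro j
      rw [hl, List.getD_eq_getElem?_getD, List.getElem?_ofFn]
      simp
    have hl8 : l.getD 8 0 = 0 := by
      rw [hl, List.getD_eq_getElem?_getD, List.getElem?_ofFn]
      simp
    have hsl : s = toE v l := by
      refine Ev_ext (hE v hv) (toE_Ev v l) ?_ fun j => ?_
      · rw [hh v]
        funext i
        change 0 = (l.getD 8 0 : F) * _
        rw [hl8]
        simp
      · have h2 := toE_x v l 0 j
        rw [rt_zero] at h2
        rw [h2, hlj]
        simp [etk]
    rw [hsl, toE_frm ⟨1, by omega⟩]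
    unfold frm
    rw [hl8, zero_mul, zero_mul, add_zero]
    have h2 := hc.2 v (List.mem_range.mpr hv)
    have hv0 : (v == 0) = false := by
      rw [beq_eq_false_iff_ne]
      omega
    rw [hv0, Bool.false_or, List.all_eq_true] at h2
    have hmem : uu (30 - v) k ∈ Ub.getD (30 - v) [] := by
      unfold uu
      rw [List.getD_eq_getElem _ _ (show k < (Ub.getD (30 - v) []).length from hk)]
      exact List.getElem_mem _
    have h3 := h2 _ hmem
    rw [beq_iff_eq] at h3
    have h4 : ((((List.range 8).foldl (fun acc j => acc + ((List.range 8).map fun j => sv a v j).getD j 0 *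
        (uu (30 - v) k).getD j 0) 0) % 31 : ℕ) : F) = 0 := by
      rw [h3, Nat.cast_zero]
    rw [ZMod.natCast_mod, natCast_foldl] at h4
    rw [ZMod.natCast_mod, Nat.cast_mul, natCast_foldl]
    have h5 : ∑ i ∈ Finset.range 8, ((l.getD i 0 * (uu (30 - v) k).getD i 0 : ℕ) : F) =
        (∑ i ∈ Finset.range 8, ((((List.range 8).map fun j => sv a v j).getD i 0 * (uu (30 - v) k).getD i 0 : ℕ) : F)) /
          (v.factorial : F) := by
      rw [Finset.sum_div]
      refine Finset.sum_congr rfl fun i hi => ?_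
      have hi8 : i < 8 := Finset.mem_range.mp hi
      have h6 : l.getD i 0 = (s.x (sr ⟨i, hi8⟩)).val := hlj ⟨i, hi8⟩
      have h7 : ((List.range 8).map fun j => sv a v j).getD i 0 = sv a v i := by
        rw [List.getD_eq_getElem?_getD, List.getElem?_map, List.getElem?_range hi8]
        rfl
      rw [h6, h7, Nat.cast_mul, Nat.cast_mul, ZMod.natCast_val, ZMod.cast_id, hcoef v hv ⟨i, hi8⟩]
      ring
    rw [h5, h4, zero_div, mul_zero]

theorem mem_explicit {L : AddSubgroup (Chev K)} (hL : IsL L) {y : Chev K} (hF : Fx σ y) (h0 : y.h = 0) (a : List (List ℤ))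
    (hx : ∀ j : Fin 8, 31 * y.x (sr j) = ∑ i ∈ Finset.range 30, (((a.getD j []).getD i 0 : ℤ) : K) * ζ ^ 3 ^ i)
    (hc : chkMem a = true) : y ∈ L :=
  (mem_iff hL y).mpr (InL_explicit hF h0 a hx hc)

end Pool.Agent.Helper64.E8C
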