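import Pool.Agent.Helper64.E8C.Et

/-!
# Block E8C-CM: change of rings, the automorphism `n`, the condition `Fx`

Everything is formal. `cm_lie`, `cm_bf`: the bracket and the form are polynomials with integer coefficients (`brk_h`, `brk_x`, `map_sum`,
`map_intCast`). `nn_lie`: `n` is an automorphism of the Lie algebra: compare coefficients: with `a, b` replaced by `W a, W b`:
`eps (W a) (W b) et(a) et(b) = et(a + b) eps a b` (`et_lift.add`), `pr (n h) (W a) = pr h a` (`W_isom`), `et (-a) = et a`, and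
`(Σ_a a_i c_a)` goes to `Σ_a (W a)_i c_a`. `nn_bf`: `W_isom`, `et(a) et(-a) = 1`.
`Fx_lie`: `y = nn (cm s y)`, `z = nn (cm s z)` give `⁅y, z⁆ = nn (cm s ⁅y, z⁆)` for a ring homomorphism `s`.
`Ev_lie`: `Ev v s` says `s = 3 ^ v • nn s`. `Ev_bf`: `bf s t = 3 ^ (a + b) bf s t` and `3 ^ (a + b) ≠ 1`.
-/

set_option autoImplicit false

namespace Pool.Agent.Helper64.E8C

open Pool.Agent.Helper73.E8 Pool.Agent.Helper2.E8A NumberField Polynomial

variable {R S : Type*} [CommRing R] [CommRing S]

theorem cm_add (f : R →+* S) (y z : Chev R) : cm f (y + z) = cm f y + cm f z := by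
  ext i
  · exact map_add f _ _
  · exact map_add f _ _

theorem cm_neg (f : R →+* S) (y : Chev R) : cm f (-y) = -cm f y := by
  ext i
  · exact map_neg f _
  · exact map_neg f _

theorem cm_zero (f : R →+* S) : cm f (0 : Chev R) = 0 := by
  ext i
  · exact map_zero f
  · exact map_zero f

theorem cm_smul (f : R →+* S) (c : R) (y : Chev R) : cm f (c • y) = f c • cm f y := by
  ext i
  · exact map_mul f _ _
  · exact map_mul f _ _

private theorem map_pr' (f : R →+* S) (h : Fin 8 → R) (c : Helper73.E8.Lat) :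
    f (Chev.pr h c) = Chev.pr (fun i => f (h i)) c := by
  simp only [Chev.pr, map_sum, map_mul, map_intCast]

theorem cm_lie (f : R →+* S) (y z : Chev R) : cm f ⁅y, z⁆ = ⁅cm f y, cm f z⁆ := by
  ext i
  · change f (⁅y, z⁆.h i) = ⁅cm f y, cm f z⁆.h i
    rw [Chev.brk_h, Chev.brk_h, map_neg, map_sum]
    simp only [map_mul, map_intCast]
    rfl
  · change f (⁅y, z⁆.x i) = ⁅cm f y, cm f z⁆.x i
    rw [Chev.brk_x, Chev.brk_x, map_add, map_sub, map_mul, map_mul, map_pr', map_pr', map_sum]
    simp only [map_sum, apply_ite f, map_mul, map_intCast, map_zero]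
    rfl

theorem cm_bf (f : R →+* S) (y z : Chev R) : Chev.bf (cm f y) (cm f z) = f (Chev.bf y z) := by
  simp only [Chev.bf, map_sub, map_sum, map_mul, map_intCast]
  rfl

theorem nn_add (y z : Chev R) : nn (y + z) = nn y + nn z := by
  ext i
  · change ∑ l, (y.h l + z.h l) * (Wmat l i : R) = ∑ l, y.h l * (Wmat l i : R) + ∑ l, z.h l * (Wmat l i : R)
    simp only [add_mul, Finset.sum_add_distrib]
  · change ((et (rW.symm i).1 : ℤ) : R) * (y.x (rW.symm i) + z.x (rW.symm i)) =
      ((et (rW.symm i).1 : ℤ) : R) * y.x (rW.symm i) + ((et (rW.symm i).1 : ℤ) : R) * z.x (rW.symm i)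
    rw [mul_add]

theorem nn_smul (c : R) (y : Chev R) : nn (c • y) = c • nn y := by
  ext i
  · change ∑ l, (c * y.h l) * (Wmat l i : R) = c * ∑ l, y.h l * (Wmat l i : R)
    simp only [Finset.mul_sum, mul_assoc]
  · change ((et (rW.symm i).1 : ℤ) : R) * (c * y.x (rW.symm i)) =
      c * (((et (rW.symm i).1 : ℤ) : R) * y.x (rW.symm i))
    ring

private theorem nn_h (y : Chev R) (j : Fin 8) : (nn y).h j = ∑ i, y.h i * (Wmat i j : R) := rfl

private theorem nn_x (y : Chev R) (a : Root) : (nn y).x (rW a) = ((et a.1 : ℤ) : R) * y.x a := by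
  change ((et (rW.symm (rW a)).1 : ℤ) : R) * y.x (rW.symm (rW a)) = _
  rw [Equiv.symm_apply_apply]

private theorem rW_val (a : Root) : (rW a).1 = W a.1 := rfl

private theorem rW_neg (a : Root) : rW (-a) = -rW a := by
  apply root_ext
  rw [rW_val, neg_val, neg_val, rW_val, map_neg]

private theorem sgn_sq (u : ℤˣ) : (((u : ℤˣ) : ℤ) : R) * (((u : ℤˣ) : ℤ) : R) = 1 := by
  rw [← Int.cast_mul, ← Units.val_mul, Int.units_mul_self, Units.val_one, Int.cast_one]

private theorem Wmat_isom (k l : Fin 8) :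
    ∑ i, ∑ j, Wmat k i * CartanMatrix.E₈ i j * Wmat l j = CartanMatrix.E₈ k l := by
  revert k l
  decide

private theorem pr_nn (y : Chev R) (c : Helper73.E8.Lat) : Chev.pr (nn y).h (W c) = Chev.pr y.h c := by
  have hW : ∀ j, ((W c j : ℤ) : R) = ∑ l, (c l : R) * (Wmat l j : R) := by
    intro j
    rw [W_apply]
    push_cast
    rfl
  have h1 : Chev.pr (nn y).h (W c) = ∑ k, ∑ l, y.h k *
      ((∑ i, ∑ j, Wmat k i * CartanMatrix.E₈ i j * Wmat l j : ℤ) : R) * (c l : R) := by
    simp only [Chev.pr, hW, nn_h, Finset.sum_mul, Finset.mul_sum, Int.cast_sum, Int.cast_mul]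
    -- sum i j l k on the left, k l i j on the right
    calc ∑ i, ∑ j, ∑ l, ∑ k, y.h k * (Wmat k i : R) * (CartanMatrix.E₈ i j : R) * ((c l : R) * (Wmat l j : R))
        = ∑ i, ∑ k, ∑ l, ∑ j, y.h k * (Wmat k i : R) * (CartanMatrix.E₈ i j : R) * ((c l : R) * (Wmat l j : R)) := by
          refine Finset.sum_congr rfl fun i _ => ?_
          rw [Finset.sum_comm]
          rw [Finset.sum_congr rfl fun l _ => Finset.sum_comm]
          rw [Finset.sum_comm]
      _ = ∑ k, ∑ l, ∑ i, ∑ j, y.h k * (Wmat k i : R) * (CartanMatrix.E₈ i j : R) * ((c l : R) * (Wmat l j : R)) := by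
          rw [Finset.sum_comm]
          refine Finset.sum_congr rfl fun k _ => ?_
          rw [Finset.sum_comm]
      _ = _ := by
          refine Finset.sum_congr rfl fun k _ => Finset.sum_congr rfl fun l _ =>
            Finset.sum_congr rfl fun i _ => Finset.sum_congr rfl fun j _ => ?_
          ring
  rw [h1]
  simp only [Wmat_isom]
  rfl

theorem nn_lie (y z : Chev R) : nn ⁅y, z⁆ = ⁅nn y, nn z⁆ := by
  ext j
  · rw [nn_h, Chev.brk_h, ← Equiv.sum_comp rW]
    have h1 : ∀ i, ⁅y, z⁆.h i = -∑ a : Root, (a.1 i : R) * (y.x a * z.x (-a)) := fun i => Chev.brk_h y z i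
    simp only [h1, ← rW_neg, nn_x, neg_mul, Finset.sum_neg_distrib, Finset.sum_mul]
    rw [Finset.sum_comm]
    congr 1
    refine Finset.sum_congr rfl fun a _ => ?_
    rw [rW_val, W_apply, neg_val, et_lift.neg]
    push_cast
    have h2 := sgn_sq (R := R) (et a.1)
    rw [Finset.sum_mul]
    refine Finset.sum_congr rfl fun i _ => ?_
    linear_combination (-((a.1 i : R) * (Wmat i j : R) * y.x a * z.x (-a))) * h2
  · obtain ⟨d, rfl⟩ := rW.surjective j
    rw [nn_x, Chev.brk_x, Chev.brk_x, nn_x, nn_x, rW_val, pr_nn, pr_nn]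
    have h3 : ∑ a : Root, ∑ b : Root, (if a.1 + b.1 = W d.1 then
        ((eps a.1 b.1 : ℤ) : R) * ((nn y).x a * (nn z).x b) else 0) =
        ∑ a : Root, ∑ b : Root, (if (rW a).1 + (rW b).1 = W d.1 then
        ((eps (rW a).1 (rW b).1 : ℤ) : R) * ((nn y).x (rW a) * (nn z).x (rW b)) else 0) := by
      rw [← Equiv.sum_comp rW]
      refine Finset.sum_congr rfl fun a _ => ?_
      rw [← Equiv.sum_comp rW]
    rw [h3, mul_add, Finset.mul_sum]
    congr 1
    · ring
    · refine Finset.sum_congr rfl fun a _ => ?_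
      rw [Finset.mul_sum]
      refine Finset.sum_congr rfl fun b _ => ?_
      rw [rW_val, rW_val, ← map_add, nn_x, nn_x]
      by_cases h : a.1 + b.1 = d.1
      · rw [if_pos h, if_pos (by rw [h]), ← h, et_lift.add]
        have h2 := sgn_sq (R := R) (eps a.1 b.1)
        push_cast
        linear_combination (((et a.1 : ℤ) : R) * ((et b.1 : ℤ) : R) * ((eps (W a.1) (W b.1) : ℤ) : R) *
          (y.x a * z.x b)) * h2
      · rw [if_neg h, if_neg (fun h4 => h (W.injective h4)), mul_zero]

theorem nn_bf (y z : Chev R) : Chev.bf (nn y) (nn z) = Chev.bf y z := by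
  unfold Chev.bf
  congr 1
  · have h1 : ∑ i, ∑ j, (nn y).h i * (CartanMatrix.E₈ i j : R) * (nn z).h j = ∑ k, ∑ l, y.h k *
        ((∑ i, ∑ j, Wmat k i * CartanMatrix.E₈ i j * Wmat l j : ℤ) : R) * z.h l := by
      simp only [nn_h, Finset.sum_mul, Finset.mul_sum, Int.cast_sum, Int.cast_mul]
      calc ∑ i, ∑ j, ∑ l, ∑ k, y.h k * (Wmat k i : R) * (CartanMatrix.E₈ i j : R) * (z.h l * (Wmat l j : R))
          = ∑ i, ∑ k, ∑ l, ∑ j, y.h k * (Wmat k i : R) * (CartanMatrix.E₈ i j : R) * (z.h l * (Wmat l j : R)) := by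
            refine Finset.sum_congr rfl fun i _ => ?_
            rw [Finset.sum_comm]
            rw [Finset.sum_congr rfl fun l _ => Finset.sum_comm]
            rw [Finset.sum_comm]
        _ = ∑ k, ∑ l, ∑ i, ∑ j, y.h k * (Wmat k i : R) * (CartanMatrix.E₈ i j : R) * (z.h l * (Wmat l j : R)) := by
            rw [Finset.sum_comm]
            refine Finset.sum_congr rfl fun k _ => ?_
            rw [Finset.sum_comm]
        _ = _ := by
            refine Finset.sum_congr rfl fun k _ => Finset.sum_congr rfl fun l _ =>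
              Finset.sum_congr rfl fun i _ => Finset.sum_congr rfl fun j _ => ?_
            ring
    rw [h1]
    simp only [Wmat_isom]
  · rw [← Equiv.sum_comp rW]
    refine Finset.sum_congr rfl fun a _ => ?_
    rw [← rW_neg, nn_x, nn_x, neg_val, et_lift.neg]
    have h2 := sgn_sq (R := R) (et a.1)
    linear_combination (y.x a * z.x (-a)) * h2

theorem cm_nn (f : R →+* S) (y : Chev R) : cm f (nn y) = nn (cm f y) := by
  ext i
  · change f (∑ l, y.h l * (Wmat l i : R)) = ∑ l, f (y.h l) * (Wmat l i : S)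
    simp only [map_sum, map_mul, map_intCast]
  · change f (((et (rW.symm i).1 : ℤ) : R) * y.x (rW.symm i)) = ((et (rW.symm i).1 : ℤ) : S) * f (y.x (rW.symm i))
    rw [map_mul, map_intCast]

end Pool.Agent.Helper64.E8C
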