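import Pool.Agent.Helper64.E8C.Et

/-!
# Block E8C-RTT: tables of the roots `W ^ k α_j` and of the signs

WARNING: do not let Lean evaluate `W^[k] (al j)` directly (functions are not memoised, the cost is exponential). Verify the table
row by row: `W` of the vector number `(k, j)` of the table is the vector number `(k + 1, j)` (`decide +kernel` on integer lists: write `W` for lists, a sum of 8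
products per coordinate, and prove that it agrees with `W`), then induction on `k`. Similarly `et` of a table vector: `be` and the exponents as explicit
polynomials of the coordinates of the list, then `etk_succ`.
-/

set_option autoImplicit false

namespace Pool.Agent.Helper64.E8C

open Pool.Agent.Helper73.E8 Pool.Agent.Helper2.E8A NumberField Polynomial

/-- Entry `(k, j)`: the coordinates of `W ^ k α_j`, `k < 30`, `j < 8`. -/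
def rtT : List (List (List ℤ)) := [
  [[1, 0, 0, 0, 0, 0, 0, 0], [0, 1, 0, 0, 0, 0, 0, 0], [0, 0, 1, 0, 0, 0, 0, 0], [0, 0, 0, 1, 0, 0, 0, 0], [0, 0, 0, 0,
  1, 0, 0, 0], [0, 0, 0, 0, 0, 1, 0, 0], [0, 0, 0, 0, 0, 0, 1, 0], [0, 0, 0, 0, 0, 0, 0, 1]],
  [[0, 0, 0, 1, 1, 1, 0, 0], [-2, -3, -4, -6, -5, -4, -3, -1], [0, 1, 1, 1, 0, 0, 0, 0], [0, 0, 0, 0, 1, 1, 1, 0], [1,
  0, 1, 1, 0, 0, 0, 0], [0, 1, 0, 1, 1, 0, 0, 0], [0, 0, 0, 0, 0, 1, 1, 1], [0, 0, 1, 1, 1, 0, 0, 0]],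
  [[1, 1, 1, 2, 2, 1, 1, 0], [1, 1, 2, 2, 2, 1, 0, 0], [-2, -2, -3, -5, -4, -3, -2, -1], [1, 1, 1, 2, 1, 1, 1, 1], [0,
  1, 1, 2, 2, 2, 1, 0], [-1, -3, -3, -5, -4, -3, -2, -1], [0, 1, 1, 2, 2, 1, 1, 1], [1, 1, 2, 2, 1, 1, 1, 0]],
  [[0, -1, -1, -1, -1, 0, 0, 0], [0, 0, 0, 0, -1, -1, -1, -1], [0, 0, 0, -1, -1, -1, -1, 0], [-1, -1, -1, -1, 0, 0, 0,
  0], [0, 0, -1, -1, -1, -1, 0, 0], [2, 3, 4, 6, 5, 4, 2, 1], [0, -1, 0, -1, -1, -1, 0, 0], [-1, 0, -1, -1, -1, 0, 0,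
  0]],
  [[1, 2, 2, 4, 4, 3, 2, 1], [-1, -1, -2, -3, -2, -1, -1, -1], [-1, -1, -1, -2, -2, -2, -2, -1], [2, 2, 3, 4, 3, 2, 2,
  1], [-1, -2, -2, -3, -2, -1, -1, 0], [-1, -1, -2, -2, -2, -2, -1, -1], [1, 2, 3, 4, 3, 3, 2, 1], [-1, -1, -2, -3,
  -2, -2, -1, 0]],
  [[0, -1, -1, -1, -1, -1, 0, 0], [0, 0, -1, -1, -1, -1, -1, 0], [0, 0, 0, -1, -1, -1, -1, -1], [-1, -1, -1, -1, -1, 0,
  0, 0], [2, 3, 4, 6, 5, 3, 2, 1], [0, -1, -1, -2, -1, 0, 0, 0], [-1, 0, -1, -1, -1, -1, 0, 0], [0, -1, 0, -1, -1, -1,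
  -1, 0]],
  [[1, 1, 2, 3, 3, 3, 2, 1], [-1, -2, -2, -3, -2, -2, -2, -1], [-1, -1, -2, -3, -3, -2, -2, -1], [1, 2, 2, 3, 3, 2, 2,
  1], [-1, -2, -2, -3, -3, -2, -1, -1], [1, 2, 2, 4, 3, 2, 1, 1], [-1, -2, -2, -4, -3, -2, -1, 0], [1, 2, 3, 4, 3, 2,
  1, 0]],
  [[1, 2, 2, 4, 3, 2, 2, 1], [2, 2, 3, 4, 3, 2, 1, 0], [-1, -1, -2, -3, -2, -2, -2, -1], [-1, -2, -2, -3, -3, -2, -1,
  0], [1, 2, 2, 3, 3, 3, 2, 1], [-1, -2, -2, -3, -2, -2, -1, -1], [1, 2, 3, 4, 3, 2, 1, 1], [-1, -1, -2, -3, -3, -2,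
  -1, -1]],
  [[-1, -2, -2, -3, -2, -1, 0, 0], [-1, -1, -2, -2, -2, -1, -1, -1], [0, -1, -1, -2, -2, -2, -2, -1], [1, 2, 3, 4, 4, 3,
  2, 1], [-1, -1, -2, -2, -2, -2, -1, 0], [2, 2, 3, 4, 3, 3, 2, 1], [-1, -1, -1, -2, -2, -2, -1, -1], [-1, -1, -2, -3,
  -2, -1, -1, 0]],
  [[2, 3, 4, 6, 5, 4, 3, 2], [0, 0, -1, -1, 0, 0, 0, 0], [0, 0, 0, 0, 0, 0, -1, -1], [0, 0, 0, 0, -1, -1, 0, 0], [0, -1,
  0, -1, 0, 0, 0, 0], [-1, 0, -1, 0, 0, 0, 0, 0], [0, 0, 0, -1, -1, 0, 0, 0], [0, 0, 0, 0, 0, -1, -1, 0]],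
  [[-1, -1, -1, -1, -1, -1, 0, 0], [0, -1, -1, -1, -1, -1, -1, 0], [0, 0, -1, -1, -1, -1, -1, -1], [-1, -1, -1, -2, -1,
  0, 0, 0], [2, 3, 4, 6, 4, 3, 2, 1], [0, -1, -1, -2, -1, -1, 0, 0], [-1, 0, -1, -1, -1, -1, -1, 0], [0, -1, 0, -1,
  -1, -1, -1, -1]],
  [[1, 1, 2, 2, 2, 2, 2, 1], [1, 1, 2, 3, 3, 2, 1, 0], [-1, -2, -3, -4, -3, -2, -2, -1], [1, 2, 2, 3, 2, 1, 1, 1], [-2,
  -2, -3, -4, -3, -2, -1, -1], [1, 1, 2, 3, 2, 2, 1, 1], [-1, -2, -2, -4, -3, -3, -2, -1], [1, 2, 2, 3, 2, 2, 1, 0]],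
  [[0, 1, 1, 2, 1, 1, 1, 1], [1, 1, 1, 2, 1, 1, 1, 0], [1, 1, 1, 2, 2, 1, 0, 0], [-2, -3, -3, -5, -4, -3, -2, -1], [1,
  1, 1, 1, 1, 1, 1, 1], [0, 1, 1, 2, 2, 1, 1, 0], [1, 1, 2, 2, 1, 1, 0, 0], [-2, -2, -4, -5, -4, -3, -2, -1]],
  [[-1, -1, -1, -2, -1, -1, 0, 0], [-1, -1, -2, -2, -1, 0, 0, 0], [0, -1, -1, -1, -1, -1, -1, -1], [2, 3, 4, 5, 4, 3, 2,
  1], [-1, -1, -1, -1, -1, -1, -1, 0], [0, -1, -1, -2, -2, -1, 0, 0], [-1, 0, -1, -1, -1, -1, -1, -1], [0, -1, -1, -2,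
  -1, -1, -1, 0]],
  [[1, 1, 2, 2, 1, 1, 1, 1], [1, 1, 1, 2, 2, 1, 1, 1], [1, 1, 1, 2, 2, 2, 1, 0], [-2, -2, -3, -4, -4, -3, -2, -1], [1,
  1, 2, 2, 2, 1, 1, 0], [0, 1, 1, 2, 2, 2, 1, 1], [-1, -2, -3, -5, -4, -3, -2, -1], [1, 1, 2, 3, 2, 1, 0, 0]],
  [[-1, 0, 0, 0, 0, 0, 0, 0], [0, -1, 0, 0, 0, 0, 0, 0], [0, 0, -1, 0, 0, 0, 0, 0], [0, 0, 0, -1, 0, 0, 0, 0], [0, 0, 0,
  0, -1, 0, 0, 0], [0, 0, 0, 0, 0, -1, 0, 0], [0, 0, 0, 0, 0, 0, -1, 0], [0, 0, 0, 0, 0, 0, 0, -1]],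
  [[0, 0, 0, -1, -1, -1, 0, 0], [2, 3, 4, 6, 5, 4, 3, 1], [0, -1, -1, -1, 0, 0, 0, 0], [0, 0, 0, 0, -1, -1, -1, 0], [-1,
  0, -1, -1, 0, 0, 0, 0], [0, -1, 0, -1, -1, 0, 0, 0], [0, 0, 0, 0, 0, -1, -1, -1], [0, 0, -1, -1, -1, 0, 0, 0]],
  [[-1, -1, -1, -2, -2, -1, -1, 0], [-1, -1, -2, -2, -2, -1, 0, 0], [2, 2, 3, 5, 4, 3, 2, 1], [-1, -1, -1, -2, -1, -1,
  -1, -1], [0, -1, -1, -2, -2, -2, -1, 0], [1, 3, 3, 5, 4, 3, 2, 1], [0, -1, -1, -2, -2, -1, -1, -1], [-1, -1, -2, -2,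
  -1, -1, -1, 0]],
  [[0, 1, 1, 1, 1, 0, 0, 0], [0, 0, 0, 0, 1, 1, 1, 1], [0, 0, 0, 1, 1, 1, 1, 0], [1, 1, 1, 1, 0, 0, 0, 0], [0, 0, 1, 1,
  1, 1, 0, 0], [-2, -3, -4, -6, -5, -4, -2, -1], [0, 1, 0, 1, 1, 1, 0, 0], [1, 0, 1, 1, 1, 0, 0, 0]],
  [[-1, -2, -2, -4, -4, -3, -2, -1], [1, 1, 2, 3, 2, 1, 1, 1], [1, 1, 1, 2, 2, 2, 2, 1], [-2, -2, -3, -4, -3, -2, -2,
  -1], [1, 2, 2, 3, 2, 1, 1, 0], [1, 1, 2, 2, 2, 2, 1, 1], [-1, -2, -3, -4, -3, -3, -2, -1], [1, 1, 2, 3, 2, 2, 1, 0]],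
  [[0, 1, 1, 1, 1, 1, 0, 0], [0, 0, 1, 1, 1, 1, 1, 0], [0, 0, 0, 1, 1, 1, 1, 1], [1, 1, 1, 1, 1, 0, 0, 0], [-2, -3, -4,
  -6, -5, -3, -2, -1], [0, 1, 1, 2, 1, 0, 0, 0], [1, 0, 1, 1, 1, 1, 0, 0], [0, 1, 0, 1, 1, 1, 1, 0]],
  [[-1, -1, -2, -3, -3, -3, -2, -1], [1, 2, 2, 3, 2, 2, 2, 1], [1, 1, 2, 3, 3, 2, 2, 1], [-1, -2, -2, -3, -3, -2, -2,
  -1], [1, 2, 2, 3, 3, 2, 1, 1], [-1, -2, -2, -4, -3, -2, -1, -1], [1, 2, 2, 4, 3, 2, 1, 0], [-1, -2, -3, -4, -3, -2,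
  -1, 0]],
  [[-1, -2, -2, -4, -3, -2, -2, -1], [-2, -2, -3, -4, -3, -2, -1, 0], [1, 1, 2, 3, 2, 2, 2, 1], [1, 2, 2, 3, 3, 2, 1,
  0], [-1, -2, -2, -3, -3, -3, -2, -1], [1, 2, 2, 3, 2, 2, 1, 1], [-1, -2, -3, -4, -3, -2, -1, -1], [1, 1, 2, 3, 3, 2,
  1, 1]],
  [[1, 2, 2, 3, 2, 1, 0, 0], [1, 1, 2, 2, 2, 1, 1, 1], [0, 1, 1, 2, 2, 2, 2, 1], [-1, -2, -3, -4, -4, -3, -2, -1], [1,
  1, 2, 2, 2, 2, 1, 0], [-2, -2, -3, -4, -3, -3, -2, -1], [1, 1, 1, 2, 2, 2, 1, 1], [1, 1, 2, 3, 2, 1, 1, 0]],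
  [[-2, -3, -4, -6, -5, -4, -3, -2], [0, 0, 1, 1, 0, 0, 0, 0], [0, 0, 0, 0, 0, 0, 1, 1], [0, 0, 0, 0, 1, 1, 0, 0], [0,
  1, 0, 1, 0, 0, 0, 0], [1, 0, 1, 0, 0, 0, 0, 0], [0, 0, 0, 1, 1, 0, 0, 0], [0, 0, 0, 0, 0, 1, 1, 0]],
  [[1, 1, 1, 1, 1, 1, 0, 0], [0, 1, 1, 1, 1, 1, 1, 0], [0, 0, 1, 1, 1, 1, 1, 1], [1, 1, 1, 2, 1, 0, 0, 0], [-2, -3, -4,
  -6, -4, -3, -2, -1], [0, 1, 1, 2, 1, 1, 0, 0], [1, 0, 1, 1, 1, 1, 1, 0], [0, 1, 0, 1, 1, 1, 1, 1]],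
  [[-1, -1, -2, -2, -2, -2, -2, -1], [-1, -1, -2, -3, -3, -2, -1, 0], [1, 2, 3, 4, 3, 2, 2, 1], [-1, -2, -2, -3, -2, -1,
  -1, -1], [2, 2, 3, 4, 3, 2, 1, 1], [-1, -1, -2, -3, -2, -2, -1, -1], [1, 2, 2, 4, 3, 3, 2, 1], [-1, -2, -2, -3, -2,
  -2, -1, 0]],
  [[0, -1, -1, -2, -1, -1, -1, -1], [-1, -1, -1, -2, -1, -1, -1, 0], [-1, -1, -1, -2, -2, -1, 0, 0], [2, 3, 3, 5, 4, 3,
  2, 1], [-1, -1, -1, -1, -1, -1, -1, -1], [0, -1, -1, -2, -2, -1, -1, 0], [-1, -1, -2, -2, -1, -1, 0, 0], [2, 2, 4,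
  5, 4, 3, 2, 1]],
  [[1, 1, 1, 2, 1, 1, 0, 0], [1, 1, 2, 2, 1, 0, 0, 0], [0, 1, 1, 1, 1, 1, 1, 1], [-2, -3, -4, -5, -4, -3, -2, -1], [1,
  1, 1, 1, 1, 1, 1, 0], [0, 1, 1, 2, 2, 1, 0, 0], [1, 0, 1, 1, 1, 1, 1, 1], [0, 1, 1, 2, 1, 1, 1, 0]],
  [[-1, -1, -2, -2, -1, -1, -1, -1], [-1, -1, -1, -2, -2, -1, -1, -1], [-1, -1, -1, -2, -2, -2, -1, 0], [2, 2, 3, 4, 4,
  3, 2, 1], [-1, -1, -2, -2, -2, -1, -1, 0], [0, -1, -1, -2, -2, -2, -1, -1], [1, 2, 3, 5, 4, 3, 2, 1], [-1, -1, -2,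
  -3, -2, -1, 0, 0]]]

/-- Entry `(k, j)`: the sign of `n ^ k` at `α_j`. -/
def ekT : List (List ℤ) := [
  [1, 1, 1, 1, 1, 1, 1, 1],
  [1, 1, 1, 1, 1, 1, 1, 1],
  [1, -1, 1, 1, -1, 1, -1, -1],
  [-1, 1, 1, -1, -1, -1, -1, -1],
  [-1, 1, -1, -1, 1, -1, -1, 1],
  [-1, 1, 1, -1, -1, -1, -1, 1],
  [1, 1, 1, 1, 1, 1, -1, -1],
  [-1, -1, 1, 1, -1, -1, -1, -1],
  [1, -1, 1, -1, -1, -1, -1, 1],
  [-1, -1, -1, -1, -1, 1, 1, -1],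
  [1, -1, 1, -1, -1, 1, -1, -1],
  [-1, -1, 1, 1, 1, -1, -1, -1],
  [-1, 1, 1, 1, -1, 1, -1, 1],
  [-1, -1, 1, -1, -1, 1, 1, 1],
  [-1, 1, 1, 1, 1, 1, -1, -1],
  [1, 1, 1, 1, 1, 1, 1, 1],
  [1, 1, 1, 1, 1, 1, 1, 1],
  [1, -1, 1, 1, -1, 1, -1, -1],
  [-1, 1, 1, -1, -1, -1, -1, -1],
  [-1, 1, -1, -1, 1, -1, -1, 1],
  [-1, 1, 1, -1, -1, -1, -1, 1],
  [1, 1, 1, 1, 1, 1, -1, -1],
  [-1, -1, 1, 1, -1, -1, -1, -1],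
  [1, -1, 1, -1, -1, -1, -1, 1],
  [-1, -1, -1, -1, -1, 1, 1, -1],
  [1, -1, 1, -1, -1, 1, -1, -1],
  [-1, -1, 1, 1, 1, -1, -1, -1],
  [-1, 1, 1, 1, -1, 1, -1, 1],
  [-1, -1, 1, -1, -1, 1, 1, 1],
  [-1, 1, 1, 1, 1, 1, -1, -1]]

/-- Coordinate `i` of the entry `(k, j)`. -/
def rc (k j i : ℕ) : ℤ := ((rtT.getD k []).getD j []).getD i 0

private theorem rt_zero1 : ∀ j i : Fin 8, (al j) i = rc 0 j i := by decide +kernel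

private theorem rt_step1 : ∀ k : Fin 29, ∀ j i : Fin 8,
    ∑ l : Fin 8, rc k j l * Wmat l i = rc (k + 1) j i := by decide +kernel

theorem rt_table {k : ℕ} (hk : k < 30) (j i : Fin 8) : (rt k j).1 i = rc k j i := by
  induction k generalizing i with
  | zero => exact rt_zero1 j i
  | succ k ih =>
    have h1 : (rt (k + 1) j).1 = W (rt k j).1 := by
      rw [rt_val, rt_val, Function.iterate_succ_apply']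
    rw [h1, W_apply, ← rt_step1 ⟨k, by omega⟩ j i]
    exact Finset.sum_congr rfl fun l _ => by rw [ih (by omega) l]

/-- The coefficients of the exponent of `et`. -/
private def btT1 : List (List ℤ) := [[2, -3, 0, -1, 1, 1, -1, 1], [3, 2, -4, 2, -3, -1, 4, 0],
  [-2, 4, 2, -2, 0, -1, 0, -1], [1, -4, 0, 2, -1, 1, -1, 1], [-1, 3, 0, -1, 2, -2, 0, -1],
  [-1, 1, 1, -1, 0, 2, -2, 0], [1, -4, 0, 1, 0, 0, 2, -1], [-1, 0, 1, -1, 1, 0, -1, 2]]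

private def bt1 (i j : ℕ) : ℤ := (btT1.getD i []).getD j 0

private theorem bt_eq1 : ∀ i j : Fin 8, be (al i) (al j) + be (W (al i)) (W (al j)) = bt1 i j := by
  decide +kernel

private theorem neg1 (n : ℤ) : ((n.negOnePow : ℤˣ) : ℤ) = if n % 2 = 0 then 1 else -1 := by
  rcases Int.even_or_odd n with h | h
  · rw [Int.negOnePow_even n h, if_pos (Int.even_iff.mp h)]
    rfl
  · rw [Int.negOnePow_odd n h, if_neg (by rw [Int.odd_iff.mp h]; decide)]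
    rfl

private theorem ek_zero1 : ∀ j : Fin 8, (1 : ℤ) = (ekT.getD 0 []).getD j 0 := by decide +kernel

private theorem ek_step1 : ∀ k : Fin 29, ∀ j : Fin 8, (ekT.getD k []).getD j 0 *
    (if (∑ i : Fin 8, ∑ l : Fin 8, if i < l then rc k j i * rc k j l * bt1 i l else 0) % 2 = 0 then 1
      else -1) = (ekT.getD (k + 1) []).getD j 0 := by decide +kernel

theorem etk_table {k : ℕ} (hk : k < 30) (j : Fin 8) : etk k j = (ekT.getD k []).getD j 0 := by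
  induction k with
  | zero => exact ek_zero1 j
  | succ k ih =>
    rw [etk_succ, ih (by omega), ← ek_step1 ⟨k, by omega⟩ j, et, neg1]
    have h1 : (∑ i : Fin 8, ∑ l : Fin 8, if i < l then (rt k j).1 i * (rt k j).1 l *
        (be (al i) (al l) + be (W (al i)) (W (al l))) else 0) =
        ∑ i : Fin 8, ∑ l : Fin 8, if i < l then rc k j i * rc k j l * bt1 i l else 0 := by
      refine Finset.sum_congr rfl fun i _ => Finset.sum_congr rfl fun l _ => ?_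
      rw [bt_eq1, rt_table (by omega), rt_table (by omega)]
    rw [h1]

end Pool.Agent.Helper64.E8C
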