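import Pool.Agent.Helper64.E8C.Rt
import Pool.Agent.Helper64.E8C.RtT

/-!
# Block E8C-TAB: the table of the pairs of roots whose sum is a simple root

Row `l` of `tab` has 56 entries `(i, k, j, k', c)`: `W ^ k α_i + W ^ k' α_j = α_l`, `c = 1` or `30` the sign `eps * etk * etk`.
* Numeric part (`decide +kernel` on integer vectors; iterate `W` on explicit lists to get a table of the 240 vectors `(rt k j).1`, and a table of the
  signs `etk k j`; keep it efficient: compute a table once as a literal, verify it by `W` row by row, then use it): for every entry the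
  vector equation holds and `c` is the sign; for every `l` the pairs `(i, k)` in row `l` are pairwise different.
* Completeness: if `a + b = α_l` then `(a, α_l) = 1` (norms). There are 56 roots `a = W ^ k α_i` with `(a, α_l) = 1` for every `l`; check numerically that
  all of them occur in row `l` (for `k < 30`, `i < 8`: if `ip = 1` then `(i, k)` occurs in row `l`).
* `tab_sum`: the double sum over `a, b` has at most one non-zero term `b = α_l - a` for every `a`.
-/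

set_option autoImplicit false

namespace Pool.Agent.Helper64.E8C

open Pool.Agent.Helper73.E8 Pool.Agent.Helper2.E8A NumberField Polynomial

/-- The entry `(i, k, j, k', c)` as roots. -/
def ea (e : ℕ × ℕ × ℕ × ℕ × ℕ) : Root := rt e.2.1 (Fin.ofNat 8 e.1)

/-- The second root of an entry. -/
def eb (e : ℕ × ℕ × ℕ × ℕ × ℕ) : Root := rt e.2.2.2.1 (Fin.ofNat 8 e.2.2.1)

/-! ### Numeric part -/

private def okA67 (l : ℕ) (e : ℕ × ℕ × ℕ × ℕ × ℕ) : Bool :=
  decide (e.1 < 8) && decide (e.2.1 < 30) && decide (e.2.2.1 < 8) && decide (e.2.2.2.1 < 30) &&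
    (List.range 8).all fun m => decide (rc e.2.1 e.1 m + rc e.2.2.2.1 e.2.2.1 m = if m = l then 1 else 0)

private def okS67 (e : ℕ × ℕ × ℕ × ℕ × ℕ) : Bool :=
  let t : ℤ := (if be (fun m => rc e.2.1 e.1 m) (fun m => rc e.2.2.2.1 e.2.2.1 m) % 2 = 0 then 1 else -1) *
      (ekT.getD e.2.1 []).getD e.1 0 * (ekT.getD e.2.2.2.1 []).getD e.2.2.1 0
  (decide (t = 1) && decide (e.2.2.2.2 = 1)) || (decide (t = -1) && decide (e.2.2.2.2 = 30))

private theorem numA67 : ∀ l : Fin 8, (tab.getD l []).all (okA67 l) = true := by decide +kernel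

private theorem numS67 : ∀ l : Fin 8, (tab.getD l []).all okS67 = true := by decide +kernel

private theorem numN67 : ∀ l : Fin 8, ((tab.getD l []).map fun e => 30 * e.1 + e.2.1).Nodup := by decide +kernel

private theorem numC67 : ∀ l : Fin 8, ∀ k : Fin 30, ∀ i : Fin 8,
    (∑ m : Fin 8, rc k i m * CartanMatrix.E₈ m l) = 1 → ((tab.getD l []).any fun e => e.1 == i && e.2.1 == k) = true := by
  decide +kernel

theorem lt67 (l : Fin 8) {e : ℕ × ℕ × ℕ × ℕ × ℕ} (he : e ∈ tab.getD l []) :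
    e.1 < 8 ∧ e.2.1 < 30 ∧ e.2.2.1 < 8 ∧ e.2.2.2.1 < 30 := by
  have h := List.all_eq_true.1 (numA67 l) e he
  simp only [okA67, Bool.and_eq_true, decide_eq_true_eq] at h
  exact ⟨h.1.1.1.1, h.1.1.1.2, h.1.1.2, h.1.2⟩

private theorem ea_val67 {e : ℕ × ℕ × ℕ × ℕ × ℕ} (h1 : e.1 < 8) (h2 : e.2.1 < 30) (m : Fin 8) :
    (ea e).1 m = rc e.2.1 e.1 m := by
  rw [ea, rt_table h2, Fin.val_ofNat, Nat.mod_eq_of_lt h1]

private theorem eb_val67 {e : ℕ × ℕ × ℕ × ℕ × ℕ} (h1 : e.2.2.1 < 8) (h2 : e.2.2.2.1 < 30) (m : Fin 8) :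
    (eb e).1 m = rc e.2.2.2.1 e.2.2.1 m := by
  rw [eb, rt_table h2, Fin.val_ofNat, Nat.mod_eq_of_lt h1]

theorem add_eq67 (l : Fin 8) {e : ℕ × ℕ × ℕ × ℕ × ℕ} (he : e ∈ tab.getD l []) :
    (ea e).1 + (eb e).1 = al l := by
  obtain ⟨h1, h2, h3, h4⟩ := lt67 l he
  have h := List.all_eq_true.1 (numA67 l) e he
  simp only [okA67, Bool.and_eq_true, decide_eq_true_eq] at h
  funext m
  have h5 := List.all_eq_true.1 h.2 m.1 (List.mem_range.2 m.2)
  rw [decide_eq_true_eq] at h5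
  rw [Pi.add_apply, ea_val67 h1 h2, eb_val67 h3 h4, h5, al, Pi.single_apply]
  simp only [Fin.ext_iff]

theorem sign67 (l : Fin 8) {e : ℕ × ℕ × ℕ × ℕ × ℕ} (he : e ∈ tab.getD l []) :
    ((if be (fun m => rc e.2.1 e.1 m) (fun m => rc e.2.2.2.1 e.2.2.1 m) % 2 = 0 then 1 else -1) *
      (ekT.getD e.2.1 []).getD e.1 0 * (ekT.getD e.2.2.2.1 []).getD e.2.2.1 0 = (1 : ℤ) ∧ e.2.2.2.2 = 1) ∨
    ((if be (fun m => rc e.2.1 e.1 m) (fun m => rc e.2.2.2.1 e.2.2.1 m) % 2 = 0 then 1 else -1) *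
      (ekT.getD e.2.1 []).getD e.1 0 * (ekT.getD e.2.2.2.1 []).getD e.2.2.1 0 = (-1 : ℤ) ∧ e.2.2.2.2 = 30) := by
  have h := List.all_eq_true.1 (numS67 l) e he
  simp only [okS67, Bool.or_eq_true, Bool.and_eq_true, decide_eq_true_eq] at h
  exact h

private theorem neg67 (n : ℤ) : ((n.negOnePow : ℤˣ) : ℤ) = if n % 2 = 0 then 1 else -1 := by
  rcases Int.even_or_odd n with h | h
  · rw [Int.negOnePow_even n h, if_pos (Int.even_iff.mp h)]
    rfl
  · rw [Int.negOnePow_odd n h, if_neg (by rw [Int.odd_iff.mp h]; decide)]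
    rfl

theorem nodup67 (l : Fin 8) : ((tab.getD l []).map ea).Nodup := by
  have h := numN67 l
  refine List.Nodup.map_on (fun x hx y hy hxy => ?_) h.of_map
  apply List.inj_on_of_nodup_map h hx hy
  obtain ⟨h1, h2, -, -⟩ := lt67 l hx
  obtain ⟨h1', h2', -, -⟩ := lt67 l hy
  obtain ⟨h3, h4⟩ := rt_inj h2 h2' hxy
  have h5 : x.1 = y.1 := by
    have h6 := congrArg Fin.val h4
    rwa [Fin.val_ofNat, Fin.val_ofNat, Nat.mod_eq_of_lt h1, Nat.mod_eq_of_lt h1'] at h6
  rw [h3, h5]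

theorem mem67 (l : Fin 8) {a b : Root} (h : a.1 + b.1 = al l) : a ∈ (tab.getD l []).map ea := by
  have h1 : ip a.1 b.1 = -1 := (add_root_iff a b).1 ⟨sr l, h.symm⟩
  have h2 : ip a.1 (al l) = 1 := by
    rw [← h, ip_add_right, a.2, h1]
    norm_num
  obtain ⟨k, hk, i, rfl⟩ := rt_surj a
  have h3 : (∑ m : Fin 8, rc k i m * CartanMatrix.E₈ m l) = 1 := by
    rw [← h2, ip]
    refine Finset.sum_congr rfl fun m _ => ?_
    rw [Finset.sum_eq_single l]
    · rw [rt_table hk, al, Pi.single_eq_same, mul_one]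
    · intro j _ hj
      rw [al, Pi.single_eq_of_ne hj, mul_zero]
    · intro h4
      exact absurd (Finset.mem_univ _) h4
  have h4 := numC67 l ⟨k, hk⟩ i h3
  obtain ⟨e, he, h5⟩ := List.any_eq_true.1 h4
  rw [Bool.and_eq_true, beq_iff_eq, beq_iff_eq] at h5
  refine List.mem_map.2 ⟨e, he, ?_⟩
  rw [ea, h5.1, h5.2]
  congr 1
  exact Fin.ofNat_val_eq_self i

theorem tab_sum (l : Fin 8) (f : Root → Root → F) :
    ∑ a : Root, ∑ b : Root, (if a.1 + b.1 = al l then ((eps a.1 b.1 : ℤ) : F) * f a b else 0) =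
      ((tab.getD l []).map fun e => ((eps (ea e).1 (eb e).1 : ℤ) : F) * f (ea e) (eb e)).sum := by
  classical
  set T : Root → F := fun a => ∑ b : Root, (if a.1 + b.1 = al l then ((eps a.1 b.1 : ℤ) : F) * f a b else 0) with hT
  have h1 : ∀ e ∈ tab.getD l [], T (ea e) = ((eps (ea e).1 (eb e).1 : ℤ) : F) * f (ea e) (eb e) := by
    intro e he
    rw [hT]
    have h2 := add_eq67 l he
    change (∑ b : Root, (if (ea e).1 + b.1 = al l then ((eps (ea e).1 b.1 : ℤ) : F) * f (ea e) b else 0)) = _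
    rw [Finset.sum_eq_single (eb e)]
    · rw [if_pos h2]
    · intro b _ hb
      rw [if_neg]
      intro h3
      exact hb (root_ext (add_left_cancel (h3.trans h2.symm)))
    · intro h3
      exact absurd (Finset.mem_univ _) h3
  have h2 : ((tab.getD l []).map fun e => ((eps (ea e).1 (eb e).1 : ℤ) : F) * f (ea e) (eb e)) =
      ((tab.getD l []).map ea).map T := by
    rw [List.map_map]
    exact List.map_congr_left fun e he => (h1 e he).symm
  rw [h2, ← List.sum_toFinset T (nodup67 l)]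
  symm
  refine Finset.sum_subset (Finset.subset_univ _) fun a _ ha => ?_
  refine Finset.sum_eq_zero fun b _ => ?_
  rw [if_neg]
  intro hab
  apply ha
  rw [List.mem_toFinset]
  exact mem67 l hab

theorem tab_sign (l : Fin 8) {e : ℕ × ℕ × ℕ × ℕ × ℕ} (he : e ∈ tab.getD l []) :
    ((eps (ea e).1 (eb e).1 : ℤ) : F) * (etk e.2.1 (Fin.ofNat 8 e.1) : F) * (etk e.2.2.2.1 (Fin.ofNat 8 e.2.2.1) : F) =
      (e.2.2.2.2 : F) := by
  obtain ⟨h1, h2, h3, h4⟩ := lt67 l he
  have h5 := sign67 l he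
  have e1 : eps (ea e).1 (eb e).1 = (be (fun m => rc e.2.1 e.1 m) (fun m => rc e.2.2.2.1 e.2.2.1 m)).negOnePow := by
    rw [eps]
    congr 2
    · funext m
      exact ea_val67 h1 h2 m
    · funext m
      exact eb_val67 h3 h4 m
  rw [e1, neg67, etk_table h2, etk_table h4, Fin.val_ofNat, Fin.val_ofNat, Nat.mod_eq_of_lt h1, Nat.mod_eq_of_lt h3]
  have h6 : (((if be (fun m => rc e.2.1 e.1 m) (fun m => rc e.2.2.2.1 e.2.2.1 m) % 2 = 0 then 1 else -1) *
      (ekT.getD e.2.1 []).getD e.1 0 * (ekT.getD e.2.2.2.1 []).getD e.2.2.1 0 : ℤ) : F) = (e.2.2.2.2 : F) := by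
    rcases h5 with ⟨h5, h6⟩ | ⟨h5, h6⟩
    · rw [h5, h6, Int.cast_one, Nat.cast_one]
    · rw [h5, h6]
      decide
  rw [← h6]
  push_cast
  ring

theorem tab_lt (l : Fin 8) {e : ℕ × ℕ × ℕ × ℕ × ℕ} (he : e ∈ tab.getD l []) : e.1 < 8 ∧ e.2.2.1 < 8 := by
  exact ⟨(lt67 l he).1, (lt67 l he).2.2.1⟩

end Pool.Agent.Helper64.E8C
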