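import Pool.Agent.Helper64.E8C.Defs

/-!
# Block E8C-ET: the signs `et` lift `W`

* `et_lift`: this is the formula of the proof of `exists_lift` (Pool/Agent/Helper73/E8/Lift.lean, by helper80: `exists_lift W W_isom`
  gives `η` with the same formula; compare: `IsLift` determines `η`, see `lift_unique`, but the point here is that the explicit
  `et` is a lift: either repeat the computation of Lift.lean, or note that `et` and the `η` of `exists_lift` are both
  given by the same formula). Modulo 2: `∑_{i<j} (x_i + y_i)(x_j + y_j) b_ij - ∑ x_i x_j b_ij - ∑ y_i y_j b_ij =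
  ∑_{i<j} (x_i y_j + x_j y_i) b_ij ≡ b(x, y)` as `b_ij ≡ b_ji`, `b_ii ≡ 0`, `b x y = be x y + be (W x) (W y)`.
* `lift_unique`: `η / η'` is a homomorphism `Lat → ℤˣ` by `add`, trivial on the simple roots by `al` (`lat_hom_ext` for
  additive groups, or `hom_unique` of HomExt.lean).
* `etk_fifteen`: `lift_W_fifteen` for the root `rt k j` (`(rt k j).1 = W^[k] (al j)`).
-/

set_option autoImplicit false

namespace Pool.Agent.Helper64.E8C

open Pool.Agent.Helper73.E8 Pool.Agent.Helper2.E8A NumberField Polynomial

private theorem et65_split (f : Fin 8 → Fin 8 → ℤ) :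
    ∑ i, ∑ j, f i j = ∑ i, ∑ j, (if i < j then f i j + f j i else 0) + ∑ i, f i i := by
  have h1 : ∀ i j : Fin 8, f i j = (if i < j then f i j else 0) + (if j < i then f i j else 0) +
      (if i = j then f i j else 0) := by
    intro i j
    rcases lt_trichotomy i j with h | h | h
    · rw [if_pos h, if_neg (lt_asymm h), if_neg h.ne]
      ring
    · subst h
      rw [if_neg (lt_irrefl _), if_pos rfl]
      ring
    · rw [if_neg (lt_asymm h), if_pos h, if_neg h.ne']
      ring
  have h2 : ∑ i, ∑ j, (if j < i then f i j else 0) = ∑ i, ∑ j, (if i < j then f j i else 0) :=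
    Finset.sum_comm
  have h3 : ∀ i : Fin 8, ∑ j, (if i = j then f i j else 0) = f i i := by
    intro i
    rw [Finset.sum_ite_eq, if_pos (Finset.mem_univ _)]
  have h4 : ∀ i j : Fin 8, (if i < j then f i j + f j i else 0) = (if i < j then f i j else 0) +
      (if i < j then f j i else 0) := by
    intro i j
    split_ifs <;> ring
  calc ∑ i, ∑ j, f i j = ∑ i, ∑ j, ((if i < j then f i j else 0) + (if j < i then f i j else 0) +
      (if i = j then f i j else 0)) := Finset.sum_congr rfl fun i _ => Finset.sum_congr rfl fun j _ => h1 i j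
    _ = _ := by
      simp only [Finset.sum_add_distrib, h3, h4, h2]

/-- The bilinear exponent. -/
private def et65_b (w : Helper73.E8.Lat ≃+ Helper73.E8.Lat) (x y : Helper73.E8.Lat) : ℤ := be x y + be (w x) (w y)

private theorem et65_b_add_left (w : Helper73.E8.Lat ≃+ Helper73.E8.Lat) (x y z : Helper73.E8.Lat) :
    et65_b w (x + y) z = et65_b w x z + et65_b w y z := by
  unfold et65_b
  rw [map_add, be_add_left, be_add_left]
  ring

private theorem et65_b_add_right (w : Helper73.E8.Lat ≃+ Helper73.E8.Lat) (x y z : Helper73.E8.Lat) :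
    et65_b w x (y + z) = et65_b w x y + et65_b w x z := by
  unfold et65_b
  rw [map_add, be_add_right, be_add_right]
  ring

private theorem et65_expand_left (w : Helper73.E8.Lat ≃+ Helper73.E8.Lat) (x z : Helper73.E8.Lat) :
    et65_b w x z = ∑ i, x i * et65_b w (al i) z := by
  let f : Helper73.E8.Lat →+ ℤ := AddMonoidHom.mk' (fun x => et65_b w x z) (fun a b => et65_b_add_left w a b z)
  let g : Helper73.E8.Lat →+ ℤ := AddMonoidHom.mk' (fun x => ∑ i, x i * et65_b w (al i) z) (fun a b => by
    simp only [Pi.add_apply, add_mul, Finset.sum_add_distrib])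
  have h : f = g := lat_hom_ext _ _ fun i => by
    change et65_b w (al i) z = ∑ k, (al i) k * et65_b w (al k) z
    rw [Finset.sum_eq_single i]
    · simp [al]
    · intro k _ hk
      simp [al, hk]
    · intro hi
      exact absurd (Finset.mem_univ _) hi
  exact DFunLike.congr_fun h x

private theorem et65_expand_right (w : Helper73.E8.Lat ≃+ Helper73.E8.Lat) (x z : Helper73.E8.Lat) :
    et65_b w x z = ∑ i, z i * et65_b w x (al i) := by
  let f : Helper73.E8.Lat →+ ℤ := AddMonoidHom.mk' (fun z => et65_b w x z) (fun a b => et65_b_add_right w x a b)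
  let g : Helper73.E8.Lat →+ ℤ := AddMonoidHom.mk' (fun z => ∑ i, z i * et65_b w x (al i)) (fun a b => by
    simp only [Pi.add_apply, add_mul, Finset.sum_add_distrib])
  have h : f = g := lat_hom_ext _ _ fun i => by
    change et65_b w x (al i) = ∑ k, (al i) k * et65_b w x (al k)
    rw [Finset.sum_eq_single i]
    · simp [al]
    · intro k _ hk
      simp [al, hk]
    · intro hi
      exact absurd (Finset.mem_univ _) hi
  exact DFunLike.congr_fun h z

private theorem et65_b_symm (w : Helper73.E8.Lat ≃+ Helper73.E8.Lat) (hw : IsIsom w) (x y : Helper73.E8.Lat) :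
    et65_b w x y + et65_b w y x = 2 * ip x y := by
  unfold et65_b
  have h1 := be_add_be x y
  have h2 := be_add_be (w x) (w y)
  rw [hw] at h2
  linarith

/-- The quadratic exponent. -/
private def et65_Q (w : Helper73.E8.Lat ≃+ Helper73.E8.Lat) (x : Helper73.E8.Lat) : ℤ :=
  ∑ i, ∑ j, if i < j then x i * x j * et65_b w (al i) (al j) else 0

private theorem et65_Q_add (w : Helper73.E8.Lat ≃+ Helper73.E8.Lat) (hw : IsIsom w) (x y : Helper73.E8.Lat) :
    ∃ k : ℤ, et65_Q w (x + y) = et65_Q w x + et65_Q w y + et65_b w x y + 2 * k := by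
  have e1 : et65_b w x y = ∑ i, ∑ j, x i * y j * et65_b w (al i) (al j) := by
    rw [et65_expand_left]
    refine Finset.sum_congr rfl fun i _ => ?_
    rw [et65_expand_right, Finset.mul_sum]
    exact Finset.sum_congr rfl fun j _ => by ring
  rw [et65_split] at e1
  have hd : ∀ i, et65_b w (al i) (al i) = ip (al i) (al i) := by
    intro i
    have := et65_b_symm w hw (al i) (al i)
    linarith
  have e2 : ∀ i, et65_b w (al i) (al i) = 2 * be (al i) (al i) := by
    intro i
    rw [hd, two_be_self]
  have e3 : ∀ i j, et65_b w (al j) (al i) = 2 * ip (al i) (al j) - et65_b w (al i) (al j) := by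
    intro i j
    have := et65_b_symm w hw (al i) (al j)
    linarith
  refine ⟨∑ i, ∑ j, (if i < j then x j * y i * (et65_b w (al i) (al j) - ip (al i) (al j)) else 0) -
    ∑ i, x i * y i * be (al i) (al i), ?_⟩
  rw [e1]
  unfold et65_Q
  simp only [Finset.mul_sum, mul_sub, Pi.add_apply]
  have e4 : ∀ i, 2 * (x i * y i * be (al i) (al i)) = x i * y i * et65_b w (al i) (al i) := by
    intro i
    rw [e2]
    ring
  simp only [e4]
  have e5 : ∀ i j : Fin 8, (if i < j then (x i + y i) * (x j + y j) * et65_b w (al i) (al j) else 0) =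
      (if i < j then x i * x j * et65_b w (al i) (al j) else 0) +
      (if i < j then y i * y j * et65_b w (al i) (al j) else 0) +
      (if i < j then x i * y j * et65_b w (al i) (al j) + x j * y i * et65_b w (al j) (al i) else 0) +
      2 * (if i < j then x j * y i * et65_b w (al i) (al j) - x j * y i * ip (al i) (al j) else 0) := by
    intro i j
    by_cases h : i < j
    · simp only [if_pos h]
      rw [e3 i j]
      ring
    · simp only [if_neg h]
      ring
  simp only [e5, Finset.sum_add_distrib]
  ring


private theorem et65_lift (w : Helper73.E8.Lat ≃+ Helper73.E8.Lat) (hw : IsIsom w) :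
    IsLift w (fun x => (et65_Q w x).negOnePow) := by
  refine ⟨?_, ?_, ?_⟩
  · intro x y
    obtain ⟨k, hk⟩ := et65_Q_add w hw x y
    change (et65_Q w (x + y)).negOnePow = (et65_Q w x).negOnePow * (et65_Q w y).negOnePow *
      ((be x y).negOnePow * (be (w x) (w y)).negOnePow)
    rw [hk, Int.negOnePow_add, Int.negOnePow_add, Int.negOnePow_add, Int.negOnePow_two_mul, mul_one]
    unfold et65_b
    rw [Int.negOnePow_add]
  · intro x
    have h : et65_Q w (-x) = et65_Q w x := by
      unfold et65_Q
      refine Finset.sum_congr rfl fun i _ => Finset.sum_congr rfl fun j _ => ?_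
      simp only [Pi.neg_apply, neg_mul_neg]
    rw [h]
  · intro i
    have h : et65_Q w (al i) = 0 := by
      unfold et65_Q
      refine Finset.sum_eq_zero fun k _ => Finset.sum_eq_zero fun j _ => ?_
      by_cases h : k < j
      · rw [if_pos h]
        by_cases hk : k = i
        · have hj : j ≠ i := by
            rw [← hk]
            exact h.ne'
          simp [al, hj]
        · simp [al, hk]
      · rw [if_neg h]
    rw [h, Int.negOnePow_zero]

theorem et_lift : IsLift W et := et65_lift W W_isom

theorem lift_unique {η : Helper73.E8.Lat → ℤˣ} (h : IsLift W η) : η = et := by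
  let q : Helper73.E8.Lat →+ Additive ℤˣ :=
    AddMonoidHom.mk' (fun x => Additive.ofMul (η x * et x)) fun x y => by
      rw [h.add, et_lift.add, ← ofMul_mul]
      congr 1
      have h1 := Int.units_mul_self (eps x y * eps (W x) (W y))
      calc η x * η y * (eps x y * eps (W x) (W y)) * (et x * et y * (eps x y * eps (W x) (W y)))
          = η x * et x * (η y * et y) *
            ((eps x y * eps (W x) (W y)) * (eps x y * eps (W x) (W y))) := by
            ac_rfl
        _ = η x * et x * (η y * et y) := by rw [h1, mul_one]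
  have h0 : q = 0 := lat_hom_ext _ _ fun i => by
    change Additive.ofMul (η (al i) * et (al i)) = 0
    rw [h.al, et_lift.al, one_mul, ofMul_one]
  funext x
  have h1 : Additive.ofMul (η x * et x) = 0 := DFunLike.congr_fun h0 x
  have h2 : η x * et x = 1 := h1
  calc η x = η x * (et x * et x) := by rw [Int.units_mul_self, mul_one]
    _ = et x := by rw [← mul_assoc, h2, one_mul]

theorem rt_val (k : ℕ) (j : Fin 8) : (rt k j).1 = W^[k] (al j) := by
  induction k with
  | zero => rfl
  | succ k ih =>
    unfold rt at ih ⊢
    rw [Function.iterate_succ_apply', Function.iterate_succ_apply', ← ih]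
    rfl

theorem etk_succ (k : ℕ) (j : Fin 8) : etk (k + 1) j = etk k j * ((et (rt k j).1 : ℤˣ) : ℤ) := by
  unfold etk
  rw [Finset.prod_range_succ]

theorem etk_sq (k : ℕ) (j : Fin 8) : etk k j * etk k j = 1 := by
  unfold etk
  rw [← Units.coe_prod, ← Units.val_mul, Int.units_mul_self, Units.val_one]

theorem etk_fifteen (k : ℕ) (j : Fin 8) : etk (k + 15) j = etk k j := by
  have h1 := lift_W_fifteen et et_lift (rt k j)
  unfold etk
  rw [Finset.prod_range_add]
  have h2 : ∏ x ∈ Finset.range 15, ((et (rt (k + x) j).1 : ℤˣ) : ℤ) = 1 := by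
    rw [← Units.coe_prod]
    have h3 : ∏ x ∈ Finset.range 15, et (rt (k + x) j).1 =
        ∏ x ∈ Finset.range 15, et (W^[x] (rt k j).1) := by
      refine Finset.prod_congr rfl fun x _ => ?_
      rw [rt_val, rt_val, add_comm k x, Function.iterate_add_apply]
    rw [h3, h1, Units.val_one]
  rw [h2, mul_one]

theorem etk_thirty (k : ℕ) (j : Fin 8) : etk (k + 30) j = etk k j := by
  rw [show k + 30 = k + 15 + 15 from rfl, etk_fifteen, etk_fifteen]

end Pool.Agent.Helper64.E8C
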