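import Pool.Agent.Helper64.E8C.CmA
import Pool.Agent.Helper64.E8C.Et

/-!
# Block E8C-CM: change of rings, the automorphism `n`, the condition `Fx`

Everything is formal. `cm_lie`, `cm_bf`: the bracket and the form are polynomials with integer coefficients (`brk_h`, `brk_x`, `map_sum`,
`map_intCast`). `nn_lie`: `n` is an automorphism of the Lie algebra: compare coefficients: with `a, b` replaced by `W a, W b`:
`eps (W a) (W b) et(a) et(b) = et(a + b) eps a b` (`et_lift.add`), `pr (n h) (W a) = pr h a` (`W_isom`), `et (-a) = et a`, and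
`(Σ_a a_i c_a)` goes to `Σ_a (W a)_i c_a`. `nn_bf`: `W_isom`, `et(a) et(-a) = 1`.
`Fx_lie`: `y = nn (cm s y)`, `z = nn (cm s z)` give `⁅y, z⁆ = nn (cm s ⁅y, z⁆)` for a ring homomorphism `s`.
`Ev_lie`: `Ev v s` says `s = 3 ^ v • nn s`. `Ev_bf`: `bf s t = 3 ^ (a + b) bf s t` and `3 ^ (a + b) ≠ 1`.
-/

set_option autoImplicit false

namespace Pool.Agent.Helper64.E8C

open Pool.Agent.Helper73.E8 Pool.Agent.Helper2.E8A NumberField Polynomial

variable {R S : Type*} [CommRing R] [CommRing S]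

theorem Fx_iff (s : R → R) (y : Chev R) : Fx s y ↔ nn (cm s y) = y := by
  constructor
  · rintro ⟨h1, h2⟩
    apply Chev.ext
    · funext j
      exact (h1 j).symm
    · funext a
      have h3 := h2 (rW.symm a)
      rw [Equiv.apply_symm_apply] at h3
      exact h3.symm
  · intro h
    constructor
    · intro j
      have h1 := congrArg (fun z : Chev R => z.h j) h
      exact h1.symm
    · intro a
      have h1 : (nn (cm s y)).x (rW a) = y.x (rW a) := by rw [h]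
      have h2 : (nn (cm s y)).x (rW a) = ((et (rW.symm (rW a)).1 : ℤ) : R) * s (y.x (rW.symm (rW a))) := rfl
      rw [Equiv.symm_apply_apply] at h2
      rw [← h1, h2]

theorem Fx_zero (s : R →+* R) : Fx s (0 : Chev R) := by
  rw [Fx_iff]
  have h1 : cm s (0 : Chev R) = (0 : R) • (0 : Chev R) := by rw [cm_zero, zero_smul]
  rw [h1, nn_smul, zero_smul]

theorem Fx_add (s : R →+* R) {y z : Chev R} (hy : Fx s y) (hz : Fx s z) : Fx s (y + z) := by
  rw [Fx_iff] at hy hz ⊢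
  rw [cm_add, nn_add, hy, hz]

theorem Fx_smul (s : R →+* R) {c : R} (hc : s c = c) {y : Chev R} (hy : Fx s y) : Fx s (c • y) := by
  rw [Fx_iff] at hy ⊢
  rw [cm_smul, nn_smul, hy, hc]

theorem Fx_neg (s : R →+* R) {y : Chev R} (hy : Fx s y) : Fx s (-y) := by
  have h1 := Fx_smul s (c := (-1 : R)) (by rw [map_neg, map_one]) hy
  rwa [neg_one_smul] at h1

theorem Fx_lie (s : R →+* R) {y z : Chev R} (hy : Fx s y) (hz : Fx s z) : Fx s ⁅y, z⁆ := by
  rw [Fx_iff] at hy hz ⊢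
  rw [cm_lie, nn_lie, hy, hz]

omit [CommRing R] [CommRing S] in
theorem cm_cm {T : Type*} (f : R → S) (g : S → T) (y : Chev R) : cm g (cm f y) = cm (fun t => g (f t)) y := rfl

theorem Fx_cm {f : R →+* S} {s : R →+* R} {s' : S →+* S} (h : ∀ x, f (s x) = s' (f x)) {y : Chev R} (hy : Fx s y) :
    Fx s' (cm f y) := by
  rw [Fx_iff] at hy ⊢
  have h1 : cm s' (cm f y) = cm f (cm s y) := by
    rw [cm_cm, cm_cm]
    congr 1
    funext t
    exact (h t).symm
  rw [h1, ← cm_nn, hy]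

/-- The form is invariant. -/
theorem Fx_bf (s : R →+* R) {y z : Chev R} (hy : Fx s y) (hz : Fx s z) : s (Chev.bf y z) = Chev.bf y z := by
  rw [Fx_iff] at hy hz
  rw [← cm_bf, ← nn_bf, hy, hz]

theorem Ev_iff (v : ℕ) (s : Chev F) : Ev v s ↔ (3 : F) ^ v • nn s = s := by
  have h1 : cm (fun t : F => 3 ^ v * t) s = (3 : F) ^ v • s := rfl
  unfold Ev
  rw [Fx_iff, h1, nn_smul]

theorem Ev_add {v : ℕ} {s t : Chev F} (hs : Ev v s) (ht : Ev v t) : Ev v (s + t) := by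
  rw [Ev_iff] at hs ht ⊢
  rw [nn_add, smul_add, hs, ht]

theorem Ev_smul {v : ℕ} {s : Chev F} (hs : Ev v s) (c : F) : Ev v (c • s) := by
  rw [Ev_iff] at hs ⊢
  rw [nn_smul, smul_comm, hs]

theorem Ev_lie {v w : ℕ} {s t : Chev F} (hs : Ev v s) (ht : Ev w t) : Ev (v + w) ⁅s, t⁆ := by
  rw [Ev_iff] at hs ht ⊢
  calc (3 : F) ^ (v + w) • nn ⁅s, t⁆ = ⁅(3 : F) ^ v • nn s, (3 : F) ^ w • nn t⁆ := by
        rw [smul_lie, lie_smul, smul_smul, nn_lie, pow_add]
    _ = ⁅s, t⁆ := by rw [hs, ht]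

theorem three_pow_mod (n : ℕ) : (3 : F) ^ n = 3 ^ (n % 30) := by
  have h30 : (3 : F) ^ 30 = 1 := by decide
  conv_lhs => rw [← Nat.div_add_mod n 30, pow_add, pow_mul, h30, one_pow, one_mul]

theorem three_pow_ne {n : ℕ} (h : ¬ 30 ∣ n) : (3 : F) ^ n ≠ 1 := by
  rw [three_pow_mod]
  have h1 : n % 30 ≠ 0 := fun h2 => h (Nat.dvd_of_mod_eq_zero h2)
  have h2 : n % 30 < 30 := Nat.mod_lt _ (by norm_num)
  obtain ⟨r, hr⟩ : ∃ r, r = n % 30 := ⟨_, rfl⟩
  rw [← hr] at h1 h2 ⊢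
  clear hr
  revert h1
  have key : ∀ r : Fin 30, (r : ℕ) ≠ 0 → (3 : F) ^ (r : ℕ) ≠ 1 := by decide
  exact key ⟨r, h2⟩

theorem Ev_bf {v w : ℕ} {s t : Chev F} (hs : Ev v s) (ht : Ev w t) (h : ¬ 30 ∣ v + w) : Chev.bf s t = 0 := by
  rw [Ev_iff] at hs ht
  have h1 : Chev.bf s t = 3 ^ (v + w) * Chev.bf s t := by
    calc Chev.bf s t = Chev.bf ((3 : F) ^ v • nn s) ((3 : F) ^ w • nn t) := by rw [hs, ht]
      _ = 3 ^ (v + w) * Chev.bf s t := by
        rw [Chev.bf_smul_left, Chev.bf_smul_right, nn_bf, pow_add, mul_assoc]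
  by_contra h0
  apply three_pow_ne h
  apply mul_right_cancel₀ h0
  rw [one_mul, ← h1]

theorem Ev_mod {v w : ℕ} (h : v % 30 = w % 30) {s : Chev F} (hs : Ev v s) : Ev w s := by
  rw [Ev_iff] at hs ⊢
  rw [three_pow_mod, ← h, ← three_pow_mod, hs]

theorem Ev_cm (v : ℕ) {s : Chev F} (hs : Ev v s) : Ev v (cm (fun t : F => t) s) := hs

end Pool.Agent.Helper64.E8C
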