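import Pool.Agent.Helper64.E8C.Et

/-!
# Block E8C-RT: the roots are the `W ^ k α_j`

* `rt_ht`: `ht_W`, induction. `rt_fifteen`: `W_fifteen` applied to `W^[k] (al j)` (`W^[k + 15] x = W^[15] (W^[k] x)`).
* `rt_inj`: heights modulo 31: `3 ^ k = 3 ^ k'` in `ZMod 31` with `k, k' < 30` gives `k = k'` (`decide`), then `W` is injective.
* `rt_surj`: let `a` be a root. `ht a ≠ 0`, `|ht a| ≤ 29` (Roots.lean: `ht_root_ne_zero`, `abs_ht_root_le`), so
  `ht a = 3 ^ k` modulo 31 for some `k < 30` (`decide`). The root `b = rW^[30 - k] a` has `ht b ≡ 1` modulo 31, so `ht b = 1`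
  and `b = sr j` (`root_of_ht_one`), and `a = rW^[30] a = rW^[k] b`.
* `sum_rt`: `Finset.sum_bij` or `Fintype.sum_equiv` with the bijection `Fin 30 × Fin 8 ≃ Root` given by `rt`.
* `toE_x`: for `k < 30` only one term of the double sum in the definition of `toE` is not zero (`rt_inj`); both sides are periodic in
  `k` with period 30 (`rt_thirty`, `etk_thirty`, `3 ^ 30 = 1` in `F`).
-/

set_option autoImplicit false

namespace Pool.Agent.Helper64.E8C

open Pool.Agent.Helper73.E8 Pool.Agent.Helper2.E8A NumberField Polynomial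

private theorem ht_al44 (j : Fin 8) : ht (al j) = 1 := by
  unfold ht al
  rw [Finset.sum_eq_single j]
  · rw [Pi.single_eq_same]
  · intro i _ hi
    rw [Pi.single_eq_of_ne hi]
  · intro h
    exact absurd (Finset.mem_univ _) h

private theorem ht_iter44 (k : ℕ) (a : Root) : ((ht (rW^[k] a).1 : ℤ) : F) = 3 ^ k * (ht a.1 : ℤ) := by
  induction k with
  | zero => rw [pow_zero, one_mul]; rfl
  | succ k ih =>
    rw [Function.iterate_succ_apply']
    have h1 : ((ht (rW (rW^[k] a)).1 : ℤ) : F) = 3 * (ht (rW^[k] a).1 : ℤ) := ht_W _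
    rw [h1, ih, pow_succ]
    ring

theorem rt_ht (k : ℕ) (j : Fin 8) : ((ht (rt k j).1 : ℤ) : F) = 3 ^ k := by
  unfold rt
  rw [ht_iter44]
  have h1 : ht (sr j).1 = 1 := ht_al44 j
  rw [h1, Int.cast_one, mul_one]

theorem rt_succ (k : ℕ) (j : Fin 8) : rt (k + 1) j = rW (rt k j) := by
  unfold rt
  rw [Function.iterate_succ_apply']

theorem rt_fifteen (k : ℕ) (j : Fin 8) : rt (k + 15) j = -rt k j := by
  apply Subtype.ext
  rw [rt_val, add_comm, Function.iterate_add_apply, W_fifteen, ← rt_val]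
  rfl

theorem rt_thirty (k : ℕ) (j : Fin 8) : rt (k + 30) j = rt k j := by
  rw [show k + 30 = k + 15 + 15 from rfl, rt_fifteen, rt_fifteen, neg_neg]

private theorem pow_inj44 : ∀ k < 30, ∀ k' < 30, (3 : ZMod 31) ^ k = 3 ^ k' → k = k' := by
  decide +kernel

private theorem pow_surj44 : ∀ x : ZMod 31, x ≠ 0 → ∃ k < 30, x = 3 ^ k := by
  decide +kernel

theorem rt_inj {k k' : ℕ} {j j' : Fin 8} (hk : k < 30) (hk' : k' < 30) (h : rt k j = rt k' j') : k = k' ∧ j = j' := by
  have h1 : (3 : F) ^ k = 3 ^ k' := by rw [← rt_ht k j, ← rt_ht k' j', h]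
  have h2 := pow_inj44 k hk k' hk' h1
  subst h2
  refine ⟨rfl, ?_⟩
  have h3 : sr j = sr j' := (rW.injective.iterate k) h
  have h4 : al j = al j' := congrArg Subtype.val h3
  by_contra hne
  have h5 := congrFun h4 j
  unfold al at h5
  rw [Pi.single_eq_same, Pi.single_eq_of_ne hne] at h5
  exact one_ne_zero h5

private theorem rW_thirty44 (a : Root) : rW^[30] a = a := by
  apply Subtype.ext
  have h : ∀ k : ℕ, (rW^[k] a).1 = W^[k] a.1 := by
    intro k
    induction k with
    | zero => rfl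
    | succ k ih =>
      rw [Function.iterate_succ_apply', Function.iterate_succ_apply', ← ih]
      rfl
  rw [h, show (30 : ℕ) = 15 + 15 from rfl, Function.iterate_add_apply, W_fifteen, W_fifteen, neg_neg]

theorem rt_surj (a : Root) : ∃ k < 30, ∃ j, rt k j = a := by
  have h0 := ht_root_ne_zero a
  have h29 := abs_le.mp (abs_ht_root_le a)
  have h1 : ((ht a.1 : ℤ) : ZMod 31) ≠ 0 := by
    intro h
    rw [ZMod.intCast_zmod_eq_zero_iff_dvd] at h
    omega
  obtain ⟨k, hk, hk2⟩ := pow_surj44 _ h1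
  obtain ⟨b, hb⟩ : ∃ b, b = rW^[30 - k] a := ⟨_, rfl⟩
  have hb1 : ((ht b.1 : ℤ) : ZMod 31) = ((1 : ℤ) : ZMod 31) := by
    rw [hb]
    have h2 := ht_iter44 (30 - k) a
    have h3 : (3 : ZMod 31) ^ (30 - k) * 3 ^ k = 1 := by
      rw [← pow_add, Nat.sub_add_cancel hk.le]
      decide +kernel
    rw [hk2, h3] at h2
    rw [Int.cast_one]
    exact h2
  have hb2 : ht b.1 = 1 := by
    rw [ZMod.intCast_eq_intCast_iff_dvd_sub] at hb1
    have h2 := abs_le.mp (abs_ht_root_le b)
    omega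
  obtain ⟨j, hj⟩ := root_of_ht_one b hb2
  refine ⟨k, hk, j, ?_⟩
  unfold rt
  rw [← hj, hb, ← Function.iterate_add_apply, Nat.add_sub_cancel' hk.le, rW_thirty44]

theorem sum_rt {M : Type*} [AddCommMonoid M] (f : Root → M) :
    ∑ a, f a = ∑ k ∈ Finset.range 30, ∑ j : Fin 8, f (rt k j) := by
  rw [← Finset.sum_product' (Finset.range 30) Finset.univ (fun k j => f (rt k j))]
  symm
  refine Finset.sum_bij (fun p _ => rt p.1 p.2) ?_ ?_ ?_ ?_
  · intro p _
    exact Finset.mem_univ _
  · intro p hp q hq h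
    rw [Finset.mem_product, Finset.mem_range] at hp hq
    have h1 := rt_inj hp.1 hq.1 h
    exact Prod.ext h1.1 h1.2
  · intro a _
    obtain ⟨k, hk, j, h⟩ := rt_surj a
    exact ⟨(k, j), Finset.mem_product.mpr ⟨Finset.mem_range.mpr hk, Finset.mem_univ _⟩, h⟩
  · intro p _
    rfl

private theorem toE_x_lt44 (v : ℕ) (s : List ℕ) (k : ℕ) (hk : k < 30) (j : Fin 8) :
    (toE v s).x (rt k j) = (etk k j : F) * 3 ^ (v * k) * (s.getD j 0 : F) := by
  change (∑ k' ∈ Finset.range 30, ∑ j' : Fin 8, if rt k' j' = rt k j then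
    (etk k' j' : F) * 3 ^ (v * k') * (s.getD j' 0 : F) else 0) = _
  rw [Finset.sum_eq_single k]
  · rw [Finset.sum_eq_single j]
    · rw [if_pos rfl]
    · intro j' _ hj'
      rw [if_neg]
      intro h
      exact hj' (rt_inj hk hk h).2
    · intro h
      exact absurd (Finset.mem_univ _) h
  · intro k' hk' hne
    refine Finset.sum_eq_zero fun j' _ => ?_
    rw [if_neg]
    intro h
    exact hne (rt_inj (Finset.mem_range.mp hk') hk h).1
  · intro h
    exact absurd (Finset.mem_range.mpr hk) h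

theorem toE_x (v : ℕ) (s : List ℕ) (k : ℕ) (j : Fin 8) :
    (toE v s).x (rt k j) = (etk k j : F) * 3 ^ (v * k) * (s.getD j 0 : F) := by
  have h1 : Function.Periodic (fun k => rt k j) 30 := fun k => rt_thirty k j
  have h2 : Function.Periodic (fun k => etk k j) 30 := fun k => etk_thirty k j
  have h3 : Function.Periodic (fun k => (3 : F) ^ (v * k)) 30 := by
    intro k
    have h4 : (3 : F) ^ 30 = 1 := by decide +kernel
    change (3 : F) ^ (v * (k + 30)) = 3 ^ (v * k)
    rw [mul_add, pow_add, mul_comm v 30, pow_mul 3 30 v, h4, one_pow, mul_one]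
  have e1 := h1.map_mod_nat k
  have e2 := h2.map_mod_nat k
  have e3 := h3.map_mod_nat k
  rw [← e1, ← e2, ← e3]
  exact toE_x_lt44 v s (k % 30) (Nat.mod_lt _ (by norm_num)) j

end Pool.Agent.Helper64.E8C
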