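import Pool.Agent.Helper64.E8C.VecA
import Pool.Agent.Helper64.E8C.Rt
import Pool.Agent.Helper64.E8C.Cm

/-!
# Block E8C-VEC: the coordinates of the elements of `E_v`

* `toE_Ev`: root part: `toE_x` and `etk_succ`, `rt_succ`. Cartan part: `3 ^ v ∑_i vm_i Wmat i j = vm_j` for the row `v % 30` of `vmT` (`decide`; `3 ^ v` depends only
  on `v % 30`).
* `exists_toE`: root part: coordinates `s.x (sr j)` (`.val` of the elements of `ZMod 31`), and `s.x (rt k j)` follows by induction on `k`.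
  Cartan part: `M h = 0` for `(M h)_j = 3 ^ v ∑_i h_i Wmat i j - h_j`; the table `cZ` satisfies `Z_v M_v = 1 - vm v ⊗ cP v` modulo 31 (`decide +kernel` over
  `v < 30`, `i, j < 8`; `num_cart` below), so `h = (∑_i cP_i h_i) • vm v`.
* `Ev_ext`: an element of `E_v` is determined by its values at the simple roots and its Cartan part.
* `Ev_cart_zero`: row 0 of `vmT` is zero.
-/

set_option autoImplicit false

namespace Pool.Agent.Helper64.E8C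

open Pool.Agent.Helper73.E8 Pool.Agent.Helper2.E8A NumberField Polynomial

/-- Functionals on the eigenspaces of `W`. -/
def cP : List (List ℕ) := [[0, 0, 0, 0, 0, 0, 0, 0], [17, 18, 19, 21, 16, 10, 12, 13], [0, 0, 0, 0, 0, 0, 0, 0], [0,
  0, 0, 0, 0, 0, 0, 0], [0, 0, 0, 0, 0, 0, 0, 0], [0, 0, 0, 0, 0, 0, 0, 0], [0, 0, 0, 0, 0, 0, 0, 0], [16, 24, 14, 23,
  2, 27, 7, 12], [0, 0, 0, 0, 0, 0, 0, 0], [0, 0, 0, 0, 0, 0, 0, 0], [0, 0, 0, 0, 0, 0, 0, 0], [12, 8, 1, 3, 22, 26,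
  19, 28], [0, 0, 0, 0, 0, 0, 0, 0], [18, 13, 10, 11, 6, 7, 12, 28], [0, 0, 0, 0, 0, 0, 0, 0], [0, 0, 0, 0, 0, 0, 0,
  0], [0, 0, 0, 0, 0, 0, 0, 0], [18, 19, 11, 17, 20, 23, 24, 2], [0, 0, 0, 0, 0, 0, 0, 0], [12, 24, 27, 21, 7, 4, 14,
  9], [0, 0, 0, 0, 0, 0, 0, 0], [0, 0, 0, 0, 0, 0, 0, 0], [0, 0, 0, 0, 0, 0, 0, 0], [16, 1, 24, 11, 3, 10, 19, 15],
  [0, 0, 0, 0, 0, 0, 0, 0], [0, 0, 0, 0, 0, 0, 0, 0], [0, 0, 0, 0, 0, 0, 0, 0], [0, 0, 0, 0, 0, 0, 0, 0], [0, 0, 0, 0,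
  0, 0, 0, 0], [17, 17, 17, 17, 17, 17, 17, 17]]

/-- Certificate matrices: `Z_v (3 ^ v W - 1) = 1 - vm v ⊗ cP v`. -/
def cZ : List (List (List ℕ)) := [
  [[28, 0, 2, 0, 30, 30, 2, 1], [28, 1, 3, 30, 30, 30, 1, 1], [26, 3, 5, 29, 29, 30, 1, 1], [22, 3, 9, 28, 28, 28, 4,
  3], [23, 2, 8, 29, 28, 28, 4, 3], [24, 2, 7, 29, 29, 28, 3, 3], [24, 3, 8, 28, 29, 29, 1, 3], [27, 2, 5, 29, 30, 30,
  0, 1]],
  [[14, 27, 5, 9, 14, 21, 18, 0], [24, 12, 20, 9, 7, 20, 27, 0], [29, 16, 13, 9, 28, 15, 5, 0], [18, 5, 8, 13, 14, 20,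
  28, 0], [22, 2, 21, 21, 29, 16, 29, 0], [20, 14, 2, 21, 16, 0, 23, 0], [19, 0, 16, 21, 26, 29, 18, 0], [3, 25, 30,
  9, 1, 23, 24, 0]],
  [[13, 15, 25, 11, 7, 18, 21, 15], [30, 10, 4, 14, 29, 12, 26, 20], [29, 10, 16, 0, 2, 15, 14, 7], [30, 1, 14, 21, 27,
  7, 27, 0], [3, 1, 28, 12, 14, 26, 13, 21], [23, 4, 24, 16, 9, 12, 29, 7], [21, 21, 21, 12, 21, 21, 11, 21], [12, 6,
  29, 13, 21, 19, 20, 8]],
  [[14, 2, 2, 11, 16, 8, 12, 8], [6, 0, 26, 14, 2, 29, 12, 18], [28, 6, 1, 8, 7, 9, 13, 29], [4, 23, 13, 15, 27, 19, 12,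
  28], [16, 15, 5, 2, 0, 25, 21, 3], [4, 17, 24, 15, 14, 1, 20, 5], [5, 25, 21, 3, 8, 11, 19, 27], [4, 24, 20, 13, 7,
  10, 3, 25]],
  [[27, 28, 17, 13, 29, 28, 22, 5], [11, 4, 24, 1, 2, 9, 7, 17], [19, 16, 9, 0, 5, 27, 30, 18], [19, 15, 22, 18, 5, 9,
  18, 18], [30, 16, 13, 19, 30, 26, 7, 0], [26, 24, 30, 21, 6, 7, 24, 29], [1, 2, 8, 10, 20, 19, 17, 9], [27, 24, 6,
  16, 1, 4, 4, 2]],
  [[19, 13, 24, 14, 25, 19, 9, 26], [1, 22, 2, 19, 14, 4, 3, 11], [12, 16, 28, 6, 18, 17, 1, 19], [4, 6, 10, 13, 20, 22,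
  11, 2], [29, 29, 24, 29, 23, 29, 29, 23], [28, 2, 21, 10, 15, 19, 26, 18], [25, 19, 7, 16, 8, 2, 24, 0], [4, 15, 6,
  15, 30, 10, 19, 23]],
  [[7, 4, 24, 20, 10, 17, 13, 27], [2, 20, 28, 8, 19, 8, 20, 12], [15, 19, 21, 4, 20, 6, 13, 7], [14, 27, 19, 23, 28, 8,
  12, 4], [20, 17, 11, 25, 27, 19, 4, 16], [26, 21, 26, 5, 13, 3, 25, 22], [8, 29, 28, 30, 2, 15, 12, 30], [3, 20, 0,
  11, 7, 19, 27, 8]],
  [[11, 20, 22, 3, 1, 18, 7, 0], [8, 4, 22, 5, 18, 1, 6, 0], [27, 21, 2, 18, 9, 9, 16, 0], [23, 15, 26, 7, 11, 25, 2,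
  0], [24, 11, 7, 12, 16, 14, 27, 0], [23, 15, 27, 21, 26, 5, 6, 0], [3, 22, 27, 24, 5, 27, 19, 0], [30, 29, 19, 2,
  22, 18, 2, 0]],
  [[15, 6, 1, 7, 26, 5, 5, 29], [13, 20, 9, 4, 24, 30, 2, 27], [12, 24, 24, 23, 2, 19, 22, 19], [4, 23, 2, 3, 25, 28, 3,
  11], [2, 0, 1, 13, 9, 6, 12, 26], [23, 20, 5, 14, 3, 26, 12, 6], [14, 21, 10, 16, 25, 0, 13, 28], [20, 20, 20, 23,
  20, 20, 3, 19]],
  [[0, 1, 5, 7, 7, 1, 4, 24], [4, 10, 9, 23, 21, 16, 29, 18], [19, 26, 0, 20, 15, 2, 4, 23], [22, 5, 13, 22, 10, 19, 6,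
  3], [23, 4, 0, 27, 23, 16, 25, 24], [22, 14, 7, 22, 22, 7, 22, 22], [14, 27, 30, 21, 25, 9, 2, 3], [11, 28, 20, 4,
  23, 14, 23, 29]],
  [[24, 20, 30, 7, 6, 19, 10, 21], [4, 14, 4, 2, 2, 16, 23, 14], [29, 9, 3, 8, 8, 5, 27, 10], [8, 29, 8, 3, 10, 27, 14,
  29], [9, 4, 3, 8, 3, 3, 3, 9], [3, 15, 29, 8, 8, 30, 2, 9], [30, 20, 30, 7, 1, 18, 16, 20], [30, 26, 30, 1, 6, 19,
  11, 25]],
  [[12, 0, 18, 4, 2, 23, 30, 0], [30, 5, 10, 29, 3, 5, 19, 0], [30, 27, 25, 8, 10, 15, 28, 0], [30, 26, 13, 20, 10, 3,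
  10, 0], [30, 10, 19, 13, 30, 7, 26, 0], [17, 29, 1, 24, 4, 29, 9, 0], [3, 1, 21, 8, 17, 13, 20, 0], [17, 28, 29, 5,
  30, 23, 17, 0]],
  [[29, 20, 10, 10, 20, 28, 23, 10], [9, 28, 26, 19, 29, 19, 28, 3], [28, 16, 5, 3, 9, 7, 27, 12], [24, 22, 1, 12, 17,
  5, 30, 23], [14, 12, 30, 16, 14, 26, 24, 15], [4, 29, 22, 6, 8, 2, 14, 9], [30, 0, 26, 16, 18, 24, 22, 15], [13, 24,
  0, 7, 5, 9, 14, 2]],
  [[4, 27, 15, 8, 30, 2, 22, 0], [8, 13, 21, 0, 2, 5, 12, 0], [4, 11, 21, 19, 0, 15, 29, 0], [18, 8, 0, 2, 26, 14, 6,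
  0], [2, 0, 0, 21, 13, 23, 12, 0], [10, 26, 8, 12, 19, 17, 23, 0], [13, 0, 28, 6, 29, 28, 30, 0], [21, 4, 20, 6, 26,
  2, 25, 0]],
  [[28, 29, 5, 13, 26, 29, 30, 6], [23, 6, 21, 3, 5, 16, 1, 11], [6, 14, 16, 12, 30, 2, 25, 22], [14, 14, 14, 23, 14,
  14, 24, 14], [21, 18, 27, 29, 25, 7, 5, 4], [25, 14, 15, 19, 1, 29, 6, 9], [6, 1, 20, 12, 8, 24, 25, 28], [16, 12,
  21, 28, 30, 18, 23, 14]],
  [[30, 0, 2, 27, 3, 1, 0, 30], [30, 30, 3, 26, 3, 3, 30, 30], [30, 30, 3, 25, 4, 3, 30, 30], [30, 30, 5, 22, 5, 5, 29,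
  30], [29, 29, 4, 25, 3, 5, 29, 30], [30, 29, 3, 27, 2, 3, 30, 30], [30, 30, 2, 28, 2, 2, 30, 30], [0, 0, 1, 29, 1,
  1, 0, 30]],
  [[27, 7, 18, 0, 20, 12, 30, 10], [5, 10, 11, 27, 26, 28, 30, 25], [13, 15, 5, 9, 12, 16, 0, 15], [23, 20, 7, 12, 29,
  3, 5, 11], [11, 28, 16, 23, 4, 21, 19, 26], [21, 1, 14, 1, 16, 7, 18, 0], [25, 23, 4, 13, 29, 22, 17, 17], [2, 23,
  21, 11, 22, 18, 8, 23]],
  [[6, 2, 14, 7, 1, 17, 27, 0], [19, 25, 14, 23, 9, 1, 3, 0], [20, 7, 7, 2, 21, 14, 20, 0], [25, 8, 19, 20, 5, 10, 26,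
  0], [20, 5, 23, 28, 11, 7, 3, 0], [28, 10, 30, 30, 5, 13, 30, 0], [4, 20, 30, 10, 26, 3, 28, 0], [20, 8, 1, 17, 12,
  9, 4, 0]],
  [[28, 5, 20, 11, 19, 16, 22, 14], [7, 9, 22, 21, 14, 21, 9, 11], [26, 4, 11, 19, 7, 27, 25, 24], [7, 23, 3, 29, 1, 26,
  27, 8], [29, 27, 18, 6, 25, 15, 8, 10], [20, 10, 14, 26, 23, 18, 12, 4], [29, 26, 22, 4, 3, 8, 21, 23], [26, 6, 0,
  25, 18, 10, 17, 16]],
  [[18, 1, 1, 11, 19, 0, 0, 0], [0, 10, 4, 27, 17, 20, 23, 0], [13, 4, 0, 19, 5, 22, 28, 0], [11, 6, 3, 25, 22, 18, 22,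
  0], [30, 2, 21, 11, 2, 9, 15, 0], [18, 14, 2, 10, 19, 19, 30, 0], [19, 29, 7, 16, 26, 12, 26, 0], [2, 24, 8, 15, 2,
  25, 10, 0]],
  [[4, 11, 30, 27, 26, 10, 19, 12], [24, 16, 24, 2, 2, 7, 10, 16], [29, 22, 23, 28, 28, 18, 3, 23], [17, 2, 17, 3, 30,
  20, 19, 2], [18, 28, 23, 28, 3, 16, 30, 22], [23, 17, 29, 28, 28, 23, 29, 22], [30, 11, 30, 27, 1, 9, 14, 11], [30,
  6, 30, 1, 26, 10, 20, 5]],
  [[3, 28, 25, 21, 22, 11, 18, 28], [4, 22, 6, 22, 15, 17, 17, 25], [20, 11, 3, 9, 15, 29, 0, 2], [15, 30, 27, 13, 19,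
  0, 15, 17], [0, 19, 24, 2, 17, 12, 29, 25], [15, 9, 3, 13, 0, 19, 17, 23], [30, 12, 28, 28, 19, 17, 1, 9], [18, 5,
  20, 28, 29, 0, 8, 7]],
  [[10, 5, 5, 28, 13, 24, 27, 24], [14, 28, 10, 7, 0, 25, 22, 21], [9, 1, 14, 6, 3, 16, 8, 12], [16, 13, 8, 15, 19, 7,
  15, 30], [0, 1, 27, 16, 12, 3, 26, 26], [3, 12, 30, 0, 28, 1, 2, 6], [28, 24, 7, 16, 1, 16, 24, 26], [10, 6, 20, 2,
  14, 29, 28, 7]],
  [[14, 12, 9, 28, 22, 22, 2, 0], [14, 1, 28, 29, 15, 29, 12, 0], [18, 21, 8, 14, 10, 2, 18, 0], [18, 28, 15, 19, 12,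
  12, 17, 0], [4, 20, 23, 7, 1, 29, 27, 0], [14, 16, 25, 8, 11, 20, 5, 0], [14, 19, 17, 19, 27, 5, 21, 0], [30, 10,
  17, 23, 2, 26, 30, 0]],
  [[1, 2, 6, 26, 4, 2, 7, 10], [21, 4, 14, 20, 17, 20, 4, 9], [3, 25, 20, 12, 8, 28, 1, 18], [0, 23, 4, 6, 20, 5, 25,
  29], [12, 9, 0, 22, 5, 10, 27, 23], [24, 5, 29, 27, 5, 11, 13, 29], [2, 9, 14, 15, 0, 17, 6, 27], [24, 10, 0, 21,
  28, 25, 4, 4]],
  [[23, 13, 0, 18, 29, 19, 17, 3], [5, 10, 21, 19, 22, 27, 11, 0], [12, 24, 0, 2, 22, 9, 21, 20], [20, 29, 24, 13, 1,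
  10, 12, 11], [14, 17, 11, 10, 23, 21, 30, 16], [9, 13, 20, 22, 27, 30, 19, 11], [25, 26, 22, 28, 16, 17, 13, 24],
  [27, 3, 6, 23, 26, 2, 12, 19]],
  [[12, 1, 1, 17, 13, 0, 0, 0], [16, 20, 4, 21, 25, 10, 23, 1], [30, 5, 24, 12, 10, 21, 11, 22], [10, 4, 28, 4, 12, 19,
  2, 17], [0, 28, 27, 24, 18, 20, 15, 2], [12, 20, 2, 16, 13, 13, 30, 0], [22, 21, 25, 26, 12, 8, 9, 18], [15, 18, 6,
  28, 14, 26, 27, 26]],
  [[22, 0, 28, 15, 7, 10, 16, 3], [6, 7, 18, 27, 26, 16, 5, 21], [15, 8, 0, 19, 7, 7, 3, 9], [10, 24, 23, 16, 11, 26,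
  19, 3], [13, 14, 17, 25, 24, 23, 8, 30], [10, 12, 13, 16, 29, 8, 23, 1], [14, 18, 0, 13, 1, 23, 17, 12], [29, 5, 20,
  19, 14, 6, 28, 9]],
  [[3, 2, 23, 27, 30, 10, 17, 2], [10, 4, 13, 7, 24, 28, 11, 29], [5, 3, 29, 21, 13, 11, 10, 7], [9, 29, 30, 25, 14, 11,
  23, 18], [25, 26, 16, 9, 8, 22, 20, 14], [22, 23, 3, 1, 27, 15, 29, 0], [9, 6, 26, 16, 16, 18, 17, 3], [24, 14, 29,
  1, 6, 23, 11, 3]],
  [[12, 2, 10, 23, 3, 18, 22, 0], [22, 17, 9, 30, 21, 13, 23, 0], [13, 15, 21, 29, 11, 29, 15, 0], [11, 24, 20, 4, 26,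
  22, 17, 0], [21, 9, 17, 5, 20, 18, 19, 0], [26, 28, 2, 27, 22, 18, 30, 0], [19, 2, 12, 19, 28, 7, 19, 0], [0, 27, 2,
  18, 24, 30, 10, 0]]]

/-- Entry of a list of matrices. -/
def em (t : List (List (List ℕ))) (v i j : ℕ) : ℕ := ((t.getD (v % 30) []).getD i []).getD j 0

/-- `W - 1` multiplied by `3 ^ v`, as a matrix modulo 31. -/
def mW (v j i : ℕ) : ℕ := (3 ^ (v % 30) * ((Wmat (Fin.ofNat 8 i) (Fin.ofNat 8 j) + 31).toNat) + (if i = j then 30 else 0)) % 31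

theorem num_cart : ∀ v < 30, ∀ i < 8, ∀ j < 8, ((List.range 8).foldl (fun acc k => acc + em cZ v j k * mW v k i) 0 +
    en vmT v j * en cP v i) % 31 = if i = j then 1 else 0 := by
  decide +kernel

private theorem fold8_1 (f : ℕ → ℕ) : (List.range 8).foldl (fun acc k => acc + f k) 0 = ∑ k : Fin 8, f k := by
  rw [Fin.sum_univ_eight]
  change 0 + f 0 + f 1 + f 2 + f 3 + f 4 + f 5 + f 6 + f 7 = _
  rw [zero_add]
  rfl

private theorem pow_mod1 (v : ℕ) : (3 : F) ^ (v % 30) = 3 ^ v := by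
  have h : (3 : F) ^ 30 = 1 := by decide
  conv_rhs => rw [← Nat.mod_add_div v 30, pow_add, pow_mul, h, one_pow, mul_one]

private theorem Wnn1 : ∀ i j : Fin 8, 0 ≤ Wmat i j + 31 := by decide

private theorem mW_cast1 (v : ℕ) (k i : Fin 8) :
    (mW v k i : F) = 3 ^ v * (Wmat i k : F) - (if i = k then 1 else 0) := by
  have h31 : ((31 : ℕ) : F) = 0 := ZMod.natCast_self 31
  have h31' : (31 : F) = 0 := by exact_mod_cast h31
  have e1 : Fin.ofNat 8 (i : ℕ) = i := Fin.ofNat_val_eq_self i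
  have e2 : Fin.ofNat 8 (k : ℕ) = k := Fin.ofNat_val_eq_self k
  have h1 : (((Wmat i k + 31).toNat : ℕ) : F) = (Wmat i k : F) := by
    have h2 : ((((Wmat i k + 31).toNat : ℕ) : ℤ) : F) = ((Wmat i k + 31 : ℤ) : F) := by
      rw [Int.toNat_of_nonneg (Wnn1 i k)]
    rw [Int.cast_natCast] at h2
    rw [h2]
    push_cast
    rw [h31', add_zero]
  unfold mW
  rw [ZMod.natCast_mod, Nat.cast_add, Nat.cast_mul, Nat.cast_pow, e1, e2, h1, Nat.cast_ofNat, pow_mod1]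
  by_cases h : i = k
  · have h3 : (i : ℕ) = (k : ℕ) := by rw [h]
    rw [if_pos h3, if_pos h]
    have h4 : ((30 : ℕ) : F) = -1 := by decide
    rw [h4]
    ring
  · have h3 : ¬ (i : ℕ) = (k : ℕ) := fun h4 => h (Fin.ext h4)
    rw [if_neg h3, if_neg h]
    simp

private theorem em_mod1 (t : List (List (List ℕ))) (v i j : ℕ) : em t (v % 30) i j = em t v i j := by
  unfold em
  rw [Nat.mod_mod]

private theorem en_mod1 (t : List (List ℕ)) (v i : ℕ) : en t (v % 30) i = en t v i := by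
  unfold en
  rw [Nat.mod_mod]

private theorem mW_mod1 (v i j : ℕ) : mW (v % 30) i j = mW v i j := by
  unfold mW
  rw [Nat.mod_mod]

private theorem num_cast1 (v : ℕ) (i j : Fin 8) :
    (∑ k : Fin 8, (em cZ v j k : F) * (mW v k i : F)) + (en vmT v j : F) * (en cP v i : F) =
      if i = j then 1 else 0 := by
  have h1 := num_cart (v % 30) (Nat.mod_lt _ (by norm_num)) i i.2 j j.2
  simp only [em_mod1, en_mod1, mW_mod1] at h1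
  rw [fold8_1 (fun k => em cZ v j k * mW v k i)] at h1
  have h2 := congrArg (fun n : ℕ => (n : F)) h1
  simp only [ZMod.natCast_mod] at h2
  push_cast at h2
  rw [h2]
  by_cases h : i = j
  · have h3 : (i : ℕ) = (j : ℕ) := by rw [h]
    rw [if_pos h3, if_pos h]
  · have h3 : ¬ (i : ℕ) = (j : ℕ) := fun h4 => h (Fin.ext h4)
    rw [if_neg h3, if_neg h]

private theorem cart1 {v : ℕ} {s : Chev F} (h : Ev v s) (j : Fin 8) :
    s.h j = (∑ i : Fin 8, (en cP v i : F) * s.h i) * (en vmT v j : F) := by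
  have h1 : ∀ k : Fin 8, ∑ i : Fin 8, (mW v k i : F) * s.h i = 0 := by
    intro k
    have h2 := h.1 k
    have h3 : ∀ i : Fin 8, (mW v k i : F) * s.h i =
        3 ^ v * s.h i * (Wmat i k : F) - (if i = k then s.h i else 0) := by
      intro i
      rw [mW_cast1]
      split_ifs <;> ring
    rw [Finset.sum_congr rfl fun i _ => h3 i, Finset.sum_sub_distrib, ← h2]
    simp
  have h4 : s.h j = ∑ i : Fin 8, (if i = j then 1 else 0) * s.h i := by simp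
  have h5 : ∑ i : Fin 8, (if i = j then (1 : F) else 0) * s.h i =
      ∑ i : Fin 8, ((∑ k : Fin 8, (em cZ v j k : F) * (mW v k i : F)) +
        (en vmT v j : F) * (en cP v i : F)) * s.h i :=
    Finset.sum_congr rfl fun i _ => by rw [num_cast1]
  have h6 : ∑ i : Fin 8, (∑ k : Fin 8, (em cZ v j k : F) * (mW v k i : F)) * s.h i = 0 := by
    simp only [Finset.sum_mul]
    rw [Finset.sum_comm]
    refine Finset.sum_eq_zero fun k _ => ?_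
    simp only [mul_assoc]
    rw [← Finset.mul_sum, h1, mul_zero]
  rw [h4, h5]
  simp only [add_mul, Finset.sum_add_distrib]
  rw [h6, zero_add, Finset.sum_mul]
  exact Finset.sum_congr rfl fun i _ => by ring

theorem exists_toE {v : ℕ} {s : Chev F} (h : Ev v s) : ∃ l : List ℕ, l.length = 9 ∧ (∀ x ∈ l, x < 31) ∧ s = toE v l := by
  let c : F := ∑ i : Fin 8, (en cP v i : F) * s.h i
  let f : Fin 9 → ℕ := fun i => if hi : (i : ℕ) < 8 then (s.x (sr ⟨i, hi⟩)).val else c.val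
  refine ⟨List.ofFn f, List.length_ofFn, ?_, ?_⟩
  · intro x hx
    rw [List.mem_ofFn] at hx
    obtain ⟨i, rfl⟩ := hx
    change (if hi : (i : ℕ) < 8 then (s.x (sr ⟨i, hi⟩)).val else c.val) < 31
    split_ifs
    · exact ZMod.val_lt _
    · exact ZMod.val_lt _
  · have hget : ∀ i : Fin 9, (List.ofFn f).getD i 0 = f i := by
      intro i
      rw [List.getD_eq_getElem _ _ (by rw [List.length_ofFn]; exact i.2), List.getElem_ofFn]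
    refine Ev_ext h (toE_Ev v _) ?_ ?_
    · funext j
      change s.h j = (((List.ofFn f).getD 8 0 : ℕ) : F) * (en vmT v j : F)
      have h1 := hget 8
      have h2 : f 8 = c.val := rfl
      rw [h2] at h1
      have h3 : (List.ofFn f).getD 8 0 = c.val := h1
      rw [h3, ZMod.natCast_zmod_val]
      exact cart1 h j
    · intro j
      have h1 := toE_x v (List.ofFn f) 0 j
      have h2 : rt 0 j = sr j := rfl
      have h3 : etk 0 j = 1 := rfl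
      rw [h2, h3, mul_zero, pow_zero, mul_one, Int.cast_one, one_mul] at h1
      rw [h1]
      have h4 := hget ⟨j, by omega⟩
      have h5 : f ⟨j, by omega⟩ = (s.x (sr j)).val := dif_pos j.2
      rw [h5] at h4
      have h6 : (List.ofFn f).getD j 0 = (s.x (sr j)).val := h4
      rw [h6, ZMod.natCast_zmod_val]

private theorem vm_zero1 : ∀ i : Fin 8, (vmT.getD 0 []).getD (i : ℕ) 0 = 0 := by decide

theorem Ev_cart_zero {v : ℕ} (hv : 30 ∣ v) {s : Chev F} (h : Ev v s) : s.h = 0 := by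
  funext j
  rw [cart1 h j]
  have h1 : en vmT v j = 0 := by
    unfold en
    rw [Nat.mod_eq_zero_of_dvd hv]
    exact vm_zero1 j
  rw [h1, Nat.cast_zero, mul_zero]
  rfl

end Pool.Agent.Helper64.E8C
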