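import Pool.Agent.Helper64.E8C.BrcA
import Pool.Agent.Helper64.E8C.Tab
import Pool.Agent.Helper64.E8C.Vec

/-!
# Block E8C-BRC: the bracket and the form in coordinates

* `toE_brc`: both sides are in `E_(a+b)` (`Ev_lie`, `toE_Ev`), so by `Ev_ext` compare the values at `sr l` and the Cartan parts.
  At `sr l` (`(sr l).1 = al l`): `brk_x`; the terms with `pr` are `s_8 (vm a, α_l) t_l` and `- t_8 (vm b, α_l) s_l` (`prT` is the table of `∑_{i,k} vm_i C_ik (α_l)_k`
  modulo 31, `decide`); the double sum is `tab_sum` with `f a b = (toE a s).x a * (toE b t).x b`, then `toE_x`, `tab_sign`.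
  Cartan part: `brk_h`, `sum_rt`, `-rt k j = rt (k + 15) j`, `toE_x`, `etk_fifteen`, `etk_sq`, `3 ^ 15 = -1`:
  `- ∑_{k,j} (W ^ k α_j)_i 3 ^ (a k) s_j 3 ^ (b (k + 15)) t_j = - (-1) ^ b ∑_j s_j t_j ∑_k 3 ^ ((a + b) k) (W ^ k α_j)_i`, and the last sum is `kaT (a+b) j * vmT (a+b) i`
  modulo 31 (`decide +kernel`; a table of the vectors `W ^ k α_j` is needed).
* `toE_frm`: `bf`, `sum_rt`: `s_8 t_8 (vm a, vm b) - ∑_{k,j} 3 ^ ((a+b) k) (-1) ^ b s_j t_j`, `30 ∣ a + b`, `-30 = 1`.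
* `bf_vm`: the same computation with `⁅c vm, ⁆`.
-/

set_option autoImplicit false

namespace Pool.Agent.Helper64.E8C

open Pool.Agent.Helper73.E8 Pool.Agent.Helper2.E8A NumberField Polynomial

private theorem foldl45 (f : ℕ → ℕ) :
    (List.range 8).foldl (fun acc j => acc + f j) 0 = ∑ j : Fin 8, f j := by
  simp only [List.range, List.range.loop, List.foldl_cons, List.foldl_nil, Fin.sum_univ_eight]
  simp

private theorem num45 : ∀ m : Fin 30, ∀ j : Fin 8,
    ((∑ i : Fin 8, (en vmT m i : ℤ) * CartanMatrix.E₈ i j) - (en prT m j : ℤ)) % 31 = 0 := by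
  decide +kernel

private theorem en_mod45 (t : List (List ℕ)) {m n : ℕ} (h : m % 30 = n % 30) (i : ℕ) : en t m i = en t n i := by
  unfold en
  rw [h]

private theorem prT45 (m : ℕ) (j : Fin 8) :
    ∑ i : Fin 8, (en vmT m i : F) * (CartanMatrix.E₈ i j : F) = (en prT m j : F) := by
  have h := num45 ⟨m % 30, Nat.mod_lt _ (by norm_num)⟩ j
  have h1 : (((∑ i : Fin 8, (en vmT (m % 30) i : ℤ) * CartanMatrix.E₈ i j) - (en prT (m % 30) j : ℤ) : ℤ) : F) = 0 :=
    (ZMod.intCast_zmod_eq_zero_iff_dvd _ 31).2 (Int.dvd_of_emod_eq_zero h)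
  push_cast at h1
  have h2 : ∀ (t : List (List ℕ)) (i : ℕ), en t (m % 30) i = en t m i := fun t i =>
    en_mod45 t (Nat.mod_mod _ _) i
  simp only [h2] at h1
  exact sub_eq_zero.1 h1

private theorem pow45 {n : ℕ} (h : 30 ∣ n) : (3 : F) ^ n = 1 := by
  obtain ⟨c, rfl⟩ := h
  rw [pow_mul, show (3 : F) ^ 30 = 1 by decide +kernel, one_pow]

private theorem pow15_45 (b : ℕ) : (3 : F) ^ (15 * b) = if b % 2 = 0 then 1 else 30 := by
  rw [pow_mul, show (3 : F) ^ 15 = 30 by decide +kernel]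
  split_ifs with h
  · obtain ⟨c, rfl⟩ := Nat.dvd_of_mod_eq_zero h
    rw [pow_mul, show (30 : F) ^ 2 = 1 by decide +kernel, one_pow]
  · have h1 : b = 2 * (b / 2) + 1 := by omega
    rw [h1, pow_succ, pow_mul, show (30 : F) ^ 2 = 1 by decide +kernel, one_pow, one_mul]

theorem toE_frm {a b : ℕ} (h : 30 ∣ a + b) (s t : List ℕ) : Chev.bf (toE a s) (toE b t) = (frm b s t : F) := by
  have hpr : ∀ j : ℕ, en prT (29 * b) j = en prT a j := by
    intro j
    refine en_mod45 prT ?_ j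
    omega
  have h1 : ∑ i, ∑ j, (toE a s).h i * (CartanMatrix.E₈ i j : F) * (toE b t).h j =
      (s.getD 8 0 : F) * (t.getD 8 0 : F) * ∑ j : Fin 8, (en vmT b j : F) * (en prT a j : F) := by
    rw [Finset.sum_comm, Finset.mul_sum]
    refine Finset.sum_congr rfl fun j _ => ?_
    rw [← prT45 a j, Finset.mul_sum, Finset.mul_sum]
    refine Finset.sum_congr rfl fun i _ => ?_
    change (s.getD 8 0 : F) * (en vmT a i : F) * (CartanMatrix.E₈ i j : F) * ((t.getD 8 0 : F) * (en vmT b j : F)) = _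
    ring
  have h2 : ∑ r : Root, (toE a s).x r * (toE b t).x (-r) =
      - ((if b % 2 = 0 then 1 else 30 : F) * ∑ j : Fin 8, (s.getD j 0 : F) * (t.getD j 0 : F)) := by
    rw [sum_rt]
    have h3 : ∀ k ∈ Finset.range 30, ∑ j : Fin 8, (toE a s).x (rt k j) * (toE b t).x (-rt k j) =
        (if b % 2 = 0 then 1 else 30 : F) * ∑ j : Fin 8, (s.getD j 0 : F) * (t.getD j 0 : F) := by
      intro k _
      rw [Finset.mul_sum]
      refine Finset.sum_congr rfl fun j _ => ?_
      rw [← rt_fifteen, toE_x, toE_x, etk_fifteen, ← pow15_45]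
      have h4 : (etk k j : F) * (etk k j : F) = 1 := by
        rw [← Int.cast_mul, etk_sq, Int.cast_one]
      have h5 : (3 : F) ^ (a * k) * 3 ^ (b * (k + 15)) = 3 ^ (15 * b) := by
        have h6 : (3 : F) ^ (a * k) * 3 ^ (b * (k + 15)) = 3 ^ ((a + b) * k) * 3 ^ (15 * b) := by
          rw [← pow_add, ← pow_add]
          congr 1
          ring
        rw [h6, pow45 (h.mul_right k), one_mul]
      calc (etk k j : F) * 3 ^ (a * k) * (s.getD j 0 : F) * ((etk k j : F) * 3 ^ (b * (k + 15)) * (t.getD j 0 : F)) =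
          ((etk k j : F) * (etk k j : F)) * (3 ^ (a * k) * 3 ^ (b * (k + 15))) * ((s.getD j 0 : F) * (t.getD j 0 : F)) := by
            ring
        _ = 3 ^ (15 * b) * ((s.getD j 0 : F) * (t.getD j 0 : F)) := by rw [h4, h5, one_mul]
    rw [Finset.sum_congr rfl h3, Finset.sum_const, Finset.card_range, nsmul_eq_mul]
    have h6 : ((30 : ℕ) : F) = -1 := by decide +kernel
    rw [h6]
    ring
  unfold Chev.bf
  rw [h1, h2]
  unfold frm
  rw [ZMod.natCast_mod, foldl45, foldl45 (fun j => en vmT b j * en prT (29 * b) j)]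
  simp only [hpr]
  push_cast
  ring

/-- The Cartan element `vm m`. -/
def ve (m : ℕ) : Chev F := toE m [0, 0, 0, 0, 0, 0, 0, 0, 1]

theorem ve_x (m : ℕ) : (ve m).x = 0 := by
  funext a
  change ∑ k ∈ Finset.range 30, ∑ j : Fin 8, (if rt k j = a then
    (etk k j : F) * 3 ^ (m * k) * ((([0, 0, 0, 0, 0, 0, 0, 0, 1] : List ℕ).getD j 0 : ℕ) : F) else 0) = 0
  refine Finset.sum_eq_zero fun k _ => Finset.sum_eq_zero fun j _ => ?_
  have h : ([0, 0, 0, 0, 0, 0, 0, 0, 1] : List ℕ).getD j 0 = 0 := by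
    fin_cases j <;> rfl
  rw [h, Nat.cast_zero, mul_zero, ite_self]

theorem pr_ve (m : ℕ) (j : Fin 8) : Chev.pr (ve m).h (al j) = (en prT m j : F) := by
  rw [← prT45 m j]
  unfold Chev.pr
  refine Finset.sum_congr rfl fun i _ => ?_
  rw [Finset.sum_eq_single j]
  · have h1 : (ve m).h i = (en vmT m i : F) := by
      change ((([0, 0, 0, 0, 0, 0, 0, 0, 1] : List ℕ).getD 8 0 : ℕ) : F) * (en vmT m i : F) = _
      have h2 : ([0, 0, 0, 0, 0, 0, 0, 0, 1] : List ℕ).getD 8 0 = 1 := rfl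
      rw [h2, Nat.cast_one, one_mul]
    rw [h1]
    simp [al]
  · intro l _ hl
    simp [al, hl]
  · intro h
    exact absurd (Finset.mem_univ j) h

end Pool.Agent.Helper64.E8C
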