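import Pool.Agent.Helper64.E8C.Lft

/-!
# Block E8C-A1: elements of `L` in the Cartan subalgebra are integral

Let `y ∈ L`, `y.x = 0`, and `k` as in `bdd`. (1) `31 ^ k • inc (ej j) ∈ L` by `dual`: for `z ∈ L`, `31 ^ k • z = inc z'`, so
`bf (31 ^ k • inc (ej j)) z = bf (ej j) z'` is integral, and rational (`bf_rat`), so an integer (`IsIntegrallyClosed` of `ℤ`; `Fx σ (inc (ej j))` from
`ej_Fx`, `Fx_inc`). (2) `ad(y) ^ n` of it is in `L` (`lie`), so `31 ^ k •` it is integral: its coordinate at `sr j` is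
`31 ^ (2 k) (pr y.h (al j)) ^ n` (`brk_x` with `y.x = 0`, `ej_x`). So `t = pr y.h (al j)` satisfies: `c t ^ n` is integral for all `n`, `c = 31 ^ (2 k) ≠ 0`; hence
`t` is integral: the `ℤ`-module spanned by the powers of `t` is contained in `c⁻¹ 𝓞 K`, which is finitely generated over the noetherian ring `ℤ`
(`isIntegral_of_...`, `IsIntegral.of_mem_of_fg`, `fg_adjoin_singleton_iff`...; or by valuations). (3) `y.h = C⁻¹ (pr y.h (al j))_j`, `C` the Cartan matrix with
determinant one (`exists_of_functional` of Roots.lean or an explicit inverse), so `y.h` is integral.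
-/

set_option autoImplicit false

namespace Pool.Agent.Helper64.E8C

open Pool.Agent.Helper73.E8 Pool.Agent.Helper2.E8A NumberField Polynomial

theorem almost_integral {c t : K} (hc : c ≠ 0) (h : ∀ n : ℕ, IsIntegral ℤ (c * t ^ n)) : IsIntegral ℤ t := by
  have h0 : IsIntegral ℤ c := by
    have h1 := h 0
    rwa [pow_zero, mul_one] at h1
  have h1 : IsAlmostIntegral O t := by
    refine ⟨⟨c, h0⟩, ?_, fun n => ⟨⟨c * t ^ n, h n⟩, rfl⟩⟩
    rw [mem_nonZeroDivisors_iff_ne_zero]
    intro h2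
    apply hc
    have h3 := congrArg (fun z : O => (z : K)) h2
    exact h3
  exact isIntegral_trans (R := ℤ) (A := O) t h1.isIntegral

/-- The pairing with a vector of the lattice, from the values at the vectors of the lattice. -/
theorem pr_eq_sum (h : Fin 8 → K) (c : Helper73.E8.Lat) : Chev.pr h c = ∑ k, h k * ((ip (al k) c : ℤ) : K) := by
  unfold Chev.pr
  refine Finset.sum_congr rfl fun k _ => ?_
  have h1 : ip (al k) c = ∑ j, CartanMatrix.E₈ k j * c j := by
    unfold ip al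
    rw [Finset.sum_eq_single k (fun i _ hi => by simp [hi]) (fun h => absurd (Finset.mem_univ _) h)]
    simp
  rw [h1, Int.cast_sum, Finset.mul_sum]
  refine Finset.sum_congr rfl fun j _ => ?_
  rw [Int.cast_mul, mul_assoc]

theorem pr_sum_al (h : Fin 8 → K) (c : Helper73.E8.Lat) : Chev.pr h c = ∑ j, (c j : K) * Chev.pr h (al j) := by
  have h1 : ∀ j, Chev.pr h (al j) = ∑ i, h i * (CartanMatrix.E₈ i j : K) := by
    intro j
    rw [pr_eq_sum]
    refine Finset.sum_congr rfl fun i _ => ?_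
    rw [ip_al_al]
  simp only [h1]
  simp only [Chev.pr, Finset.mul_sum]
  rw [Finset.sum_comm]
  refine Finset.sum_congr rfl fun i _ => Finset.sum_congr rfl fun j _ => ?_
  ring

theorem cart_isIntegral {h : Fin 8 → K} (hh : ∀ j, IsIntegral ℤ (Chev.pr h (al j))) (i : Fin 8) :
    IsIntegral ℤ (h i) := by
  obtain ⟨v, hv⟩ := exists_of_functional (Pi.evalAddMonoidHom (fun _ : Fin 8 => ℤ) i)
  have h1 : Chev.pr h v = h i := by
    rw [pr_eq_sum, Finset.sum_eq_single i]
    · rw [ip_comm, ← hv, Pi.evalAddMonoidHom_apply]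
      simp [al]
    · intro k _ hk
      rw [ip_comm, ← hv, Pi.evalAddMonoidHom_apply]
      simp [al, hk.symm]
    · intro h; exact absurd (Finset.mem_univ _) h
  rw [← h1, pr_sum_al]
  refine IsIntegral.sum _ fun j _ => ?_
  exact IsIntegral.mul (isIntegral_algebraMap (R := ℤ) (A := K) (x := v j)) (hh j)

theorem pow_ej_mem {L : AddSubgroup (Chev K)} (hL : IsL L) : ∃ k : ℕ, ∀ j, (31 : K) ^ k • inc (ej j) ∈ L := by
  obtain ⟨k, hk⟩ := hL.bdd
  refine ⟨k, fun j => ?_⟩
  have hF : Fx σ (inc (ej j)) := (Fx_inc _).2 (ej_Fx j)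
  have hF2 : Fx σ ((31 : K) ^ k • inc (ej j)) := by
    have h1 := Fx_K_smul ((31 : ℚ) ^ k) hF
    have h2 : (((31 : ℚ) ^ k : ℚ) : K) = (31 : K) ^ k := by push_cast; rfl
    rwa [h2] at h1
  refine hL.dual _ hF2 fun z hz => ?_
  obtain ⟨z', hz'⟩ := hk z hz
  obtain ⟨q, hq⟩ := bf_rat hF2 (hL.fx z hz)
  have h1 : Chev.bf ((31 : K) ^ k • inc (ej j)) z = ((Chev.bf (ej j) z' : O) : K) := by
    rw [← inc_bf, hz', Chev.bf_smul_left, Chev.bf_smul_right]
  have h2 : IsIntegral ℤ (q : K) := by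
    rw [← hq, h1]
    exact RingOfIntegers.isIntegral_coe _
  have h3 : IsIntegral ℤ q := by
    have e : (q : K) = algebraMap ℚ K q := rfl
    rw [e] at h2
    exact (isIntegral_algebraMap_iff (algebraMap ℚ K).injective).1 h2
  obtain ⟨n, hn⟩ := IsIntegrallyClosed.isIntegral_iff.1 h3
  refine ⟨n, ?_⟩
  rw [hq, ← hn]
  simp

theorem cart_brk_x {y : Chev K} (h0 : y.x = 0) (z : Chev K) (a : Root) :
    ⁅y, z⁆.x a = Chev.pr y.h a.1 * z.x a := by
  rw [Chev.brk_x, h0]
  simp

theorem cart_int {L : AddSubgroup (Chev K)} (hL : IsL L) {y : Chev K} (hy : y ∈ L) (h0 : y.x = 0) :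
    ∃ y' : Chev O, inc y' = y := by
  obtain ⟨k, hk⟩ := hL.bdd
  obtain ⟨k', hk'⟩ := pow_ej_mem hL
  have h31 : (31 : K) ≠ 0 := by norm_num
  have key : ∀ j, IsIntegral ℤ (Chev.pr y.h (al j)) := by
    intro j
    refine almost_integral (c := (31 : K) ^ k * (31 : K) ^ k') (mul_ne_zero (pow_ne_zero _ h31) (pow_ne_zero _ h31))
      fun n => ?_
    have h1 : ∀ n : ℕ, ∃ z ∈ L, z.x (sr j) = Chev.pr y.h (al j) ^ n * (31 : K) ^ k' := by
      intro n
      induction n with
      | zero =>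
        refine ⟨_, hk' j, ?_⟩
        have h2 : (ej j).x (sr j) = 1 := by
          have h3 := ej_x 0 j j
          rw [if_pos rfl] at h3
          have h4 : rt 0 j = sr j := rfl
          rw [h4] at h3
          rw [h3]
          simp [etk]
        have h3 : (inc (ej j)).x (sr j) = 1 := by
          change (((ej j).x (sr j) : O) : K) = 1
          rw [h2]
          simp
        rw [Chev.smul_x, Pi.smul_apply, smul_eq_mul, h3, pow_zero, mul_one, one_mul]
      | succ n ih =>
        obtain ⟨z, hz, hz2⟩ := ih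
        refine ⟨⁅y, z⁆, hL.lie _ hy _ hz, ?_⟩
        rw [cart_brk_x h0, hz2, pow_succ]
        change Chev.pr y.h (al j) * _ = _
        ring
    obtain ⟨z, hz, hz2⟩ := h1 n
    obtain ⟨z', hz'⟩ := hk z hz
    have h2 : (31 : K) ^ k * (31 : K) ^ k' * Chev.pr y.h (al j) ^ n = ((z'.x (sr j) : O) : K) := by
      have h3 : ((z'.x (sr j) : O) : K) = (inc z').x (sr j) := rfl
      rw [h3, hz', Chev.smul_x, Pi.smul_apply, smul_eq_mul, hz2]
      ring
    rw [h2]
    exact RingOfIntegers.isIntegral_coe _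
  refine ⟨⟨fun i => ⟨y.h i, cart_isIntegral key i⟩, 0⟩, ?_⟩
  apply Chev.ext
  · funext i
    rfl
  · rw [h0]
    funext a
    exact map_zero (algebraMap O K)

end Pool.Agent.Helper64.E8C
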