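import Pool.Agent.Helper73.E8.Alg
import Pool.Agent.Helper73.E8.Lift
import Pool.Agent.Helper2.E8A.Dvs

/-!
# E8 over the integers (MP_90bd9d_al), part (2) at the prime 31: definitions

README: /team-store/h64_E8C_README.md.

`V` = the vectors `y` of the Chevalley algebra over `K = ℚ(ζ)`, `ζ` a 31st root of unity, with `Fx σ y`: `y` is fixed by
`n ∘ σ`, `n` the lift of the Coxeter element `W` (`σ ζ = ζ ^ 3`). `IsL L`: `L` is a `ℤ`-lattice in `V`, closed under the bracket,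
unimodular for the form `bf`, stable under `g = diag ζ ^ ht`, with bounded denominators which are powers of 31.
THEOREM (Main.lean): `L` is unique; it is given by explicit conditions (`InL`). So it is stable under `cm σ` (an automorphism of
order 30), and explicit vectors are in `L`.

`B = 𝔽₃₁[λ] / λ ^ 30`, `ev : 𝓞 K → B` is reduction modulo 31, `ζ ↦ exp λ` (truncated); `σ` becomes `λ ↦ 3 λ`.
`Ev v s`: the vector `s` of the Chevalley algebra over `𝔽₃₁` is a possible coefficient of `λ ^ v` of a vector of `V`.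
-/

set_option autoImplicit false

namespace Pool.Agent.Helper64.E8C

open Pool.Agent.Helper73.E8 Pool.Agent.Helper2.E8A NumberField Polynomial

/-- The field with 31 elements. -/
abbrev F : Type := ZMod 31

/-- The integers of `K`. -/
abbrev O : Type := 𝓞 K

/-- `W` on the roots. -/
def rW : Root ≃ Root := onRoot W W_isom

/-- The signs which lift `W` (`IsLift W et`, block ET). -/
def et (x : Helper73.E8.Lat) : ℤˣ := Int.negOnePow (∑ i, ∑ j, if i < j then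
  x i * x j * (be (al i) (al j) + be (W (al i)) (W (al j))) else 0)

/-- Coordinatewise application of a map. -/
def cm {R S : Type*} (f : R → S) (y : Chev R) : Chev S := ⟨fun i => f (y.h i), fun a => f (y.x a)⟩

/-- The automorphism `n` which lifts `W`. -/
def nn {R : Type*} [CommRing R] (y : Chev R) : Chev R :=
  ⟨fun j => ∑ i, y.h i * (Wmat i j : R), fun a => ((et (rW.symm a).1 : ℤ) : R) * y.x (rW.symm a)⟩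

/-- `y` is fixed by `n ∘ s`. -/
def Fx {R : Type*} [CommRing R] (s : R → R) (y : Chev R) : Prop :=
  (∀ j, y.h j = ∑ i, s (y.h i) * (Wmat i j : R)) ∧
    ∀ a : Root, y.x (rW a) = ((et a.1 : ℤ) : R) * s (y.x a)

/-- The coefficients of `λ ^ v` of the elements of `V`. -/
def Ev (v : ℕ) (s : Chev F) : Prop := Fx (fun t : F => 3 ^ v * t) s

/-- `σ` on the integers. -/
noncomputable def so : O →+* O := RingOfIntegers.mapRingHom (σ : K →+* K)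

/-- The automorphism `g = diag ζ ^ ht` of order 31. -/
noncomputable def gg (y : Chev K) : Chev K := ⟨y.h, fun a => ζ ^ (ht a.1) * y.x a⟩

/-- The inclusion of the integral Chevalley algebra. -/
noncomputable def inc (y : Chev O) : Chev K := cm (algebraMap O K) y

/-- `1 - ζ`. -/
noncomputable def pO : O := 1 - hζ.toInteger

/-- The hypotheses on the lattice. -/
structure IsL (L : AddSubgroup (Chev K)) : Prop where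
  fx : ∀ y ∈ L, Fx σ y
  lie : ∀ y ∈ L, ∀ z ∈ L, ⁅y, z⁆ ∈ L
  g : ∀ y ∈ L, gg y ∈ L
  int : ∀ y ∈ L, ∀ z ∈ L, ∃ n : ℤ, Chev.bf y z = n
  dual : ∀ y, Fx σ y → (∀ z ∈ L, ∃ n : ℤ, Chev.bf y z = n) → y ∈ L
  bdd : ∃ k : ℕ, ∀ y ∈ L, ∃ y' : Chev O, inc y' = (31 : K) ^ k • y

/-! ### The ring `B` -/

/-- `𝔽₃₁[λ] / λ ^ 30`. -/
abbrev B : Type := AdjoinRoot (X ^ 30 : F[X])

/-- `λ`. -/
noncomputable def lam : B := AdjoinRoot.root _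

theorem lam_pow : lam ^ 30 = 0 := by
  have h := AdjoinRoot.eval₂_root (X ^ 30 : F[X])
  rwa [eval₂_X_pow] at h

/-- The coefficient of `λ ^ v`. -/
noncomputable def cf (v : ℕ) : B →ₗ[F] F :=
  (lcoeff F v).comp (AdjoinRoot.modByMonicHom (monic_X_pow 30))

/-- `λ ↦ 3 λ`. -/
noncomputable def sB : B →+* B := AdjoinRoot.lift (AdjoinRoot.of _) (3 * lam) (by
  rw [eval₂_X_pow, mul_pow, lam_pow, mul_zero])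

/-- The truncated exponential `exp (k λ)`. -/
noncomputable def ex (k : F) : B :=
  ∑ v ∈ Finset.range 30, algebraMap F B (k ^ v / (v.factorial : F)) * lam ^ v

/-- The component of `λ ^ v` of an element of the Chevalley algebra over `B`. -/
noncomputable def cmp (v : ℕ) (b : Chev B) : Chev F := cm (cf v) b

/-- The element `s λ ^ v`. -/
noncomputable def pu (v : ℕ) (s : Chev F) : Chev B := cm (fun t => algebraMap F B t * lam ^ v) s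

/-! ### Coordinates of the elements of `E_v` -/

/-- The root `W ^ k α_j`. -/
def rt (k : ℕ) (j : Fin 8) : Root := rW^[k] (sr j)

/-- The sign of `n ^ k` at `α_j`. -/
def etk (k : ℕ) (j : Fin 8) : ℤ := ∏ i ∈ Finset.range k, ((et (rt i j).1 : ℤˣ) : ℤ)

/-- Row `m`: an eigenvector of `W` modulo 31 with eigenvalue `3 ^ (-m)` (zero if there is none). -/
def vmT : List (List ℕ) := [[0, 0, 0, 0, 0, 0, 0, 0], [15, 6, 29, 11, 17, 22, 26, 29], [0, 0, 0, 0, 0, 0, 0, 0], [0,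
  0, 0, 0, 0, 0, 0, 0], [0, 0, 0, 0, 0, 0, 0, 0], [0, 0, 0, 0, 0, 0, 0, 0], [0, 0, 0, 0, 0, 0, 0, 0], [20, 6, 8, 10,
  15, 14, 24, 27], [0, 0, 0, 0, 0, 0, 0, 0], [0, 0, 0, 0, 0, 0, 0, 0], [0, 0, 0, 0, 0, 0, 0, 0], [11, 27, 21, 21, 0,
  12, 3, 29], [0, 0, 0, 0, 0, 0, 0, 0], [21, 29, 10, 7, 24, 2, 8, 23], [0, 0, 0, 0, 0, 0, 0, 0], [0, 0, 0, 0, 0, 0, 0,
  0], [0, 0, 0, 0, 0, 0, 0, 0], [6, 21, 11, 12, 0, 29, 18, 27], [0, 0, 0, 0, 0, 0, 0, 0], [0, 29, 30, 16, 27, 0, 7,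
  15], [0, 0, 0, 0, 0, 0, 0, 0], [0, 0, 0, 0, 0, 0, 0, 0], [0, 0, 0, 0, 0, 0, 0, 0], [27, 3, 22, 20, 0, 7, 22, 23],
  [0, 0, 0, 0, 0, 0, 0, 0], [0, 0, 0, 0, 0, 0, 0, 0], [0, 0, 0, 0, 0, 0, 0, 0], [0, 0, 0, 0, 0, 0, 0, 0], [0, 0, 0, 0,
  0, 0, 0, 0], [23, 28, 14, 13, 1, 30, 11, 15]]

/-- Row `m`: the products of `vm m` with the simple roots. -/
def prT : List (List ℕ) := [[0, 0, 0, 0, 0, 0, 0, 0], [1, 1, 1, 1, 1, 1, 1, 1], [0, 0, 0, 0, 0, 0, 0, 0], [0, 0, 0, 0,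
  0, 0, 0, 0], [0, 0, 0, 0, 0, 0, 0, 0], [0, 0, 0, 0, 0, 0, 0, 0], [0, 0, 0, 0, 0, 0, 0, 0], [1, 2, 17, 22, 6, 20, 7,
  30], [0, 0, 0, 0, 0, 0, 0, 0], [0, 0, 0, 0, 0, 0, 0, 0], [0, 0, 0, 0, 0, 0, 0, 0], [1, 2, 10, 25, 29, 21, 27, 24],
  [0, 0, 0, 0, 0, 0, 0, 0], [1, 20, 23, 13, 8, 3, 22, 7], [0, 0, 0, 0, 0, 0, 0, 0], [0, 0, 0, 0, 0, 0, 0, 0], [0, 0,
  0, 0, 0, 0, 0, 0], [1, 30, 4, 23, 21, 9, 11, 5], [0, 0, 0, 0, 0, 0, 0, 0], [1, 11, 13, 8, 7, 28, 30, 23], [0, 0, 0,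
  0, 0, 0, 0, 0], [0, 0, 0, 0, 0, 0, 0, 0], [0, 0, 0, 0, 0, 0, 0, 0], [1, 17, 28, 15, 4, 23, 14, 24], [0, 0, 0, 0, 0,
  0, 0, 0], [0, 0, 0, 0, 0, 0, 0, 0], [0, 0, 0, 0, 0, 0, 0, 0], [0, 0, 0, 0, 0, 0, 0, 0], [0, 0, 0, 0, 0, 0, 0, 0],
  [1, 12, 23, 14, 21, 17, 8, 19]]

/-- Row `m`, column `j`: the factor `c` with `∑ k < 30, 3 ^ (m k) W ^ k α_j = c • vm m` modulo 31. -/
def kaT : List (List ℕ) := [[0, 0, 0, 0, 0, 0, 0, 0], [14, 13, 12, 10, 15, 21, 19, 18], [0, 0, 0, 0, 0, 0, 0, 0], [0,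
  0, 0, 0, 0, 0, 0, 0], [0, 0, 0, 0, 0, 0, 0, 0], [0, 0, 0, 0, 0, 0, 0, 0], [0, 0, 0, 0, 0, 0, 0, 0], [15, 7, 17, 8,
  29, 4, 24, 19], [0, 0, 0, 0, 0, 0, 0, 0], [0, 0, 0, 0, 0, 0, 0, 0], [0, 0, 0, 0, 0, 0, 0, 0], [19, 23, 30, 28, 9, 5,
  12, 3], [0, 0, 0, 0, 0, 0, 0, 0], [13, 18, 21, 20, 25, 24, 19, 3], [0, 0, 0, 0, 0, 0, 0, 0], [0, 0, 0, 0, 0, 0, 0,
  0], [0, 0, 0, 0, 0, 0, 0, 0], [13, 12, 20, 14, 11, 8, 7, 29], [0, 0, 0, 0, 0, 0, 0, 0], [19, 7, 4, 10, 24, 27, 17,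
  22], [0, 0, 0, 0, 0, 0, 0, 0], [0, 0, 0, 0, 0, 0, 0, 0], [0, 0, 0, 0, 0, 0, 0, 0], [15, 30, 7, 20, 28, 21, 12, 16],
  [0, 0, 0, 0, 0, 0, 0, 0], [0, 0, 0, 0, 0, 0, 0, 0], [0, 0, 0, 0, 0, 0, 0, 0], [0, 0, 0, 0, 0, 0, 0, 0], [0, 0, 0, 0,
  0, 0, 0, 0], [14, 14, 14, 14, 14, 14, 14, 14]]

/-- Entry `(i, k, j, k', c)` in row `l`: `W ^ k α_i + W ^ k' α_j = α_l`, `c` the sign (1 or 30 = -1). -/
def tab : List (List (ℕ × ℕ × ℕ × ℕ × ℕ)) := [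
  [(0, 2, 5, 27, 1), (0, 3, 3, 20, 30), (0, 5, 0, 25, 1), (0, 25, 0, 5, 30), (0, 27, 3, 2, 1), (0, 28, 5, 10, 30), (1,
  5, 6, 25, 1), (1, 7, 7, 21, 30), (1, 9, 4, 1, 1), (1, 10, 4, 28, 30), (1, 12, 7, 13, 1), (1, 14, 6, 17, 30), (2, 8,
  2, 19, 1), (2, 10, 6, 28, 30), (2, 11, 3, 4, 30), (2, 12, 5, 13, 1), (2, 13, 4, 12, 1), (2, 14, 4, 17, 30), (2, 15,
  5, 24, 30), (2, 16, 3, 18, 1), (2, 17, 6, 14, 1), (2, 19, 2, 8, 30), (3, 2, 0, 27, 30), (3, 4, 2, 11, 1), (3, 18, 2,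
  16, 30), (3, 20, 0, 3, 1), (3, 23, 3, 29, 30), (3, 25, 5, 5, 1), (3, 27, 5, 2, 30), (3, 29, 3, 23, 1), (4, 1, 1, 9,
  30), (4, 3, 6, 20, 30), (4, 12, 2, 13, 30), (4, 17, 2, 14, 1), (4, 26, 6, 22, 1), (4, 28, 1, 10, 1), (5, 2, 3, 27,
  1), (5, 5, 3, 25, 30), (5, 8, 6, 19, 30), (5, 10, 0, 28, 1), (5, 13, 2, 12, 30), (5, 24, 2, 15, 1), (5, 27, 0, 2,
  30), (5, 29, 6, 23, 1), (6, 14, 2, 17, 30), (6, 17, 1, 14, 1), (6, 19, 5, 8, 1), (6, 20, 4, 3, 1), (6, 22, 4, 26,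
  30), (6, 23, 5, 29, 30), (6, 25, 1, 5, 30), (6, 28, 2, 10, 1), (7, 13, 1, 12, 30), (7, 16, 7, 18, 1), (7, 18, 7, 16,
  30), (7, 21, 1, 7, 1)],
  [(0, 16, 6, 18, 1), (0, 18, 7, 16, 30), (0, 20, 4, 3, 1), (0, 21, 4, 7, 30), (0, 23, 7, 29, 1), (0, 25, 6, 5, 30), (1,
  4, 3, 11, 1), (1, 5, 1, 25, 1), (1, 9, 2, 1, 1), (1, 21, 2, 7, 30), (1, 25, 1, 5, 30), (1, 26, 3, 22, 30), (2, 1, 1,
  9, 30), (2, 2, 3, 27, 30), (2, 3, 7, 20, 30), (2, 5, 7, 25, 1), (2, 6, 3, 6, 1), (2, 7, 1, 21, 1), (2, 10, 2, 28,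
  30), (2, 28, 2, 10, 1), (3, 6, 2, 6, 30), (3, 11, 1, 4, 30), (3, 13, 7, 12, 30), (3, 15, 4, 24, 1), (3, 18, 4, 16,
  30), (3, 20, 7, 3, 1), (3, 22, 1, 26, 1), (3, 27, 2, 2, 1), (4, 3, 0, 20, 30), (4, 7, 0, 21, 1), (4, 12, 6, 13, 30),
  (4, 16, 3, 18, 1), (4, 19, 7, 8, 30), (4, 21, 7, 7, 1), (4, 24, 3, 15, 30), (4, 28, 6, 10, 1), (5, 1, 6, 9, 1), (5,
  17, 6, 14, 30), (5, 22, 5, 26, 30), (5, 26, 5, 22, 1), (6, 5, 0, 25, 1), (6, 9, 5, 1, 30), (6, 10, 4, 28, 30), (6,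
  13, 4, 12, 1), (6, 14, 5, 17, 1), (6, 18, 0, 16, 30), (7, 3, 3, 20, 30), (7, 4, 7, 11, 30), (7, 7, 4, 21, 30), (7,
  8, 4, 19, 1), (7, 11, 7, 4, 1), (7, 12, 3, 13, 1), (7, 16, 0, 18, 1), (7, 20, 2, 3, 1), (7, 25, 2, 5, 30), (7, 29,
  0, 23, 30)],
  [(0, 11, 2, 4, 1), (0, 13, 6, 12, 30), (0, 14, 3, 17, 30), (0, 15, 5, 24, 1), (0, 16, 4, 18, 1), (0, 17, 4, 14, 30),
  (0, 18, 5, 16, 30), (0, 19, 3, 8, 1), (0, 20, 6, 3, 1), (0, 22, 2, 26, 30), (1, 2, 2, 27, 30), (1, 20, 2, 3, 1), (1,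
  23, 1, 29, 30), (1, 24, 3, 15, 30), (1, 25, 7, 5, 30), (1, 27, 7, 2, 1), (1, 28, 3, 10, 1), (1, 29, 1, 23, 1), (2,
  1, 4, 9, 30), (2, 2, 7, 27, 1), (2, 3, 1, 20, 30), (2, 4, 0, 11, 30), (2, 5, 2, 25, 30), (2, 25, 2, 5, 1), (2, 26,
  0, 22, 1), (2, 27, 1, 2, 1), (2, 28, 7, 10, 30), (2, 29, 4, 23, 1), (3, 8, 0, 19, 30), (3, 10, 1, 28, 30), (3, 12,
  3, 13, 30), (3, 13, 3, 12, 1), (3, 15, 1, 24, 1), (3, 17, 0, 14, 1), (4, 9, 2, 1, 1), (4, 14, 0, 17, 1), (4, 18, 0,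
  16, 30), (4, 23, 2, 29, 30), (5, 16, 0, 18, 1), (5, 19, 6, 8, 1), (5, 21, 6, 7, 30), (5, 24, 0, 15, 30), (6, 3, 0,
  20, 30), (6, 4, 6, 11, 30), (6, 6, 7, 6, 1), (6, 7, 5, 21, 1), (6, 8, 5, 19, 30), (6, 9, 7, 1, 30), (6, 11, 6, 4,
  1), (6, 12, 0, 13, 1), (7, 1, 6, 9, 1), (7, 2, 1, 27, 30), (7, 5, 1, 25, 1), (7, 6, 6, 6, 30), (7, 10, 2, 28, 1),
  (7, 27, 2, 2, 30)],
  [(0, 1, 3, 9, 30), (0, 3, 5, 20, 1), (0, 5, 5, 25, 30), (0, 7, 3, 21, 1), (0, 10, 0, 28, 30), (0, 12, 2, 13, 1), (0,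
  26, 2, 22, 30), (0, 28, 0, 10, 1), (1, 3, 2, 20, 30), (1, 8, 1, 19, 30), (1, 10, 7, 28, 30), (1, 12, 4, 13, 1), (1,
  15, 4, 24, 30), (1, 17, 7, 14, 1), (1, 19, 1, 8, 1), (1, 24, 2, 15, 1), (2, 13, 0, 12, 30), (2, 15, 1, 24, 30), (2,
  17, 3, 14, 30), (2, 18, 3, 16, 1), (2, 20, 1, 3, 1), (2, 22, 0, 26, 1), (3, 2, 4, 27, 1), (3, 5, 3, 25, 1), (3, 7,
  6, 21, 30), (3, 9, 0, 1, 1), (3, 14, 2, 17, 1), (3, 16, 2, 18, 30), (3, 21, 0, 7, 30), (3, 23, 6, 29, 1), (3, 25, 3,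
  5, 30), (3, 28, 4, 10, 30), (4, 1, 5, 9, 30), (4, 6, 5, 6, 1), (4, 8, 7, 19, 30), (4, 10, 3, 28, 1), (4, 13, 1, 12,
  30), (4, 15, 6, 24, 30), (4, 22, 6, 26, 1), (4, 24, 1, 15, 1), (4, 27, 3, 2, 30), (4, 29, 7, 23, 1), (5, 4, 5, 11,
  1), (5, 6, 4, 6, 30), (5, 9, 4, 1, 1), (5, 11, 5, 4, 30), (5, 20, 0, 3, 30), (5, 25, 0, 5, 1), (6, 21, 3, 7, 1), (6,
  24, 4, 15, 1), (6, 26, 4, 22, 30), (6, 29, 3, 23, 30), (7, 14, 1, 17, 30), (7, 19, 4, 8, 1), (7, 23, 4, 29, 30), (7,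
  28, 1, 10, 1)],
  [(0, 2, 1, 27, 30), (0, 4, 6, 11, 30), (0, 13, 2, 12, 30), (0, 18, 2, 16, 1), (0, 27, 6, 2, 1), (0, 29, 1, 23, 1), (1,
  2, 6, 27, 30), (1, 6, 3, 6, 1), (1, 9, 7, 1, 30), (1, 11, 7, 4, 1), (1, 14, 3, 17, 30), (1, 18, 6, 16, 1), (1, 23,
  0, 29, 30), (1, 27, 0, 2, 1), (2, 7, 2, 21, 1), (2, 12, 0, 13, 1), (2, 16, 0, 18, 30), (2, 21, 2, 7, 30), (3, 1, 7,
  9, 30), (3, 3, 3, 20, 1), (3, 6, 1, 6, 30), (3, 8, 6, 19, 30), (3, 15, 6, 24, 1), (3, 17, 1, 14, 1), (3, 20, 3, 3,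
  30), (3, 22, 7, 26, 1), (3, 24, 5, 15, 30), (3, 29, 5, 23, 1), (4, 5, 4, 25, 1), (4, 9, 5, 1, 30), (4, 14, 7, 17,
  1), (4, 16, 7, 18, 30), (4, 21, 5, 7, 1), (4, 25, 4, 5, 30), (5, 1, 4, 9, 1), (5, 7, 4, 21, 30), (5, 10, 5, 28, 1),
  (5, 12, 7, 13, 30), (5, 15, 3, 24, 1), (5, 23, 3, 29, 30), (5, 26, 7, 22, 1), (5, 28, 5, 10, 30), (6, 2, 0, 27, 30),
  (6, 11, 0, 4, 1), (6, 16, 1, 18, 30), (6, 19, 3, 8, 1), (6, 24, 3, 15, 30), (6, 27, 1, 2, 1), (7, 1, 1, 9, 1), (7,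
  4, 1, 11, 30), (7, 9, 3, 1, 1), (7, 13, 5, 12, 1), (7, 17, 4, 14, 30), (7, 18, 4, 16, 1), (7, 22, 5, 26, 30), (7,
  26, 3, 22, 30)],
  [(0, 1, 6, 9, 30), (0, 3, 0, 20, 1), (0, 6, 2, 6, 30), (0, 17, 2, 14, 1), (0, 20, 0, 3, 30), (0, 22, 6, 26, 1), (0,
  25, 3, 5, 1), (0, 28, 3, 10, 30), (1, 4, 5, 11, 30), (1, 8, 5, 19, 1), (1, 13, 6, 12, 1), (1, 29, 6, 23, 30), (2, 6,
  0, 6, 1), (2, 9, 6, 1, 1), (2, 11, 6, 4, 30), (2, 14, 0, 17, 30), (3, 5, 0, 25, 30), (3, 10, 0, 28, 1), (3, 19, 5,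
  8, 1), (3, 21, 4, 7, 30), (3, 24, 4, 15, 1), (3, 26, 5, 22, 30), (4, 2, 5, 27, 1), (4, 4, 7, 11, 30), (4, 7, 3, 21,
  1), (4, 15, 3, 24, 30), (4, 18, 7, 16, 1), (4, 20, 5, 3, 30), (4, 23, 4, 29, 1), (4, 29, 4, 23, 30), (5, 3, 4, 20,
  1), (5, 5, 5, 25, 30), (5, 8, 3, 19, 30), (5, 11, 1, 4, 1), (5, 14, 6, 17, 1), (5, 16, 6, 18, 30), (5, 19, 1, 8,
  30), (5, 22, 3, 26, 1), (5, 25, 5, 5, 1), (5, 27, 4, 2, 30), (6, 1, 2, 9, 30), (6, 4, 2, 11, 1), (6, 9, 0, 1, 1),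
  (6, 12, 1, 13, 30), (6, 15, 7, 24, 1), (6, 17, 5, 14, 30), (6, 18, 5, 16, 1), (6, 20, 7, 3, 30), (6, 23, 1, 29, 1),
  (6, 26, 0, 22, 30), (7, 3, 6, 20, 1), (7, 8, 7, 19, 1), (7, 11, 4, 4, 1), (7, 16, 4, 18, 30), (7, 19, 7, 8, 30), (7,
  24, 6, 15, 30)],
  [(0, 2, 2, 27, 30), (0, 5, 1, 25, 1), (0, 7, 5, 21, 1), (0, 8, 4, 19, 1), (0, 10, 4, 28, 30), (0, 11, 5, 4, 30), (0,
  13, 1, 12, 30), (0, 16, 2, 18, 1), (1, 12, 0, 13, 1), (1, 16, 5, 18, 30), (1, 17, 4, 14, 30), (1, 20, 4, 3, 1), (1,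
  21, 5, 7, 1), (1, 25, 0, 5, 30), (2, 18, 0, 16, 30), (2, 19, 6, 8, 30), (2, 21, 7, 7, 1), (2, 22, 5, 26, 1), (2, 23,
  5, 29, 30), (2, 24, 7, 15, 30), (2, 26, 6, 22, 1), (2, 27, 0, 2, 1), (3, 1, 3, 9, 1), (3, 4, 4, 11, 1), (3, 6, 4, 6,
  30), (3, 9, 3, 1, 30), (4, 3, 1, 20, 30), (4, 6, 3, 6, 1), (4, 11, 3, 4, 30), (4, 14, 1, 17, 1), (4, 19, 0, 8, 30),
  (4, 28, 0, 10, 1), (5, 4, 0, 11, 1), (5, 7, 1, 21, 30), (5, 10, 7, 28, 1), (5, 12, 5, 13, 30), (5, 13, 5, 12, 1),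
  (5, 15, 7, 24, 30), (5, 18, 1, 16, 1), (5, 21, 0, 7, 30), (5, 26, 2, 22, 30), (5, 29, 2, 23, 1), (6, 3, 7, 20, 30),
  (6, 5, 6, 25, 1), (6, 8, 2, 19, 1), (6, 22, 2, 26, 30), (6, 25, 6, 5, 30), (6, 27, 7, 2, 1), (7, 2, 6, 27, 30), (7,
  7, 2, 21, 30), (7, 15, 2, 24, 1), (7, 20, 6, 3, 1), (7, 23, 7, 29, 1), (7, 24, 5, 15, 1), (7, 28, 5, 10, 30), (7,
  29, 7, 23, 30)],
  [(0, 9, 1, 1, 30), (0, 12, 7, 13, 1), (0, 14, 7, 17, 30), (0, 17, 1, 14, 1), (1, 1, 0, 9, 1), (1, 5, 2, 25, 1), (1,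
  10, 2, 28, 30), (1, 14, 0, 17, 30), (1, 18, 3, 16, 30), (1, 19, 7, 8, 30), (1, 22, 4, 26, 30), (1, 23, 4, 29, 1),
  (1, 26, 7, 22, 1), (1, 27, 3, 2, 1), (2, 3, 2, 20, 1), (2, 20, 2, 3, 30), (2, 24, 6, 15, 1), (2, 25, 1, 5, 30), (2,
  28, 1, 10, 1), (2, 29, 6, 23, 30), (3, 2, 1, 27, 30), (3, 7, 4, 21, 1), (3, 11, 4, 4, 30), (3, 16, 1, 18, 1), (4, 4,
  3, 11, 1), (4, 8, 5, 19, 1), (4, 12, 4, 13, 30), (4, 13, 4, 12, 1), (4, 17, 5, 14, 30), (4, 21, 3, 7, 30), (4, 26,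
  1, 22, 1), (4, 29, 1, 23, 30), (5, 6, 6, 6, 1), (5, 11, 7, 4, 1), (5, 14, 4, 17, 1), (5, 19, 4, 8, 30), (5, 22, 7,
  26, 30), (5, 27, 6, 2, 30), (6, 1, 7, 9, 1), (6, 2, 5, 27, 1), (6, 6, 5, 6, 30), (6, 7, 7, 21, 30), (6, 10, 6, 28,
  30), (6, 15, 2, 24, 30), (6, 23, 2, 29, 1), (6, 28, 6, 10, 1), (7, 4, 5, 11, 30), (7, 5, 7, 25, 30), (7, 8, 1, 19,
  1), (7, 9, 6, 1, 30), (7, 13, 0, 12, 30), (7, 17, 0, 14, 1), (7, 21, 6, 7, 1), (7, 22, 1, 26, 30), (7, 25, 7, 5, 1),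
  (7, 26, 5, 22, 1)]]

/-- Entry of a table. -/
def en (t : List (List ℕ)) (m i : ℕ) : ℕ := (t.getD (m % 30) []).getD i 0

/-- The element of `E_v` with the coordinates `s`: `s_j` at `α_j`, `j < 8`, and Cartan part `s_8 • vm v`. -/
def toE (v : ℕ) (s : List ℕ) : Chev F where
  h := fun i => (s.getD 8 0 : F) * (en vmT v i : F)
  x := fun a => ∑ k ∈ Finset.range 30, ∑ j : Fin 8, if rt k j = a then
    (etk k j : F) * 3 ^ (v * k) * (s.getD j 0 : F) else 0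

/-- Root part of the bracket. -/
def brt (a b : ℕ) (s t : List ℕ) (l : ℕ) : ℕ :=
  ((tab.getD l []).foldl (fun acc e => acc + e.2.2.2.2 * 3 ^ ((a * e.2.1 + b * e.2.2.2.1) % 30) *
    s.getD e.1 0 * t.getD e.2.2.1 0) 0) % 31

/-- Bracket of the elements with coordinates `s ∈ E_a`, `t ∈ E_b`. -/
def brc (a b : ℕ) (s t : List ℕ) : List ℕ :=
  (List.range 8).map (fun l => (s.getD 8 0 * en prT a l * t.getD l 0 + 30 * t.getD 8 0 * en prT b l * s.getD l 0 +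
    brt a b s t l) % 31) ++
  [((if b % 2 = 0 then 30 else 1) * ((List.range 8).foldl (fun acc j => acc + s.getD j 0 * t.getD j 0 *
    en kaT (a + b) j) 0)) % 31]

/-- The form on `E_a × E_b`, `a + b ≡ 0`. -/
def frm (b : ℕ) (s t : List ℕ) : ℕ :=
  ((if b % 2 = 0 then 1 else 30) * ((List.range 8).foldl (fun acc j => acc + s.getD j 0 * t.getD j 0) 0) +
    s.getD 8 0 * t.getD 8 0 * ((List.range 8).foldl (fun acc j => acc + en vmT b j * en prT (29 * b) j) 0)) % 31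

end Pool.Agent.Helper64.E8C
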