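import Pool.Agent.Helper64.E8C.BrA
import Pool.Agent.Helper64.E8C.Defs

/-!
# Block E8C-BR: the ring `B = 𝔽₃₁[λ] / λ ^ 30`

`AdjoinRoot.modByMonicHom_mk`, `AdjoinRoot.mk_leftInverse`: `cf v (AdjoinRoot.mk _ p) = (p %ₘ X ^ 30).coeff v`, which is `p.coeff v` for `v < 30`
(`p = (p %ₘ X ^ 30) + X ^ 30 * (p /ₘ X ^ 30)`) and `0` for `v ≥ 30` (degree). Every element of `B` is `mk p`.
* `cf_mul`: `Polynomial.coeff_mul`. `cf_sB`: `sB (mk p) = mk (p.comp (3 X))` or check on `lam ^ w` and use `sum_cf`.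
* `ex_add`: compare `cf v`, `v < 30`: `∑_{i + j = v} k ^ i / i! * (l ^ j / j!) = (k + l) ^ v / v!` in `ZMod 31` (binomial theorem `add_pow`,
  `v ! ≠ 0` for `v < 31`: `Nat.Prime.dvd_factorial`, `Nat.choose_mul_factorial_mul_factorial`; or `Finset.Nat.sum_antidiagonal_...`).
* `isUnit_of_cf`: `b = c + λ b'` with `c ≠ 0` a constant: unit plus nilpotent.
-/

set_option autoImplicit false

namespace Pool.Agent.Helper64.E8C

open Pool.Agent.Helper73.E8 Pool.Agent.Helper2.E8A NumberField Polynomial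

private theorem fact_ne11 {v : ℕ} (hv : v < 31) : ((v.factorial : ℕ) : F) ≠ 0 := by
  rw [Ne, ZMod.natCast_eq_zero_iff, Nat.Prime.dvd_factorial (by norm_num)]
  omega

private theorem split_lam11 (b : B) : ∃ c, b = lam * c + algebraMap F B (cf 0 b) := by
  have h1 : ∑ v ∈ Finset.range 30, algebraMap F B (cf v b) * lam ^ v =
      ∑ v ∈ Finset.range 29, algebraMap F B (cf (v + 1) b) * lam ^ (v + 1) + algebraMap F B (cf 0 b) * lam ^ 0 :=
    Finset.sum_range_succ' (fun v => algebraMap F B (cf v b) * lam ^ v) 29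
  have h2 : ∑ v ∈ Finset.range 29, algebraMap F B (cf (v + 1) b) * lam ^ (v + 1) =
      lam * ∑ v ∈ Finset.range 29, algebraMap F B (cf (v + 1) b) * lam ^ v := by
    rw [Finset.mul_sum]
    refine Finset.sum_congr rfl fun v _ => ?_
    rw [pow_succ lam v, mul_comm lam (algebraMap F B (cf (v + 1) b) * lam ^ v), mul_assoc]
  rw [pow_zero, mul_one, h2] at h1
  exact ⟨_, (sum_cf b).trans h1⟩

private theorem exists_lam_mul11 {b : B} (h : cf 0 b = 0) : ∃ c, b = lam * c := by
  obtain ⟨c, hc⟩ := split_lam11 b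
  rw [h, map_zero, add_zero] at hc
  exact ⟨c, hc⟩

private theorem isUnit_of_cf11 {b : B} (h : cf 0 b ≠ 0) : IsUnit b := by
  obtain ⟨c, hc⟩ := split_lam11 b
  rw [hc]
  have h1 : IsNilpotent (lam * c) := ⟨30, by rw [mul_pow, lam_pow, zero_mul]⟩
  have h2 : IsUnit (algebraMap F B (cf 0 b)) := (isUnit_iff_ne_zero.2 h).map (algebraMap F B)
  exact h1.isUnit_add_right_of_commute h2 (Commute.all _ _)

private theorem cf_lam_mul11 (v : ℕ) (hv : v < 29) (b : B) : cf (v + 1) (lam * b) = cf v b := by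
  have h1 : ∀ i, cf i lam = if i = 1 then 1 else 0 := by
    intro i
    have h2 := cf_lam i (show 1 < 30 by norm_num) (1 : F)
    rwa [map_one, one_mul, pow_one] at h2
  rw [cf_mul (by omega), Finset.sum_eq_single (1, v)]
  · rw [h1, if_pos rfl, one_mul]
  · rintro ⟨i, j⟩ hp hne
    have hij : i + j = v + 1 := Finset.HasAntidiagonal.mem_antidiagonal.1 hp
    change cf i lam * cf j b = 0
    rw [h1, if_neg, zero_mul]
    rintro rfl
    exact hne (Prod.ext rfl (by change j = v; omega))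
  · intro h
    exact absurd (Finset.HasAntidiagonal.mem_antidiagonal.2 (by change 1 + v = v + 1; omega)) h

theorem cf_ex {v : ℕ} (hv : v < 30) (k : F) : cf v (ex k) = k ^ v / (v.factorial : F) := by
  unfold ex
  rw [map_sum, Finset.sum_congr rfl fun w hw => cf_lam v (Finset.mem_range.1 hw) _, Finset.sum_ite_eq,
    if_pos (Finset.mem_range.2 hv)]

theorem ex_add (k l : F) : ex k * ex l = ex (k + l) := by
  refine cf_ext fun v hv => ?_
  rw [cf_mul hv, cf_ex hv, (Commute.all k l).add_pow', Finset.sum_div]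
  refine Finset.sum_congr rfl fun p hp => ?_
  obtain ⟨i, j⟩ := p
  have hij : i + j = v := Finset.HasAntidiagonal.mem_antidiagonal.1 hp
  change cf i (ex k) * cf j (ex l) = (v.choose i • (k ^ i * l ^ j)) / (v.factorial : F)
  rw [cf_ex (by omega), cf_ex (by omega), nsmul_eq_mul]
  have h1 : ((v.choose i : ℕ) : F) * (i.factorial : F) * (j.factorial : F) = (v.factorial : F) := by
    have h2 := Nat.choose_mul_factorial_mul_factorial (Nat.le_add_right i j)
    rw [Nat.add_sub_cancel_left, hij] at h2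
    rw [← Nat.cast_mul, ← Nat.cast_mul, h2]
  have hi := fact_ne11 (show i < 31 by omega)
  have hj := fact_ne11 (show j < 31 by omega)
  have hv' := fact_ne11 (show v < 31 by omega)
  rw [div_mul_div_comm, div_eq_div_iff (mul_ne_zero hi hj) hv', ← h1]
  ring

theorem ex_zero : ex 0 = 1 := by
  refine cf_ext fun v hv => ?_
  rw [cf_ex hv, ← map_one (algebraMap F B), cf_algebraMap]
  by_cases h : v = 0
  · subst h
    rw [if_pos rfl, pow_zero, Nat.factorial_zero, Nat.cast_one, div_one]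
  · rw [if_neg h, zero_pow h, zero_div]

theorem ex_pow (k : F) (n : ℕ) : ex k ^ n = ex (n * k) := by
  induction n with
  | zero => rw [pow_zero, Nat.cast_zero, zero_mul, ex_zero]
  | succ n ih => rw [pow_succ, ih, ex_add, Nat.cast_succ, add_mul, one_mul]

theorem sB_ex (k : F) : sB (ex k) = ex (3 * k) := by
  refine cf_ext fun v hv => ?_
  rw [cf_sB, cf_ex hv, cf_ex hv, mul_pow, mul_div_assoc]

theorem ex_one_sub : ∃ u : B, IsUnit u ∧ ex 1 - 1 = lam * u := by
  have h0 : cf 0 (ex 1 - 1) = 0 := by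
    rw [map_sub, cf_ex (by norm_num), ← map_one (algebraMap F B), cf_algebraMap, if_pos rfl, pow_zero,
      Nat.factorial_zero, Nat.cast_one, div_one, sub_self]
  obtain ⟨c, hc⟩ := exists_lam_mul11 h0
  refine ⟨c, isUnit_of_cf11 ?_, hc⟩
  rw [← cf_lam_mul11 0 (by norm_num) c, ← hc, map_sub, cf_ex (by norm_num), ← map_one (algebraMap F B), cf_algebraMap,
    if_neg (by norm_num), sub_zero, zero_add, pow_one, Nat.factorial_one, Nat.cast_one, div_one]
  exact one_ne_zero

theorem ex_sub_one_pow : (ex 1 - 1) ^ 30 = 0 := by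
  obtain ⟨u, -, hu⟩ := ex_one_sub
  rw [hu, mul_pow, lam_pow, zero_mul]

theorem isUnit_of_cf {b : B} (h : cf 0 b ≠ 0) : IsUnit b := by
  exact isUnit_of_cf11 h

theorem exists_lam_mul {b : B} (h : cf 0 b = 0) : ∃ c, b = lam * c := by
  exact exists_lam_mul11 h

/-- Multiplication by `λ` shifts the coefficients. -/
theorem cf_lam_mul (v : ℕ) (hv : v < 29) (b : B) : cf (v + 1) (lam * b) = cf v b := by
  exact cf_lam_mul11 v hv b

end Pool.Agent.Helper64.E8C
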