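import Pool.Agent.Helper64.E8C.Cm
import Pool.Agent.Helper64.E8C.Bring

/-!
# Block E8C-PU: components of the elements of the Chevalley algebra over `B`

All statements follow coordinatewise from Bring.lean (`cf_lam`, `sum_cf`, `cf_ext`, `cf_mul`, `cf_sB`). The bracket is bilinear with integer
structure constants (`brk_h`, `brk_x`), so `cmp_lie` is `cf_mul`; it is convenient to prove first `pu_lie` (by `cm`-type computation:
`pu v s = lam ^ v • cm (algebraMap F B) s`, `cm_lie`, bilinearity) and `cmp_pu`, `sum_pu`, and to deduce `cmp_lie` from bilinearity.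
-/

set_option autoImplicit false

namespace Pool.Agent.Helper64.E8C

open Pool.Agent.Helper73.E8 Pool.Agent.Helper2.E8A NumberField Polynomial

theorem pu_eq (v : ℕ) (s : Chev F) : pu v s = lam ^ v • cm (algebraMap F B) s := by
  ext i
  · change algebraMap F B (s.h i) * lam ^ v = lam ^ v * algebraMap F B (s.h i)
    rw [mul_comm]
  · change algebraMap F B (s.x i) * lam ^ v = lam ^ v * algebraMap F B (s.x i)
    rw [mul_comm]

theorem cmp_add (v : ℕ) (b c : Chev B) : cmp v (b + c) = cmp v b + cmp v c := by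
  ext i
  · exact map_add (cf v) _ _
  · exact map_add (cf v) _ _

theorem cmp_zero (v : ℕ) : cmp v (0 : Chev B) = 0 := by
  ext i
  · exact map_zero (cf v)
  · exact map_zero (cf v)

theorem cf_algebraMap_mul (v : ℕ) (c : F) (t : B) : cf v (algebraMap F B c * t) = c * cf v t := by
  rw [← Algebra.smul_def, map_smul, smul_eq_mul]

theorem cf_int_mul (v : ℕ) (n : ℤ) (t : B) : cf v ((n : B) * t) = (n : F) * cf v t := by
  have h := cf_algebraMap_mul v (n : F) t
  rwa [map_intCast] at h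

theorem cf_mul_int (v : ℕ) (n : ℤ) (t : B) : cf v (t * (n : B)) = cf v t * (n : F) := by
  rw [mul_comm, cf_int_mul, mul_comm]

theorem cmp_smul (v : ℕ) (c : F) (b : Chev B) : cmp v (algebraMap F B c • b) = c • cmp v b := by
  ext i
  · exact cf_algebraMap_mul v c _
  · exact cf_algebraMap_mul v c _

theorem cmp_ext {b c : Chev B} (h : ∀ v < 30, cmp v b = cmp v c) : b = c := by
  apply Chev.ext
  · funext i
    apply cf_ext
    intro v hv
    exact congrArg (fun y : Chev F => y.h i) (h v hv)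
  · funext a
    apply cf_ext
    intro v hv
    exact congrArg (fun y : Chev F => y.x a) (h v hv)

theorem cmp_pu (v : ℕ) {w : ℕ} (hw : w < 30) (s : Chev F) : cmp v (pu w s) = if v = w then s else 0 := by
  split_ifs with h
  · ext i
    · change cf v (algebraMap F B (s.h i) * lam ^ w) = s.h i
      rw [cf_lam v hw, if_pos h]
    · change cf v (algebraMap F B (s.x i) * lam ^ w) = s.x i
      rw [cf_lam v hw, if_pos h]
  · ext i
    · change cf v (algebraMap F B (s.h i) * lam ^ w) = 0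
      rw [cf_lam v hw, if_neg h]
    · change cf v (algebraMap F B (s.x i) * lam ^ w) = 0
      rw [cf_lam v hw, if_neg h]

theorem cmp_sum {ι : Type*} (v : ℕ) (S : Finset ι) (f : ι → Chev B) :
    cmp v (∑ i ∈ S, f i) = ∑ i ∈ S, cmp v (f i) := by
  let φ : Chev B →+ Chev F := ⟨⟨cmp v, cmp_zero v⟩, cmp_add v⟩
  exact map_sum φ f S

theorem sum_pu (b : Chev B) : b = ∑ v ∈ Finset.range 30, pu v (cmp v b) := by
  apply cmp_ext
  intro v hv
  rw [cmp_sum, Finset.sum_congr rfl (fun w hw => cmp_pu v (Finset.mem_range.1 hw) (cmp w b)),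
    Finset.sum_ite_eq, if_pos (Finset.mem_range.2 hv)]

theorem pu_add (v : ℕ) (s t : Chev F) : pu v (s + t) = pu v s + pu v t := by
  rw [pu_eq, pu_eq, pu_eq, cm_add, smul_add]

theorem pu_smul (v : ℕ) (c : F) (s : Chev F) : pu v (c • s) = algebraMap F B c • pu v s := by
  rw [pu_eq, pu_eq, cm_smul, smul_comm]

theorem pu_lie (v w : ℕ) (s t : Chev F) : ⁅pu v s, pu w t⁆ = pu (v + w) ⁅s, t⁆ := by
  rw [pu_eq, pu_eq, pu_eq, smul_lie, lie_smul, smul_smul, ← cm_lie, pow_add]

theorem pu_ge {v : ℕ} (hv : 30 ≤ v) (s : Chev F) : pu v s = 0 := by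
  have h : lam ^ v = 0 := by
    obtain ⟨k, rfl⟩ := Nat.exists_eq_add_of_le hv
    rw [pow_add, lam_pow, zero_mul]
  rw [pu_eq, h, zero_smul]

theorem cmp_lie {v : ℕ} (hv : v < 30) (b c : Chev B) :
    cmp v ⁅b, c⁆ = ∑ p ∈ Finset.HasAntidiagonal.antidiagonal v, ⁅cmp p.1 b, cmp p.2 c⁆ := by
  have h1 : ⁅b, c⁆ = ∑ i ∈ Finset.range 30, ∑ j ∈ Finset.range 30, pu (i + j) ⁅cmp i b, cmp j c⁆ := by
    conv_lhs => rw [sum_pu b, sum_pu c]
    rw [sum_lie]
    refine Finset.sum_congr rfl fun i _ => ?_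
    rw [lie_sum]
    refine Finset.sum_congr rfl fun j _ => ?_
    rw [pu_lie]
  have h2 : ∀ i j : ℕ, cmp v (pu (i + j) ⁅cmp i b, cmp j c⁆) =
      if i + j = v then ⁅cmp i b, cmp j c⁆ else 0 := by
    intro i j
    rcases lt_or_ge (i + j) 30 with h | h
    · rw [cmp_pu v h]
      by_cases h3 : i + j = v
      · rw [if_pos h3, if_pos h3.symm]
      · rw [if_neg h3, if_neg (fun h4 => h3 h4.symm)]
    · rw [pu_ge h, cmp_zero, if_neg (by omega)]
  rw [h1, cmp_sum]
  simp only [cmp_sum, h2]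
  rw [← Finset.sum_product', ← Finset.sum_filter]
  refine Finset.sum_congr ?_ fun _ _ => rfl
  ext ⟨i, j⟩
  simp only [Finset.mem_filter, Finset.mem_product, Finset.mem_range,
    Finset.HasAntidiagonal.mem_antidiagonal]
  omega

theorem cmp_pu_lie {v w : ℕ} (hv : v < 30) (hw : w ≤ v) (s : Chev F) (b : Chev B) :
    cmp v ⁅pu w s, b⁆ = ⁅s, cmp (v - w) b⁆ := by
  rw [cmp_lie hv, Finset.sum_eq_single (w, v - w)]
  · rw [cmp_pu w (by omega), if_pos rfl]
  · rintro ⟨i, j⟩ h1 h2
    rw [Finset.HasAntidiagonal.mem_antidiagonal] at h1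
    rw [cmp_pu i (by omega), if_neg, zero_lie]
    intro h3
    apply h2
    simp only at h1 h3 ⊢
    rw [Prod.mk.injEq]
    omega
  · intro h1
    exfalso
    apply h1
    rw [Finset.HasAntidiagonal.mem_antidiagonal]
    simp only
    omega

theorem cmp_pu_lie' {v w : ℕ} (hv : v < 30) (hw : v < w) (s : Chev F) (b : Chev B) :
    cmp v ⁅pu w s, b⁆ = 0 := by
  rcases lt_or_ge w 30 with h | h
  · rw [cmp_lie hv]
    apply Finset.sum_eq_zero
    rintro ⟨i, j⟩ h1
    rw [Finset.HasAntidiagonal.mem_antidiagonal] at h1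
    simp only at h1
    rw [cmp_pu i h, if_neg (by omega), zero_lie]
  · rw [pu_ge h, zero_lie, cmp_zero]

theorem cf_bf {v : ℕ} (hv : v < 30) (b c : Chev B) :
    cf v (Chev.bf b c) = ∑ p ∈ Finset.HasAntidiagonal.antidiagonal v, Chev.bf (cmp p.1 b) (cmp p.2 c) := by
  have h1 : ∀ (n : ℤ) (s t : B), cf v (s * (n : B) * t) =
      ∑ p ∈ Finset.HasAntidiagonal.antidiagonal v, cf p.1 s * (n : F) * cf p.2 t := by
    intro n s t
    rw [cf_mul hv]
    refine Finset.sum_congr rfl fun p _ => ?_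
    rw [cf_mul_int]
  simp only [Chev.bf, map_sub, map_sum, h1, cf_mul hv, Finset.sum_sub_distrib]
  congr 1
  · rw [Finset.sum_congr rfl (fun i _ => Finset.sum_comm), Finset.sum_comm]
    rfl
  · rw [Finset.sum_comm]
    rfl

theorem Fx_iff_cmp (b : Chev B) : Fx sB b ↔ ∀ v < 30, Ev v (cmp v b) := by
  have hh : ∀ (v : ℕ) (j : Fin 8), cf v (∑ i, sB (b.h i) * (Wmat i j : B)) =
      ∑ i, 3 ^ v * (cmp v b).h i * (Wmat i j : F) := by
    intro v j
    rw [map_sum]
    refine Finset.sum_congr rfl fun i _ => ?_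
    rw [cf_mul_int, cf_sB]
    rfl
  have hx : ∀ (v : ℕ) (a : Root), cf v (((et a.1 : ℤ) : B) * sB (b.x a)) =
      ((et a.1 : ℤ) : F) * (3 ^ v * (cmp v b).x a) := by
    intro v a
    rw [cf_int_mul, cf_sB]
    rfl
  constructor
  · rintro ⟨h1, h2⟩ v hv
    refine ⟨fun j => ?_, fun a => ?_⟩
    · rw [← hh, ← h1]
      rfl
    · rw [← hx, ← h2]
      rfl
  · intro h
    refine ⟨fun j => ?_, fun a => ?_⟩
    · apply cf_ext
      intro v hv
      rw [hh]
      exact (h v hv).1 j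
    · apply cf_ext
      intro v hv
      rw [hx]
      exact (h v hv).2 a

theorem Ev_zero (v : ℕ) : Ev v (0 : Chev F) := by
  refine ⟨fun j => ?_, fun a => ?_⟩
  · change (0 : F) = ∑ i, 3 ^ v * 0 * (Wmat i j : F)
    simp
  · change (0 : F) = ((et a.1 : ℤ) : F) * (3 ^ v * 0)
    simp

theorem Fx_pu {v : ℕ} (hv : v < 30) {s : Chev F} (h : Ev v s) : Fx sB (pu v s) := by
  rw [Fx_iff_cmp]
  intro w hw
  rw [cmp_pu w hv]
  split_ifs with h1
  · rw [h1]
    exact h
  · exact Ev_zero w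

end Pool.Agent.Helper64.E8C
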