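import Pool.Agent.Helper64.E8C.A1
import Pool.Agent.Helper64.E8C.Vec
import Pool.Agent.Helper64.E8C.Pu

/-!
# Block E8C-A2: the Cartan parts of the elements of `L`, and the elements of the Cartan subalgebra in `L`

* `cart_dvd`: `cm ev X` satisfies `Fx sB` (`Fx_cm`, `ev_so`), so `cmp 0 (cm ev X) ∈ E_0` (`Fx_iff_cmp`) has Cartan part zero (`Ev_cart_zero`); `pO_dvd_iff`.
* `proj_mem`: `∑_{i < 31} g ^ i y = 31 • ⟨y.h, 0⟩`: `ζ ^ (ht a)` is a primitive 31st root of unity for a root `a` (`ht_root_ne_zero`, `abs_ht_root_le`),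
  so `∑_{i<31} ζ ^ (i ht a) = 0`.
* `cart_dvd31`: `proj_mem` is in `L` with root part zero, so it is integral (`cart_int`), and `cart_dvd` applies (`Fx_inc`, `fx`).
* `cart_mem`: let `y = inc y'`, `y.x = 0`, `Fx σ y`. For `z ∈ L`: `y'.h i = pO * d i` (`cart_dvd`), `31 z.h i = pO * c i` (`cart_dvd31`), so
  `31 bf y z = pO ^ 2 * (integral)`, and `31 = u pO ^ 30` gives `pO ^ 29 bf y z` integral: `bf_int`, `dual`.
-/

set_option autoImplicit false

namespace Pool.Agent.Helper64.E8C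

open Pool.Agent.Helper73.E8 Pool.Agent.Helper2.E8A NumberField Polynomial

theorem cart_dvd {X : Chev O} (h : Fx so X) (i : Fin 8) : pO ∣ X.h i := by
  have h1 : Fx sB (cm ev X) := Fx_cm (f := ev) (s := so) (s' := sB) ev_so h
  have h2 : Ev 0 (cmp 0 (cm ev X)) := (Fx_iff_cmp _).1 h1 0 (by norm_num)
  have h3 := congrFun (Ev_cart_zero (dvd_zero 30) h2) i
  exact (pO_dvd_iff _).2 h3

theorem gg_iter_mem {L : AddSubgroup (Chev K)} (hL : IsL L) {y : Chev K} (hy : y ∈ L) (n : ℕ) : gg^[n] y ∈ L := by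
  induction n with
  | zero => exact hy
  | succ n ih => rw [Function.iterate_succ_apply']; exact hL.g _ ih

theorem gg_iter (n : ℕ) (y : Chev K) : gg^[n] y = ⟨y.h, fun a => (ζ ^ (ht a.1)) ^ n * y.x a⟩ := by
  induction n with
  | zero =>
    ext a
    · rfl
    · change y.x a = (ζ ^ (ht a.1)) ^ 0 * y.x a
      rw [pow_zero, one_mul]
  | succ n ih =>
    rw [Function.iterate_succ_apply', ih]
    ext a
    · rfl
    · change ζ ^ (ht a.1) * ((ζ ^ (ht a.1)) ^ n * y.x a) = (ζ ^ (ht a.1)) ^ (n + 1) * y.x a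
      ring

theorem sum_zeta_ht (a : Root) : ∑ i ∈ Finset.range 31, (ζ ^ (ht a.1)) ^ i = 0 := by
  have h1 : ζ ^ (ht a.1) ≠ 1 := fun h => by
    have h0 := (hζ.zpow_eq_one_iff_dvd _).1 h
    have h2 := abs_ht_root_le a
    have h3 := ht_root_ne_zero a
    refine h3 (Int.eq_zero_of_abs_lt_dvd h0 ?_)
    push_cast
    omega
  have h2 : (ζ ^ (ht a.1)) ^ 31 = 1 := by
    rw [← zpow_natCast, ← zpow_mul, mul_comm, zpow_mul, zpow_natCast, hζ.pow_eq_one, one_zpow]
  have h3 := geom_sum_mul (ζ ^ (ht a.1)) 31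
  rw [h2, sub_self] at h3
  exact (mul_eq_zero.1 h3).resolve_right (sub_ne_zero.2 h1)

theorem proj_mem {L : AddSubgroup (Chev K)} (hL : IsL L) {y : Chev K} (hy : y ∈ L) :
    (⟨fun i => 31 * y.h i, 0⟩ : Chev K) ∈ L := by
  have h1 : (∑ n ∈ Finset.range 31, gg^[n] y) ∈ L := sum_mem fun n _ => gg_iter_mem hL hy n
  have h2 : (∑ n ∈ Finset.range 31, gg^[n] y) = (⟨fun i => 31 * y.h i, 0⟩ : Chev K) := by
    rw [Finset.sum_congr rfl fun n _ => gg_iter n y]
    ext i
    · rw [Chev.sum_h, Finset.sum_apply, Finset.sum_const, Finset.card_range, nsmul_eq_mul]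
      norm_num
    · rw [Chev.sum_x, Finset.sum_apply, ← Finset.sum_mul, sum_zeta_ht, zero_mul]
      rfl
  rwa [h2] at h1

theorem cart_dvd31 {L : AddSubgroup (Chev K)} (hL : IsL L) {y : Chev K} (hy : y ∈ L) :
    ∃ c : Fin 8 → O, ∀ i, 31 * y.h i = ((pO * c i : O) : K) := by
  have h1 := proj_mem hL hy
  obtain ⟨y', hy'⟩ := cart_int hL h1 rfl
  have h2 : Fx so y' := (Fx_inc y').1 (by rw [hy']; exact hL.fx _ h1)
  choose c hc using fun i => cart_dvd h2 i
  refine ⟨c, fun i => ?_⟩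
  have h3 : (inc y').h i = 31 * y.h i := by rw [hy']
  rw [← h3, ← hc i]
  rfl

theorem cart_mem {L : AddSubgroup (Chev K)} (hL : IsL L) {y' : Chev O} (hy : Fx so y') (h0 : y'.x = 0) : inc y' ∈ L := by
  have hFx : Fx σ (inc y') := (Fx_inc y').2 hy
  refine hL.dual _ hFx fun z hz => ?_
  choose d hd using fun i => cart_dvd hy i
  obtain ⟨c, hc⟩ := cart_dvd31 hL hz
  obtain ⟨u, hu⟩ := thirtyone
  refine bf_int hFx (hL.fx z hz) (pO * ((u⁻¹ : Oˣ) : O) * ∑ i, ∑ j, d i * (CartanMatrix.E₈ i j : O) * c j) ?_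
  have hp : (pO : K) ≠ 0 := fun h => pO_ne (RingOfIntegers.ext h)
  have h31 : (31 : K) = ((u : O) : K) * (pO : K) ^ 30 := by
    have h := congrArg (algebraMap O K) hu
    rw [map_mul, map_pow, map_ofNat] at h
    exact h
  have huu : ((u : O) : K) * (((u⁻¹ : Oˣ) : O) : K) = 1 := by
    have h := congrArg (algebraMap O K) (u.mul_inv)
    rw [map_mul, map_one] at h
    exact h
  have hbf : Chev.bf (inc y') z = ∑ i, ∑ j, ((pO * d i : O) : K) * (CartanMatrix.E₈ i j : K) * z.h j := by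
    unfold Chev.bf
    have h1 : ∑ a : Root, (inc y').x a * z.x (-a) = 0 := by
      refine Finset.sum_eq_zero fun a _ => ?_
      have : (inc y').x a = 0 := by
        change ((y'.x a : O) : K) = 0
        rw [h0]
        rfl
      rw [this, zero_mul]
    rw [h1, sub_zero]
    refine Finset.sum_congr rfl fun i _ => Finset.sum_congr rfl fun j _ => ?_
    rw [← hd i]
    rfl
  have h31' : (31 : K) ≠ 0 := by norm_num
  apply mul_left_cancel₀ h31'
  rw [hbf]
  have h2 : (31 : K) * ((pO : K) ^ 29 * ∑ i, ∑ j, ((pO * d i : O) : K) * (CartanMatrix.E₈ i j : K) * z.h j) =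
      (pO : K) ^ 29 * ∑ i, ∑ j, ((pO * d i : O) : K) * (CartanMatrix.E₈ i j : K) * ((pO * c j : O) : K) := by
    rw [mul_left_comm, Finset.mul_sum]
    refine congrArg _ (Finset.sum_congr rfl fun i _ => ?_)
    rw [Finset.mul_sum]
    refine Finset.sum_congr rfl fun j _ => ?_
    rw [← hc j]
    ring
  rw [h2, h31]
  have h3 : ((pO * ((u⁻¹ : Oˣ) : O) * ∑ i, ∑ j, d i * (CartanMatrix.E₈ i j : O) * c j : O) : K) =
      (pO : K) * (((u⁻¹ : Oˣ) : O) : K) * ∑ i, ∑ j, (d i : K) * (CartanMatrix.E₈ i j : K) * (c j : K) := by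
    simp only [map_mul, map_sum, map_intCast]
  rw [h3]
  have h4 : (pO : K) ^ 29 * ∑ i, ∑ j, ((pO * d i : O) : K) * (CartanMatrix.E₈ i j : K) * ((pO * c j : O) : K) =
      (pO : K) ^ 31 * ∑ i, ∑ j, (d i : K) * (CartanMatrix.E₈ i j : K) * (c j : K) := by
    rw [Finset.mul_sum, Finset.mul_sum]
    refine Finset.sum_congr rfl fun i _ => ?_
    rw [Finset.mul_sum, Finset.mul_sum]
    refine Finset.sum_congr rfl fun j _ => ?_
    simp only [map_mul]
    ring
  rw [h4]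
  linear_combination (pO : K) ^ 31 * (∑ i, ∑ j, (d i : K) * (CartanMatrix.E₈ i j : K) * (c j : K)) * huu

end Pool.Agent.Helper64.E8C
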