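import Pool.Agent.Helper64.E8C.Rt
import Pool.Agent.Helper64.E8C.Cm
import Pool.Agent.Helper64.E8C.Brc

/-!
# Block E8C-KEY: linear algebra over `𝔽₃₁` for the bound of the denominators

`s ∈ E_n` with Cartan part zero, `D + 2 n ≡ 0` modulo 30, `D ≥ 29`; if `bf s (ad (ve m) (ad (ve 1) ^ (D - m) s)) = 0` for the eight `m` prime to 30 then `s = 0`.
Proof. `bf s t = - ∑_a s_a t_(-a)` and `t_b = (vm m, b) (vm 1, b) ^ (D - m) s_b` for the root `b` (`brk_x` with a Cartan element). By `sum_rt`,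
with `b = rt k j`, `-b = rt (k + 15) j`: `s_(rt k j) = etk k j 3 ^ (n k) s_j`, `s_j = s.x (sr j)` (`exists_toE`, `toE_x`), `pr (vm m) (W b) = 3 ^ m pr (vm m) b`
(`Ev m (ve m)` and `W_isom`), so the sum is `- ∑_j s_j ^ 2 (vm m, α_j) (vm 1, α_j) ^ (D - m) ∑_k (±) 3 ^ ((2 n + D) k) = ± 30 ∑_j s_j ^ 2 (vm m, α_j)` as
`(vm 1, α_j) = 1`. The matrix `(vm m, α_j)` is invertible modulo 31 (`prI` is the inverse, `decide`), so `s_j ^ 2 = 0` for all `j`.
-/

set_option autoImplicit false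

namespace Pool.Agent.Helper64.E8C

open Pool.Agent.Helper73.E8 Pool.Agent.Helper2.E8A NumberField Polynomial

/-- Inverse of the matrix of the rows 1, 7, 11, 13, 17, 19, 23, 29 of `prT`. -/
def prI : List (List ℕ) := [[19, 29, 0, 15, 6, 8, 10, 7], [11, 17, 7, 6, 26, 14, 3, 9], [21, 11, 19, 12, 25, 4, 4,
  28], [4, 10, 6, 30, 2, 4, 5, 1], [17, 0, 14, 0, 29, 0, 23, 10], [14, 19, 0, 26, 5, 20, 7, 2], [1, 11, 22, 14, 20, 5,
  12, 8], [7, 27, 25, 21, 11, 7, 29, 28]]

/-- `ad (ve 1) ^ r s`. -/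
noncomputable def adp (z : Chev F) (r : ℕ) (s : Chev F) : Chev F := (fun t => ⁅z, t⁆)^[r] s

private theorem Wmat_isom50 (k l : Fin 8) :
    ∑ i, ∑ j, Wmat k i * CartanMatrix.E₈ i j * Wmat l j = CartanMatrix.E₈ k l := by
  revert k l
  decide

private theorem pr_nn50 (y : Chev F) (c : Helper73.E8.Lat) : Chev.pr (nn y).h (W c) = Chev.pr y.h c := by
  have hW : ∀ j, ((W c j : ℤ) : F) = ∑ l, (c l : F) * (Wmat l j : F) := by
    intro j
    rw [W_apply]
    push_cast
    rfl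
  have hn : ∀ j, (nn y).h j = ∑ i, y.h i * (Wmat i j : F) := fun j => rfl
  have h1 : Chev.pr (nn y).h (W c) = ∑ k, ∑ l, y.h k *
      ((∑ i, ∑ j, Wmat k i * CartanMatrix.E₈ i j * Wmat l j : ℤ) : F) * (c l : F) := by
    simp only [Chev.pr, hW, hn, Finset.sum_mul, Finset.mul_sum, Int.cast_sum, Int.cast_mul]
    calc ∑ i, ∑ j, ∑ l, ∑ k, y.h k * (Wmat k i : F) * (CartanMatrix.E₈ i j : F) * ((c l : F) * (Wmat l j : F))
        = ∑ i, ∑ k, ∑ l, ∑ j, y.h k * (Wmat k i : F) * (CartanMatrix.E₈ i j : F) * ((c l : F) * (Wmat l j : F)) := by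
          refine Finset.sum_congr rfl fun i _ => ?_
          rw [Finset.sum_comm]
          rw [Finset.sum_congr rfl fun l _ => Finset.sum_comm]
          rw [Finset.sum_comm]
      _ = ∑ k, ∑ l, ∑ i, ∑ j, y.h k * (Wmat k i : F) * (CartanMatrix.E₈ i j : F) * ((c l : F) * (Wmat l j : F)) := by
          rw [Finset.sum_comm]
          refine Finset.sum_congr rfl fun k _ => ?_
          rw [Finset.sum_comm]
      _ = _ := by
          refine Finset.sum_congr rfl fun k _ => Finset.sum_congr rfl fun l _ =>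
            Finset.sum_congr rfl fun i _ => Finset.sum_congr rfl fun j _ => ?_
          ring
  rw [h1]
  simp only [Wmat_isom50]
  rfl

private theorem pr_smul50 (r : F) (h : Fin 8 → F) (c : Helper73.E8.Lat) : Chev.pr (fun i => r * h i) c = r * Chev.pr h c := by
  simp only [Chev.pr, Finset.mul_sum, mul_assoc]

private theorem pr_ve_rt50 (m k : ℕ) (j : Fin 8) :
    Chev.pr (ve m).h (rt k j).1 = 3 ^ (m * k) * (en prT m j : F) := by
  induction k with
  | zero =>
    rw [Nat.mul_zero, pow_zero, one_mul, ← pr_ve]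
    rfl
  | succ k ih =>
    have h1 : (rt (k + 1) j).1 = W (rt k j).1 := by
      rw [rt_val, rt_val, Function.iterate_succ_apply']
    have hE : Ev m (ve m) := toE_Ev m _
    rw [Ev_iff] at hE
    have h2 : Chev.pr (ve m).h (W (rt k j).1) = 3 ^ m * Chev.pr (ve m).h (rt k j).1 := by
      have h3 : (ve m).h = fun i => (3 : F) ^ m * (nn (ve m)).h i := by
        conv_lhs => rw [← hE]
        rfl
      conv_lhs => rw [h3]
      rw [pr_smul50, pr_nn50]
    rw [h1, h2, ih, ← mul_assoc, ← pow_add]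
    congr 2
    ring

private theorem lie_cart_h50 {z : Chev F} (hz : z.x = 0) (t : Chev F) : ⁅z, t⁆.h = 0 := by
  funext i
  rw [Chev.brk_h, hz]
  simp

private theorem lie_cart_x50 {z : Chev F} (hz : z.x = 0) (t : Chev F) (c : Root) :
    ⁅z, t⁆.x c = Chev.pr z.h c.1 * t.x c := by
  rw [Chev.brk_x, hz]
  simp

private theorem adp_succ50 (z : Chev F) (r : ℕ) (s : Chev F) : adp z (r + 1) s = ⁅z, adp z r s⁆ :=
  Function.iterate_succ_apply' _ _ _

private theorem adp_x50 {z : Chev F} (hz : z.x = 0) (r : ℕ) (s : Chev F) (c : Root) :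
    (adp z r s).x c = (Chev.pr z.h c.1) ^ r * s.x c := by
  induction r with
  | zero =>
    rw [pow_zero, one_mul]
    rfl
  | succ r ih =>
    rw [adp_succ50, lie_cart_x50 hz, ih, pow_succ']
    ring

private theorem bf_h50 {s t : Chev F} (h : t.h = 0) : Chev.bf s t = -∑ a : Root, s.x a * t.x (-a) := by
  unfold Chev.bf
  rw [h]
  simp

private theorem pow_thirty50 {n : ℕ} (h : 30 ∣ n) : (3 : F) ^ n = 1 := by
  rw [three_pow_mod, Nat.mod_eq_zero_of_dvd h, pow_zero]

private theorem prT_one50 : ∀ j : Fin 8, en prT 1 j = 1 := by decide +kernel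

private theorem key_sum50 {n D m : ℕ} (hm : m ≤ D) (h30 : 30 ∣ D + 2 * n) (l : List ℕ) :
    ∑ a : Root, (toE n l).x a * (Chev.pr (ve m).h (-a).1 * ((Chev.pr (ve 1).h (-a).1) ^ (D - m) * (toE n l).x (-a))) =
      -(3 ^ (15 * (D + n)) * ∑ j : Fin 8, (l.getD j 0 : F) ^ 2 * (en prT m j : F)) := by
  obtain ⟨e, rfl⟩ := Nat.exists_eq_add_of_le hm
  rw [Nat.add_sub_cancel_left, sum_rt]
  have h3 : ∀ k ∈ Finset.range 30, ∑ j : Fin 8, (toE n l).x (rt k j) * (Chev.pr (ve m).h (-rt k j).1 *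
      ((Chev.pr (ve 1).h (-rt k j).1) ^ e * (toE n l).x (-rt k j))) =
      3 ^ (15 * (m + e + n)) * ∑ j : Fin 8, (l.getD j 0 : F) ^ 2 * (en prT m j : F) := by
    intro k _
    rw [Finset.mul_sum]
    refine Finset.sum_congr rfl fun j _ => ?_
    rw [← rt_fifteen, pr_ve_rt50, pr_ve_rt50, toE_x, toE_x, etk_fifteen, prT_one50, Nat.cast_one, mul_one, ← pow_mul]
    have h4 : (etk k j : F) * (etk k j : F) = 1 := by
      rw [← Int.cast_mul, etk_sq, Int.cast_one]
    have h5 : (3 : F) ^ (n * k) * 3 ^ (m * (k + 15)) * 3 ^ (1 * (k + 15) * e) * 3 ^ (n * (k + 15)) =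
        3 ^ (15 * (m + e + n)) := by
      have h6 : (3 : F) ^ (n * k) * 3 ^ (m * (k + 15)) * 3 ^ (1 * (k + 15) * e) * 3 ^ (n * (k + 15)) =
          3 ^ ((m + e + 2 * n) * k) * 3 ^ (15 * (m + e + n)) := by
        rw [← pow_add, ← pow_add, ← pow_add, ← pow_add]
        congr 1
        ring
      rw [h6, pow_thirty50 (h30.mul_right k), one_mul]
    calc (etk k j : F) * 3 ^ (n * k) * (l.getD j 0 : F) * (3 ^ (m * (k + 15)) * (en prT m j : F) *
          (3 ^ (1 * (k + 15) * e) * ((etk k j : F) * 3 ^ (n * (k + 15)) * (l.getD j 0 : F)))) =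
        ((etk k j : F) * (etk k j : F)) * ((3 : F) ^ (n * k) * 3 ^ (m * (k + 15)) * 3 ^ (1 * (k + 15) * e) *
          3 ^ (n * (k + 15))) * ((l.getD j 0 : F) ^ 2 * (en prT m j : F)) := by
          ring
      _ = 3 ^ (15 * (m + e + n)) * ((l.getD j 0 : F) ^ 2 * (en prT m j : F)) := by
          rw [h4, h5, one_mul]
  rw [Finset.sum_congr rfl h3, Finset.sum_const, Finset.card_range, nsmul_eq_mul]
  have h6 : ((30 : ℕ) : F) = -1 := by decide +kernel
  rw [h6, neg_one_mul]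

/-- The rows of `prI`. -/
private def ms50 : List ℕ := [1, 7, 11, 13, 17, 19, 23, 29]

private theorem inv50 : ∀ j j' : Fin 8, (∑ i : Fin 8, ((prI.getD j []).getD i 0) * en prT (ms50.getD i 0) j') % 31 =
    if j = j' then 1 else 0 := by decide +kernel

private theorem solve50 (v : Fin 8 → F) (h : ∀ i : Fin 8, ∑ j : Fin 8, v j * (en prT (ms50.getD i 0) j : F) = 0)
    (j : Fin 8) : v j = 0 := by
  have h1 : ∀ j' : Fin 8, ∑ i : Fin 8, (((prI.getD j []).getD i 0 : ℕ) : F) * (en prT (ms50.getD i 0) j' : F) =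
      if j = j' then 1 else 0 := by
    intro j'
    have h2 := congrArg (Nat.cast : ℕ → F) (inv50 j j')
    rw [ZMod.natCast_mod] at h2
    push_cast at h2
    rw [h2]
  calc v j = ∑ j' : Fin 8, v j' * (if j = j' then 1 else 0) := by
        rw [Finset.sum_eq_single j]
        · rw [if_pos rfl, mul_one]
        · intro b _ hb
          rw [if_neg (Ne.symm hb), mul_zero]
        · intro hj
          exact absurd (Finset.mem_univ j) hj
    _ = ∑ j' : Fin 8, ∑ i : Fin 8, (((prI.getD j []).getD i 0 : ℕ) : F) * (v j' * (en prT (ms50.getD i 0) j' : F)) := by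
        refine Finset.sum_congr rfl fun j' _ => ?_
        rw [← h1 j', Finset.mul_sum]
        refine Finset.sum_congr rfl fun i _ => ?_
        ring
    _ = ∑ i : Fin 8, (((prI.getD j []).getD i 0 : ℕ) : F) * ∑ j' : Fin 8, v j' * (en prT (ms50.getD i 0) j' : F) := by
        rw [Finset.sum_comm]
        refine Finset.sum_congr rfl fun i _ => ?_
        rw [Finset.mul_sum]
    _ = 0 := by
        refine Finset.sum_eq_zero fun i _ => ?_
        rw [h i, mul_zero]

theorem lin_key {n D : ℕ} (hD : 29 ≤ D) (h30 : 30 ∣ D + 2 * n) {s : Chev F} (hs : Ev n s) (h0 : s.h = 0)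
    (h : ∀ m ∈ [1, 7, 11, 13, 17, 19, 23, 29], Chev.bf s ⁅ve m, adp (ve 1) (D - m) s⁆ = 0) : s = 0 := by
  obtain ⟨l, -, -, rfl⟩ := exists_toE hs
  have h3 : (3 : F) ≠ 0 := by decide
  have key : ∀ m ∈ ms50, ∑ j : Fin 8, (l.getD j 0 : F) ^ 2 * (en prT m j : F) = 0 := by
    intro m hm
    have hm' : m ≤ D := by
      have h1 : ∀ m ∈ ms50, m ≤ 29 := by decide
      exact (h1 m hm).trans hD
    have h2 := h m hm
    rw [bf_h50 (lie_cart_h50 (ve_x m) _)] at h2
    simp only [lie_cart_x50 (ve_x m), adp_x50 (ve_x 1)] at h2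
    rw [key_sum50 hm' h30, neg_neg] at h2
    rcases mul_eq_zero.1 h2 with h4 | h4
    · exact absurd h4 (pow_ne_zero _ h3)
    · exact h4
  have hl : ∀ j : Fin 8, (l.getD j 0 : F) ^ 2 = 0 := by
    apply solve50
    intro i
    apply key
    revert i
    decide
  apply Chev.ext
  · exact h0
  · funext a
    obtain ⟨k, -, j, rfl⟩ := rt_surj a
    rw [toE_x, pow_eq_zero_iff (two_ne_zero) |>.1 (hl j), mul_zero]
    rfl

/-- `ad (ve 1)` on the root part, for the isotropy argument in degree one. -/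
theorem bf_adp (s : List ℕ) : Chev.bf (toE 1 s) (adp (ve 1) 28 (toE 1 s)) =
    -(((List.range 8).foldl (fun acc j => acc + s.getD j 0 * s.getD j 0) 0 : ℕ) : F) := by
  have hh : (adp (ve 1) 28 (toE 1 s)).h = 0 := by
    rw [adp_succ50]
    exact lie_cart_h50 (ve_x 1) _
  rw [bf_h50 hh]
  have h1 : ∀ a : Root, (toE 1 s).x a * (adp (ve 1) 28 (toE 1 s)).x (-a) =
      (toE 1 s).x a * (Chev.pr (ve 1).h (-a).1 * ((Chev.pr (ve 1).h (-a).1) ^ (28 - 1) * (toE 1 s).x (-a))) := by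
    intro a
    rw [adp_x50 (ve_x 1), ← mul_assoc (Chev.pr (ve 1).h (-a).1), ← pow_succ']
  rw [Finset.sum_congr rfl fun a _ => h1 a, key_sum50 (by norm_num) (by norm_num)]
  have h2 : (3 : F) ^ (15 * (28 + 1)) = -1 := by decide +kernel
  have h4 : ((List.range 8).foldl (fun acc j => acc + s.getD j 0 * s.getD j 0) 0) = ∑ j : Fin 8, s.getD j 0 * s.getD j 0 := by
    simp only [List.range, List.range.loop, List.foldl_cons, List.foldl_nil, Fin.sum_univ_eight]
    simp
  rw [h2, h4]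
  push_cast
  have h5 : ∀ j : Fin 8, (s.getD j 0 : F) ^ 2 * (en prT 1 j : F) = (s.getD j 0 : F) * (s.getD j 0 : F) := by
    intro j
    rw [prT_one50, Nat.cast_one, mul_one, sq]
  rw [Finset.sum_congr rfl fun j _ => h5 j]
  ring

end Pool.Agent.Helper64.E8C
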