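import Pool.Agent.Helper64.E8C.A5a
import Pool.Agent.Helper64.E8C.A2
import Pool.Agent.Helper64.E8C.LinKey

/-!
# Block E8C-A5: the denominators of the elements of `L` divide `(1 - ζ) ^ 29`

`zm_lift`: `lift_cart` for `pu m (ve m)` (`Fx_pu`, `toE_Ev`), then `cart_mem`.

`L_bound`: let `y ∈ L`, `y ≠ 0`, `31 ^ k • y = inc y'` (`bdd`). Let `n` be maximal with `y' = pO ^ n • y''` (coordinatewise division; `y' ≠ 0`), so that
`s := cmp 0 (cm ev y'')` is not zero (`pO_dvd_iff`). If `n + 29 ≥ 30 k` then `31 • y = 31 ^ (1 - k) pO ^ n y''` is `pO` times integral (`thirtyone`). Suppose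
`n + 30 ≤ 30 k`. (a) `Ev n s`: from `Fx so y'` (`Fx_inc`, `fx`), `so pO = pO u`, `cf 0 (ev u) = 3` (`so_pO`): dividing `Fx so (pO ^ n • y'')` by `pO ^ n` gives
`y'' = nn (cm so (u-multiple))`, reduce modulo `pO` (`cf 0 ∘ ev` is a ring homomorphism, invariant under `so`: `cf_zero_so`). (b) `s.h = 0`: by `cart_dvd31`
`31 y.h i = pO c i`, i.e. `31 pO ^ n y''.h i = 31 ^ k pO c i`, so `pO ∣ y''.h i` as `30 (k - 1) + 1 - n ≥ 1` (valuations; `thirtyone`).
(c) Put `D = 60 k - 30 - 2 n ≥ 30`, so `30 ∣ D + 2 n`. Let `Z_m` (`zm_lift`): `inc Z_m ∈ L`, `ev Z_m = pu m (ve m)`, root part zero, so `Z_m = pO ^ m • Z'_m`, and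
`cmp 0 (cm ev Z'_m)` is a non-zero multiple `ε_m • ve m` (`ev pO = lam * unit`). Then `w = ad (inc Z_m) (ad (inc Z_1) ^ (D - m) y) ∈ L`, so `bf y w = N` is an integer:
`31 ^ (2 k) N = pO ^ (2 n + D) X`, `X = bf y'' (ad Z'_m ...  y'')`, `2 n + D = 60 k - 30`, so `X = unit pO ^ 30 N`, and `cf 0 (ev X) = 0`:
`bf s (ad (ve m) (ad (ve 1) ^ (D - m) s)) = 0` up to non-zero factors. `lin_key` gives `s = 0`, contradiction.
It may be convenient to split off a lemma over `O` for (c).
-/

set_option autoImplicit false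

namespace Pool.Agent.Helper64.E8C

open Pool.Agent.Helper73.E8 Pool.Agent.Helper2.E8A NumberField Polynomial

/-! ### The residue homomorphism -/

theorem cf0_mul (b c : B) : cf 0 (b * c) = cf 0 b * cf 0 c := by
  rw [cf_mul (by norm_num) b c]
  simp

theorem cf0_one : cf 0 (1 : B) = 1 := by
  have h := cf_algebraMap 0 1
  rwa [map_one, if_pos rfl] at h

/-- The residue of an integer of `K` modulo `1 - ζ`. -/
noncomputable def r0 : O →+* F where
  toFun x := cf 0 (ev x)
  map_one' := by rw [map_one, cf0_one]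
  map_mul' x y := by rw [map_mul, cf0_mul]
  map_zero' := by rw [map_zero, map_zero]
  map_add' x y := by rw [map_add, map_add]

theorem r0_apply (x : O) : r0 x = cf 0 (ev x) := rfl

theorem cmp_cm_ev (y : Chev O) : cmp 0 (cm ev y) = cm r0 y := rfl

theorem r0_so (x : O) : r0 (so x) = r0 x := cf_zero_so x

theorem r0_zero_iff (x : O) : pO ∣ x ↔ r0 x = 0 := pO_dvd_iff x

/-- If the residue is zero, the element is divisible by `pO`. -/
theorem exists_pO_smul {y : Chev O} (h : cm r0 y = 0) : ∃ z : Chev O, y = pO • z := by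
  have h1 : ∀ i, pO ∣ y.h i := fun i => (r0_zero_iff _).mpr (congrFun (congrArg Chev.h h) i)
  have h2 : ∀ a, pO ∣ y.x a := fun a => (r0_zero_iff _).mpr (congrFun (congrArg Chev.x h) a)
  choose f hf using h1
  choose g hg using h2
  exact ⟨⟨f, g⟩, Chev.ext (funext fun i => hf i) (funext fun a => hg a)⟩

theorem pO_not_unit : ¬ IsUnit pO := by
  intro h
  have h1 := (r0_zero_iff pO).mp (dvd_refl _)
  exact (h.map r0).ne_zero h1

theorem exists_max_pow {y : Chev O} (h : y ≠ 0) : ∃ (n : ℕ) (z : Chev O), y = pO ^ n • z ∧ cm r0 z ≠ 0 := by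
  classical
  have hex : ∃ n, ¬ ∃ z : Chev O, y = pO ^ n • z := by
    by_contra hall
    push Not at hall
    apply h
    have key : ∀ c : O, (∀ n, pO ^ n ∣ c) → c = 0 := by
      intro c hc
      by_contra hc0
      obtain ⟨n, hn⟩ := (FiniteMultiplicity.of_not_isUnit pO_not_unit hc0)
      exact hn (hc _)
    refine Chev.ext (funext fun i => key _ fun n => ?_) (funext fun i => key _ fun n => ?_)
    · obtain ⟨z, hz⟩ := hall n
      rw [hz]
      exact ⟨z.h i, rfl⟩
    · obtain ⟨z, hz⟩ := hall n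
      rw [hz]
      exact ⟨z.x i, rfl⟩
  have h0 : Nat.find hex ≠ 0 := by
    intro h1
    have h2 := Nat.find_spec hex
    rw [h1] at h2
    exact h2 ⟨y, by rw [pow_zero, one_smul]⟩
  obtain ⟨n, hn⟩ := Nat.exists_eq_succ_of_ne_zero h0
  have h3 := Nat.find_min hex (m := n) (by omega)
  rw [not_not] at h3
  obtain ⟨z, hz⟩ := h3
  refine ⟨n, z, hz, fun hr => ?_⟩
  obtain ⟨z', hz'⟩ := exists_pO_smul hr
  apply Nat.find_spec hex
  rw [hn]
  refine ⟨z', ?_⟩
  rw [hz, hz', smul_smul, ← pow_succ]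

/-- The residue of a fixed vector divided by `pO ^ n` is in `E_n`. -/
theorem Ev_res {n : ℕ} {z : Chev O} (h : Fx so (pO ^ n • z)) : Ev n (cm r0 z) := by
  obtain ⟨u, hu, hu3⟩ := so_pO
  have hp : pO ^ n ≠ 0 := pow_ne_zero _ pO_ne
  have hs : ∀ c : O, so (pO ^ n * c) = pO ^ n * (u ^ n * so c) := by
    intro c
    rw [map_mul, map_pow, hu, mul_pow, mul_assoc]
  have hr : ∀ c : O, r0 (u ^ n * so c) = 3 ^ n * r0 c := by
    intro c
    rw [map_mul, map_pow, r0_so, r0_apply u, hu3]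
  constructor
  · intro j
    have h1 : pO ^ n * z.h j = pO ^ n * ∑ i, u ^ n * so (z.h i) * (Wmat i j : O) := by
      rw [Finset.mul_sum]
      refine (h.1 j).trans (Finset.sum_congr rfl fun i _ => ?_)
      change so (pO ^ n * z.h i) * _ = _
      rw [hs, mul_assoc]
    have h2 := mul_left_cancel₀ hp h1
    change r0 (z.h j) = ∑ i, 3 ^ n * r0 (z.h i) * (Wmat i j : F)
    rw [h2, map_sum]
    refine Finset.sum_congr rfl fun i _ => ?_
    rw [map_mul, hr, map_intCast]
  · intro a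
    have h1 := h.2 a
    simp only [Chev.smul_x, Pi.smul_apply, smul_eq_mul, hs] at h1
    rw [mul_left_comm] at h1
    have h2 := mul_left_cancel₀ hp h1
    have h3 := congrArg r0 h2
    rw [map_mul, hr, map_intCast] at h3
    exact h3

theorem cf_lam_pow_mul {m : ℕ} (hm : m < 30) (b : B) : cf m (lam ^ m * b) = cf 0 b := by
  induction m with
  | zero => rw [pow_zero, one_mul]
  | succ m ih =>
    have h1 : lam ^ (m + 1) * b = lam * (lam ^ m * b) := by
      rw [← mul_assoc]
      congr 1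
      exact pow_succ' lam m
    rw [h1, cf_lam_mul m (by omega) (lam ^ m * b), ih (by omega)]

/-- Division by powers of `pO`. -/
theorem exists_unit_coeff : ∃ e : F, e ≠ 0 ∧ ∀ m < 30, ∀ x : O, (∀ w < m, cf w (ev x) = 0) →
    ∃ c, x = pO ^ m * c ∧ cf m (ev x) = e ^ m * r0 c := by
  obtain ⟨u, hu, hev⟩ := ev_pO
  have he : cf 0 u ≠ 0 := by
    intro h0
    obtain ⟨v, hv⟩ := hu.exists_right_inv
    have h1 := congrArg (cf 0) hv
    rw [cf0_mul, h0, zero_mul, cf0_one] at h1
    exact zero_ne_one h1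
  have hpow : ∀ n : ℕ, cf 0 (u ^ n) = cf 0 u ^ n := by
    intro n
    induction n with
    | zero =>
      have h1 : u ^ 0 = 1 := pow_zero u
      have h2 : cf 0 u ^ 0 = 1 := pow_zero (cf 0 u)
      rw [h1, h2, cf0_one]
    | succ n ih =>
      have h1 : u ^ (n + 1) = u ^ n * u := pow_succ u n
      have h2 : cf 0 u ^ (n + 1) = cf 0 u ^ n * cf 0 u := pow_succ _ n
      rw [h1, h2, cf0_mul, ih]
  refine ⟨cf 0 u, he, fun m => ?_⟩
  induction m with
  | zero =>
    intro _ x _
    have h1 : pO ^ 0 * x = x := by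
      rw [pow_zero]
      exact one_mul x
    refine ⟨x, h1.symm, ?_⟩
    have h2 : cf 0 u ^ 0 * r0 x = r0 x := by
      rw [pow_zero]
      exact one_mul _
    exact h2.symm
  | succ m ih =>
    intro hm x hx
    obtain ⟨c, hc, hcf⟩ := ih (by omega) x (fun w hw => hx w (by omega))
    rw [hx m (by omega)] at hcf
    have h1 : r0 c = 0 := by
      rcases mul_eq_zero.mp hcf.symm with h2 | h2
      · exact absurd h2 (pow_ne_zero _ he)
      · exact h2
    obtain ⟨d, hd⟩ := (r0_zero_iff c).mpr h1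
    refine ⟨d, by rw [hc, hd, pow_succ, mul_assoc], ?_⟩
    rw [hc, hd, ← mul_assoc, ← pow_succ, map_mul, map_pow, hev, mul_pow, mul_assoc, cf_lam_pow_mul hm, cf0_mul,
      hpow, r0_apply]

/-- The lifts of the eigenvectors divided by the power of `pO`. -/
theorem zm_div {L : AddSubgroup (Chev K)} (hL : IsL L) : ∃ e : F, e ≠ 0 ∧ ∀ m < 30, ∃ Z : Chev O,
    inc (pO ^ m • Z) ∈ L ∧ e ^ m • cm r0 Z = ve m := by
  obtain ⟨e, he, h⟩ := exists_unit_coeff
  refine ⟨e, he, fun m hm => ?_⟩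
  obtain ⟨Z, hx, -, hev, hZ⟩ := zm_lift hL hm
  have h1 : ∀ i, ev (Z.h i) = algebraMap F B ((ve m).h i) * lam ^ m := fun i =>
    congrFun (congrArg Chev.h hev) i
  have h2 : ∀ i, ∃ c, Z.h i = pO ^ m * c ∧ cf m (ev (Z.h i)) = e ^ m * r0 c := by
    intro i
    refine h m hm _ fun w hw => ?_
    rw [h1, cf_lam w hm, if_neg hw.ne]
  choose c hc hcf using h2
  refine ⟨⟨c, 0⟩, ?_, ?_⟩
  · have h3 : pO ^ m • (⟨c, 0⟩ : Chev O) = Z := by
      refine Chev.ext (funext fun i => (hc i).symm) ?_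
      rw [Chev.smul_x, hx]
      exact smul_zero _
    rw [h3]
    exact hZ
  · refine Chev.ext (funext fun i => ?_) ?_
    · change e ^ m * r0 (c i) = _
      rw [← hcf, h1, cf_lam m hm, if_pos rfl]
    · rw [ve_x, Chev.smul_x]
      funext a
      change e ^ m * r0 0 = 0
      rw [map_zero, mul_zero]

/-! ### Iterated brackets -/

section iter

variable {R S : Type*} [CommRing R] [CommRing S]

theorem iter_smul (c d : R) (z y : Chev R) (r : ℕ) :
    (fun t => ⁅c • z, t⁆)^[r] (d • y) = (c ^ r * d) • (fun t => ⁅z, t⁆)^[r] y := by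
  induction r with
  | zero => rw [pow_zero, one_mul]; rfl
  | succ r ih =>
    rw [Function.iterate_succ_apply', ih, Function.iterate_succ_apply' (fun t => ⁅z, t⁆), lie_smul, smul_lie, smul_smul]
    congr 1
    rw [pow_succ]
    ring

theorem iter_cm (f : R →+* S) (z y : Chev R) (r : ℕ) :
    cm f ((fun t => ⁅z, t⁆)^[r] y) = (fun t => ⁅cm f z, t⁆)^[r] (cm f y) := by
  induction r with
  | zero => rfl
  | succ r ih =>
    rw [Function.iterate_succ_apply', cm_lie, ih, Function.iterate_succ_apply' (fun t => ⁅cm f z, t⁆)]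

end iter

theorem iter_mem {L : AddSubgroup (Chev K)} (hL : IsL L) {z y : Chev K} (hz : z ∈ L) (hy : y ∈ L) (r : ℕ) :
    (fun t => ⁅z, t⁆)^[r] y ∈ L := by
  induction r with
  | zero => exact hy
  | succ r ih =>
    rw [Function.iterate_succ_apply']
    exact hL.lie _ hz _ ih

theorem inc_lie' (y z : Chev O) : inc ⁅y, z⁆ = ⁅inc y, inc z⁆ := cm_lie (algebraMap O K) y z

theorem r0_pO : r0 pO = 0 := (r0_zero_iff pO).mp (dvd_refl _)

/-- The key computation: if the valuation of `31 ^ k y` is `n ≤ 30 k - 30`, the residue vanishes. -/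
theorem res_zero {L : AddSubgroup (Chev K)} (hL : IsL L) {y : Chev K} (hy : y ∈ L) {k n : ℕ} {z : Chev O}
    (hz : inc (pO ^ n • z) = (31 : K) ^ k • y) (hn : n + 30 ≤ 30 * k) : cm r0 z = 0 := by
  obtain ⟨u, hu⟩ := thirtyone
  have hpn : ∀ j : ℕ, pO ^ j ≠ 0 := fun j => pow_ne_zero _ pO_ne
  have hinj : Function.Injective (algebraMap O K) := FaithfulSMul.algebraMap_injective O K
  have hFx : Fx so (pO ^ n • z) := by
    rw [← Fx_inc, hz]
    have h1 := Fx_K_smul ((31 : ℚ) ^ k) (hL.fx y hy)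
    have h2 : (((31 : ℚ) ^ k : ℚ) : K) = (31 : K) ^ k := by norm_num
    rwa [h2] at h1
  have hEv := Ev_res hFx
  have hs0 : (cm r0 z).h = 0 := by
    funext i
    obtain ⟨c, hc⟩ := cart_dvd31 hL hy
    have h1 : (algebraMap O K) (pO ^ n * z.h i) = (31 : K) ^ k * y.h i :=
      congrFun (congrArg Chev.h hz) i
    have h2 : (31 : O) * (pO ^ n * z.h i) = 31 ^ k * (pO * c i) := by
      apply hinj
      rw [map_mul, h1, map_mul, map_pow]
      have h3 : (algebraMap O K) 31 = 31 := map_ofNat _ _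
      rw [h3]
      have h4 : (algebraMap O K) (pO * c i) = 31 * y.h i := (hc i).symm
      rw [h4]
      ring
    obtain ⟨d, hd⟩ := Nat.exists_eq_add_of_le hn
    have h5 : pO ^ (n + 30) * ((u : O) * z.h i) = pO ^ (n + 30) * ((u : O) ^ k * pO ^ (d + 1) * c i) := by
      have h6 : (31 : O) ^ k = (u : O) ^ k * pO ^ (n + 30) * pO ^ d := by
        rw [hu, mul_pow, ← pow_mul, hd, pow_add pO (n + 30) d, mul_assoc]
      calc pO ^ (n + 30) * ((u : O) * z.h i) = (u * pO ^ 30) * (pO ^ n * z.h i) := by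
            rw [pow_add]
            ring
        _ = 31 ^ k * (pO * c i) := by rw [← hu, h2]
        _ = _ := by
            rw [h6, pow_succ pO d]
            ring
    have h7 := mul_left_cancel₀ (hpn _) h5
    have h8 := congrArg r0 h7
    rw [map_mul, map_mul, map_mul, map_pow, map_pow, r0_pO, pow_succ, mul_zero, mul_zero, zero_mul] at h8
    rcases mul_eq_zero.mp h8 with h9 | h9
    · exact absurd h9 ((Units.isUnit u).map r0).ne_zero
    · exact h9
  obtain ⟨e, he, hZ⟩ := zm_div hL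
  have hk : 1 ≤ k := by omega
  obtain ⟨D, hD⟩ : ∃ D, D + 2 * n + 30 = 60 * k := ⟨60 * k - 30 - 2 * n, by omega⟩
  refine lin_key (n := n) (D := D) (by omega) (by omega) hEv hs0 fun m hm => ?_
  have hm30 : m < 30 := by
    simp only [List.mem_cons, List.not_mem_nil, or_false] at hm
    omega
  obtain ⟨Z, hZL, hZr⟩ := hZ m hm30
  obtain ⟨Z1, hZ1L, hZ1r⟩ := hZ 1 (by norm_num)
  -- the element of L
  set w : Chev K := ⁅inc (pO ^ m • Z), (fun t => ⁅inc (pO ^ 1 • Z1), t⁆)^[D - m] y⁆ with hw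
  have hwL : w ∈ L := hL.lie _ hZL _ (iter_mem hL hZ1L hy _)
  obtain ⟨N, hN⟩ := hL.int y hy w hwL
  set w' : Chev O := ⁅Z, (fun t => ⁅Z1, t⁆)^[D - m] z⁆ with hw'
  have h1 : (31 : K) ^ k • w = inc (pO ^ (n + D) • w') := by
    have h2 : (fun t => ⁅inc (pO ^ 1 • Z1), t⁆)^[D - m] (inc (pO ^ n • z)) =
        inc ((fun t => ⁅pO ^ 1 • Z1, t⁆)^[D - m] (pO ^ n • z)) := (iter_cm (algebraMap O K) _ _ _).symm
    have h3 : (31 : K) ^ k • (fun t => ⁅inc (pO ^ 1 • Z1), t⁆)^[D - m] y =
        (fun t => ⁅inc (pO ^ 1 • Z1), t⁆)^[D - m] ((31 : K) ^ k • y) := by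
      have h4 := iter_smul (1 : K) ((31 : K) ^ k) (inc (pO ^ 1 • Z1)) y (D - m)
      rw [one_pow, one_mul, one_smul] at h4
      exact h4.symm
    rw [hw, ← lie_smul, h3, ← hz, h2, ← inc_lie', iter_smul, lie_smul, smul_lie, smul_smul, hw']
    congr 2
    rw [← pow_mul, ← pow_add, ← pow_add]
    congr 1
    omega
  have h5 : ((31 : K) ^ k * (31 : K) ^ k) * (N : K) = (algebraMap O K) (pO ^ n * (pO ^ (n + D) * Chev.bf z w')) := by
    have h6 : Chev.bf ((31 : K) ^ k • y) ((31 : K) ^ k • w) = (31 : K) ^ k * ((31 : K) ^ k * N) := by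
      rw [Chev.bf_smul_left, Chev.bf_smul_right, hN]
    rw [h1, ← hz, inc_bf, Chev.bf_smul_left, Chev.bf_smul_right] at h6
    rw [mul_assoc, ← h6]
  have h7 : (31 : O) ^ k * 31 ^ k * (N : O) = pO ^ n * (pO ^ (n + D) * Chev.bf z w') := by
    apply hinj
    rw [← h5, map_mul, map_mul, map_pow, map_intCast]
    have h3 : (algebraMap O K) 31 = 31 := map_ofNat _ _
    rw [h3]
  have h8 : Chev.bf z w' = (u : O) ^ (2 * k) * pO ^ 30 * N := by
    have h9 : pO ^ (2 * n + D) * Chev.bf z w' = pO ^ (2 * n + D) * ((u : O) ^ (2 * k) * pO ^ 30 * N) := by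
      calc pO ^ (2 * n + D) * Chev.bf z w' = pO ^ n * (pO ^ (n + D) * Chev.bf z w') := by
            rw [← mul_assoc, ← pow_add]
            congr 2
            omega
        _ = (31 : O) ^ k * 31 ^ k * (N : O) := h7.symm
        _ = (u : O) ^ (2 * k) * pO ^ (60 * k) * N := by
            rw [← pow_add, hu, mul_pow, ← pow_mul]
            congr 3
            · omega
            · omega
        _ = _ := by
            have h10 : 60 * k = (2 * n + D) + 30 := by omega
            rw [h10, pow_add pO (2 * n + D) 30]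
            ring
    exact mul_left_cancel₀ (hpn _) h9
  have h11 : Chev.bf (cm r0 z) (cm r0 w') = 0 := by
    rw [cm_bf, h8, map_mul, map_mul, map_pow r0 pO, r0_pO]
    ring
  have h12 : e ^ m • (e ^ (D - m) • cm r0 w') = ⁅ve m, adp (ve 1) (D - m) (cm r0 z)⁆ := by
    rw [hw', cm_lie, iter_cm, ← hZr, ← hZ1r, smul_lie]
    congr 1
    unfold adp
    have h13 := iter_smul (e ^ 1) (1 : F) (cm r0 Z1) (cm r0 z) (D - m)
    rw [one_smul, pow_one, mul_one] at h13
    rw [pow_one, h13, lie_smul]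
  rw [← h12, Chev.bf_smul_right, Chev.bf_smul_right, h11, mul_zero, mul_zero]

theorem L_bound {L : AddSubgroup (Chev K)} (hL : IsL L) {y : Chev K} (hy : y ∈ L) :
    ∃ y' : Chev O, inc (pO • y') = (31 : K) • y := by
  obtain ⟨u, hu⟩ := thirtyone
  obtain ⟨k, hk⟩ := hL.bdd
  obtain ⟨y', hy'⟩ := hk y hy
  by_cases h0 : y' = 0
  · have h1 : y = 0 := by
      rw [h0] at hy'
      have h2 : inc (0 : Chev O) = 0 := cm_zero (algebraMap O K)
      rw [h2] at hy'
      rcases smul_eq_zero.mp hy'.symm with h3 | h3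
      · exact absurd h3 (pow_ne_zero _ (by norm_num))
      · exact h3
    refine ⟨0, ?_⟩
    rw [h1, smul_zero, smul_zero]
    exact cm_zero (algebraMap O K)
  obtain ⟨n, z, hyz, hz⟩ := exists_max_pow h0
  have hn : 30 * k < n + 30 := by
    by_contra hlt
    exact hz (res_zero hL hy (k := k) (n := n) (by rw [← hyz, hy']) (by omega))
  -- 31 y = 31 ^ (1 - k) pO ^ n z
  have h31 : (31 : K) ≠ 0 := by norm_num
  obtain ⟨d, hd⟩ : ∃ d, n + 30 = 30 * k + 1 + d := ⟨n + 30 - 30 * k - 1, by omega⟩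
  obtain ⟨v, hv⟩ := (Units.isUnit u).pow k |>.exists_right_inv
  refine ⟨((u : O) * v) • (pO ^ d • z), ?_⟩
  have key : (31 : O) ^ k * (pO * (((u : O) * v) * pO ^ d)) = 31 * pO ^ n := by
    have h1 : (31 : O) ^ k = (u : O) ^ k * pO ^ (30 * k) := by
      rw [hu, mul_pow, ← pow_mul]
    calc (31 : O) ^ k * (pO * (((u : O) * v) * pO ^ d)) = ((u : O) ^ k * v) * u * (pO ^ (30 * k) * pO * pO ^ d) := by
          rw [h1]
          ring
      _ = u * pO ^ (n + 30) := by
          rw [hv, one_mul, ← pow_succ, ← pow_add, hd]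
      _ = 31 * pO ^ n := by
          rw [pow_add, hu]
          ring
  have h2 : (31 : K) ^ k • inc (pO • ((u : O) * v) • (pO ^ d • z)) = (31 : K) ^ k • ((31 : K) • y) := by
    have h3 : ∀ (c : O) (t : Chev O), inc (c • t) = (c : K) • inc t := fun c t => inc_smul c t
    rw [smul_comm ((31 : K) ^ k) (31 : K) y, ← hy', hyz, h3, h3, h3, h3, smul_smul, smul_smul, smul_smul, smul_smul]
    congr 1
    have h4 := congrArg (algebraMap O K) key
    rw [map_mul, map_mul, map_mul, map_mul, map_pow, map_pow, map_mul, map_pow] at h4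
    have h5 : (algebraMap O K) 31 = 31 := map_ofNat _ _
    rw [h5] at h4
    have hc : ∀ c : O, (c : K) = algebraMap O K c := fun _ => rfl
    rw [hc, hc, hc, hc, map_mul, map_pow, map_pow, ← h4]
    ring
  exact smul_right_injective _ (pow_ne_zero k h31) h2

theorem O_mem {L : AddSubgroup (Chev K)} (hL : IsL L) {y' : Chev O} (h : Fx so y') : inc y' ∈ L := by
  obtain ⟨u, hu⟩ := thirtyone
  have hF : Fx σ (inc y') := (Fx_inc y').mpr h
  refine hL.dual _ hF fun z hz => ?_
  obtain ⟨z', hz'⟩ := L_bound hL hz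
  obtain ⟨v, hv⟩ := (Units.isUnit u).exists_right_inv
  refine bf_int hF (hL.fx z hz) (v * Chev.bf y' z') ?_
  have h1 : (31 : K) * Chev.bf (inc y') z = (pO : K) * ((Chev.bf y' z' : O) : K) := by
    rw [← Chev.bf_smul_right, ← hz', inc_bf, Chev.bf_smul_right]
    exact map_mul (algebraMap O K) _ _
  have h2 : (31 : K) = (u : O) * (pO : K) ^ 30 := by
    have h3 := congrArg (algebraMap O K) hu
    rw [map_mul, map_pow, map_ofNat] at h3
    exact h3
  have h4 : ((u : O) : K) * ((v : O) : K) = 1 := by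
    have h3 := congrArg (algebraMap O K) hv
    rw [map_mul, map_one] at h3
    exact h3
  have hp : (pO : K) ≠ 0 := by
    rw [RingOfIntegers.coe_ne_zero_iff]
    exact pO_ne
  have h5 : (pO : K) * (((u : O) : K) * ((pO : K) ^ 29 * Chev.bf (inc y') z)) = (pO : K) * ((Chev.bf y' z' : O) : K) := by
    rw [← h1, h2]
    ring
  have h6 := mul_left_cancel₀ hp h5
  change (algebraMap O K) (v * Chev.bf y' z') = _
  rw [map_mul]
  change ((v : O) : K) * ((Chev.bf y' z' : O) : K) = _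
  rw [← h6, ← mul_assoc, mul_comm ((v : O) : K), h4, one_mul]

end Pool.Agent.Helper64.E8C
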