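import Pool.Agent.Helper64.E8C.A2
import Pool.Agent.Helper64.E8C.LinKey

/-!
# Block E8C-A5: the denominators of the elements of `L` divide `(1 - ζ) ^ 29`

`zm_lift`: `lift_cart` for `pu m (ve m)` (`Fx_pu`, `toE_Ev`), then `cart_mem`.

`L_bound`: let `y ∈ L`, `y ≠ 0`, `31 ^ k • y = inc y'` (`bdd`). Let `n` be maximal with `y' = pO ^ n • y''` (coordinatewise division; `y' ≠ 0`), so that
`s := cmp 0 (cm ev y'')` is not zero (`pO_dvd_iff`). If `n + 29 ≥ 30 k` then `31 • y = 31 ^ (1 - k) pO ^ n y''` is `pO` times integral (`thirtyone`). Suppose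
`n + 30 ≤ 30 k`. (a) `Ev n s`: from `Fx so y'` (`Fx_inc`, `fx`), `so pO = pO u`, `cf 0 (ev u) = 3` (`so_pO`): dividing `Fx so (pO ^ n • y'')` by `pO ^ n` gives
`y'' = nn (cm so (u-multiple))`, reduce modulo `pO` (`cf 0 ∘ ev` is a ring homomorphism, invariant under `so`: `cf_zero_so`). (b) `s.h = 0`: by `cart_dvd31`
`31 y.h i = pO c i`, i.e. `31 pO ^ n y''.h i = 31 ^ k pO c i`, so `pO ∣ y''.h i` as `30 (k - 1) + 1 - n ≥ 1` (valuations; `thirtyone`).
(c) Put `D = 60 k - 30 - 2 n ≥ 30`, so `30 ∣ D + 2 n`. Let `Z_m` (`zm_lift`): `inc Z_m ∈ L`, `ev Z_m = pu m (ve m)`, root part zero, so `Z_m = pO ^ m • Z'_m`, and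
`cmp 0 (cm ev Z'_m)` is a non-zero multiple `ε_m • ve m` (`ev pO = lam * unit`). Then `w = ad (inc Z_m) (ad (inc Z_1) ^ (D - m) y) ∈ L`, so `bf y w = N` is an integer:
`31 ^ (2 k) N = pO ^ (2 n + D) X`, `X = bf y'' (ad Z'_m ...  y'')`, `2 n + D = 60 k - 30`, so `X = unit pO ^ 30 N`, and `cf 0 (ev X) = 0`:
`bf s (ad (ve m) (ad (ve 1) ^ (D - m) s)) = 0` up to non-zero factors. `lin_key` gives `s = 0`, contradiction.
It may be convenient to split off a lemma over `O` for (c).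
-/

set_option autoImplicit false

namespace Pool.Agent.Helper64.E8C

open Pool.Agent.Helper73.E8 Pool.Agent.Helper2.E8A NumberField Polynomial

private lemma getD_zero71 (j : Fin 8) :
    ([0, 0, 0, 0, 0, 0, 0, 0, 1] : List ℕ).getD (j : ℕ) 0 = 0 := by
  fin_cases j <;> rfl

private lemma ve_x71 (m : ℕ) (a : Root) : (ve m).x a = 0 := by
  unfold ve toE
  simp only [getD_zero71, Nat.cast_zero, mul_zero, ite_self, Finset.sum_const_zero]

private lemma pu_ve_x71 (m : ℕ) : (pu m (ve m)).x = 0 := by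
  unfold pu cm
  funext a
  simp only [ve_x71, map_zero, zero_mul, Pi.zero_apply]

/-- Lifts of the eigenvectors. -/
theorem zm_lift {L : AddSubgroup (Chev K)} (hL : IsL L) {m : ℕ} (hm : m < 30) :
    ∃ Z : Chev O, Z.x = 0 ∧ Fx so Z ∧ cm ev Z = pu m (ve m) ∧ inc Z ∈ L := by
  have hE : Ev m (ve m) := by
    unfold ve
    exact toE_Ev m _
  obtain ⟨X, h1, h2, h3⟩ := lift_cart (pu m (ve m)) (Fx_pu hm hE) (pu_ve_x71 m)
  exact ⟨X, h3, h1, h2, cart_mem hL h1 h3⟩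

end Pool.Agent.Helper64.E8C
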