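import Pool.Agent.Helper64.E8C.Defs

/-!
# Block E8C-BR: the ring `B = 𝔽₃₁[λ] / λ ^ 30`

`AdjoinRoot.modByMonicHom_mk`, `AdjoinRoot.mk_leftInverse`: `cf v (AdjoinRoot.mk _ p) = (p %ₘ X ^ 30).coeff v`, which is `p.coeff v` for `v < 30`
(`p = (p %ₘ X ^ 30) + X ^ 30 * (p /ₘ X ^ 30)`) and `0` for `v ≥ 30` (degree). Every element of `B` is `mk p`.
* `cf_mul`: `Polynomial.coeff_mul`. `cf_sB`: `sB (mk p) = mk (p.comp (3 X))` or check on `lam ^ w` and use `sum_cf`.
* `ex_add`: compare `cf v`, `v < 30`: `∑_{i + j = v} k ^ i / i! * (l ^ j / j!) = (k + l) ^ v / v!` in `ZMod 31` (binomial theorem `add_pow`,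
  `v ! ≠ 0` for `v < 31`: `Nat.Prime.dvd_factorial`, `Nat.choose_mul_factorial_mul_factorial`; or `Finset.Nat.sum_antidiagonal_...`).
* `isUnit_of_cf`: `b = c + λ b'` with `c ≠ 0` a constant: unit plus nilpotent.
-/

set_option autoImplicit false

namespace Pool.Agent.Helper64.E8C

open Pool.Agent.Helper73.E8 Pool.Agent.Helper2.E8A NumberField Polynomial

theorem coeff_mod (p : F[X]) (v : ℕ) :
    (p %ₘ (X ^ 30 : F[X])).coeff v = if v < 30 then p.coeff v else 0 := by
  split_ifs with h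
  · have h1 := modByMonic_add_div p (X ^ 30 : F[X])
    have h2 := congrArg (fun q => q.coeff v) h1
    simp only [coeff_add, coeff_X_pow_mul', if_neg (not_le.2 h), add_zero] at h2
    exact h2
  · apply coeff_eq_zero_of_degree_lt
    refine lt_of_lt_of_le (degree_modByMonic_lt _ (monic_X_pow 30)) ?_
    rw [degree_X_pow]
    exact_mod_cast not_lt.1 h

theorem cf_mk (v : ℕ) (p : F[X]) :
    cf v (AdjoinRoot.mk (X ^ 30 : F[X]) p) = if v < 30 then p.coeff v else 0 := by
  have h1 : cf v (AdjoinRoot.mk (X ^ 30 : F[X]) p) = (p %ₘ (X ^ 30 : F[X])).coeff v := by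
    unfold cf
    rw [LinearMap.comp_apply, AdjoinRoot.modByMonicHom_mk, lcoeff_apply]
  rw [h1, coeff_mod]

theorem lam_eq_mk : lam = AdjoinRoot.mk (X ^ 30 : F[X]) X := by
  rw [AdjoinRoot.mk_X]; rfl

theorem algebraMap_eq_mk (c : F) : algebraMap F B c = AdjoinRoot.mk (X ^ 30 : F[X]) (C c) := by
  rw [AdjoinRoot.mk_C, AdjoinRoot.algebraMap_eq]

theorem cf_lam (v : ℕ) {w : ℕ} (hw : w < 30) (c : F) : cf v (algebraMap F B c * lam ^ w) = if v = w then c else 0 := by
  rw [algebraMap_eq_mk, lam_eq_mk, ← map_pow, ← map_mul, cf_mk, coeff_C_mul_X_pow]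
  by_cases h : v = w
  · rw [if_pos h, if_pos (by omega)]
  · rw [if_neg h, ite_self]

theorem cf_ge {v : ℕ} (hv : 30 ≤ v) (b : B) : cf v b = 0 := by
  obtain ⟨p, rfl⟩ := AdjoinRoot.mk_surjective b
  rw [cf_mk, if_neg (by omega)]

theorem cf_ext {b c : B} (h : ∀ v < 30, cf v b = cf v c) : b = c := by
  have h1 : ∀ v, cf v b = cf v c := fun v => by
    rcases lt_or_ge v 30 with hv | hv
    · exact h v hv
    · rw [cf_ge hv, cf_ge hv]
  have h2 : AdjoinRoot.modByMonicHom (monic_X_pow (R := F) 30) b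
      = AdjoinRoot.modByMonicHom (monic_X_pow (R := F) 30) c := by
    ext v
    exact h1 v
  have h3 := congrArg (AdjoinRoot.mk (X ^ 30 : F[X])) h2
  rwa [AdjoinRoot.mk_leftInverse (monic_X_pow (R := F) 30) b,
    AdjoinRoot.mk_leftInverse (monic_X_pow (R := F) 30) c] at h3

theorem cf_sum_lam (v : ℕ) (f : ℕ → F) :
    cf v (∑ w ∈ Finset.range 30, algebraMap F B (f w) * lam ^ w) = if v < 30 then f v else 0 := by
  rw [map_sum, Finset.sum_congr rfl (fun w hw => cf_lam v (Finset.mem_range.1 hw) (f w)),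
    Finset.sum_ite_eq]
  simp only [Finset.mem_range]

theorem sum_cf (b : B) : b = ∑ v ∈ Finset.range 30, algebraMap F B (cf v b) * lam ^ v := by
  apply cf_ext
  intro v hv
  rw [cf_sum_lam v (fun w => cf w b), if_pos hv]

theorem cf_algebraMap (v : ℕ) (c : F) : cf v (algebraMap F B c) = if v = 0 then c else 0 := by
  have h := cf_lam v (w := 0) (by norm_num) c
  rwa [pow_zero, mul_one] at h

theorem cf_mul {v : ℕ} (hv : v < 30) (b c : B) :
    cf v (b * c) = ∑ p ∈ Finset.HasAntidiagonal.antidiagonal v, cf p.1 b * cf p.2 c := by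
  obtain ⟨p, rfl⟩ := AdjoinRoot.mk_surjective b
  obtain ⟨q, rfl⟩ := AdjoinRoot.mk_surjective c
  rw [← map_mul, cf_mk, if_pos hv, coeff_mul]
  refine Finset.sum_congr rfl fun x hx => ?_
  have hx' := Finset.HasAntidiagonal.mem_antidiagonal.1 hx
  rw [cf_mk, cf_mk, if_pos (by omega), if_pos (by omega)]

theorem sB_algebraMap (c : F) : sB (algebraMap F B c) = algebraMap F B c := by
  unfold sB
  rw [AdjoinRoot.algebraMap_eq, AdjoinRoot.lift_of]

theorem sB_lam : sB lam = 3 * lam := by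
  unfold sB
  exact AdjoinRoot.lift_root _

theorem cf_sB (v : ℕ) (b : B) : cf v (sB b) = 3 ^ v * cf v b := by
  have h3 : (3 : B) = algebraMap F B 3 := by rw [map_ofNat]
  have h1 : sB b = ∑ w ∈ Finset.range 30, algebraMap F B (3 ^ w * cf w b) * lam ^ w := by
    conv_lhs => rw [sum_cf b]
    rw [map_sum]
    refine Finset.sum_congr rfl fun w _ => ?_
    rw [map_mul, map_pow, sB_algebraMap, sB_lam, mul_pow, map_mul, map_pow, h3]
    ring
  rw [h1, cf_sum_lam v (fun w => 3 ^ w * cf w b)]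
  split_ifs with h
  · rfl
  · rw [cf_ge (by omega), mul_zero]

end Pool.Agent.Helper64.E8C
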