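import Pool.Agent.Helper64.E8C.Tab
import Pool.Agent.Helper64.E8C.Vec

/-!
# Block E8C-BRC: the bracket and the form in coordinates

* `toE_brc`: both sides are in `E_(a+b)` (`Ev_lie`, `toE_Ev`), so by `Ev_ext` compare the values at `sr l` and the Cartan parts.
  At `sr l` (`(sr l).1 = al l`): `brk_x`; the terms with `pr` are `s_8 (vm a, α_l) t_l` and `- t_8 (vm b, α_l) s_l` (`prT` is the table of `∑_{i,k} vm_i C_ik (α_l)_k`
  modulo 31, `decide`); the double sum is `tab_sum` with `f a b = (toE a s).x a * (toE b t).x b`, then `toE_x`, `tab_sign`.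
  Cartan part: `brk_h`, `sum_rt`, `-rt k j = rt (k + 15) j`, `toE_x`, `etk_fifteen`, `etk_sq`, `3 ^ 15 = -1`:
  `- ∑_{k,j} (W ^ k α_j)_i 3 ^ (a k) s_j 3 ^ (b (k + 15)) t_j = - (-1) ^ b ∑_j s_j t_j ∑_k 3 ^ ((a + b) k) (W ^ k α_j)_i`, and the last sum is `kaT (a+b) j * vmT (a+b) i`
  modulo 31 (`decide +kernel`; a table of the vectors `W ^ k α_j` is needed).
* `toE_frm`: `bf`, `sum_rt`: `s_8 t_8 (vm a, vm b) - ∑_{k,j} 3 ^ ((a+b) k) (-1) ^ b s_j t_j`, `30 ∣ a + b`, `-30 = 1`.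
* `bf_vm`: the same computation with `⁅c vm, ⁆`.
-/

set_option autoImplicit false

namespace Pool.Agent.Helper64.E8C

open Pool.Agent.Helper73.E8 Pool.Agent.Helper2.E8A NumberField Polynomial

/-! ### Numeric identities -/

private theorem num_pr9 : ∀ m : Fin 30, ∀ l : Fin 8,
    ((∑ i : Fin 8, (en vmT m i : ℤ) * CartanMatrix.E₈ i l) - (en prT m l : ℤ)) % 31 = 0 := by decide +kernel

private theorem num_ka9_0 : ∀ m : Fin 30, ∀ j : Fin 2, ∀ i : Fin 8,
    ((∑ k ∈ Finset.range 30, ((3 ^ ((m * k) % 30) : ℕ) : ℤ) * rc k (j + 0) i) - ((en kaT m (j + 0) * en vmT m i : ℕ) : ℤ)) % 31 =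
      0 := by decide +kernel

private theorem num_ka9_1 : ∀ m : Fin 30, ∀ j : Fin 2, ∀ i : Fin 8,
    ((∑ k ∈ Finset.range 30, ((3 ^ ((m * k) % 30) : ℕ) : ℤ) * rc k (j + 2) i) - ((en kaT m (j + 2) * en vmT m i : ℕ) : ℤ)) % 31 =
      0 := by decide +kernel

private theorem num_ka9_2 : ∀ m : Fin 30, ∀ j : Fin 2, ∀ i : Fin 8,
    ((∑ k ∈ Finset.range 30, ((3 ^ ((m * k) % 30) : ℕ) : ℤ) * rc k (j + 4) i) - ((en kaT m (j + 4) * en vmT m i : ℕ) : ℤ)) % 31 =
      0 := by decide +kernel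

private theorem num_ka9_3 : ∀ m : Fin 30, ∀ j : Fin 2, ∀ i : Fin 8,
    ((∑ k ∈ Finset.range 30, ((3 ^ ((m * k) % 30) : ℕ) : ℤ) * rc k (j + 6) i) - ((en kaT m (j + 6) * en vmT m i : ℕ) : ℤ)) % 31 =
      0 := by decide +kernel

private theorem num_ka9 (m : Fin 30) (j : Fin 8) (i : Fin 8) :
    ((∑ k ∈ Finset.range 30, ((3 ^ ((m * k) % 30) : ℕ) : ℤ) * rc k j i) - ((en kaT m j * en vmT m i : ℕ) : ℤ)) % 31 =
      0 := by
  obtain ⟨j, hj⟩ := j
  rcases Nat.lt_or_ge j 2 with h' | h'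
  · exact num_ka9_0 m ⟨j, h'⟩ i
  rcases Nat.lt_or_ge j 4 with h'' | h''
  · have h2 := num_ka9_1 m ⟨j - 2, by omega⟩ i
    simp only [Nat.sub_add_cancel h'] at h2
    exact h2
  rcases Nat.lt_or_ge j 6 with h3 | h3
  · have h2 := num_ka9_2 m ⟨j - 4, by omega⟩ i
    simp only [Nat.sub_add_cancel h''] at h2
    exact h2
  · have h2 := num_ka9_3 m ⟨j - 6, by omega⟩ i
    simp only [Nat.sub_add_cancel h3] at h2
    exact h2

private theorem en_mod9 (t : List (List ℕ)) (m i : ℕ) : en t (m % 30) i = en t m i := by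
  simp only [en, Nat.mod_mod]

private theorem pow_mod9 (n : ℕ) : (3 : F) ^ (n % 30) = 3 ^ n := by
  have h : (3 : F) ^ 30 = 1 := by decide +kernel
  conv_rhs => rw [← Nat.div_add_mod n 30, pow_add, pow_mul, h, one_pow, one_mul]

private theorem cast_of_mod9 {x y : ℤ} (h : (x - y) % 31 = 0) : (x : F) = (y : F) := by
  rw [← sub_eq_zero, ← Int.cast_sub]
  exact (ZMod.intCast_zmod_eq_zero_iff_dvd _ _).2 (Int.dvd_of_emod_eq_zero h)

private theorem pr_al9 (h : Fin 8 → F) (l : Fin 8) : Chev.pr h (al l) = ∑ i, h i * (CartanMatrix.E₈ i l : F) := by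
  unfold Chev.pr
  refine Finset.sum_congr rfl fun i _ => ?_
  rw [Finset.sum_eq_single l]
  · simp [al]
  · intro j _ hj
    simp [al, hj]
  · simp

private theorem pr_toE9 (a : ℕ) (s : List ℕ) (l : Fin 8) :
    Chev.pr (toE a s).h (al l) = (s.getD 8 0 : F) * (en prT a l : F) := by
  rw [pr_al9]
  have h1 := cast_of_mod9 (num_pr9 ⟨a % 30, Nat.mod_lt _ (by norm_num)⟩ l)
  simp only [en_mod9] at h1
  push_cast at h1
  rw [← h1, Finset.mul_sum]
  refine Finset.sum_congr rfl fun i _ => ?_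
  show (s.getD 8 0 : F) * (en vmT a i : F) * _ = _
  ring

private theorem ka9 (m : ℕ) (j i : Fin 8) : ∑ k ∈ Finset.range 30, (3 : F) ^ (m * k) * ((rt k j).1 i : F) =
    (en kaT m j : F) * (en vmT m i : F) := by
  have h1 := cast_of_mod9 (num_ka9 ⟨m % 30, Nat.mod_lt _ (by norm_num)⟩ j i)
  simp only [en_mod9] at h1
  push_cast at h1
  rw [← h1]
  refine Finset.sum_congr rfl fun k hk => ?_
  have h2 : (3 : F) ^ (m * k) = 3 ^ (m % 30 * k % 30) := by
    rw [pow_mod9, ← pow_mod9 (m * k), ← pow_mod9 (m % 30 * k), Nat.mod_mul_mod]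
  rw [rt_table (Finset.mem_range.1 hk), h2]

private theorem toE_sr9 (v : ℕ) (s : List ℕ) (l : Fin 8) : (toE v s).x (sr l) = (s.getD l 0 : F) := by
  have h := toE_x v s 0 l
  have h1 : rt 0 l = sr l := rfl
  have h2 : etk 0 l = 1 := by simp [etk]
  rw [h1, h2] at h
  simpa using h

private theorem foldl9 {α : Type*} (g : α → ℕ) (L : List α) (c : ℕ) :
    L.foldl (fun acc e => acc + g e) c = c + (L.map g).sum := by
  induction L generalizing c with
  | nil => simp
  | cons x L ih => rw [List.foldl_cons, ih, List.map_cons, List.sum_cons, add_assoc]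

private theorem getD_brc9 (a b : ℕ) (s t : List ℕ) (l : Fin 8) : (brc a b s t).getD l 0 =
    (s.getD 8 0 * en prT a l * t.getD l 0 + 30 * t.getD 8 0 * en prT b l * s.getD l 0 + brt a b s t l) % 31 := by
  have h := l.2
  unfold brc
  rw [List.getD_append _ _ _ _ (by simp), List.getD_eq_getElem _ _ (by simp), List.getElem_map, List.getElem_range]

private theorem getD_brc8 (a b : ℕ) (s t : List ℕ) : (brc a b s t).getD 8 0 =
    ((if b % 2 = 0 then 30 else 1) * ((List.range 8).foldl (fun acc j => acc + s.getD j 0 * t.getD j 0 *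
      en kaT (a + b) j) 0)) % 31 := by
  unfold brc
  rw [List.getD_append_right _ _ _ _ (by simp)]
  simp

private theorem brt9 (a b : ℕ) (s t : List ℕ) (l : Fin 8) : ((brt a b s t l : ℕ) : F) =
    ∑ p : Root, ∑ q : Root, (if p.1 + q.1 = al l then ((eps p.1 q.1 : ℤ) : F) *
      ((toE a s).x p * (toE b t).x q) else 0) := by
  rw [tab_sum l (fun p q => (toE a s).x p * (toE b t).x q)]
  unfold brt
  rw [ZMod.natCast_mod, foldl9, zero_add, Nat.cast_list_sum, List.map_map]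
  refine congrArg List.sum (List.map_congr_left fun e he => ?_)
  have h1 := tab_lt l he
  have h2 := tab_sign l he
  have h3 : ((Fin.ofNat 8 e.1 : Fin 8) : ℕ) = e.1 := Nat.mod_eq_of_lt h1.1
  have h4 : ((Fin.ofNat 8 e.2.2.1 : Fin 8) : ℕ) = e.2.2.1 := Nat.mod_eq_of_lt h1.2
  have h5 : (toE a s).x (ea e) = (etk e.2.1 (Fin.ofNat 8 e.1) : F) * 3 ^ (a * e.2.1) * (s.getD e.1 0 : F) := by
    rw [ea, toE_x, h3]
  have h6 : (toE b t).x (eb e) = (etk e.2.2.2.1 (Fin.ofNat 8 e.2.2.1) : F) * 3 ^ (b * e.2.2.2.1) *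
      (t.getD e.2.2.1 0 : F) := by
    rw [eb, toE_x, h4]
  simp only [Function.comp_apply]
  rw [h5, h6]
  push_cast
  rw [pow_mod9, pow_add, ← h2]
  ring

private theorem neg_one9 : ((3 : F) ^ 15) = -1 := by decide +kernel

private theorem sgn9 (b : ℕ) : (((if b % 2 = 0 then 30 else 1) : ℕ) : F) = -(-1) ^ b := by
  split_ifs with h
  · rw [Even.neg_one_pow (Nat.even_iff.2 h)]
    decide +kernel
  · rw [Odd.neg_one_pow (Nat.odd_iff.2 (by omega))]
    simp

private theorem prod9 (a b : ℕ) (s t : List ℕ) (k : ℕ) (j : Fin 8) :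
    (toE a s).x (rt k j) * (toE b t).x (-rt k j) =
      (-1) ^ b * ((s.getD j 0 : F) * (t.getD j 0 : F)) * 3 ^ ((a + b) * k) := by
  rw [← rt_fifteen, toE_x, toE_x, etk_fifteen]
  have h1 : ((etk k j : ℤ) : F) * ((etk k j : ℤ) : F) = 1 := by
    rw [← Int.cast_mul, etk_sq, Int.cast_one]
  have h2 : (3 : F) ^ (b * (k + 15)) = 3 ^ (b * k) * (-1) ^ b := by
    rw [mul_add, pow_add, mul_comm b 15, pow_mul 3 15 b, neg_one9]
  rw [h2, add_mul, pow_add]
  linear_combination (3 ^ (a * k) * (s.getD j 0 : F) * (3 ^ (b * k) * (-1) ^ b) * (t.getD j 0 : F)) * h1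

theorem toE_brc (a b : ℕ) (s t : List ℕ) : ⁅toE a s, toE b t⁆ = toE (a + b) (brc a b s t) := by
  refine Ev_ext (Ev_lie (toE_Ev a s) (toE_Ev b t)) (toE_Ev _ _) ?_ fun l => ?_
  · funext i
    rw [Chev.brk_h, sum_rt]
    have h1 : (toE (a + b) (brc a b s t)).h i = ((brc a b s t).getD 8 0 : F) * (en vmT (a + b) i : F) := rfl
    rw [h1, getD_brc8, ZMod.natCast_mod, Nat.cast_mul, sgn9, foldl9, zero_add]
    have h2 : (((List.range 8).map fun j => s.getD j 0 * t.getD j 0 * en kaT (a + b) j).sum : ℕ) =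
        ∑ j : Fin 8, s.getD j 0 * t.getD j 0 * en kaT (a + b) j := by
      rw [Fin.sum_univ_eight]
      simp [List.range_succ, add_assoc]
    rw [h2, Finset.sum_comm]
    push_cast
    rw [mul_assoc, Finset.sum_mul, neg_mul, Finset.mul_sum]
    refine congrArg Neg.neg (Finset.sum_congr rfl fun j _ => ?_)
    have h3 := ka9 (a + b) j i
    calc _ = ∑ k ∈ Finset.range 30, ((-1) ^ b * ((s.getD j 0 : F) * (t.getD j 0 : F))) *
          ((3 : F) ^ ((a + b) * k) * ((rt k j).1 i : F)) := by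
          refine Finset.sum_congr rfl fun k _ => ?_
          rw [prod9]
          ring
      _ = _ := by
          rw [← Finset.mul_sum, h3]
          ring
  · rw [toE_sr9, getD_brc9, ZMod.natCast_mod, Chev.brk_x]
    have h1 : (sr l).1 = al l := rfl
    rw [h1, pr_toE9, pr_toE9, toE_sr9, toE_sr9, ← brt9]
    have h2 : (30 : F) = -1 := by decide +kernel
    push_cast
    rw [h2]
    ring

end Pool.Agent.Helper64.E8C
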