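import Pool.Agent.Helper64.E8C.Defs

/-!
# E8 at the prime 31: data (eigenvectors in `E_1`, code components)
-/

set_option autoImplicit false

namespace Pool.Agent.Helper64.E8C

/-- The nine eigenvectors of `ad h1` on `E_1` (simple roots 1, ..., 8 of the second Cartan subalgebra, then the affine one). -/
def fv : List (List ℕ) := [[18, 7, 6, 6, 10, 28, 30, 9, 1], [25, 14, 25, 14, 17, 6, 6, 14, 1], [17, 23, 19, 22, 19, 5,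
  27, 15, 1], [8, 25, 6, 1, 21, 16, 18, 3, 1], [24, 24, 7, 24, 24, 7, 24, 7, 1], [26, 22, 3, 14, 16, 11, 12, 28, 1],
  [1, 6, 5, 23, 26, 13, 9, 19, 1], [6, 28, 10, 19, 6, 20, 26, 16, 1], [30, 9, 29, 3, 11, 24, 17, 29, 1]]

/-- The eigenvalues of `ad h1` on the vectors `fv`. -/
def mu : List ℕ := [4, 9, 21, 19, 26, 23, 14, 22, 17]

/-- The coroot of the affine root in `E_0`: eigenvalue -2 on `f0`, eigenvalues 0, 1, -1, 2 on the other root vectors. -/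
def hth : List ℕ := [14, 7, 24, 1, 21, 23, 18, 5, 0]

/-- Inverse of the matrix `fv`. -/
def fvi : List (List ℕ) := [[8, 27, 22, 21, 6, 30, 11, 13, 17], [27, 19, 18, 28, 10, 28, 17, 15, 24], [20, 1, 13, 29,
  17, 20, 25, 23, 7], [27, 17, 12, 29, 22, 2, 8, 8, 30], [21, 21, 24, 30, 2, 30, 23, 25, 10], [29, 6, 17, 1, 22, 25,
  13, 3, 8], [24, 1, 6, 6, 17, 13, 17, 27, 13], [14, 12, 26, 14, 10, 1, 3, 18, 26], [29, 28, 27, 25, 26, 27, 28, 29,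
  30]]

/-- Bases of the code components `U_m`, `1 ≤ m ≤ 29`. -/
def Ub : List (List (List ℕ)) := [
  [],
  [[30, 9, 29, 3, 11, 24, 17, 29, 1]],
  [[16, 11, 1, 14, 10, 19, 7, 1, 0]],
  [[5, 17, 10, 16, 7, 4, 8, 10, 0]],
  [[22, 19, 13, 27, 6, 30, 29, 13, 0]],
  [[8, 21, 16, 7, 5, 25, 19, 16, 0]],
  [[9, 12, 18, 4, 25, 1, 2, 18, 0]],
  [[17, 19, 8, 6, 3, 9, 7, 14, 27], [16, 6, 5, 10, 7, 24, 2, 16, 3]],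
  [[19, 3, 29, 14, 7, 21, 6, 12, 0], [10, 8, 16, 5, 17, 3, 21, 5, 0]],
  [[7, 18, 5, 19, 15, 30, 24, 19, 0], [10, 9, 9, 12, 30, 2, 22, 2, 0]],
  [[4, 28, 25, 2, 13, 26, 27, 2, 0], [15, 18, 13, 3, 26, 14, 22, 5, 0]],
  [[8, 16, 13, 14, 15, 18, 30, 25, 10], [30, 25, 28, 7, 4, 30, 14, 23, 23], [20, 14, 6, 19, 7, 28, 3, 26, 4]],
  [[17, 3, 16, 22, 28, 15, 25, 26, 0], [22, 14, 8, 15, 2, 24, 18, 7, 0], [20, 17, 3, 25, 17, 16, 18, 28, 0]],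
  [[15, 4, 20, 30, 8, 6, 22, 13, 26], [12, 1, 28, 27, 12, 26, 15, 5, 23], [18, 25, 22, 21, 4, 9, 5, 22, 21], [3, 13, 23,
  13, 3, 14, 17, 26, 10]],
  [[21, 21, 29, 5, 5, 27, 29, 25, 0], [27, 22, 12, 12, 2, 17, 27, 9, 0], [4, 28, 8, 29, 23, 9, 3, 1, 0], [14, 9, 4, 9,
  14, 24, 7, 18, 0]],
  [[18, 18, 16, 22, 22, 1, 16, 17, 0], [30, 29, 1, 7, 19, 5, 2, 12, 0], [16, 9, 30, 14, 18, 16, 13, 22, 0], [12, 21, 30,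
  21, 12, 25, 6, 11, 0]],
  [[13, 7, 24, 18, 26, 5, 25, 25, 0], [24, 3, 27, 4, 1, 12, 15, 25, 0], [8, 4, 17, 21, 9, 14, 26, 2, 0], [29, 12, 26,
  12, 29, 1, 30, 24, 0]],
  [[29, 21, 19, 7, 15, 6, 11, 25, 14], [10, 28, 16, 11, 13, 7, 11, 14, 3], [25, 6, 24, 17, 29, 23, 27, 30, 8], [4, 12,
  23, 30, 12, 6, 1, 19, 11], [4, 25, 30, 6, 14, 17, 15, 2, 20]],
  [[17, 6, 24, 19, 13, 21, 20, 5, 0], [9, 16, 3, 24, 19, 1, 11, 16, 0], [2, 13, 28, 11, 13, 13, 16, 22, 0], [26, 5, 20,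
  9, 19, 14, 7, 25, 0], [26, 21, 24, 15, 21, 24, 22, 4, 0]],
  [[21, 6, 5, 3, 13, 10, 1, 30, 27], [1, 25, 30, 2, 18, 7, 3, 30, 13], [29, 4, 18, 20, 9, 23, 9, 30, 9], [13, 27, 11, 6,
  14, 17, 17, 27, 18], [5, 28, 25, 12, 13, 2, 27, 23, 4], [7, 27, 29, 14, 11, 21, 7, 17, 27]],
  [[24, 29, 19, 30, 6, 7, 10, 21, 0], [27, 20, 17, 19, 7, 23, 27, 12, 0], [30, 27, 25, 24, 2, 21, 12, 2, 0], [20, 6, 28,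
  22, 1, 15, 11, 22, 0], [21, 5, 11, 21, 10, 29, 7, 30, 0], [8, 22, 11, 16, 17, 24, 8, 15, 0]],
  [[7, 11, 10, 20, 6, 17, 25, 4, 0], [5, 10, 17, 7, 16, 9, 7, 28, 0], [2, 18, 14, 23, 12, 8, 12, 8, 0], [21, 27, 24, 6,
  7, 29, 9, 1, 0], [17, 23, 20, 5, 22, 23, 17, 4, 0], [9, 17, 24, 18, 23, 27, 9, 13, 0]],
  [[27, 5, 9, 6, 19, 13, 5, 2, 0], [22, 13, 19, 6, 27, 21, 6, 24, 0], [30, 9, 29, 17, 16, 13, 28, 8, 0], [6, 21, 21, 9,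
  20, 6, 29, 1, 0], [20, 30, 27, 10, 29, 18, 17, 13, 0], [7, 16, 17, 7, 28, 5, 28, 18, 0]],
  [[16, 26, 30, 9, 20, 12, 17, 26, 7], [16, 28, 14, 1, 8, 4, 24, 14, 10], [28, 11, 22, 17, 19, 7, 20, 10, 4], [15, 13,
  11, 19, 16, 5, 2, 1, 17], [24, 12, 1, 16, 10, 5, 28, 15, 14], [22, 2, 23, 16, 30, 6, 1, 12, 17], [15, 25, 27, 21,
  25, 16, 23, 30, 14]],
  [[13, 30, 11, 25, 2, 12, 12, 9, 0], [27, 26, 21, 2, 2, 4, 11, 21, 0], [27, 14, 4, 16, 14, 30, 29, 9, 0], [13, 4, 8, 9,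
  21, 11, 27, 29, 0], [26, 10, 30, 12, 21, 1, 18, 6, 0], [10, 18, 29, 3, 18, 29, 5, 14, 0], [4, 17, 1, 18, 17, 27, 2,
  8, 0]],
  [[29, 22, 3, 15, 9, 15, 1, 1, 0], [13, 3, 4, 4, 12, 26, 23, 9, 0], [5, 16, 16, 23, 1, 22, 24, 19, 0], [23, 2, 25, 22,
  13, 7, 18, 4, 0], [1, 27, 7, 19, 14, 10, 5, 10, 0], [24, 5, 8, 14, 16, 3, 20, 23, 0], [30, 14, 13, 1, 8, 18, 29, 16,
  0]],
  [[14, 26, 1, 2, 20, 14, 14, 13, 0], [21, 4, 11, 2, 13, 28, 4, 7, 0], [9, 4, 15, 27, 20, 16, 18, 29, 0], [29, 1, 25,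
  11, 28, 6, 19, 28, 0], [5, 11, 4, 2, 8, 19, 25, 19, 0], [5, 20, 6, 14, 17, 30, 17, 3, 0], [20, 18, 17, 3, 16, 8, 5,
  6, 0]],
  [[23, 21, 25, 1, 13, 29, 9, 13, 0], [13, 12, 30, 12, 4, 29, 17, 23, 0], [29, 16, 19, 27, 29, 5, 6, 24, 0], [23, 14,
  16, 5, 28, 22, 5, 23, 0], [2, 11, 26, 8, 10, 18, 14, 6, 0], [27, 24, 6, 15, 17, 12, 18, 21, 0], [27, 9, 11, 20, 4,
  10, 7, 15, 0]],
  [[21, 30, 18, 19, 3, 10, 7, 21, 0], [24, 7, 29, 8, 3, 12, 28, 29, 0], [28, 5, 14, 24, 4, 22, 20, 6, 0], [5, 4, 13, 27,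
  10, 20, 15, 16, 0], [10, 25, 5, 27, 5, 23, 18, 26, 0], [9, 14, 18, 7, 23, 3, 13, 14, 0], [18, 16, 12, 29, 8, 1, 29,
  25, 0]],
  [[4, 7, 19, 12, 22, 20, 25, 27, 20], [30, 21, 9, 19, 12, 27, 21, 11, 1], [14, 11, 30, 3, 14, 22, 4, 17, 9], [22, 16,
  21, 29, 28, 29, 21, 16, 12], [16, 11, 28, 28, 14, 17, 9, 21, 29], [29, 4, 27, 13, 26, 21, 22, 23, 22], [6, 18, 14,
  21, 15, 22, 14, 13, 1], [12, 25, 30, 25, 16, 28, 5, 21, 20]]]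

/-- The vector number `k` of `U_m` (`m ≥ 2`) is the bracket of `fv i` and the vector number `k'` of `U_(m-1)`, `(i, k')` = entry `k` of row `m`. -/
def tree : List (List (ℕ × ℕ)) := [[], [], [(7, 0)], [(6, 0)], [(5, 0)], [(4, 0)], [(3, 0)], [(1, 0), (2, 0)], [(2,
  0), (0, 1)], [(0, 0), (3, 0)], [(3, 0), (4, 1)], [(2, 0), (4, 0), (5, 1)], [(4, 0), (5, 1), (6, 2)], [(3, 0), (5,
  0), (6, 1), (7, 2)], [(1, 0), (5, 0), (6, 1), (7, 2)], [(5, 0), (4, 1), (6, 1), (7, 2)], [(4, 0), (6, 0), (6, 1),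
  (7, 2)], [(3, 0), (6, 0), (7, 1), (5, 2), (7, 2)], [(2, 0), (6, 0), (5, 1), (7, 1), (7, 3)], [(0, 0), (6, 0), (5,
  1), (7, 1), (7, 2), (6, 4)], [(6, 0), (5, 1), (7, 1), (4, 2), (7, 2), (6, 4)], [(5, 0), (7, 0), (4, 1), (7, 1), (7,
  3), (6, 4)], [(4, 0), (7, 0), (3, 2), (7, 2), (6, 3), (6, 4)], [(3, 0), (7, 0), (6, 1), (1, 2), (7, 2), (6, 3), (5,
  5)], [(1, 0), (2, 0), (7, 0), (6, 1), (7, 3), (6, 4), (5, 5)], [(2, 0), (7, 0), (7, 1), (6, 2), (5, 3), (6, 4), (5,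
  5)], [(3, 0), (7, 0), (6, 1), (6, 2), (5, 3), (5, 5), (4, 6)], [(4, 0), (7, 0), (6, 1), (5, 2), (5, 3), (4, 4), (4,
  5)], [(5, 0), (7, 0), (6, 1), (5, 2), (4, 3), (4, 4), (3, 6)], [(6, 0), (7, 0), (6, 1), (5, 2), (4, 3), (3, 4), (3,
  5), (2, 6)]]
/-- Certificate matrices `X_m`. -/
def cX : List (List (List ℕ)) := [
  [],
  [[0], [0], [0], [0], [0], [0], [0], [0], [1]],
  [[0], [0], [0], [0], [0], [0], [0], [1]],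
  [[0], [0], [0], [0], [0], [0], [0], [28]],
  [[0], [0], [0], [0], [0], [0], [0], [12]],
  [[0], [0], [0], [0], [0], [0], [0], [2]],
  [[0], [0], [0], [0], [0], [0], [0], [19]],
  [[0, 0], [0, 0], [0, 0], [0, 0], [0, 0], [0, 0], [0, 0], [5, 17], [25, 13]],
  [[0, 0], [0, 0], [0, 0], [0, 0], [0, 0], [0, 0], [30, 21], [29, 5]],
  [[0, 0], [0, 0], [0, 0], [0, 0], [0, 0], [0, 0], [1, 6], [20, 12]],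
  [[0, 0], [0, 0], [0, 0], [0, 0], [0, 0], [0, 0], [13, 1], [11, 2]],
  [[0, 0, 0], [0, 0, 0], [0, 0, 0], [0, 0, 0], [0, 0, 0], [0, 0, 0], [10, 26, 27], [18, 3, 23], [15, 23, 1]],
  [[0, 0, 0], [0, 0, 0], [0, 0, 0], [0, 0, 0], [0, 0, 0], [3, 8, 24], [30, 2, 27], [10, 3, 21]],
  [[0, 0, 0, 0], [0, 0, 0, 0], [0, 0, 0, 0], [0, 0, 0, 0], [0, 0, 0, 0], [13, 18, 21, 14], [6, 27, 2, 8], [2, 10, 11,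
  20], [16, 30, 13, 11]],
  [[0, 0, 0, 0], [0, 0, 0, 0], [0, 0, 0, 0], [0, 0, 0, 0], [3, 23, 5, 3], [18, 29, 19, 18], [10, 8, 30, 8], [18, 23, 28,
  24]],
  [[0, 0, 0, 0], [0, 0, 0, 0], [0, 0, 0, 0], [0, 0, 0, 0], [12, 9, 25, 9], [27, 10, 16, 14], [29, 22, 13, 1], [14, 9,
  11, 3]],
  [[0, 0, 0, 0], [0, 0, 0, 0], [0, 0, 0, 0], [0, 0, 0, 0], [6, 13, 3, 20], [21, 26, 14, 8], [6, 29, 24, 30], [27, 18,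
  11, 22]],
  [[0, 0, 0, 0, 0], [0, 0, 0, 0, 0], [0, 0, 0, 0, 0], [0, 0, 0, 0, 0], [26, 1, 7, 19, 18], [29, 13, 17, 6, 25], [26, 13,
  7, 28, 19], [24, 13, 22, 18, 23], [5, 2, 29, 27, 7]],
  [[0, 0, 0, 0, 0], [0, 0, 0, 0, 0], [0, 0, 0, 0, 0], [6, 5, 5, 20, 6], [1, 19, 11, 11, 26], [15, 1, 3, 13, 19], [2, 15,
  4, 8, 5], [3, 10, 23, 1, 2]],
  [[0, 0, 0, 0, 0, 0], [0, 0, 0, 0, 0, 0], [0, 0, 0, 0, 0, 0], [19, 24, 12, 25, 16, 13], [29, 14, 13, 20, 11, 15], [1,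
  13, 9, 13, 9, 5], [27, 27, 9, 15, 7, 16], [25, 13, 8, 5, 6, 25], [26, 22, 12, 18, 24, 30]],
  [[0, 0, 0, 0, 0, 0], [0, 0, 0, 0, 0, 0], [8, 14, 1, 8, 1, 3], [2, 20, 1, 16, 22, 19], [3, 21, 23, 22, 21, 5], [29, 29,
  30, 13, 15, 3], [15, 10, 21, 12, 15, 26], [21, 21, 8, 20, 13, 7]],
  [[0, 0, 0, 0, 0, 0], [0, 0, 0, 0, 0, 0], [2, 13, 22, 26, 10, 10], [14, 25, 22, 23, 13, 6], [8, 10, 24, 30, 6, 0], [12,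
  6, 20, 10, 23, 30], [13, 21, 26, 22, 25, 16], [29, 4, 1, 29, 19, 12]],
  [[0, 0, 0, 0, 0, 0], [0, 0, 0, 0, 0, 0], [8, 16, 23, 3, 6, 13], [10, 12, 23, 6, 0, 24], [5, 8, 11, 26, 3, 13], [24,
  25, 4, 4, 5, 29], [7, 1, 30, 17, 25, 0], [8, 23, 25, 25, 20, 7]],
  [[0, 0, 0, 0, 0, 0, 0], [0, 0, 0, 0, 0, 0, 0], [30, 22, 2, 24, 29, 2, 10], [18, 1, 26, 24, 11, 10, 28], [10, 22, 1,
  29, 8, 10, 10], [3, 5, 8, 19, 30, 2, 8], [22, 9, 9, 3, 24, 10, 0], [26, 5, 15, 18, 17, 14, 3], [19, 14, 10, 0, 29,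
  12, 5]],
  [[0, 0, 0, 0, 0, 0, 0], [1, 22, 26, 14, 26, 24, 5], [10, 5, 2, 8, 24, 12, 10], [29, 20, 25, 7, 8, 13, 7], [18, 29, 15,
  29, 8, 11, 16], [14, 28, 2, 20, 1, 29, 17], [22, 27, 4, 15, 10, 16, 27], [7, 16, 23, 26, 21, 10, 10]],
  [[0, 0, 0, 0, 0, 0, 0], [23, 23, 7, 7, 27, 5, 29], [7, 19, 13, 15, 10, 16, 16], [10, 6, 15, 12, 20, 30, 30], [27, 27,
  6, 7, 7, 5, 15], [15, 26, 29, 2, 10, 3, 30], [17, 17, 23, 21, 10, 15, 22], [17, 30, 0, 3, 0, 0, 24]],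
  [[0, 0, 0, 0, 0, 0, 0], [17, 27, 24, 13, 0, 17, 10], [20, 26, 21, 25, 3, 12, 13], [2, 4, 10, 0, 20, 7, 5], [24, 6, 12,
  16, 24, 28, 18], [3, 27, 3, 29, 27, 22, 5], [22, 15, 11, 2, 29, 29, 14], [22, 1, 25, 19, 2, 21, 4]],
  [[0, 0, 0, 0, 0, 0, 0], [8, 21, 1, 25, 10, 11, 9], [24, 21, 11, 7, 12, 21, 25], [21, 3, 10, 10, 13, 14, 12], [4, 9,
  10, 10, 26, 30, 23], [16, 18, 6, 18, 24, 10, 30], [14, 21, 29, 28, 0, 13, 30], [14, 12, 26, 7, 9, 13, 7]],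
  [[0, 0, 0, 0, 0, 0, 0], [30, 3, 24, 21, 10, 30, 8], [28, 2, 26, 16, 7, 11, 5], [9, 5, 24, 5, 8, 3, 21], [15, 9, 6, 28,
  0, 29, 17], [29, 2, 3, 18, 6, 26, 6], [6, 22, 11, 20, 9, 10, 6], [6, 5, 25, 27, 5, 27, 20]],
  [[0, 0, 0, 0, 0, 0, 0, 0], [3, 21, 26, 26, 13, 17, 6, 30], [9, 29, 19, 17, 14, 10, 27, 11], [4, 24, 20, 29, 27, 3, 13,
  9], [17, 27, 5, 25, 21, 28, 12, 25], [6, 27, 10, 4, 25, 14, 30, 7], [13, 24, 3, 22, 20, 27, 2, 7], [13, 30, 15, 17,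
  12, 23, 24, 13], [21, 25, 19, 18, 27, 8, 15, 26]]]

/-- Certificate matrices `Y_m`. -/
def cY : List (List (List ℕ)) := [
  [],
  [[16, 8, 23, 10, 24, 13, 25, 19, 0], [22, 29, 15, 3, 10, 3, 5, 14, 0], [13, 12, 7, 3, 7, 19, 24, 11, 0], [27, 10, 6,
  14, 19, 30, 15, 6, 0], [25, 10, 5, 22, 14, 26, 20, 7, 0], [12, 30, 14, 23, 26, 8, 17, 1, 0], [7, 24, 18, 28, 4, 19,
  3, 21, 0], [8, 22, 5, 29, 11, 18, 12, 3, 0]],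
  [[28, 26, 22, 18, 17, 8, 26, 0], [13, 10, 28, 28, 21, 0, 18, 0], [3, 28, 1, 15, 4, 24, 22, 0], [2, 3, 20, 30, 6, 1,
  17, 0], [13, 17, 2, 0, 12, 4, 5, 0], [2, 12, 15, 28, 7, 9, 7, 0], [21, 5, 16, 20, 3, 29, 21, 0]],
  [[7, 22, 21, 20, 12, 2, 22, 0], [6, 18, 22, 10, 18, 24, 1, 0], [13, 6, 15, 13, 2, 23, 29, 0], [19, 21, 0, 26, 29, 22,
  21, 0], [20, 27, 28, 20, 2, 23, 1, 0], [22, 8, 23, 13, 7, 20, 16, 0], [19, 6, 13, 24, 16, 10, 19, 0]],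
  [[20, 23, 29, 4, 21, 19, 23, 0], [15, 16, 25, 21, 27, 8, 8, 0], [3, 28, 27, 1, 10, 24, 22, 0], [6, 21, 6, 13, 12, 9,
  24, 0], [30, 9, 1, 23, 4, 20, 15, 0], [5, 3, 22, 23, 4, 26, 6, 0], [29, 28, 9, 11, 9, 22, 17, 0]],
  [[24, 9, 10, 11, 19, 29, 9, 0], [15, 28, 11, 11, 25, 17, 7, 0], [0, 24, 18, 16, 25, 2, 8, 0], [17, 26, 19, 30, 23, 24,
  0, 0], [0, 4, 21, 11, 24, 21, 21, 0], [0, 26, 15, 1, 26, 28, 16, 0], [12, 18, 8, 27, 8, 23, 22, 0]],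
  [[12, 17, 3, 24, 10, 5, 4, 0], [23, 1, 20, 13, 24, 3, 8, 0], [4, 21, 10, 13, 2, 30, 29, 0], [18, 7, 13, 15, 17, 22,
  19, 0], [5, 12, 3, 24, 15, 5, 18, 0], [26, 7, 2, 28, 4, 25, 8, 0], [26, 19, 0, 22, 9, 13, 19, 0]],
  [[29, 8, 5, 11, 6, 24, 2, 0, 0], [20, 28, 19, 0, 13, 20, 14, 0, 0], [20, 4, 21, 24, 1, 10, 21, 0, 0], [9, 12, 25, 11,
  27, 13, 30, 0, 0], [6, 27, 5, 11, 18, 24, 17, 0, 0], [22, 29, 3, 25, 2, 18, 29, 0, 0], [0, 30, 28, 27, 8, 24, 30, 0,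
  0]],
  [[24, 30, 8, 17, 25, 8, 0, 0], [29, 14, 9, 21, 9, 15, 0, 0], [15, 28, 28, 3, 12, 8, 0, 0], [18, 3, 0, 22, 20, 27, 0,
  0], [7, 0, 13, 17, 1, 22, 0, 0], [9, 10, 14, 14, 12, 1, 0, 0]],
  [[10, 0, 8, 28, 29, 30, 0, 0], [29, 5, 12, 14, 29, 24, 0, 0], [18, 15, 15, 16, 2, 22, 0, 0], [24, 28, 19, 1, 26, 7, 0,
  0], [12, 28, 23, 4, 18, 18, 0, 0], [7, 10, 20, 19, 4, 8, 0, 0]],
  [[14, 4, 25, 2, 20, 28, 0, 0], [8, 23, 16, 10, 21, 21, 0, 0], [16, 14, 12, 5, 10, 15, 0, 0], [10, 6, 7, 7, 13, 18, 0,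
  0], [17, 28, 8, 29, 17, 15, 0, 0], [3, 29, 20, 30, 18, 30, 0, 0]],
  [[15, 20, 19, 2, 8, 1, 0, 0, 0], [0, 3, 15, 29, 29, 28, 0, 0, 0], [2, 26, 20, 20, 15, 16, 0, 0, 0], [4, 2, 11, 10, 19,
  13, 0, 0, 0], [15, 5, 8, 7, 11, 4, 0, 0, 0], [17, 15, 9, 3, 26, 6, 0, 0, 0]],
  [[26, 9, 26, 11, 29, 0, 0, 0], [7, 11, 6, 15, 10, 0, 0, 0], [22, 2, 15, 26, 0, 0, 0, 0], [1, 13, 30, 9, 10, 0, 0, 0],
  [28, 1, 7, 10, 26, 0, 0, 0]],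
  [[22, 10, 22, 26, 15, 0, 0, 0, 0], [16, 2, 21, 5, 20, 0, 0, 0, 0], [4, 15, 16, 2, 10, 0, 0, 0, 0], [17, 29, 8, 2, 25,
  0, 0, 0, 0], [14, 9, 21, 17, 25, 0, 0, 0, 0]],
  [[9, 1, 15, 30, 0, 0, 0, 0], [18, 30, 22, 8, 0, 0, 0, 0], [15, 3, 20, 13, 0, 0, 0, 0], [24, 22, 23, 2, 0, 0, 0, 0]],
  [[21, 11, 29, 2, 0, 0, 0, 0], [30, 13, 29, 17, 0, 0, 0, 0], [16, 30, 30, 11, 0, 0, 0, 0], [9, 4, 30, 7, 0, 0, 0, 0]],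
  [[24, 7, 6, 15, 0, 0, 0, 0], [6, 15, 12, 22, 0, 0, 0, 0], [10, 13, 30, 27, 0, 0, 0, 0], [5, 10, 8, 27, 0, 0, 0, 0]],
  [[8, 23, 2, 5, 0, 0, 0, 0, 0], [6, 13, 11, 21, 0, 0, 0, 0, 0], [29, 9, 7, 22, 0, 0, 0, 0, 0], [20, 27, 28, 7, 0, 0, 0,
  0, 0]],
  [[15, 16, 16, 0, 0, 0, 0, 0], [23, 5, 25, 0, 0, 0, 0, 0], [24, 15, 24, 0, 0, 0, 0, 0]],
  [[14, 29, 20, 0, 0, 0, 0, 0, 0], [25, 22, 10, 0, 0, 0, 0, 0, 0], [8, 5, 8, 0, 0, 0, 0, 0, 0]],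
  [[24, 11, 0, 0, 0, 0, 0, 0], [4, 26, 0, 0, 0, 0, 0, 0]],
  [[12, 28, 0, 0, 0, 0, 0, 0], [7, 30, 0, 0, 0, 0, 0, 0]],
  [[27, 5, 0, 0, 0, 0, 0, 0], [17, 6, 0, 0, 0, 0, 0, 0]],
  [[12, 30, 0, 0, 0, 0, 0, 0, 0], [24, 3, 0, 0, 0, 0, 0, 0, 0]],
  [[7, 0, 0, 0, 0, 0, 0, 0]],
  [[27, 0, 0, 0, 0, 0, 0, 0]],
  [[24, 0, 0, 0, 0, 0, 0, 0]],
  [[6, 0, 0, 0, 0, 0, 0, 0]],
  [[2, 0, 0, 0, 0, 0, 0, 0]],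
  [[1, 0, 0, 0, 0, 0, 0, 0, 0]]]

end Pool.Agent.Helper64.E8C
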