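import Pool.Agent.Helper64.E8C.A5

/-!
# Block E8C-DB: the reduction `D` of `31 L`

* `inD_add`, `inD_smul` (multiples by integers cover `ZMod 31`), `inD_zero`: from the subgroup `L` (`Fx`, `inc`, `cm ev` are additive).
* `inD_fx`: `fx`, `Fx_inc` (`31 • y` satisfies `Fx σ` too), `Fx_cm`, `ev_so`. `inD_c0`: `L_bound`, `inc_inj`, `pO_dvd_iff`.
* `inD_lie`: `lift_B` gives `X` with `cm ev X = c`, `Fx so X`; `inc X ∈ L` (`O_mem`), `⁅inc X, y⁆ ∈ L`, `31 • ⁅inc X, y⁆ = inc ⁅X, y'⁆`.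
* `mem_of_inD`: `inD` gives `z ∈ L`, `inc z' = 31 • z`, `cm ev z' = cm ev y'`; so `y' - z' = 31 • w` (`cm_ev_zero`), `y - z = inc w`, `Fx σ (y - z)`, `O_mem`.
-/

set_option autoImplicit false

namespace Pool.Agent.Helper64.E8C

open Pool.Agent.Helper73.E8 Pool.Agent.Helper2.E8A NumberField Polynomial

/-- The reductions of the elements of `31 L`. -/
def InD (L : AddSubgroup (Chev K)) (b : Chev B) : Prop :=
  ∃ y ∈ L, ∃ y' : Chev O, inc y' = (31 : K) • y ∧ cm ev y' = b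

theorem inD_zero {L : AddSubgroup (Chev K)} (hL : IsL L) : InD L 0 := by
  refine ⟨0, L.zero_mem, 0, ?_, cm_zero ev⟩
  rw [smul_zero]
  exact cm_zero (algebraMap O K)

theorem inD_add {L : AddSubgroup (Chev K)} (hL : IsL L) {b c : Chev B} (hb : InD L b) (hc : InD L c) : InD L (b + c) := by
  obtain ⟨y, hy, y', h1, h2⟩ := hb
  obtain ⟨z, hz, z', h3, h4⟩ := hc
  refine ⟨y + z, L.add_mem hy hz, y' + z', ?_, ?_⟩
  · rw [inc_add, h1, h3, smul_add]
  · rw [cm_add, h2, h4]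

private theorem coe31 : ((31 : O) : K) = 31 := map_ofNat (algebraMap O K) 31

private theorem Fx31 {y : Chev K} (hy : Fx σ y) : Fx σ ((31 : K) • y) := by
  have h := Fx_K_smul 31 hy
  have e : ((31 : ℚ) : K) = 31 := by norm_num
  rwa [e] at h

theorem inD_smul {L : AddSubgroup (Chev K)} (hL : IsL L) (c : F) {b : Chev B} (hb : InD L b) :
    InD L (algebraMap F B c • b) := by
  obtain ⟨y, hy, y', h1, h2⟩ := hb
  obtain ⟨n, rfl⟩ : ∃ n : ℕ, (n : F) = c := ⟨c.val, ZMod.natCast_zmod_val c⟩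
  refine ⟨n • y, L.nsmul_mem hy n, (n : O) • y', ?_, ?_⟩
  · have e : ((n : O) : K) = n := map_natCast (algebraMap O K) n
    rw [inc_smul, h1, e, ← Nat.cast_smul_eq_nsmul K n y, smul_comm]
  · rw [cm_smul, h2, map_natCast, map_natCast]

theorem inD_fx {L : AddSubgroup (Chev K)} (hL : IsL L) {b : Chev B} (hb : InD L b) : Fx sB b := by
  obtain ⟨y, hy, y', h1, rfl⟩ := hb
  have h2 : Fx so y' := by
    rw [← Fx_inc, h1]
    exact Fx31 (hL.fx y hy)
  exact Fx_cm (f := ev) (s := so) (s' := sB) ev_so h2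

theorem inD_c0 {L : AddSubgroup (Chev K)} (hL : IsL L) {b : Chev B} (hb : InD L b) : cmp 0 b = 0 := by
  obtain ⟨y, hy, y', h1, rfl⟩ := hb
  obtain ⟨z', h2⟩ := L_bound hL hy
  have h3 : y' = pO • z' := inc_inj (h1.trans h2.symm)
  subst h3
  apply Chev.ext
  · funext i
    change cf 0 (ev (pO * z'.h i)) = 0
    exact (pO_dvd_iff _).1 (dvd_mul_right _ _)
  · funext a
    change cf 0 (ev (pO * z'.x a)) = 0
    exact (pO_dvd_iff _).1 (dvd_mul_right _ _)

theorem inD_lie {L : AddSubgroup (Chev K)} (hL : IsL L) {b c : Chev B} (hc : Fx sB c) (hb : InD L b) : InD L ⁅c, b⁆ := by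
  obtain ⟨y, hy, y', h1, rfl⟩ := hb
  obtain ⟨X, hX, rfl⟩ := lift_B c hc
  refine ⟨⁅inc X, y⁆, hL.lie _ (O_mem hL hX) _ hy, ⁅X, y'⁆, ?_, ?_⟩
  · rw [inc_lie, h1]
    exact lie_smul _ _ _
  · rw [cm_lie]

theorem mem_of_inD {L : AddSubgroup (Chev K)} (hL : IsL L) {y : Chev K} (hy : Fx σ y) {y' : Chev O}
    (h : inc y' = (31 : K) • y) (hD : InD L (cm ev y')) : y ∈ L := by
  obtain ⟨z, hz, z', h1, h2⟩ := hD
  have h3 : cm ev (y' + -z') = 0 := by
    rw [cm_add, cm_neg, h2, add_neg_cancel]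
  obtain ⟨w, hw⟩ := cm_ev_zero h3
  have h4 : (31 : K) • (y + -z) = (31 : K) • inc w := by
    rw [smul_add, smul_neg, ← h, ← h1, ← inc_neg, ← inc_add, hw, inc_smul, coe31]
  have h5 : y + -z = inc w := by
    have h6 := congrArg (fun v => (31 : K)⁻¹ • v) h4
    simp only [smul_smul] at h6
    rwa [inv_mul_cancel₀ (by norm_num), one_smul, one_smul] at h6
  have h7 : Fx so w := by
    rw [← Fx_inc, ← h5]
    exact Fx_K_add hy (Fx_K_neg (hL.fx z hz))
  have h8 := L.add_mem (O_mem hL h7) hz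
  rw [← h5, neg_add_cancel_right] at h8
  exact h8

end Pool.Agent.Helper64.E8C
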