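import Pool.Agent.Helper64.E8C.Pu
import Pool.Agent.Helper64.E8C.Brc

/-!
# The algebraic hypotheses on `D` (definition only)
-/

set_option autoImplicit false

namespace Pool.Agent.Helper64.E8C

open Pool.Agent.Helper73.E8 Pool.Agent.Helper2.E8A NumberField Polynomial

/-- The properties of the reduction of `31 L`. -/
structure IsD (D : Chev B → Prop) : Prop where
  zero : D 0
  add : ∀ b c, D b → D c → D (b + c)
  smul : ∀ (c : F) b, D b → D (algebraMap F B c • b)
  fx : ∀ b, D b → Fx sB b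
  c0 : ∀ b, D b → cmp 0 b = 0
  lie : ∀ b c, Fx sB c → D b → D ⁅c, b⁆
  iso : ∀ b c, D b → D c → ∑ v ∈ Finset.range 29, Chev.bf (cmp (v + 1) b) (cmp (29 - v) c) = 0
  ex : ∃ b, D b ∧ cmp 1 b ≠ 0

end Pool.Agent.Helper64.E8C
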