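import Pool.Agent.Helper64.E8C.Bring

/-!
# Block E8C-EV: reduction modulo 31

* `ex_root`: the minimal polynomial of `hζ.toInteger` over `ℤ` is `cyclotomic 31 ℤ` (`IsPrimitiveRoot.minpoly_eq_cyclotomic...`; the
  gen of `hζ.integralPowerBasis` is `hζ.toInteger`). Over `ZMod 31` it is `(X - 1) ^ 30`:
  `Polynomial.cyclotomic_mul_prime_eq_pow_of_not_dvd` with `n = 1`, `p = 31`; then `ex_sub_one_pow`.
* `ev_so`: both sides are ring homomorphisms `𝓞 K → B`; they agree at `ζ` (`so ζ = ζ ^ 3` from `σ_ζ`, `ex_pow`, `sB_ex`), and `ζ` generates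
  `𝓞 K` (`hζ.integralPowerBasis`, `PowerBasis.algHom_ext`).
* `cf_ev_pow`: `ev (ζ ^ k) = ex 1 ^ k = ex k`.
-/

set_option autoImplicit false

namespace Pool.Agent.Helper64.E8C

open Pool.Agent.Helper73.E8 Pool.Agent.Helper2.E8A NumberField Polynomial

theorem ex_root : aeval (ex 1) (minpoly ℤ hζ.integralPowerBasis.gen) = 0 := by
  rw [hζ.integralPowerBasis_gen]
  have h1 : minpoly ℤ hζ.toInteger = cyclotomic 31 ℤ := by
    rw [cyclotomic_eq_minpoly hζ (by norm_num)]
    exact (minpoly.algebraMap_eq (RingOfIntegers.coe_injective (K := K)) hζ.toInteger).symm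
  have hfact : Fact (Nat.Prime 31) := ⟨by norm_num⟩
  have h2 : cyclotomic 31 F = (X - 1) ^ 30 := by
    have h3 := cyclotomic_mul_prime_eq_pow_of_not_dvd F (p := 31) (n := 1) (by norm_num)
    rw [cyclotomic_one] at h3
    exact h3
  have h4 : aeval (ex 1) (cyclotomic 31 ℤ) = aeval (ex 1) (cyclotomic 31 F) := by
    rw [aeval_def, aeval_def, eval₂_eq_eval_map, eval₂_eq_eval_map, map_cyclotomic, map_cyclotomic]
  rw [h1, h4, h2, map_pow, map_sub, aeval_X, map_one, ex_sub_one_pow]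

/-- Reduction modulo 31: `ζ ↦ exp λ`. -/
noncomputable def ev : O →+* B := (hζ.integralPowerBasis.lift (ex 1) ex_root : O →ₐ[ℤ] B)

theorem ev_zeta : ev hζ.toInteger = ex 1 := by
  have h1 := hζ.integralPowerBasis.lift_gen (ex 1) ex_root
  rw [hζ.integralPowerBasis_gen] at h1
  exact h1

theorem so_zeta : so hζ.toInteger = hζ.toInteger ^ 3 := by
  apply RingOfIntegers.ext
  have h1 : ((hζ.toInteger : O) : K) = ζ := rfl
  have h2 : ((so hζ.toInteger : O) : K) = σ ((hζ.toInteger : O) : K) := rfl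
  have h3 : ((hζ.toInteger ^ 3 : O) : K) = ((hζ.toInteger : O) : K) ^ 3 := rfl
  rw [h2, h3, h1, σ_ζ]

theorem so_coe (x : O) : ((so x : O) : K) = σ (x : K) := rfl

theorem ev_so (x : O) : ev (so x) = sB (ev x) := by
  have h1 : (ev.comp so).toIntAlgHom = (sB.comp ev).toIntAlgHom := by
    apply hζ.integralPowerBasis.algHom_ext
    rw [hζ.integralPowerBasis_gen]
    change ev (so hζ.toInteger) = sB (ev hζ.toInteger)
    rw [so_zeta, map_pow, ev_zeta, ex_pow, sB_ex]
    congr 1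
  exact AlgHom.congr_fun h1 x

theorem cf_ev_pow {v : ℕ} (hv : v < 30) (k : ℕ) : cf v (ev (hζ.toInteger ^ k)) = (k : F) ^ v / (v.factorial : F) := by
  rw [map_pow, ev_zeta, ex_pow, mul_one, cf_ex hv]

theorem cf_zero_so (x : O) : cf 0 (ev (so x)) = cf 0 (ev x) := by
  rw [ev_so, cf_sB, pow_zero, one_mul]

theorem ev_pO : ∃ u : B, IsUnit u ∧ ev pO = lam * u := by
  obtain ⟨u, hu, h⟩ := ex_one_sub
  refine ⟨-u, hu.neg, ?_⟩
  rw [pO, map_sub, map_one, ev_zeta, mul_neg, ← h, neg_sub]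

end Pool.Agent.Helper64.E8C
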