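import Pool.Agent.Helper64.E8C.EvKa
import Pool.Agent.Helper64.E8C.Ev

/-!
# Block E8C-EVK: kernel and image of the reduction, divisibility by `1 - ζ`

* `ev_surj`: the image is a subring which contains `𝔽₃₁` and `ex 1 - 1 = λ u`, `u` a unit; so by descending induction on `v` it
  contains all multiples of `λ ^ v` (`λ ^ v` = unit constant times `(ex 1 - 1) ^ v` modulo higher powers), or: `(ex 1 - 1) ^ v`, `v < 30`, is a
  basis.
* `ev_ker`: `𝓞 K / 31` has `31 ^ 30` elements and so has `B`, and `ev` is surjective; or: write `x = p(ζ)`, `p` of degree `< 30`, `p` modulo 31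
  in powers of `X - 1`: `∑_{v<30} c_v (ex 1 - 1) ^ v = 0` implies `c_v = 0` for all `v`, successively.
* `pO_dvd_iff`: `→` from `ev_pO`. `←`: `𝓞 K / (1 - ζ)` has 31 elements (`P0` is a prime of norm 31), so the surjective homomorphism `x ↦ cf 0 (ev x)` to
  `ZMod 31` has kernel `(1 - ζ)`; or: every `x` is congruent modulo `1 - ζ` to an integer `n` (`ζ ≡ 1`), `cf 0 (ev x) = n`, and `31 ∣ n` implies
  `1 - ζ ∣ n`.
* `thirtyone`: `associated_zeta_sub_one_pow_prime 31 hζ` (NumberField/Cyclotomic/Ideal.lean or the file where it is).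
* `so_pO`: `σ (1 - ζ) = 1 - ζ ^ 3 = (1 - ζ) (1 + ζ + ζ ^ 2)`.
* `int_of_pow`: let `(1 - ζ) ^ 29 q = x ∈ 𝓞 K`. `31 q = unit (1 - ζ) x` is an integer `N` (integral and rational), divisible by `1 - ζ`, so `31 ∣ N`
  (`IsCyclotomicExtension.Rat.zeta_sub_one_dvd_intCast_iff'` or `pO_dvd_iff`), `q = N / 31`.
-/

set_option autoImplicit false

namespace Pool.Agent.Helper64.E8C

open Pool.Agent.Helper73.E8 Pool.Agent.Helper2.E8A NumberField Polynomial

private theorem cf0_mul45 (b c : B) : cf 0 (b * c) = cf 0 b * cf 0 c := by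
  rw [cf_mul (by norm_num)]
  simp

private theorem cf0_lam45 (b : B) : cf 0 (lam * b) = 0 := by
  have h : cf 0 lam = 0 := by
    have h1 := cf_lam 0 (w := 1) (by norm_num) 1
    rw [map_one, one_mul, pow_one] at h1
    simpa using h1
  rw [cf0_mul45, h, zero_mul]

private theorem cf0_one45 : cf 0 (1 : B) = 1 := by
  have h1 := cf_lam 0 (w := 0) (by norm_num) 1
  rw [map_one, one_mul, pow_zero] at h1
  simpa using h1

private theorem cf0_int45 (n : ℤ) : cf 0 (ev (n : O)) = (n : F) := by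
  have h : (ev (n : O) : B) = (n : F) • (1 : B) := by
    rw [map_intCast, Algebra.smul_def, mul_one, map_intCast]
  rw [h, map_smul, cf0_one45, smul_eq_mul, mul_one]

theorem pO_ne : pO ≠ 0 := by
  intro h
  have h1 : hζ.toInteger = 1 := (sub_eq_zero.1 h).symm
  have h2 : ζ = 1 := by
    have h3 : (hζ.toInteger : K) = ((1 : O) : K) := congrArg (fun x : O => (x : K)) h1
    have h4 : (hζ.toInteger : K) = ζ := rfl
    rw [← h4, h3]
    exact map_one (algebraMap O K)
  exact hζ.ne_one (by norm_num) h2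

private theorem exists_int45 (x : O) : ∃ (n : ℤ) (y : O), x = n + pO * y := by
  obtain ⟨f, hf⟩ := hζ.integralPowerBasis.exists_eq_aeval' x
  rw [hζ.integralPowerBasis_gen] at hf
  have h1 : (X - C (1 : ℤ)) ∣ f - C (f.eval 1) := by
    rw [dvd_iff_isRoot]
    simp
  obtain ⟨g, hg⟩ := h1
  refine ⟨f.eval 1, - aeval hζ.toInteger g, ?_⟩
  have h2 : f = C (f.eval 1) + (X - C 1) * g := by rw [← hg]; ring
  rw [hf]
  conv_lhs => rw [h2]
  simp only [map_add, map_mul, map_sub, aeval_X, aeval_C]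
  unfold pO
  simp only [map_one, eq_intCast, algebraMap_int_eq]
  ring

theorem thirtyone : ∃ u : Oˣ, (31 : O) = u * pO ^ 30 := by
  obtain ⟨u, hu⟩ := IsCyclotomicExtension.Rat.associated_zeta_sub_one_pow_prime 31 hζ
  refine ⟨u, ?_⟩
  have h1 : (hζ.toInteger - 1) ^ (31 - 1) = pO ^ 30 := by
    unfold pO
    have h2 : hζ.toInteger - 1 = -(1 - hζ.toInteger) := by ring
    rw [h2, Even.neg_pow (by decide)]
  rw [h1] at hu
  have h3 : ((31 : ℕ) : O) = (31 : O) := by norm_num
  rw [← h3, ← hu]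
  ring

theorem pO_dvd_iff (x : O) : pO ∣ x ↔ cf 0 (ev x) = 0 := by
  have h0 : ∀ y : O, cf 0 (ev (pO * y)) = 0 := by
    intro y
    obtain ⟨u, -, hu⟩ := ev_pO
    rw [map_mul, hu, mul_assoc, cf0_lam45]
  constructor
  · rintro ⟨y, rfl⟩
    exact h0 y
  · intro h
    obtain ⟨n, y, rfl⟩ := exists_int45 x
    rw [map_add, map_add, h0, add_zero, cf0_int45] at h
    have h1 : (31 : ℤ) ∣ n := (ZMod.intCast_zmod_eq_zero_iff_dvd n 31).1 h
    obtain ⟨m, rfl⟩ := h1
    obtain ⟨u, hu⟩ := thirtyone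
    refine dvd_add ?_ (dvd_mul_right _ _)
    push_cast
    rw [hu]
    exact dvd_mul_of_dvd_left (dvd_mul_of_dvd_right (dvd_pow_self pO (by norm_num)) _) _

theorem so_pO : ∃ u : O, so pO = pO * u ∧ cf 0 (ev u) = 3 := by
  refine ⟨1 + hζ.toInteger + hζ.toInteger ^ 2, ?_, ?_⟩
  · unfold pO
    rw [map_sub, map_one, so_zeta]
    ring
  · have h1 := cf_ev_pow (v := 0) (by norm_num) 1
    have h2 := cf_ev_pow (v := 0) (by norm_num) 2
    rw [pow_one] at h1
    rw [map_add, map_add, map_add, map_add, h1, h2, map_one, cf0_one45]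
    simp only [pow_zero, Nat.factorial_zero, Nat.cast_one, div_one]
    norm_num

theorem int_of_pow (q : ℚ) (x : O) (h : (x : K) = (pO : K) ^ 29 * (q : K)) : ∃ n : ℤ, q = n := by
  obtain ⟨u, hu⟩ := thirtyone
  have hu' : (31 : K) = ((u : O) : K) * (pO : K) ^ 30 := by
    have h0 := congrArg (algebraMap O K) hu
    rw [map_mul, map_pow, map_ofNat] at h0
    exact h0
  have h1 : (((u : O) * pO * x : O) : K) = ((31 * q : ℚ) : K) := by
    have h2 : (((u : O) * pO * x : O) : K) = ((u : O) : K) * (pO : K) * (x : K) := by simp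
    rw [h2, h]
    push_cast
    rw [hu']
    ring
  have h2 : IsIntegral ℤ (31 * q : ℚ) := by
    have h3 : IsIntegral ℤ (((u : O) * pO * x : O) : K) := RingOfIntegers.isIntegral_coe _
    rw [h1] at h3
    have h4 : ((31 * q : ℚ) : K) = algebraMap ℚ K (31 * q) := (eq_ratCast _ _).symm
    rw [h4] at h3
    exact (isIntegral_algebraMap_iff (algebraMap ℚ K).injective).1 h3
  obtain ⟨N, hN⟩ := IsIntegrallyClosed.isIntegral_iff.1 h2
  have hN' : (31 * q : ℚ) = (N : ℚ) := by rw [← hN]; simp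
  have h5 : ((N : O)) = (u : O) * pO * x := by
    apply RingOfIntegers.ext
    rw [h1, hN']
    simp
  have h6 : pO ∣ (N : O) := by
    rw [h5]
    exact dvd_mul_of_dvd_left (dvd_mul_left _ _) _
  rw [pO_dvd_iff, cf0_int45] at h6
  obtain ⟨m, hm⟩ := (ZMod.intCast_zmod_eq_zero_iff_dvd N 31).1 h6
  refine ⟨m, ?_⟩
  rw [hm] at hN'
  push_cast at hN'
  linarith

end Pool.Agent.Helper64.E8C
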