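import Pool.Agent.Helper64.E8C.Ev

/-!
# Block E8C-EVK: kernel and image of the reduction, divisibility by `1 - ζ`

* `ev_surj`: the image is a subring which contains `𝔽₃₁` and `ex 1 - 1 = λ u`, `u` a unit; so by descending induction on `v` it
  contains all multiples of `λ ^ v` (`λ ^ v` = unit constant times `(ex 1 - 1) ^ v` modulo higher powers), or: `(ex 1 - 1) ^ v`, `v < 30`, is a
  basis.
* `ev_ker`: `𝓞 K / 31` has `31 ^ 30` elements and so has `B`, and `ev` is surjective; or: write `x = p(ζ)`, `p` of degree `< 30`, `p` modulo 31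
  in powers of `X - 1`: `∑_{v<30} c_v (ex 1 - 1) ^ v = 0` implies `c_v = 0` for all `v`, successively.
* `pO_dvd_iff`: `→` from `ev_pO`. `←`: `𝓞 K / (1 - ζ)` has 31 elements (`P0` is a prime of norm 31), so the surjective homomorphism `x ↦ cf 0 (ev x)` to
  `ZMod 31` has kernel `(1 - ζ)`; or: every `x` is congruent modulo `1 - ζ` to an integer `n` (`ζ ≡ 1`), `cf 0 (ev x) = n`, and `31 ∣ n` implies
  `1 - ζ ∣ n`.
* `thirtyone`: `associated_zeta_sub_one_pow_prime 31 hζ` (NumberField/Cyclotomic/Ideal.lean or the file where it is).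
* `so_pO`: `σ (1 - ζ) = 1 - ζ ^ 3 = (1 - ζ) (1 + ζ + ζ ^ 2)`.
* `int_of_pow`: let `(1 - ζ) ^ 29 q = x ∈ 𝓞 K`. `31 q = unit (1 - ζ) x` is an integer `N` (integral and rational), divisible by `1 - ζ`, so `31 ∣ N`
  (`IsCyclotomicExtension.Rat.zeta_sub_one_dvd_intCast_iff'` or `pO_dvd_iff`), `q = N / 31`.
-/

set_option autoImplicit false

namespace Pool.Agent.Helper64.E8C

open Pool.Agent.Helper73.E8 Pool.Agent.Helper2.E8A NumberField Polynomial

theorem evka_step (n : ℕ) : ∀ b : B, ∃ x : O, ∃ c : B, b = ev x + (ex 1 - 1) ^ n * c := by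
  induction n with
  | zero => exact fun b => ⟨0, b, by rw [map_zero, zero_add, pow_zero, one_mul]⟩
  | succ n ih =>
    intro b
    obtain ⟨x, c, hc⟩ := ih b
    obtain ⟨m, hm⟩ : ∃ m : ℕ, (m : F) = cf 0 c := ⟨(cf 0 c).val, ZMod.natCast_zmod_val _⟩
    have hz : cf 0 (c - algebraMap F B (cf 0 c)) = 0 := by
      rw [map_sub, cf_algebraMap, if_pos rfl, sub_self]
    obtain ⟨d, hd⟩ := exists_lam_mul hz
    obtain ⟨u, hu, hlam⟩ := ex_one_sub
    obtain ⟨u', rfl⟩ := hu
    have hc2 : c = ev (m : O) + (ex 1 - 1) * (((u'⁻¹ : Bˣ) : B) * d) := by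
      have h1 : (ex 1 - 1) * (((u'⁻¹ : Bˣ) : B) * d) = lam * d := by
        rw [hlam]
        calc lam * (u' : B) * (((u'⁻¹ : Bˣ) : B) * d) = lam * ((u' : B) * ((u'⁻¹ : Bˣ) : B)) * d := by ring
          _ = lam * d := by rw [Units.mul_inv, mul_one]
      have h2 : ev (m : O) = algebraMap F B (cf 0 c) := by
        rw [map_natCast ev m, ← hm]; exact (map_natCast (algebraMap F B) m).symm
      rw [h1, h2, ← hd]
      ring
    have hz1 : ev (hζ.toInteger - 1) = ex 1 - 1 := by rw [map_sub, ev_zeta, map_one]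
    refine ⟨x + (hζ.toInteger - 1) ^ n * (m : O), ((u'⁻¹ : Bˣ) : B) * d, ?_⟩
    rw [map_add, map_mul, map_pow, hz1, pow_succ (ex 1 - 1 : B) n]
    calc b = ev x + (ex 1 - 1) ^ n * c := hc
      _ = ev x + (ex 1 - 1) ^ n * (ev (m : O) + (ex 1 - 1) * (((u'⁻¹ : Bˣ) : B) * d)) := by rw [← hc2]
      _ = _ := by ring

theorem ev_surj (b : B) : ∃ x : O, ev x = b := by
  obtain ⟨x, c, h⟩ := evka_step 30 b
  exact ⟨x, by rw [h, ex_sub_one_pow, zero_mul, add_zero]⟩

theorem evka_cardB : Nat.card B = 31 ^ 30 := by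
  have hb := AdjoinRoot.powerBasis' (monic_X_pow (R := F) 30)
  have hd : (AdjoinRoot.powerBasis' (monic_X_pow (R := F) 30)).dim = 30 := by
    rw [AdjoinRoot.powerBasis'_dim, natDegree_X_pow]
  have e := (AdjoinRoot.powerBasis' (monic_X_pow (R := F) 30)).basis.equivFun.toEquiv
  rw [Nat.card_congr e, Nat.card_fun, Nat.card_eq_fintype_card (α := F), ZMod.card, Nat.card_eq_fintype_card, Fintype.card_fin, hd]

theorem evka_card : Nat.card (O ⧸ Ideal.span {(31 : O)}) = 31 ^ 30 := by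
  have h1 : Nat.card (O ⧸ Ideal.span {(31 : O)}) = Ideal.absNorm (Ideal.span {(31 : O)}) := by
    rw [Ideal.absNorm_apply]; rfl
  rw [h1, Ideal.absNorm_span_singleton]
  have h2 : (31 : O) = algebraMap ℤ O 31 := by simp
  rw [h2, Algebra.norm_algebraMap, NumberField.RingOfIntegers.rank, IsCyclotomicExtension.finrank (n := 31) K (cyclotomic.irreducible_rat (by norm_num)),
    Nat.totient_prime (by norm_num)]
  norm_num

theorem evka_ev31 : ev (31 : O) = 0 := by
  have h : (31 : O) = ((31 : ℕ) : O) := by norm_num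
  rw [h, map_natCast, ← map_natCast (algebraMap F B)]
  have h2 : ((31 : ℕ) : F) = 0 := ZMod.natCast_self 31
  rw [h2, map_zero]

theorem ev_ker {x : O} (h : ev x = 0) : ∃ y : O, x = 31 * y := by
  let f : O ⧸ Ideal.span {(31 : O)} →+* B := Ideal.Quotient.lift _ ev (by
    intro a ha
    obtain ⟨c, rfl⟩ := Ideal.mem_span_singleton.1 ha
    rw [map_mul, evka_ev31, zero_mul])
  have hs : Function.Surjective f := by
    intro b
    obtain ⟨x, hx⟩ := ev_surj b
    exact ⟨Ideal.Quotient.mk _ x, hx⟩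
  have hfin : Finite (O ⧸ Ideal.span {(31 : O)}) := by
    apply Nat.finite_of_card_ne_zero
    rw [evka_card]; positivity
  have hinj : Function.Bijective f := by
    rw [Nat.bijective_iff_surjective_and_card]
    exact ⟨hs, by rw [evka_card, evka_cardB]⟩
  have h0 : f (Ideal.Quotient.mk _ x) = f 0 := by
    rw [map_zero]; exact h
  have h1 := hinj.1 h0
  rw [Ideal.Quotient.eq_zero_iff_mem, Ideal.mem_span_singleton] at h1
  exact h1

end Pool.Agent.Helper64.E8C
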