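import Pool.Agent.Helper64.E8C.Data

/-!
# E8 at the prime 31: numerical facts (kernel computations)
-/

set_option autoImplicit false

namespace Pool.Agent.Helper64.E8C

open Pool.Agent.Helper73.E8 Pool.Agent.Helper2.E8A NumberField Polynomial

/-- Unit vector. -/
def un (i : ℕ) : List ℕ := (List.range 9).map fun j => if j = i then 1 else 0

/-- The vector `fv i`. -/
def fw (i : ℕ) : List ℕ := fv.getD i []

/-- The vector number `k` of `U_m`. -/
def uu (m k : ℕ) : List ℕ := (Ub.getD m []).getD k []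

/-- The dimension of `U_m`. -/
def ud (m : ℕ) : ℕ := (Ub.getD m []).length

/-- The dimension of `E_m`. -/
def dm (m : ℕ) : ℕ := if m % 30 ∈ [1, 7, 11, 13, 17, 19, 23, 29] then 9 else 8

/-- Entry of a matrix in a list of matrices. -/
def e3 (t : List (List (List ℕ))) (v i j : ℕ) : ℕ := ((t.getD v []).getD i []).getD j 0

set_option maxRecDepth 100000

theorem num_f0 : uu 1 0 = fw 8 ∧ ud 1 = 1 := by decide +kernel

theorem num_len : ∀ j < 9, (fw j).length = 9 := by decide +kernel

/-- The vectors `fw j` are eigenvectors of `ad (toE 0 (un 0))`. -/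
theorem num_eig : ∀ j < 9, brc 0 1 (un 0) (fw j) = (List.range 9).map fun i => (mu.getD j 0 * (fw j).getD i 0) % 31 := by
  decide +kernel

theorem num_mu : ∀ i < 9, ∀ j < 9, i ≠ j → mu.getD i 0 ≠ mu.getD j 0 := by decide +kernel

theorem num_mu_lt : ∀ i < 9, mu.getD i 0 < 31 := by decide +kernel

/-- Every unit vector is a combination of the `fw j`. -/
theorem num_fvi : ∀ i < 9, ∀ k < 9,
    ((List.range 9).foldl (fun acc j => acc + (fvi.getD i []).getD j 0 * (fw j).getD k 0) 0) % 31 = if i = k then 1 else 0 := by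
  decide +kernel

theorem num_sq : ∀ j < 8, ((List.range 8).foldl (fun acc i => acc + (fw j).getD i 0 * (fw j).getD i 0) 0) % 31 ≠ 0 := by
  decide +kernel

/-- The coroot of the affine root. -/
theorem num_hf0 : brc 0 1 hth (fw 8) = (List.range 9).map fun i => (29 * (fw 8).getD i 0) % 31 := by
  decide +kernel

/-- The code components are generated from `f0`. -/
theorem num_treeA : ∀ m < 6, ∀ k < ud (m + 2), ((tree.getD (m + 2) []).getD k (0, 0)).1 < 8 ∧
    ((tree.getD (m + 2) []).getD k (0, 0)).2 < ud (m + 2 - 1) ∧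
    brc 1 (m + 2 - 1) (fw ((tree.getD (m + 2) []).getD k (0, 0)).1) (uu (m + 2 - 1) ((tree.getD (m + 2) []).getD k (0, 0)).2) =
      uu (m + 2) k := by
  decide +kernel

theorem num_treeB : ∀ m < 8, ∀ k < ud (m + 8), ((tree.getD (m + 8) []).getD k (0, 0)).1 < 8 ∧
    ((tree.getD (m + 8) []).getD k (0, 0)).2 < ud (m + 8 - 1) ∧
    brc 1 (m + 8 - 1) (fw ((tree.getD (m + 8) []).getD k (0, 0)).1) (uu (m + 8 - 1) ((tree.getD (m + 8) []).getD k (0, 0)).2) =
      uu (m + 8) k := by
  decide +kernel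

theorem num_treeC : ∀ m < 7, ∀ k < ud (m + 16), ((tree.getD (m + 16) []).getD k (0, 0)).1 < 8 ∧
    ((tree.getD (m + 16) []).getD k (0, 0)).2 < ud (m + 16 - 1) ∧
    brc 1 (m + 16 - 1) (fw ((tree.getD (m + 16) []).getD k (0, 0)).1) (uu (m + 16 - 1) ((tree.getD (m + 16) []).getD k (0, 0)).2) =
      uu (m + 16) k := by
  decide +kernel

theorem num_treeD : ∀ m < 7, ∀ k < ud (m + 23), ((tree.getD (m + 23) []).getD k (0, 0)).1 < 8 ∧
    ((tree.getD (m + 23) []).getD k (0, 0)).2 < ud (m + 23 - 1) ∧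
    brc 1 (m + 23 - 1) (fw ((tree.getD (m + 23) []).getD k (0, 0)).1) (uu (m + 23 - 1) ((tree.getD (m + 23) []).getD k (0, 0)).2) =
      uu (m + 23) k := by
  decide +kernel

theorem num_tree (m : ℕ) (hm : m < 30) (h1 : 2 ≤ m) : ∀ k < ud m, ((tree.getD m []).getD k (0, 0)).1 < 8 ∧
    ((tree.getD m []).getD k (0, 0)).2 < ud (m - 1) ∧
    brc 1 (m - 1) (fw ((tree.getD m []).getD k (0, 0)).1) (uu (m - 1) ((tree.getD m []).getD k (0, 0)).2) = uu m k := by
  rcases Nat.lt_or_ge m 8 with h' | h'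
  · have h2 := num_treeA (m - 2) (by omega)
    rwa [Nat.sub_add_cancel (by omega)] at h2
  rcases Nat.lt_or_ge m 16 with h' | h'
  · have h2 := num_treeB (m - 8) (by omega)
    rwa [Nat.sub_add_cancel (by omega)] at h2
  rcases Nat.lt_or_ge m 23 with h' | h'
  · have h2 := num_treeC (m - 16) (by omega)
    rwa [Nat.sub_add_cancel (by omega)] at h2
  · have h2 := num_treeD (m - 23) (by omega)
    rwa [Nat.sub_add_cancel (by omega)] at h2

theorem num_ud : ∀ m < 30, 1 ≤ m → ud m + ud (30 - m) = dm m := by decide +kernel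

end Pool.Agent.Helper64.E8C
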