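import Pool.Agent.Helper64.E8C.Dd
import Pool.Agent.Helper64.E8C.Num
import Pool.Agent.Helper64.E8C.LinKey

/-!
# Block E8C-G1: an element of `D` whose component of degree one is `f0`

Let `b` be an element of `D` with `cmp 1 b ≠ 0` (`ex`), `cmp 1 b = toE 1 l` (`fx`, `Fx_iff_cmp`, `exists_toE`). By `num_fvi` `toE 1 l = ∑_j c_j • toE 1 (fw j)` with
`c_j = ∑_i l_i fvi_ij`, and some `c_j ≠ 0`. Let `A b = ⁅pu 0 (toE 0 (un 0)), b⁆` (in `D` by `lie`, `Fx_pu`, `toE_Ev`); `cmp 1 (A b) = ⁅toE 0 (un 0), cmp 1 b⁆` and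
`⁅toE 0 (un 0), toE 1 (fw j)⁆ = mu_j • toE 1 (fw j)` (`toE_brc`, `num_eig`). Applying `∏_{i ≠ j} (A - mu_i)` to `b` gives an element of `D` whose component of degree one is
`c_j ∏_{i≠j} (mu_j - mu_i) • toE 1 (fw j)`, a non-zero multiple (`num_mu`). So `D` has an element `b'` with `cmp 1 b' = toE 1 (fw j)`. Suppose `j ≠ 8`. Let
`c = ad (pu 1 (ve 1)) ^ 28 b' ∈ D`; `cmp v c = 0` for `v < 29` (`cmp_pu_lie`, `cmp_pu_lie'`, `c0`) and `cmp 29 c = adp (ve 1) 28 (cmp 1 b')`. `iso b' c` says
`bf (toE 1 (fw j)) (adp (ve 1) 28 (toE 1 (fw j))) = 0`, i.e. (`bf_adp`) `∑_i (fw j)_i ^ 2 = 0`, against `num_sq`. So `j = 8`.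
-/

set_option autoImplicit false

namespace Pool.Agent.Helper64.E8C

open Pool.Agent.Helper73.E8 Pool.Agent.Helper2.E8A NumberField Polynomial

/-- `toE` as a linear function of the nine coordinates in `F`. -/
def TEg1 (v : ℕ) (w : ℕ → F) : Chev F where
  h := fun i => w 8 * (en vmT v i : F)
  x := fun a => ∑ k ∈ Finset.range 30, ∑ j : Fin 8, if rt k j = a then
    (etk k j : F) * 3 ^ (v * k) * w j else 0

theorem toE_TEg1 (v : ℕ) (s : List ℕ) : toE v s = TEg1 v (fun i => (s.getD i 0 : F)) := rfl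

theorem TEg1_congr (v : ℕ) {w w' : ℕ → F} (h : ∀ i < 9, w i = w' i) : TEg1 v w = TEg1 v w' := by
  ext i
  · simp only [TEg1, h 8 (by norm_num)]
  · simp only [TEg1]
    refine Finset.sum_congr rfl fun k _ => Finset.sum_congr rfl fun j _ => ?_
    rw [h j (by have := j.2; omega)]

theorem TEg1_add (v : ℕ) (w w' : ℕ → F) : TEg1 v (w + w') = TEg1 v w + TEg1 v w' := by
  ext i
  · simp only [TEg1, Chev.add_h, Pi.add_apply, add_mul]
  · simp only [TEg1, Chev.add_x, Pi.add_apply]
    rw [← Finset.sum_add_distrib]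
    refine Finset.sum_congr rfl fun k _ => ?_
    rw [← Finset.sum_add_distrib]
    refine Finset.sum_congr rfl fun j _ => ?_
    split_ifs
    · ring
    · simp

theorem TEg1_smul (v : ℕ) (c : F) (w : ℕ → F) : TEg1 v (c • w) = c • TEg1 v w := by
  ext i
  · simp only [TEg1, Chev.smul_h, Pi.smul_apply, smul_eq_mul, mul_assoc]
  · simp only [TEg1, Chev.smul_x, Pi.smul_apply, smul_eq_mul, Finset.mul_sum]
    refine Finset.sum_congr rfl fun k _ => Finset.sum_congr rfl fun j _ => ?_
    split_ifs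
    · ring
    · simp

theorem TEg1_zero (v : ℕ) : TEg1 v 0 = 0 := by
  have h := TEg1_smul v 0 0
  simpa using h

theorem TEg1_sum (v : ℕ) {ι : Type*} (S : Finset ι) (w : ι → ℕ → F) :
    TEg1 v (∑ i ∈ S, w i) = ∑ i ∈ S, TEg1 v (w i) := by
  classical
  induction S using Finset.induction_on with
  | empty => simpa using TEg1_zero v
  | insert a S ha ih => rw [Finset.sum_insert ha, Finset.sum_insert ha, TEg1_add, ih]

theorem foldl_sum_g1 (n : ℕ) (f : ℕ → ℕ) :
    (List.range n).foldl (fun acc j => acc + f j) 0 = ∑ j ∈ Finset.range n, f j := by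
  induction n with
  | zero => simp
  | succ n ih => rw [List.range_succ, List.foldl_append, ih, Finset.sum_range_succ]; simp

theorem cast31_g1 (n : ℕ) : ((n % 31 : ℕ) : F) = (n : F) := ZMod.natCast_mod n 31

/-- In a submodule stable under `T`, the components of an element in distinct eigenspaces. -/
theorem eig_split_g1 {M : Type*} [AddCommGroup M] [Module F M] (W : Submodule F M) (T : M → M)
    (Tadd : ∀ x y, T (x + y) = T x + T y) (Tsmul : ∀ (c : F) x, T (c • x) = c • T x)
    (hT : ∀ x ∈ W, T x ∈ W) (e : ℕ → M) (m : ℕ → F) (he : ∀ j < 9, T (e j) = m j • e j)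
    (hm : ∀ i < 9, ∀ j < 9, i ≠ j → m i ≠ m j) (S : Finset ℕ) (hS : ∀ j ∈ S, j < 9) :
    ∀ c : ℕ → F, ∑ j ∈ S, c j • e j ∈ W → ∀ j ∈ S, c j • e j ∈ W := by
  classical
  have Tzero : T 0 = 0 := by
    have h := Tsmul 0 0
    simpa using h
  have Tsum : ∀ (S : Finset ℕ) (f : ℕ → M), T (∑ j ∈ S, f j) = ∑ j ∈ S, T (f j) := by
    intro S f
    induction S using Finset.induction_on with
    | empty => simpa using Tzero
    | insert a S ha ih => rw [Finset.sum_insert ha, Finset.sum_insert ha, Tadd, ih]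
  induction S using Finset.induction_on with
  | empty => intro c _ j hj; simp at hj
  | insert a S ha ih =>
    intro c hx
    have hS' : ∀ j ∈ S, j < 9 := fun j hj => hS j (Finset.mem_insert_of_mem hj)
    have ha9 : a < 9 := hS a (Finset.mem_insert_self a S)
    have h1 : T (∑ j ∈ insert a S, c j • e j) - m a • (∑ j ∈ insert a S, c j • e j) =
        ∑ j ∈ S, ((m j - m a) * c j) • e j := by
      rw [Tsum, Finset.sum_insert ha, Finset.sum_insert ha, smul_add, Finset.smul_sum, Tsmul, he a ha9]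
      have h2 : ∑ j ∈ S, T (c j • e j) = ∑ j ∈ S, (c j * m j) • e j :=
        Finset.sum_congr rfl fun j hj => by rw [Tsmul, he j (hS' j hj), smul_smul]
      rw [h2]
      have h3 : ∑ j ∈ S, ((m j - m a) * c j) • e j =
          ∑ j ∈ S, (c j * m j) • e j - ∑ j ∈ S, m a • c j • e j := by
        rw [← Finset.sum_sub_distrib]
        refine Finset.sum_congr rfl fun j _ => ?_
        rw [smul_smul, ← sub_smul]
        congr 1
        ring
      rw [h3, smul_smul, smul_smul, mul_comm (c a) (m a)]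
      abel
    have h4 : ∑ j ∈ S, ((m j - m a) * c j) • e j ∈ W := by
      rw [← h1]
      exact W.sub_mem (hT _ hx) (W.smul_mem _ hx)
    have h5 : ∀ j ∈ S, c j • e j ∈ W := by
      intro j hj
      have h6 := ih hS' (fun j => (m j - m a) * c j) h4 j hj
      have h7 : m j - m a ≠ 0 := sub_ne_zero.2 (hm j (hS' j hj) a ha9 (fun h => ha (h ▸ hj)))
      have h8 := W.smul_mem (m j - m a)⁻¹ h6
      simp only [smul_smul] at h8
      rwa [← mul_assoc, inv_mul_cancel₀ h7, one_mul] at h8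
    intro j hj
    rcases Finset.mem_insert.1 hj with rfl | hj
    · rw [Finset.sum_insert ha] at hx
      have h9 := W.sub_mem hx (W.sum_mem fun i hi => h5 i hi)
      simpa using h9
    · exact h5 j hj

theorem eig_f0 {D : Chev B → Prop} (hD : IsD D) : ∃ b, D b ∧ cmp 1 b = toE 1 (fw 8) := by
  classical
  have : Fact (Nat.Prime 31) := ⟨by norm_num⟩
  -- the submodule of components of degree one
  let W : Submodule F (Chev F) :=
    { carrier := {s | ∃ b, D b ∧ cmp 1 b = s}
      add_mem' := by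
        rintro s t ⟨b, hb, rfl⟩ ⟨c, hc, rfl⟩
        exact ⟨b + c, hD.add _ _ hb hc, cmp_add _ _ _⟩
      zero_mem' := ⟨0, hD.zero, cmp_zero _⟩
      smul_mem' := by
        rintro c s ⟨b, hb, rfl⟩
        exact ⟨_, hD.smul c b hb, cmp_smul _ _ _⟩ }
  have hW : ∀ s, s ∈ W ↔ ∃ b, D b ∧ cmp 1 b = s := fun s => Iff.rfl
  let T : Chev F → Chev F := fun s => ⁅toE 0 (un 0), s⁆
  have hT : ∀ s ∈ W, T s ∈ W := by
    rintro s ⟨b, hb, rfl⟩
    refine ⟨⁅pu 0 (toE 0 (un 0)), b⁆, hD.lie _ _ (Fx_pu (by norm_num) (toE_Ev 0 _)) hb, ?_⟩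
    exact cmp_pu_lie (by norm_num) (by norm_num) _ _
  let m : ℕ → F := fun j => (mu.getD j 0 : F)
  have hm : ∀ i < 9, ∀ j < 9, i ≠ j → m i ≠ m j := by
    intro i hi j hj hij h
    have h1 := (ZMod.natCast_eq_natCast_iff' _ _ 31).1 h
    rw [Nat.mod_eq_of_lt (num_mu_lt i hi), Nat.mod_eq_of_lt (num_mu_lt j hj)] at h1
    exact num_mu i hi j hj hij h1
  have he : ∀ j < 9, T (toE 1 (fw j)) = m j • toE 1 (fw j) := by
    intro j hj
    show ⁅toE 0 (un 0), toE 1 (fw j)⁆ = _
    rw [toE_brc, num_eig j hj, toE_TEg1, toE_TEg1, ← TEg1_smul]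
    refine TEg1_congr _ fun i hi => ?_
    simp only [Pi.smul_apply, smul_eq_mul]
    rw [List.getD_eq_getElem _ _ (by simpa using hi)]
    simp only [List.getElem_map, List.getElem_range, cast31_g1, Nat.cast_mul]
    rfl
  -- an element of `W` different from zero
  obtain ⟨b, hb, hb1⟩ := hD.ex
  obtain ⟨l, hl9, _, hl⟩ := exists_toE ((Fx_iff_cmp b).1 (hD.fx b hb) 1 (by norm_num))
  let c : ℕ → F := fun j => ∑ i ∈ Finset.range 9, (l.getD i 0 : F) * ((fvi.getD i []).getD j 0 : F)
  have hc : toE 1 l = ∑ j ∈ Finset.range 9, c j • toE 1 (fw j) := by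
    have h1 : ∑ j ∈ Finset.range 9, c j • toE 1 (fw j) =
        TEg1 1 (∑ j ∈ Finset.range 9, c j • fun i => ((fw j).getD i 0 : F)) := by
      rw [TEg1_sum]
      exact Finset.sum_congr rfl fun j _ => by rw [TEg1_smul, toE_TEg1]
    rw [h1, toE_TEg1]
    refine TEg1_congr _ fun k hk => ?_
    simp only [Finset.sum_apply, Pi.smul_apply, smul_eq_mul]
    have h2 : ∀ i < 9, ∑ j ∈ Finset.range 9, ((fvi.getD i []).getD j 0 : F) * ((fw j).getD k 0 : F) =
        if i = k then 1 else 0 := by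
      intro i hi
      have h3 := num_fvi i hi k hk
      rw [foldl_sum_g1] at h3
      have h4 : (((∑ j ∈ Finset.range 9, (fvi.getD i []).getD j 0 * (fw j).getD k 0) % 31 : ℕ) : F) =
          ((if i = k then 1 else 0 : ℕ) : F) := by rw [h3]
      rw [cast31_g1] at h4
      push_cast at h4
      exact h4
    have h5 : ∑ j ∈ Finset.range 9, c j * ((fw j).getD k 0 : F) =
        ∑ i ∈ Finset.range 9, (l.getD i 0 : F) * ∑ j ∈ Finset.range 9,
          ((fvi.getD i []).getD j 0 : F) * ((fw j).getD k 0 : F) := by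
      simp only [c, Finset.sum_mul, Finset.mul_sum, mul_assoc]
      exact Finset.sum_comm
    rw [h5, Finset.sum_congr rfl fun i hi => by rw [h2 i (Finset.mem_range.1 hi)]]
    simp [hk]
  have hxW : ∑ j ∈ Finset.range 9, c j • toE 1 (fw j) ∈ W := by
    rw [← hc, ← hl]
    exact ⟨b, hb, rfl⟩
  have hsp := eig_split_g1 W T (fun x y => lie_add _ _ _) (fun a x => lie_smul _ _ _) hT
    (fun j => toE 1 (fw j)) m he hm (Finset.range 9) (fun j hj => Finset.mem_range.1 hj) c hxW
  have hW1 : ∀ j < 9, c j ≠ 0 → toE 1 (fw j) ∈ W := by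
    intro j hj h0
    have h1 := W.smul_mem (c j)⁻¹ (hsp j (Finset.mem_range.2 hj))
    rwa [smul_smul, inv_mul_cancel₀ h0, one_smul] at h1
  -- the eigenvectors with `j < 8` are not in `W`
  have hW2 : ∀ j < 8, toE 1 (fw j) ∉ W := by
    rintro j hj ⟨b', hb', hb1'⟩
    let z : Chev B := pu 1 (ve 1)
    have hz : Fx sB z := Fx_pu (by norm_num) (toE_Ev 1 _)
    let C : ℕ → Chev B := fun r => (fun t => ⁅z, t⁆)^[r] b'
    have hC0 : C 0 = b' := rfl
    have hCs : ∀ r, C (r + 1) = ⁅z, C r⁆ := fun r => Function.iterate_succ_apply' _ _ _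
    have hAs : ∀ r s, adp (ve 1) (r + 1) s = ⁅ve 1, adp (ve 1) r s⁆ := fun r s =>
      Function.iterate_succ_apply' _ _ _
    have hCD : ∀ r, D (C r) := by
      intro r
      induction r with
      | zero => exact hb'
      | succ r ih => rw [hCs]; exact hD.lie _ _ hz ih
    have hCv : ∀ r, ∀ v < 30, v < r + 1 → cmp v (C r) = 0 := by
      intro r
      induction r with
      | zero =>
        intro v hv hv1
        have : v = 0 := by omega
        subst this
        exact hD.c0 _ hb'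
      | succ r ih =>
        intro v hv hv1
        rw [hCs]
        rcases Nat.eq_zero_or_pos v with h0 | h0
        · subst h0
          exact cmp_pu_lie' (by norm_num) (by norm_num) _ _
        · rw [cmp_pu_lie hv h0, ih (v - 1) (by omega) (by omega), lie_zero]
    have hCt : ∀ r, r + 1 < 30 → cmp (r + 1) (C r) = adp (ve 1) r (toE 1 (fw j)) := by
      intro r
      induction r with
      | zero => intro _; exact hb1'
      | succ r ih =>
        intro hr
        rw [hCs, cmp_pu_lie hr (by omega), hAs, ← ih (by omega)]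
        rfl
    have h1 := hD.iso b' (C 28) hb' (hCD 28)
    rw [Finset.sum_eq_single_of_mem 0 (by simp)] at h1
    · rw [show (0 + 1 : ℕ) = 1 from rfl, show (29 - 0 : ℕ) = 28 + 1 from rfl, hb1', hCt 28 (by norm_num), bf_adp,
        foldl_sum_g1, neg_eq_zero] at h1
      have h2 := num_sq j hj
      rw [foldl_sum_g1] at h2
      exact h2 (Nat.mod_eq_zero_of_dvd ((ZMod.natCast_eq_zero_iff _ _).1 h1))
    · intro v hv hv0
      have hv' := Finset.mem_range.1 hv
      rw [hCv 28 (29 - v) (by omega) (by omega)]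
      have h3 := Chev.bf_smul_right (0 : F) (cmp (v + 1) b') 0
      rwa [zero_smul, zero_mul] at h3
  -- conclusion
  have h8 : c 8 ≠ 0 := by
    intro h8
    apply hb1
    rw [hl, hc]
    refine Finset.sum_eq_zero fun j hj => ?_
    have hj9 := Finset.mem_range.1 hj
    by_cases h0 : c j = 0
    · rw [h0, zero_smul]
    · exfalso
      rcases Nat.lt_or_ge j 8 with hj8 | hj8
      · exact hW2 j hj8 (hW1 j hj9 h0)
      · have : j = 8 := by omega
        exact h0 (this ▸ h8)
  exact hW1 8 (by norm_num) h8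

end Pool.Agent.Helper64.E8C
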