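import Pool.Agent.Helper64.E8C.Num

/-!
# E8 at the prime 31: numerical facts (kernel computations), second part
-/

set_option autoImplicit false

namespace Pool.Agent.Helper64.E8C

open Pool.Agent.Helper73.E8 Pool.Agent.Helper2.E8A NumberField Polynomial

/-- The matrix of `ad (toE 0 hth)` on `E_v`: row `i` is the image of the unit vector `i`. -/
def mA (v : ℕ) : List (List ℕ) := (List.range 9).map fun i => brc 0 v hth (un i)

/-- Vector times matrix. -/
def vmul (s : List ℕ) (M : List (List ℕ)) : List ℕ := (List.range 9).map fun j =>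
  ((List.range 9).foldl (fun acc i => acc + s.getD i 0 * (M.getD i []).getD j 0) 0) % 31

/-- `s M ^ 4 - 2 s M ^ 3 - s M ^ 2 + 2 s M`, with the value given by the continuation to share the computation. -/
def pAux (s1 : List ℕ) (M : List (List ℕ)) : List ℕ :=
  (fun s2 => (fun s3 => (fun s4 => (List.range 9).map fun j =>
    (s4.getD j 0 + 29 * s3.getD j 0 + 30 * s2.getD j 0 + 2 * s1.getD j 0) % 31) (vmul s3 M)) (vmul s2 M)) (vmul s1 M)

/-- The check for one `v`. -/
def chk (M : List (List ℕ)) : Bool := (List.range 9).all fun i => (pAux (M.getD i []) M).all fun x => x == 0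

set_option maxRecDepth 100000

theorem num_poly0 : chk (mA 0) = true := by decide +kernel

theorem num_poly1 : ∀ v < 5, chk (mA (v + 2)) = true := by decide +kernel

theorem num_poly2 : ∀ v < 5, chk (mA (v + 7)) = true := by decide +kernel

theorem num_poly3 : ∀ v < 5, chk (mA (v + 12)) = true := by decide +kernel

theorem num_poly4 : ∀ v < 5, chk (mA (v + 17)) = true := by decide +kernel

theorem num_poly5 : ∀ v < 4, chk (mA (v + 22)) = true := by decide +kernel

theorem num_poly6 : ∀ v < 4, chk (mA (v + 26)) = true := by decide +kernel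

theorem num_poly (v : ℕ) (hv : v < 30) (h1 : v ≠ 1) : chk (mA v) = true := by
  rcases Nat.lt_or_ge v 2 with h | h
  · have h2 : v = 0 := by omega
    rw [h2]
    exact num_poly0
  rcases Nat.lt_or_ge v 7 with h' | h'
  · have h2 := num_poly1 (v - 2) (by omega)
    rwa [Nat.sub_add_cancel (by omega)] at h2
  rcases Nat.lt_or_ge v 12 with h' | h'
  · have h2 := num_poly2 (v - 7) (by omega)
    rwa [Nat.sub_add_cancel (by omega)] at h2
  rcases Nat.lt_or_ge v 17 with h' | h'
  · have h2 := num_poly3 (v - 12) (by omega)
    rwa [Nat.sub_add_cancel (by omega)] at h2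
  rcases Nat.lt_or_ge v 22 with h' | h'
  · have h2 := num_poly4 (v - 17) (by omega)
    rwa [Nat.sub_add_cancel (by omega)] at h2
  rcases Nat.lt_or_ge v 26 with h' | h'
  · have h2 := num_poly5 (v - 22) (by omega)
    rwa [Nat.sub_add_cancel (by omega)] at h2
  · have h2 := num_poly6 (v - 26) (by omega)
    rwa [Nat.sub_add_cancel (by omega)] at h2

end Pool.Agent.Helper64.E8C
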