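import Pool.Agent.Helper64.E8C.G2A
import Pool.Agent.Helper64.E8C.G1
import Pool.Agent.Helper64.E8C.Num2

/-!
# Block E8C-G2: the pure element `f0 λ` is in `D`

* `poly_kill`: by `exists_toE` and linearity it suffices to take `s = toE v (un i)`; `⁅toE 0 hth, toE v (un i)⁆ = toE v (brc 0 v hth (un i))` (`toE_brc`), and
  `⁅toE 0 hth, toE v l⁆ = toE v (vmul l (mA v))` for all `l` (linearity, `toE_add`, `toE_smul`), so the expression is `toE v (pAux ...) = 0` by `num_poly`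
  (`chk (mA v) = true`).
* `f0_mem`: take `b` from `eig_f0`, `A b = ⁅pu 0 (toE 0 hth), b⁆`, `c = A (A (A (A b))) - 2 A (A (A b)) - A (A b) + 2 A b ∈ D`. `cmp v c` is the same expression in
  `cmp v b` (`cmp_pu_lie` with `w = 0`): zero for `v ≠ 1` (`poly_kill`, `c0`), and for `v = 1` it is `24 • toE 1 (fw 8)` as `⁅toE 0 hth, toE 1 (fw 8)⁆ = -2 • toE 1 (fw 8)`
  (`num_hf0`; `16 + 16 - 4 - 4 = 24`). So `c = pu 1 (24 • toE 1 (fw 8))` (`cmp_ext`, `cmp_pu`).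
-/

set_option autoImplicit false

namespace Pool.Agent.Helper64.E8C

open Pool.Agent.Helper73.E8 Pool.Agent.Helper2.E8A NumberField Polynomial

theorem f0_mem {D : Chev B → Prop} (hD : IsD D) : D (pu 1 (toE 1 (fw 8))) := by
  obtain ⟨b, hb, hb1⟩ := eig_f0 hD
  have hstep : ∀ x, D x → D ⁅pu 0 (toE 0 hth), x⁆ := fun x hx =>
    hD.lie x _ (Fx_pu (by norm_num) (toE_Ev 0 hth)) hx
  have h1 := hstep b hb
  have h2 := hstep _ h1
  have h3 := hstep _ h2
  have h4 := hstep _ h3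
  have hc := hD.add _ _ (hD.add _ _ (hD.add _ _ h4 (hD.smul (-2) _ h3)) (hD.smul (-1) _ h2)) (hD.smul 2 _ h1)
  have hv : ∀ v < 30, ∀ x, cmp v ⁅pu 0 (toE 0 hth), x⁆ = ⁅toE 0 hth, cmp v x⁆ := by
    intro v hv x
    have := cmp_pu_lie hv (Nat.zero_le v) (toE 0 hth) x
    rwa [Nat.sub_zero] at this
  have hEv := (Fx_iff_cmp b).1 (hD.fx b hb)
  have hA : ⁅toE 0 hth, toE 1 (fw 8)⁆ = (-2 : F) • toE 1 (fw 8) := by
    rw [toE_brc, num_hf0]
    have e1 : (List.range 9).map (fun i => (29 * (fw 8).getD i 0) % 31) = lsc 29 (fw 8) := rfl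
    have e2 : ((29 : ℕ) : F) = -2 := by decide
    rw [e1, toE_smul, e2]
  have key : pu 1 ((24 : F) • toE 1 (fw 8)) =
      ⁅pu 0 (toE 0 hth), ⁅pu 0 (toE 0 hth), ⁅pu 0 (toE 0 hth), ⁅pu 0 (toE 0 hth), b⁆⁆⁆⁆ +
        algebraMap F B (-2) • ⁅pu 0 (toE 0 hth), ⁅pu 0 (toE 0 hth), ⁅pu 0 (toE 0 hth), b⁆⁆⁆ +
        algebraMap F B (-1) • ⁅pu 0 (toE 0 hth), ⁅pu 0 (toE 0 hth), b⁆⁆ +
        algebraMap F B 2 • ⁅pu 0 (toE 0 hth), b⁆ := by
    apply cmp_ext
    intro v hv'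
    rw [cmp_pu v (by norm_num), cmp_add, cmp_add, cmp_add, cmp_smul, cmp_smul, cmp_smul, hv v hv', hv v hv', hv v hv',
      hv v hv']
    by_cases hv1 : v = 1
    · subst hv1
      rw [if_pos rfl, hb1]
      simp only [hA, lie_smul, smul_smul, ← add_smul]
      congr 1
    · rw [if_neg hv1]
      have hk := poly_kill hv' hv1 (hEv v hv')
      rw [← hk]
      module
  have h24 : D (pu 1 ((24 : F) • toE 1 (fw 8))) := by
    rw [key]
    exact hc
  have h := hD.smul (24 : F)⁻¹ _ h24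
  rw [← pu_smul, smul_smul, inv_mul_cancel₀ (by decide), one_smul] at h
  exact h

end Pool.Agent.Helper64.E8C
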