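import Pool.Agent.Helper64.E8C.G1
import Pool.Agent.Helper64.E8C.Num2

/-!
# Block E8C-G2: the pure element `f0 λ` is in `D`

* `poly_kill`: by `exists_toE` and linearity it suffices to take `s = toE v (un i)`; `⁅toE 0 hth, toE v (un i)⁆ = toE v (brc 0 v hth (un i))` (`toE_brc`), and
  `⁅toE 0 hth, toE v l⁆ = toE v (vmul l (mA v))` for all `l` (linearity, `toE_add`, `toE_smul`), so the expression is `toE v (pAux ...) = 0` by `num_poly`
  (`chk (mA v) = true`).
* `f0_mem`: take `b` from `eig_f0`, `A b = ⁅pu 0 (toE 0 hth), b⁆`, `c = A (A (A (A b))) - 2 A (A (A b)) - A (A b) + 2 A b ∈ D`. `cmp v c` is the same expression in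
  `cmp v b` (`cmp_pu_lie` with `w = 0`): zero for `v ≠ 1` (`poly_kill`, `c0`), and for `v = 1` it is `24 • toE 1 (fw 8)` as `⁅toE 0 hth, toE 1 (fw 8)⁆ = -2 • toE 1 (fw 8)`
  (`num_hf0`; `16 + 16 - 4 - 4 = 24`). So `c = pu 1 (24 • toE 1 (fw 8))` (`cmp_ext`, `cmp_pu`).
-/

set_option autoImplicit false

namespace Pool.Agent.Helper64.E8C

open Pool.Agent.Helper73.E8 Pool.Agent.Helper2.E8A NumberField Polynomial

private theorem sum_h1 {ι : Type} [Fintype ι] (f : ι → Chev F) : (∑ i, f i).h = ∑ i, (f i).h := by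
  let g : Chev F →+ (Fin 8 → F) := ⟨⟨Chev.h, Chev.zero_h⟩, Chev.add_h⟩
  exact map_sum g f _

private theorem sum_x1 {ι : Type} [Fintype ι] (f : ι → Chev F) : (∑ i, f i).x = ∑ i, (f i).x := by
  let g : Chev F →+ (Root → F) := ⟨⟨Chev.x, Chev.zero_x⟩, Chev.add_x⟩
  exact map_sum g f _

private theorem toE_lin1 {ι : Type} [Fintype ι] (v : ℕ) (c : ι → F) (m : ι → List ℕ) (l : List ℕ)
    (h : ∀ j < 9, (l.getD j 0 : F) = ∑ i, c i * ((m i).getD j 0 : F)) :
    toE v l = ∑ i, c i • toE v (m i) := by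
  apply Chev.ext
  · rw [sum_h1]
    funext j
    rw [Finset.sum_apply]
    change (l.getD 8 0 : F) * (en vmT v j : F) = ∑ i, c i * (((m i).getD 8 0 : F) * (en vmT v j : F))
    rw [h 8 (by norm_num), Finset.sum_mul]
    exact Finset.sum_congr rfl fun i _ => by ring
  · rw [sum_x1]
    funext a
    rw [Finset.sum_apply]
    change (∑ k ∈ Finset.range 30, ∑ j : Fin 8, if rt k j = a then
      (etk k j : F) * 3 ^ (v * k) * (l.getD j 0 : F) else 0) = ∑ i, c i * (∑ k ∈ Finset.range 30, ∑ j : Fin 8,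
        if rt k j = a then (etk k j : F) * 3 ^ (v * k) * ((m i).getD j 0 : F) else 0)
    simp only [Finset.mul_sum]
    symm
    rw [Finset.sum_comm]
    refine Finset.sum_congr rfl fun k _ => ?_
    rw [Finset.sum_comm]
    refine Finset.sum_congr rfl fun j _ => ?_
    rw [h j (by omega)]
    split_ifs
    · rw [Finset.mul_sum]
      exact Finset.sum_congr rfl fun i _ => by ring
    · simp

private theorem getD_map1 (f : ℕ → ℕ) {j : ℕ} (hj : j < 9) : ((List.range 9).map f).getD j 0 = f j := by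
  rw [List.getD_eq_getElem _ _ (by simpa using hj)]
  simp

private theorem fold9_1 (f : ℕ → ℕ) : (List.range 9).foldl (fun acc k => acc + f k) 0 = ∑ k : Fin 9, f k := by
  have h : (List.range 9).foldl (fun acc k => acc + f k) 0 =
    0 + f 0 + f 1 + f 2 + f 3 + f 4 + f 5 + f 6 + f 7 + f 8 := rfl
  rw [h, zero_add, Fin.sum_univ_succ, Fin.sum_univ_eight]
  simp only [Fin.val_zero, Fin.val_succ]
  change _ = f 0 + (f 1 + f 2 + f 3 + f 4 + f 5 + f 6 + f 7 + f 8)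
  ring

private theorem un_getD1 (i : ℕ) {j : ℕ} (hj : j < 9) : (un i).getD j 0 = if j = i then 1 else 0 := by
  unfold un
  rw [getD_map1 _ hj]

private theorem toE_un1 (v : ℕ) (l : List ℕ) :
    toE v l = ∑ i : Fin 9, (l.getD i 0 : F) • toE v (un i) := by
  refine toE_lin1 v _ _ l fun j hj => ?_
  rw [Finset.sum_eq_single ⟨j, hj⟩]
  · rw [un_getD1 _ hj, if_pos rfl, Nat.cast_one, mul_one]
  · intro i _ hi
    rw [un_getD1 _ hj, if_neg (fun h => hi (Fin.ext h.symm)), Nat.cast_zero, mul_zero]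
  · intro h
    exact absurd (Finset.mem_univ _) h

private theorem toE_vmul1 (v : ℕ) (l : List ℕ) (M : List (List ℕ)) :
    toE v (vmul l M) = ∑ i : Fin 9, (l.getD i 0 : F) • toE v (M.getD i []) := by
  refine toE_lin1 v _ _ _ fun j hj => ?_
  unfold vmul
  rw [getD_map1 _ hj, ZMod.natCast_mod, fold9_1 (fun i => l.getD i 0 * (M.getD i []).getD j 0)]
  push_cast
  rfl

private noncomputable def Ad1 : Chev F →ₗ[F] Chev F where
  toFun s := ⁅toE 0 hth, s⁆
  map_add' := Chev.brk_add _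
  map_smul' c s := Chev.brk_smul c _ s

private theorem Ad_un1 (v : ℕ) (i : Fin 9) : Ad1 (toE v (un i)) = toE v ((mA v).getD i []) := by
  have h1 : (mA v).getD i [] = brc 0 v hth (un i) := by
    unfold mA
    rw [List.getD_eq_getElem _ _ (by simp)]
    simp
  rw [h1]
  change ⁅toE 0 hth, toE v (un i)⁆ = _
  rw [toE_brc, zero_add]

private theorem Ad_toE1 (v : ℕ) (l : List ℕ) : Ad1 (toE v l) = toE v (vmul l (mA v)) := by
  rw [toE_un1 v l, toE_vmul1, map_sum]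
  exact Finset.sum_congr rfl fun i _ => by rw [map_smul, Ad_un1]

private noncomputable def PA1 : Chev F →ₗ[F] Chev F :=
  Ad1 ∘ₗ Ad1 ∘ₗ Ad1 ∘ₗ Ad1 - (2 : F) • (Ad1 ∘ₗ Ad1 ∘ₗ Ad1) - Ad1 ∘ₗ Ad1 + (2 : F) • Ad1

private theorem PA_apply1 (s : Chev F) : PA1 s = Ad1 (Ad1 (Ad1 (Ad1 s))) - (2 : F) • Ad1 (Ad1 (Ad1 s)) -
    Ad1 (Ad1 s) + (2 : F) • Ad1 s := rfl

private theorem toE_zero1 (v : ℕ) {l : List ℕ} (h : ∀ x ∈ l, x = 0) : toE v l = 0 := by
  have h1 : ∀ j : ℕ, l.getD j 0 = 0 := by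
    intro j
    by_cases hj : j < l.length
    · rw [List.getD_eq_getElem _ _ hj]
      exact h _ (List.getElem_mem hj)
    · rw [List.getD_eq_default _ _ (not_lt.mp hj)]
  have h2 := toE_lin1 (ι := Empty) v Empty.elim Empty.elim l fun j _ => by
    rw [h1 j]
    simp
  rw [h2]
  simp

private theorem poly_un1 {v : ℕ} (hv : v < 30) (h1 : v ≠ 1) (i : Fin 9) : PA1 (toE v (un i)) = 0 := by
  have hc := num_poly v hv h1
  unfold chk at hc
  rw [List.all_eq_true] at hc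
  have hc1 := hc i (by rw [List.mem_range]; exact i.2)
  rw [List.all_eq_true] at hc1
  have hc2 : ∀ x ∈ pAux ((mA v).getD i []) (mA v), x = 0 := fun x hx => by
    have := hc1 x hx
    simpa using this
  have h2 := toE_zero1 v hc2
  rw [PA_apply1, Ad_un1, Ad_toE1, Ad_toE1, Ad_toE1]
  set M := mA v
  set s1 := M.getD i []
  set s2 := vmul s1 M
  set s3 := vmul s2 M
  set s4 := vmul s3 M
  have h3 : pAux s1 M = (List.range 9).map fun j =>
    (s4.getD j 0 + 29 * s3.getD j 0 + 30 * s2.getD j 0 + 2 * s1.getD j 0) % 31 := rfl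
  have h4 := toE_lin1 v ![1, -2, -1, 2] ![s4, s3, s2, s1] (pAux s1 M) fun j hj => by
    rw [h3, getD_map1 _ hj, ZMod.natCast_mod, Fin.sum_univ_four]
    have e29 : ((29 : ℕ) : F) = -2 := by decide
    have e30 : ((30 : ℕ) : F) = -1 := by decide
    have e2 : ((2 : ℕ) : F) = 2 := by decide
    rw [Nat.cast_add, Nat.cast_add, Nat.cast_add, Nat.cast_mul, Nat.cast_mul, Nat.cast_mul, e29, e30, e2]
    change _ = (1 : F) * (s4.getD j 0 : F) + (-2) * (s3.getD j 0 : F) + (-1) * (s2.getD j 0 : F) +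
      2 * (s1.getD j 0 : F)
    ring
  rw [h2, Fin.sum_univ_four] at h4
  have h5 : (0 : Chev F) = (1 : F) • toE v s4 + (-2 : F) • toE v s3 + (-1 : F) • toE v s2 +
    (2 : F) • toE v s1 := h4
  rw [h5]
  module

theorem poly_kill {v : ℕ} (hv : v < 30) (h1 : v ≠ 1) {s : Chev F} (hs : Ev v s) :
    ⁅toE 0 hth, ⁅toE 0 hth, ⁅toE 0 hth, ⁅toE 0 hth, s⁆⁆⁆⁆ - (2 : F) • ⁅toE 0 hth, ⁅toE 0 hth, ⁅toE 0 hth, s⁆⁆⁆ -
      ⁅toE 0 hth, ⁅toE 0 hth, s⁆⁆ + (2 : F) • ⁅toE 0 hth, s⁆ = 0 := by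
  obtain ⟨l, -, -, rfl⟩ := exists_toE hs
  change PA1 (toE v l) = 0
  rw [toE_un1 v l, map_sum]
  exact Finset.sum_eq_zero fun i _ => by rw [map_smul, poly_un1 hv h1, smul_zero]

end Pool.Agent.Helper64.E8C
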