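import Pool.Agent.Helper64.E8C.Num

/-!
# E8 at the prime 31: numerical facts (kernel computations), third part: duality
-/

set_option autoImplicit false

namespace Pool.Agent.Helper64.E8C

open Pool.Agent.Helper73.E8 Pool.Agent.Helper2.E8A NumberField Polynomial

set_option maxRecDepth 100000

/-- Every unit vector of `E_v` is a combination of the basis of `U_v` and of vectors dual to the basis of `U_(30-v)`. -/
theorem num_dual : ∀ v < 30, 1 ≤ v → ∀ i < dm v, ∀ j < 9,
    ((List.range (ud v)).foldl (fun acc k => acc + e3 cX v i k * (uu v k).getD j 0) 0 +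
     (List.range (ud (30 - v))).foldl (fun acc k => acc + frm (30 - v) (un i) (uu (30 - v) k) * e3 cY v k j) 0) % 31 =
      if i = j then 1 else 0 := by
  decide +kernel

end Pool.Agent.Helper64.E8C
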