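import Pool.Agent.Helper64.E8C.G3A
import Pool.Agent.Helper64.E8C.G2
import Pool.Agent.Helper64.E8C.Num3

/-!
# Block E8C-G3: `D` is determined

* `Ub_mem`: induction on `m`: `num_f0`, `f0_mem` for `m = 1`; for `m ≥ 2` use `num_tree`: `uu m k = brc 1 (m - 1) (fw i) (uu (m - 1) k')`, `toE_brc`, `pu_lie`, `lie`
  (`Fx_pu`, `toE_Ev`).
* `dual_span`: `s = toE v l` (`exists_toE`; the ninth coordinate matters only if `dm v = 9`: otherwise `toE v` does not depend on it, as the row `v` of `vmT` is zero).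
  By `num_dual`, `l = ∑_i l_i un i`: `s = ∑_k (∑_i l_i X_ik) • toE v (uu v k) + ∑_k (∑_i l_i frm (un i) (uu (30-v) k)) • toE v (Y_k)`, and the coefficient of the second sum is
  `bf s (toE (30 - v) (uu (30 - v) k)) = 0` (`toE_frm`, linearity).
* `D_iff`: `→`: `iso` for `b` and `pu (30 - v) (toE (30 - v) (uu (30 - v) k))` (in `D` by `Ub_mem`): `cmp (29 - w)` of it is zero unless `29 - w = 30 - v`.
  `←`: `cmp v b = ∑_k c_k • toE v (uu v k)` (`dual_span`), so `pu v (cmp v b) ∈ D` (`Ub_mem`, `add`, `smul`), `b = ∑_v pu v (cmp v b)` (`sum_pu`).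
-/

set_option autoImplicit false

namespace Pool.Agent.Helper64.E8C

open Pool.Agent.Helper73.E8 Pool.Agent.Helper2.E8A NumberField Polynomial

private theorem bf_zero_right_h82 {R : Type*} [CommRing R] (y : Chev R) : Chev.bf y (0 : Chev R) = 0 := by
  have h := Chev.bf_smul_right (0 : R) y (0 : Chev R)
  rwa [zero_smul, zero_mul] at h

private theorem pu_zero_h82 (v : ℕ) : pu v (0 : Chev F) = 0 := by
  have h := pu_smul v (0 : F) (0 : Chev F)
  rwa [zero_smul, map_zero, zero_smul] at h

private theorem D_sum_h82 {D : Chev B → Prop} (hD : IsD D) {ι : Type*} (s : Finset ι) (f : ι → Chev B)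
    (h : ∀ i ∈ s, D (f i)) : D (∑ i ∈ s, f i) := by
  classical
  induction s using Finset.induction_on with
  | empty => rw [Finset.sum_empty]; exact hD.zero
  | insert a s ha ih =>
    rw [Finset.sum_insert ha]
    exact hD.add _ _ (h a (Finset.mem_insert_self _ _)) (ih fun i hi => h i (Finset.mem_insert_of_mem hi))

private theorem pu_sum_h82 (v : ℕ) {ι : Type*} (s : Finset ι) (c : ι → F) (f : ι → Chev F) :
    pu v (∑ i ∈ s, c i • f i) = ∑ i ∈ s, algebraMap F B (c i) • pu v (f i) := by
  classical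
  induction s using Finset.induction_on with
  | empty => rw [Finset.sum_empty, Finset.sum_empty, pu_zero_h82]
  | insert a s ha ih => rw [Finset.sum_insert ha, Finset.sum_insert ha, pu_add, pu_smul, ih]

theorem D_iff {D : Chev B → Prop} (hD : IsD D) (b : Chev B) : D b ↔ Fx sB b ∧ cmp 0 b = 0 ∧
    ∀ v < 30, 1 ≤ v → ∀ k < ud (30 - v), Chev.bf (cmp v b) (toE (30 - v) (uu (30 - v) k)) = 0 := by
  constructor
  · intro hb
    refine ⟨hD.fx b hb, hD.c0 b hb, fun v hv h1 k hk => ?_⟩
    have hc := Ub_mem hD (m := 30 - v) (k := k) (by omega) (by omega) hk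
    have h := hD.iso _ _ hb hc
    rw [Finset.sum_eq_single (v - 1)] at h
    · rw [cmp_pu _ (by omega), if_pos (by omega)] at h
      have e : v - 1 + 1 = v := by omega
      rwa [e] at h
    · intro w hw hne
      rw [Finset.mem_range] at hw
      rw [cmp_pu _ (by omega), if_neg (by omega), bf_zero_right_h82]
    · intro hn
      rw [Finset.mem_range] at hn
      omega
  · rintro ⟨hfx, h0, ho⟩
    rw [sum_pu b]
    refine D_sum_h82 hD _ _ fun v hv => ?_
    rw [Finset.mem_range] at hv
    rcases Nat.eq_zero_or_pos v with hv0 | hv0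
    · subst hv0
      rw [h0, pu_zero_h82]
      exact hD.zero
    · obtain ⟨c, hc⟩ := dual_span hv0 hv ((Fx_iff_cmp b).mp hfx v hv) (ho v hv hv0)
      rw [hc, pu_sum_h82]
      refine D_sum_h82 hD _ _ fun k hk => hD.smul _ _ ?_
      exact Ub_mem hD hv0 hv (Finset.mem_range.mp hk)

end Pool.Agent.Helper64.E8C
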