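import Pool.Agent.Helper64.E8C.G2
import Pool.Agent.Helper64.E8C.Num3

/-!
# Block E8C-G3: `D` is determined

* `Ub_mem`: induction on `m`: `num_f0`, `f0_mem` for `m = 1`; for `m ≥ 2` use `num_tree`: `uu m k = brc 1 (m - 1) (fw i) (uu (m - 1) k')`, `toE_brc`, `pu_lie`, `lie`
  (`Fx_pu`, `toE_Ev`).
* `dual_span`: `s = toE v l` (`exists_toE`; the ninth coordinate matters only if `dm v = 9`: otherwise `toE v` does not depend on it, as the row `v` of `vmT` is zero).
  By `num_dual`, `l = ∑_i l_i un i`: `s = ∑_k (∑_i l_i X_ik) • toE v (uu v k) + ∑_k (∑_i l_i frm (un i) (uu (30-v) k)) • toE v (Y_k)`, and the coefficient of the second sum is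
  `bf s (toE (30 - v) (uu (30 - v) k)) = 0` (`toE_frm`, linearity).
* `D_iff`: `→`: `iso` for `b` and `pu (30 - v) (toE (30 - v) (uu (30 - v) k))` (in `D` by `Ub_mem`): `cmp (29 - w)` of it is zero unless `29 - w = 30 - v`.
  `←`: `cmp v b = ∑_k c_k • toE v (uu v k)` (`dual_span`), so `pu v (cmp v b) ∈ D` (`Ub_mem`, `add`, `smul`), `b = ∑_v pu v (cmp v b)` (`sum_pu`).
-/

set_option autoImplicit false

namespace Pool.Agent.Helper64.E8C

open Pool.Agent.Helper73.E8 Pool.Agent.Helper2.E8A NumberField Polynomial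

theorem Ub_mem {D : Chev B → Prop} (hD : IsD D) {m k : ℕ} (h1 : 1 ≤ m) (hm : m < 30) (hk : k < ud m) :
    D (pu m (toE m (uu m k))) := by
  induction m, h1 using Nat.le_induction generalizing k with
  | base =>
    have hk0 : k = 0 := by
      have h2 := num_f0.2
      omega
    subst hk0
    rw [num_f0.1]
    exact f0_mem hD
  | succ m h1 ih =>
    obtain ⟨h3, h4, h5⟩ := num_tree (m + 1) hm (by omega) k hk
    have e1 : m + 1 - 1 = m := rfl
    rw [e1] at h4 h5
    have h6 := ih (by omega) h4
    have h7 := hD.lie _ _ (Fx_pu (v := 1) (by norm_num)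
      (toE_Ev 1 (fw ((tree.getD (m + 1) []).getD k (0, 0)).1))) h6
    rw [pu_lie, toE_brc, h5, add_comm 1 m] at h7
    exact h7

private theorem foldl68 (f : ℕ → ℕ) (n : ℕ) :
    (List.range n).foldl (fun acc k => acc + f k) 0 = ∑ k ∈ Finset.range n, f k := by
  induction n with
  | zero => rfl
  | succ n ih => rw [List.range_succ, List.foldl_append, ih, Finset.sum_range_succ]; rfl

/-- `toE v` as a linear map. -/
private def TE68 (v : ℕ) : (ℕ → F) →ₗ[F] Chev F where
  toFun f := ⟨fun i => f 8 * (en vmT v i : F), fun a => ∑ k ∈ Finset.range 30, ∑ j : Fin 8, if rt k j = a then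
    (etk k j : F) * 3 ^ (v * k) * f j else 0⟩
  map_add' f g := by
    ext a
    · change (f 8 + g 8) * _ = f 8 * _ + g 8 * _
      rw [add_mul]
    · change ∑ k ∈ Finset.range 30, ∑ j : Fin 8, (if rt k j = a then
        (etk k j : F) * 3 ^ (v * k) * (f j + g j) else 0) = (∑ k ∈ Finset.range 30, ∑ j : Fin 8, if rt k j = a then
        (etk k j : F) * 3 ^ (v * k) * f j else 0) + ∑ k ∈ Finset.range 30, ∑ j : Fin 8, if rt k j = a then
        (etk k j : F) * 3 ^ (v * k) * g j else 0
      rw [← Finset.sum_add_distrib]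
      refine Finset.sum_congr rfl fun k _ => ?_
      rw [← Finset.sum_add_distrib]
      refine Finset.sum_congr rfl fun j _ => ?_
      split_ifs
      · rw [mul_add]
      · rw [add_zero]
  map_smul' c f := by
    ext a
    · change (c * f 8) * _ = c * (f 8 * _)
      rw [mul_assoc]
    · change ∑ k ∈ Finset.range 30, ∑ j : Fin 8, (if rt k j = a then
        (etk k j : F) * 3 ^ (v * k) * (c * f j) else 0) = c * ∑ k ∈ Finset.range 30, ∑ j : Fin 8, if rt k j = a then
        (etk k j : F) * 3 ^ (v * k) * f j else 0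
      rw [Finset.mul_sum]
      refine Finset.sum_congr rfl fun k _ => ?_
      rw [Finset.mul_sum]
      refine Finset.sum_congr rfl fun j _ => ?_
      split_ifs
      · ring
      · rw [mul_zero]

private theorem toE_TE68 (v : ℕ) (s : List ℕ) : toE v s = TE68 v fun i => (s.getD i 0 : F) := rfl

private theorem TE_congr68 (v : ℕ) {f g : ℕ → F} (h : ∀ j < 8, f j = g j) (h8 : f 8 = g 8 ∨ ∀ i : Fin 8, en vmT v i = 0) :
    TE68 v f = TE68 v g := by
  ext a
  · change f 8 * (en vmT v a : F) = g 8 * (en vmT v a : F)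
    rcases h8 with h8 | h8
    · rw [h8]
    · rw [h8, Nat.cast_zero, mul_zero, mul_zero]
  · change ∑ k ∈ Finset.range 30, ∑ j : Fin 8, (if rt k j = a then
      (etk k j : F) * 3 ^ (v * k) * f j else 0) = ∑ k ∈ Finset.range 30, ∑ j : Fin 8, if rt k j = a then
      (etk k j : F) * 3 ^ (v * k) * g j else 0
    refine Finset.sum_congr rfl fun k _ => Finset.sum_congr rfl fun j _ => ?_
    rw [h j j.2]

private theorem num_dm68 : ∀ v < 30, dm v = 9 ∨ (dm v = 8 ∧ ∀ i : Fin 8, en vmT v i = 0) := by
  decide +kernel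

private theorem un_get68 : ∀ i < 9, ∀ j < 9, (un i).getD j 0 = if j = i then 1 else 0 := by
  decide +kernel

theorem dual_span {v : ℕ} (h1 : 1 ≤ v) (hv : v < 30) {s : Chev F} (hs : Ev v s)
    (ho : ∀ k < ud (30 - v), Chev.bf s (toE (30 - v) (uu (30 - v) k)) = 0) :
    ∃ c : ℕ → F, s = ∑ k ∈ Finset.range (ud v), c k • toE v (uu v k) := by
  obtain ⟨l, -, -, rfl⟩ := exists_toE hs
  have hdm9 : dm v ≤ 9 := by
    rcases num_dm68 v hv with h | h
    · omega
    · omega
  -- the coordinates, the ninth one only if it matters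
  let l' : ℕ → F := fun j => if j < dm v then (l.getD j 0 : F) else 0
  have hl' : toE v l = TE68 v l' := by
    rw [toE_TE68]
    rcases num_dm68 v hv with h | h
    · refine TE_congr68 v (fun j hj => ?_) (Or.inl ?_)
      · exact (if_pos (by omega)).symm
      · exact (if_pos (by omega)).symm
    · refine TE_congr68 v (fun j hj => ?_) (Or.inr h.2)
      exact (if_pos (by omega)).symm
  have hun : ∀ i < 9, toE v (un i) = TE68 v fun j => if j = i then 1 else 0 := by
    intro i hi
    rw [toE_TE68]
    refine TE_congr68 v (fun j hj => ?_) (Or.inl ?_)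
    · rw [un_get68 i hi j (by omega)]
      split_ifs <;> simp
    · rw [un_get68 i hi 8 (by omega)]
      split_ifs <;> simp
  have hsum : TE68 v l' = ∑ i ∈ Finset.range (dm v), (l.getD i 0 : F) • toE v (un i) := by
    have e1 : ∀ i ∈ Finset.range (dm v), (l.getD i 0 : F) • toE v (un i) =
        TE68 v ((l.getD i 0 : F) • fun j => if j = i then 1 else 0) := by
      intro i hi
      rw [hun i (by have := Finset.mem_range.1 hi; omega), map_smul]
    rw [Finset.sum_congr rfl e1, ← map_sum]
    congr 1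
    funext j
    rw [Finset.sum_apply]
    simp only [Pi.smul_apply, smul_eq_mul, mul_ite, mul_one, mul_zero]
    rw [Finset.sum_ite_eq (Finset.range (dm v)) j]
    simp only [Finset.mem_range]
    rfl
  have hdual : ∀ i < dm v, ∀ j < 9, (if i = j then (1 : F) else 0) =
      ∑ k ∈ Finset.range (ud v), (e3 cX v i k : F) * ((uu v k).getD j 0 : F) +
        ∑ k ∈ Finset.range (ud (30 - v)), (frm (30 - v) (un i) (uu (30 - v) k) : F) * (e3 cY v k j : F) := by
    intro i hi j hj
    have h2 := num_dual v hv h1 i hi j hj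
    rw [foldl68 (fun k => e3 cX v i k * (uu v k).getD j 0),
      foldl68 (fun k => frm (30 - v) (un i) (uu (30 - v) k) * e3 cY v k j)] at h2
    have h3 := congrArg (fun n : ℕ => (n : F)) h2
    simp only [ZMod.natCast_mod] at h3
    push_cast at h3
    exact h3.symm
  have hfrm : ∀ k < ud (30 - v), ∑ i ∈ Finset.range (dm v),
      (l.getD i 0 : F) * (frm (30 - v) (un i) (uu (30 - v) k) : F) = 0 := by
    intro k hk
    have h2 := ho k hk
    rw [hl', hsum, ← Chev.bfL_apply, map_sum, LinearMap.sum_apply] at h2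
    rw [← h2]
    refine Finset.sum_congr rfl fun i _ => ?_
    rw [map_smul, LinearMap.smul_apply, smul_eq_mul, Chev.bfL_apply, toE_frm (by
      have : v + (30 - v) = 30 := by omega
      rw [this])]
  refine ⟨fun k => ∑ i ∈ Finset.range (dm v), (l.getD i 0 : F) * (e3 cX v i k : F), ?_⟩
  rw [hl']
  have e2 : ∀ k ∈ Finset.range (ud v), (∑ i ∈ Finset.range (dm v), (l.getD i 0 : F) * (e3 cX v i k : F)) • toE v (uu v k) =
      TE68 v ((∑ i ∈ Finset.range (dm v), (l.getD i 0 : F) * (e3 cX v i k : F)) • fun j => ((uu v k).getD j 0 : F)) := by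
    intro k _
    rw [map_smul, toE_TE68]
  rw [Finset.sum_congr rfl e2, ← map_sum]
  have key : ∀ j < 9, l' j = (∑ k ∈ Finset.range (ud v), (∑ i ∈ Finset.range (dm v), (l.getD i 0 : F) * (e3 cX v i k : F)) •
      fun j => ((uu v k).getD j 0 : F)) j := by
    intro j hj
    have h3 : l' j = ∑ i ∈ Finset.range (dm v), (l.getD i 0 : F) * (if i = j then (1 : F) else 0) := by
      simp only [mul_ite, mul_one, mul_zero]
      rw [Finset.sum_ite_eq' (Finset.range (dm v)) j]
      simp only [Finset.mem_range]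
      rfl
    rw [h3]
    have h4 : ∑ i ∈ Finset.range (dm v), (l.getD i 0 : F) * (if i = j then (1 : F) else 0) =
        ∑ i ∈ Finset.range (dm v), ((l.getD i 0 : F) * ∑ k ∈ Finset.range (ud v), (e3 cX v i k : F) * ((uu v k).getD j 0 : F) +
        (l.getD i 0 : F) * ∑ k ∈ Finset.range (ud (30 - v)),
          (frm (30 - v) (un i) (uu (30 - v) k) : F) * (e3 cY v k j : F)) := by
      refine Finset.sum_congr rfl fun i hi => ?_
      rw [hdual i (Finset.mem_range.1 hi) j hj, mul_add]
    rw [h4, Finset.sum_add_distrib]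
    have h5 : ∑ i ∈ Finset.range (dm v), (l.getD i 0 : F) * ∑ k ∈ Finset.range (ud (30 - v)),
          (frm (30 - v) (un i) (uu (30 - v) k) : F) * (e3 cY v k j : F) = 0 := by
      simp only [Finset.mul_sum]
      rw [Finset.sum_comm]
      refine Finset.sum_eq_zero fun k hk => ?_
      simp only [← mul_assoc]
      rw [← Finset.sum_mul, hfrm k (Finset.mem_range.1 hk), zero_mul]
    rw [h5, add_zero, Finset.sum_apply]
    simp only [Finset.mul_sum]
    rw [Finset.sum_comm]
    refine Finset.sum_congr rfl fun k _ => ?_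
    rw [Pi.smul_apply, smul_eq_mul, Finset.sum_mul]
    refine Finset.sum_congr rfl fun i _ => ?_
    rw [mul_assoc]
  exact TE_congr68 v (fun j hj => key j (by omega)) (Or.inl (key 8 (by omega)))

end Pool.Agent.Helper64.E8C
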