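import Pool.Agent.Helper64.E8C.IsoA
import Pool.Agent.Helper64.E8C.Db
import Pool.Agent.Helper64.E8C.Pu
import Pool.Agent.Helper64.E8C.Brc

/-!
# Block E8C-ISO: isotropy of `D`; an element of degree one

* `inD_iso`: let `b, c` come from `y, z ∈ L`, `31 y = inc y' = inc (pO • y₁)`, `31 z = inc z'` (`L_bound`). `N = bf y z` is an integer and
  `31 ^ 2 N = pO bf y₁ z'` in `O`, so `bf y₁ z' = 31 (31 N / pO) ∈ 31 O` (as `pO ∣ 31`), so `bf (cm ev y₁) (cm ev z') = 0` in `B`. With `ev pO = lam u`, `u` a unit: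
  `lam • (u • cm ev y₁) = b`, so `cmp v (u • cm ev y₁) = cmp (v + 1) b` for `v < 29` (`cf_lam_mul`), and `0 = u bf (cm ev y₁) c`, its coefficient 29 is
  `∑_{i + j = 29} bf (cmp i (u • cm ev y₁)) (cmp j c)` (`cf_bf`), where the term `i = 29`, `j = 0` vanishes (`inD_c0`); so
  `∑_{i = 0}^{28} bf (cmp (i + 1) b) (cmp (29 - i) c) = 0`.
* `inD_ex`: suppose `cmp 1 b = 0` for all `b` in `D`; then `31 z = inc (pO ^ 2 • z₂)` for all `z ∈ L`. Take `X` with `X.x = 0`, `Fx so X`, `cm ev X = pu 29 (ve 29)` (`lift_cart`),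
  so `X = pO ^ 29 • X₁`, and `y = 31⁻¹ • inc X`. For `z ∈ L`: `bf y z = 31⁻² pO ^ 31 bf X₁ z₂`, so `pO ^ 29 bf y z` is integral (`thirtyone`), an integer by `bf_int`;
  so `y ∈ L` (`dual`), `y` is integral (`cart_int`), `X = 31 • _`, `cm ev X = 0`, but `ve 29 ≠ 0`. Contradiction.
-/

set_option autoImplicit false

namespace Pool.Agent.Helper64.E8C

open Pool.Agent.Helper73.E8 Pool.Agent.Helper2.E8A NumberField Polynomial

/-- If the coefficients of `ev x` below `k` vanish, `x` is divisible by `pO ^ k`. -/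
theorem pO_pow_dvd (k : ℕ) (hk : k ≤ 29) (x : O) (h : ∀ v < k, cf v (ev x) = 0) : pO ^ k ∣ x := by
  induction k generalizing x with
  | zero => simp
  | succ k ih =>
    obtain ⟨y, rfl⟩ := (pO_dvd_iff x).2 (h 0 (Nat.succ_pos k))
    obtain ⟨u, hu, hpu⟩ := ev_pO
    obtain ⟨w, rfl⟩ := hu
    have h1 : ∀ v < k, cf v ((w : B) * ev y) = 0 := by
      intro v hv
      have h2 := h (v + 1) (Nat.succ_lt_succ hv)
      rw [map_mul, hpu, mul_assoc, cf_lam_mul v (by omega)] at h2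
      exact h2
    have h3 : ∀ v < k, cf v (ev y) = 0 := by
      intro v hv
      have h4 : ev y = (↑w⁻¹ : B) * ((w : B) * ev y) := by
        rw [← mul_assoc, Units.inv_mul, one_mul]
      rw [h4, cf_mul (by omega)]
      refine Finset.sum_eq_zero fun p hp => ?_
      have hp' := Finset.HasAntidiagonal.mem_antidiagonal.1 hp
      rw [h1 p.2 (by omega), mul_zero]
    have h5 := ih (by omega) y h3
    rw [pow_succ']
    exact mul_dvd_mul_left pO h5

/-- Coordinatewise division. -/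
theorem exists_pow_smul (k : ℕ) (hk : k ≤ 29) (X : Chev O) (h : ∀ v < k, cmp v (cm ev X) = 0) :
    ∃ Y : Chev O, X = pO ^ k • Y := by
  have h1 : ∀ i, pO ^ k ∣ X.h i := fun i =>
    pO_pow_dvd k hk _ fun v hv => congrArg (fun z : Chev F => z.h i) (h v hv)
  have h2 : ∀ a, pO ^ k ∣ X.x a := fun a =>
    pO_pow_dvd k hk _ fun v hv => congrArg (fun z : Chev F => z.x a) (h v hv)
  choose f hf using h1
  choose g hg using h2
  refine ⟨⟨f, g⟩, ?_⟩
  apply Chev.ext
  · funext i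
    exact hf i
  · funext a
    exact hg a

theorem ve_Ev (m : ℕ) : Ev m (ve m) := toE_Ev m _

theorem pu_x (v : ℕ) (s : Chev F) (a : Root) : (pu v s).x a = algebraMap F B (s.x a) * lam ^ v := rfl

theorem pu_ve_x (v m : ℕ) : (pu v (ve m)).x = 0 := by
  funext a
  rw [pu_x, ve_x, Pi.zero_apply, map_zero, zero_mul, Pi.zero_apply]

theorem ve29_ne : ve 29 ≠ 0 := by
  intro h
  have h1 : (ve 29).h 4 = 0 := by rw [h]; rfl
  have h2 : (ve 29).h 4 = 1 := by
    unfold ve toE en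
    decide
  rw [h2] at h1
  exact one_ne_zero h1

theorem inD_ex {L : AddSubgroup (Chev K)} (hL : IsL L) : ∃ b, InD L b ∧ cmp 1 b ≠ 0 := by
  by_contra hcon
  have hcon' : ∀ b, InD L b → cmp 1 b = 0 := fun b hb => by
    by_contra h
    exact hcon ⟨b, hb, h⟩
  -- elements of `L`
  have hA : ∀ z ∈ L, ∃ z₂ : Chev O, inc (pO ^ 2 • z₂) = (31 : K) • z := by
    intro z hz
    obtain ⟨z₁, hz₁⟩ := L_bound hL hz
    have hD : InD L (cm ev (pO • z₁)) := ⟨z, hz, pO • z₁, hz₁, rfl⟩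
    obtain ⟨z₂, hz₂⟩ := exists_pow_smul 2 (by norm_num) (pO • z₁) (fun v hv => by
      interval_cases v
      · exact inD_c0 hL hD
      · exact hcon' _ hD)
    exact ⟨z₂, by rw [← hz₂, hz₁]⟩
  obtain ⟨X, hXfx, hXev, hXx⟩ := lift_cart (pu 29 (ve 29)) (Fx_pu (by norm_num) (ve_Ev 29)) (pu_ve_x 29 29)
  obtain ⟨X₁, hX₁⟩ := exists_pow_smul 29 le_rfl X (fun v hv => by
    rw [hXev, cmp_pu v (by norm_num), if_neg (by omega)])
  obtain ⟨u, hu⟩ := thirtyone
  have hu' : (31 : K) = ((u : O) : K) * (pO : K) ^ 30 := by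
    have h0 := congrArg (algebraMap O K) hu
    rw [map_mul, map_pow, map_ofNat] at h0
    exact h0
  have hp0 : (pO : K) ≠ 0 := by
    intro h
    exact pO_ne (RingOfIntegers.ext h)
  have h31 : (31 : K) ≠ 0 := by norm_num
  have huinv : ((u : O) : K) * (((↑u⁻¹ : O)) : K) = 1 := by
    have h0 : ((u : O) * (↑u⁻¹ : O) : O) = 1 := Units.mul_inv u
    have h1 := congrArg (algebraMap O K) h0
    rw [map_mul, map_one] at h1
    exact h1
  set y : Chev K := (31 : K)⁻¹ • inc X with hy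
  have hy31 : (31 : K) • y = inc X := by
    rw [hy, smul_smul, mul_inv_cancel₀ h31, one_smul]
  have hyfx : Fx σ y := by
    have h1 := Fx_K_smul ((31 : ℚ)⁻¹) ((Fx_inc X).2 hXfx)
    have h2 : (((31 : ℚ)⁻¹ : ℚ) : K) = (31 : K)⁻¹ := by push_cast; rfl
    rw [h2] at h1
    exact h1
  have hyL : y ∈ L := by
    refine hL.dual y hyfx fun z hz => ?_
    obtain ⟨z₂, hz₂⟩ := hA z hz
    refine bf_int hyfx (hL.fx z hz) ((↑u⁻¹ : O) * (↑u⁻¹ : O) * Chev.bf X₁ z₂) ?_
    have h1 : (31 : K) * (31 * Chev.bf y z) = ((pO : K) ^ 29 * ((pO : K) ^ 2 * (Chev.bf X₁ z₂ : O))) := by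
      have h2 : Chev.bf ((31 : K) • y) ((31 : K) • z) = (31 : K) * (31 * Chev.bf y z) := by
        rw [Chev.bf_smul_left, Chev.bf_smul_right]
      rw [← h2, hy31, ← hz₂, inc_bf, hX₁, Chev.bf_smul_left, Chev.bf_smul_right]
      push_cast
      rfl
    have h3 : (((↑u⁻¹ : O) * (↑u⁻¹ : O) * Chev.bf X₁ z₂ : O) : K) =
        ((↑u⁻¹ : O) : K) * ((↑u⁻¹ : O) : K) * ((Chev.bf X₁ z₂ : O) : K) := by push_cast; rfl
    rw [h3]
    have h4 : (pO : K) ^ 31 ≠ 0 := pow_ne_zero _ hp0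
    apply mul_left_cancel₀ h4
    generalize hw : (((↑u⁻¹ : O)) : K) = w at *
    generalize hv : ((u : O) : K) = v at *
    generalize hb : ((Chev.bf X₁ z₂ : O) : K) = b at *
    generalize hn : Chev.bf y z = N at *
    generalize hp : (pO : K) = p at *
    rw [hu'] at h1
    linear_combination (-(w * w)) * h1 + (p ^ 60 * N) * (v * w + 1) * huinv
  obtain ⟨y', hy'⟩ := cart_int hL hyL (by
    funext a
    change (31 : K)⁻¹ * ((X.x a : O) : K) = 0
    rw [hXx]
    have h0 : (((0 : Root → O) a : O) : K) = 0 := map_zero (algebraMap O K)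
    rw [h0, mul_zero])
  have h5 : (31 : O) • y' = X := by
    apply inc_inj
    rw [inc_smul, hy', ← hy31]
    congr 1
  have h6 : cm ev X = 0 := by
    rw [← h5, cm_smul]
    have h7 : ev (31 : O) = 0 := by
      rw [map_ofNat]
      have h8 : (31 : B) = algebraMap F B 31 := by rw [map_ofNat]
      rw [h8]
      have h9 : (31 : F) = 0 := by decide
      rw [h9, map_zero]
    rw [h7, zero_smul]
  apply ve29_ne
  have h10 : cmp 29 (pu 29 (ve 29)) = ve 29 := by
    rw [cmp_pu 29 (by norm_num), if_pos rfl]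
  rw [← h10, ← hXev, h6, cmp_zero]

end Pool.Agent.Helper64.E8C
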