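import Pool.Agent.Helper64.E8C.Db

/-!
# Block E8C-ISO: isotropy of `D`; an element of degree one

* `inD_iso`: let `b, c` come from `y, z ∈ L`, `31 y = inc y' = inc (pO • y₁)`, `31 z = inc z'` (`L_bound`). `N = bf y z` is an integer and
  `31 ^ 2 N = pO bf y₁ z'` in `O`, so `bf y₁ z' = 31 (31 N / pO) ∈ 31 O` (as `pO ∣ 31`), so `bf (cm ev y₁) (cm ev z') = 0` in `B`. With `ev pO = lam u`, `u` a unit:
  `lam • (u • cm ev y₁) = b`, so `cmp v (u • cm ev y₁) = cmp (v + 1) b` for `v < 29` (`cf_lam_mul`), and `0 = u bf (cm ev y₁) c`, its coefficient 29 is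
  `∑_{i + j = 29} bf (cmp i (u • cm ev y₁)) (cmp j c)` (`cf_bf`), where the term `i = 29`, `j = 0` vanishes (`inD_c0`); so
  `∑_{i = 0}^{28} bf (cmp (i + 1) b) (cmp (29 - i) c) = 0`.
* `inD_ex`: suppose `cmp 1 b = 0` for all `b` in `D`; then `31 z = inc (pO ^ 2 • z₂)` for all `z ∈ L`. Take `X` with `X.x = 0`, `Fx so X`, `cm ev X = pu 29 (ve 29)` (`lift_cart`),
  so `X = pO ^ 29 • X₁`, and `y = 31⁻¹ • inc X`. For `z ∈ L`: `bf y z = 31⁻² pO ^ 31 bf X₁ z₂`, so `pO ^ 29 bf y z` is integral (`thirtyone`), an integer by `bf_int`;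
  so `y ∈ L` (`dual`), `y` is integral (`cart_int`), `X = 31 • _`, `cm ev X = 0`, but `ve 29 ≠ 0`. Contradiction.
-/

set_option autoImplicit false

namespace Pool.Agent.Helper64.E8C

open Pool.Agent.Helper73.E8 Pool.Agent.Helper2.E8A NumberField Polynomial

theorem inD_iso {L : AddSubgroup (Chev K)} (hL : IsL L) {b c : Chev B} (hb : InD L b) (hc : InD L c) :
    ∑ v ∈ Finset.range 29, Chev.bf (cmp (v + 1) b) (cmp (29 - v) c) = 0 := by
  have hc0 := inD_c0 hL hc
  obtain ⟨y, hy, y', hy', rfl⟩ := hb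
  obtain ⟨z, hz, z', hz', rfl⟩ := hc
  obtain ⟨y₁, hy₁⟩ := L_bound hL hy
  have e1 : y' = pO • y₁ := inc_inj (hy'.trans hy₁.symm)
  obtain ⟨N, hN⟩ := hL.int y hy z hz
  obtain ⟨u, hu⟩ := thirtyone
  have hc31 : ((31 : O) : K) = 31 := map_ofNat (algebraMap O K) 31
  have h1 : pO * Chev.bf y₁ z' = 31 * 31 * (N : O) := by
    apply RingOfIntegers.ext
    have h2 : ((pO * Chev.bf y₁ z' : O) : K) = Chev.bf (inc y') (inc z') := by
      rw [inc_bf, e1, Chev.bf_smul_left]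
    have h3 : ((31 * 31 * (N : O) : O) : K) = 31 * 31 * (N : K) := by
      have h4 : ((N : O) : K) = N := map_intCast (algebraMap O K) N
      have h5 : ((31 * 31 * (N : O) : O) : K) = ((31 : O) : K) * ((31 : O) : K) * ((N : O) : K) := by
        rw [← map_mul, ← map_mul]
      rw [h5, hc31, h4]
    rw [h2, h3, hy', hz', Chev.bf_smul_left, Chev.bf_smul_right, hN]
    ring
  have h2 : Chev.bf y₁ z' = 31 * (u * pO ^ 29 * N) := by
    apply mul_left_cancel₀ pO_ne
    rw [h1]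
    linear_combination (31 * (N : O)) * hu
  have hev31 : ev (31 : O) = 0 := by
    rw [map_ofNat]
    have h4 : (31 : B) = algebraMap F B 31 := by rw [map_ofNat]
    have h5 : (31 : F) = 0 := by decide
    rw [h4, h5, map_zero]
  have h3 : Chev.bf (cm ev y₁) (cm ev z') = 0 := by
    rw [cm_bf, h2, map_mul, hev31, zero_mul]
  obtain ⟨w, -, hpw⟩ := ev_pO
  set b₁ : Chev B := w • cm ev y₁ with hb₁
  have hb : cm ev y' = lam • b₁ := by
    rw [e1, cm_smul, hpw, hb₁, smul_smul]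
  have h4 : Chev.bf b₁ (cm ev z') = 0 := by
    rw [hb₁, Chev.bf_smul_left, h3, mul_zero]
  have h5 : ∀ v < 29, cmp (v + 1) (cm ev y') = cmp v b₁ := by
    intro v hv
    rw [hb]
    apply Chev.ext
    · funext i
      exact cf_lam_mul v hv (b₁.h i)
    · funext a
      exact cf_lam_mul v hv (b₁.x a)
  have h6 := cf_bf (v := 29) (by norm_num) b₁ (cm ev z')
  rw [h4, map_zero, Finset.Nat.sum_antidiagonal_eq_sum_range_succ (fun i j => Chev.bf (cmp i b₁) (cmp j (cm ev z'))),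
    Finset.sum_range_succ] at h6
  have h7 : Chev.bf (cmp 29 b₁) (cmp (29 - 29) (cm ev z')) = 0 := by
    rw [Nat.sub_self, hc0]
    simp [Chev.bf]
  rw [h7, add_zero] at h6
  rw [h6]
  refine Finset.sum_congr rfl fun v hv => ?_
  rw [h5 v (Finset.mem_range.1 hv)]

end Pool.Agent.Helper64.E8C
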