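import Pool.Agent.Helper64.E8C.Cm
import Pool.Agent.Helper64.E8C.EvK

/-!
# Block E8C-RAT: rationality and integrality of the form on `V`

* `bf_rat`: `Fx_bf` (file Cm.lean): `σ (bf y z) = bf y z`. Every automorphism of `K` is a power of `σ` (`aut_eq`, Pool/Agent/Helper2/E8A/Sig.lean),
  `K / ℚ` is Galois, so `bf y z ∈ ℚ` (`IsGalois.mem_bot_iff_fixed` or `IntermediateField`/`IsGalois.mem_range_algebraMap_iff_fixed`).
* `bf_int`: `bf_rat` and `int_of_pow`.
* `Fx_inc`: `so` is the restriction of `σ`, the inclusion is injective.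
-/

set_option autoImplicit false

namespace Pool.Agent.Helper64.E8C

open Pool.Agent.Helper73.E8 Pool.Agent.Helper2.E8A NumberField Polynomial

private theorem h94_alg_inj : Function.Injective (algebraMap O K) :=
  FaithfulSMul.algebraMap_injective O K

private theorem h94_so (x : O) : algebraMap O K (so x) = σ (algebraMap O K x) := rfl

theorem inc_inj {y z : Chev O} (h : inc y = inc z) : y = z := by
  apply Chev.ext
  · funext i
    exact h94_alg_inj (congrArg (fun w : Chev K => w.h i) h)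
  · funext a
    exact h94_alg_inj (congrArg (fun w : Chev K => w.x a) h)

theorem inc_add (y z : Chev O) : inc (y + z) = inc y + inc z := cm_add (algebraMap O K) y z

theorem inc_neg (y : Chev O) : inc (-y) = -inc y := cm_neg (algebraMap O K) y

theorem inc_smul (c : O) (y : Chev O) : inc (c • y) = (c : K) • inc y := cm_smul (algebraMap O K) c y

theorem inc_lie (y z : Chev O) : inc ⁅y, z⁆ = ⁅inc y, inc z⁆ := cm_lie (algebraMap O K) y z

theorem inc_bf (y z : Chev O) : Chev.bf (inc y) (inc z) = ((Chev.bf y z : O) : K) :=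
  cm_bf (algebraMap O K) y z

theorem Fx_inc (y : Chev O) : Fx σ (inc y) ↔ Fx so y := by
  constructor
  · rintro ⟨h1, h2⟩
    refine ⟨fun j => ?_, fun a => ?_⟩
    · apply h94_alg_inj
      rw [map_sum]
      refine (h1 j).trans (Finset.sum_congr rfl fun i _ => ?_)
      rw [map_mul, map_intCast]
      rfl
    · apply h94_alg_inj
      rw [map_mul, map_intCast]
      exact h2 a
  · intro h
    exact Fx_cm (f := algebraMap O K) (s := so) (s' := (σ : K →+* K)) (fun x => rfl) h

theorem bf_rat {y z : Chev K} (hy : Fx σ y) (hz : Fx σ z) : ∃ q : ℚ, Chev.bf y z = q := by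
  have h1 : σ (Chev.bf y z) = Chev.bf y z := Fx_bf (σ : K →+* K) hy hz
  have : IsGalois ℚ K := IsCyclotomicExtension.isGalois {31} ℚ K
  have h2 : ∀ n : ℕ, (σ ^ n) (Chev.bf y z) = Chev.bf y z := by
    intro n
    induction n with
    | zero => rfl
    | succ n ih => rw [pow_succ, AlgEquiv.mul_apply, h1, ih]
  have h3 : Chev.bf y z ∈ Set.range (algebraMap ℚ K) := by
    rw [IsGalois.mem_range_algebraMap_iff_fixed]
    intro f
    obtain ⟨i, -, rfl⟩ := aut_eq f
    exact h2 i
  obtain ⟨q, hq⟩ := h3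
  exact ⟨q, by rw [← hq, eq_ratCast]⟩

/-- If `(1 - ζ) ^ 29 bf y z` is integral then `bf y z` is an integer. -/
theorem bf_int {y z : Chev K} (hy : Fx σ y) (hz : Fx σ z) (x : O) (h : (x : K) = (pO : K) ^ 29 * Chev.bf y z) :
    ∃ n : ℤ, Chev.bf y z = n := by
  obtain ⟨q, hq⟩ := bf_rat hy hz
  rw [hq] at h
  obtain ⟨n, hn⟩ := int_of_pow q x h
  exact ⟨n, by rw [hq, hn, Rat.cast_intCast]⟩

/-- Linearity. -/
theorem Fx_K_add {y z : Chev K} (hy : Fx σ y) (hz : Fx σ z) : Fx σ (y + z) :=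
  Fx_add (σ : K →+* K) hy hz

theorem Fx_K_neg {y : Chev K} (hy : Fx σ y) : Fx σ (-y) :=
  Fx_neg (σ : K →+* K) hy

theorem Fx_K_smul (q : ℚ) {y : Chev K} (hy : Fx σ y) : Fx σ ((q : K) • y) :=
  Fx_smul (σ : K →+* K) (map_ratCast (σ : K →+* K) q) hy

theorem Fx_K_lie {y z : Chev K} (hy : Fx σ y) (hz : Fx σ z) : Fx σ ⁅y, z⁆ :=
  Fx_lie (σ : K →+* K) hy hz

end Pool.Agent.Helper64.E8C
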