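import Pool.Agent.Helper64.E8C.LftA
import Pool.Agent.Helper64.E8C.Rt
import Pool.Agent.Helper64.E8C.Rat

/-!
# Block E8C-LFT: lifting from `B` to `𝓞 K`; the integral vectors `ej`

* `ej_Fx`, `ej_lie`: `ej j` is the sum over `k < 30` of `n ^ k e_(α_j)` (coefficients `± 1`): `Fx so` holds because `etk (k + 1) j = etk k j * et (rt k j)`,
  `etk 30 = 1`, `so` fixes integers. `[c h, ej j]` (for `h` in the Cartan part): `brk_x` with a Cartan element.
* `lift_B`: choose `X₀` with `cm ev X₀ = b` coordinatewise (`ev_surj`) and put `X = 30 ∑_{k < 30} τ ^ k X₀`, `τ y = nn (cm so y)` (`30 * 30 = 1` modulo 31;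
  `cm ev (τ y) = nn (cm sB (cm ev y))`, `b` is fixed by it). `τ ^ 30 = 1`: `so ^ 30 = 1` (`σ30`), `W ^ 30 = 1`, `etk_thirty` (the signs of `n ^ 30` at the
  root `rt k j` is `etk (k + 30) j * etk k j = 1`). Or construct `X` directly from its values at the `α_j` for the root part, and by averaging for the
  Cartan part.
-/

set_option autoImplicit false

namespace Pool.Agent.Helper64.E8C

open Pool.Agent.Helper73.E8 Pool.Agent.Helper2.E8A NumberField Polynomial

/-- The semilinear automorphism of the integral Chevalley algebra. -/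
private noncomputable def tt : Chev O →+ Chev O :=
  AddMonoidHom.mk' (fun y => nn (cm so y)) fun y z => by rw [cm_add, nn_add]

private theorem tt_h (y : Chev O) (j : Fin 8) : (tt y).h j = ∑ i, so (y.h i) * (Wmat i j : O) := rfl

private theorem tt_x (y : Chev O) (a : Root) : (tt y).x (rW a) = ((et a.1 : ℤ) : O) * so (y.x a) := by
  change ((et (rW.symm (rW a)).1 : ℤ) : O) * so (y.x (rW.symm (rW a))) = _
  rw [Equiv.symm_apply_apply]

private theorem so_int (n : ℤ) : so (n : O) = n := map_intCast so n

private theorem tt_iter_h (k : ℕ) (y : Chev O) (j : Fin 8) :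
    (tt^[k] y).h j = ∑ i, so^[k] (y.h i) * (((W^[k] (al i)) j : ℤ) : O) := by
  induction k generalizing j with
  | zero =>
    simp only [Function.iterate_zero, id_eq]
    rw [Finset.sum_eq_single j]
    · simp [al]
    · intro i _ hij
      simp [al, hij]
    · intro h
      exact absurd (Finset.mem_univ j) h
  | succ k ih =>
    rw [Function.iterate_succ_apply', tt_h]
    simp only [ih, map_sum, map_mul, so_int, Finset.sum_mul]
    rw [Finset.sum_comm]
    refine Finset.sum_congr rfl fun i _ => ?_
    rw [Function.iterate_succ_apply', Function.iterate_succ_apply', W_apply]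
    push_cast
    rw [Finset.mul_sum]
    refine Finset.sum_congr rfl fun m _ => ?_
    rw [mul_assoc]

private theorem tt_iter_x (k : ℕ) (y : Chev O) (i : ℕ) (j : Fin 8) :
    etk i j * (tt^[k] y).x (rt (i + k) j) = etk (i + k) j * so^[k] (y.x (rt i j)) := by
  induction k with
  | zero => rfl
  | succ k ih =>
    have h1 : rt (i + (k + 1)) j = rW (rt (i + k) j) := rt_succ _ _
    have h2 : so (((etk i j : ℤ) : O) * (tt^[k] y).x (rt (i + k) j)) =
        so (((etk (i + k) j : ℤ) : O) * so^[k] (y.x (rt i j))) := by rw [ih]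
    rw [map_mul, map_mul, so_int, so_int] at h2
    rw [Function.iterate_succ_apply', Function.iterate_succ_apply', h1, tt_x, ← add_assoc, etk_succ]
    push_cast
    linear_combination (((et (rt (i + k) j).1 : ℤ) : O)) * h2

private theorem so_thirty (x : O) : so^[30] x = x := by
  have h1 : ∀ k, ((so^[k] x : O) : K) = (σ ^ k) (x : K) := by
    intro k
    induction k with
    | zero => rfl
    | succ k ih => rw [Function.iterate_succ_apply', so_coe, ih, pow_succ', AlgEquiv.mul_apply]
  apply RingOfIntegers.ext
  rw [h1, σ30, AlgEquiv.one_apply]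

private theorem tt_thirty (y : Chev O) : tt^[30] y = y := by
  have hW : ∀ i, W^[30] (al i) = al i := by
    intro i
    have h1 := rt_thirty 0 i
    have h2 := congrArg (fun a : Root => a.1) h1
    simp only [rt_val] at h2
    exact h2
  apply Chev.ext
  · funext j
    rw [tt_iter_h]
    simp only [so_thirty, hW]
    rw [Finset.sum_eq_single j]
    · simp [al]
    · intro i _ hij
      simp [al, hij]
    · intro h
      exact absurd (Finset.mem_univ j) h
  · funext a
    obtain ⟨i, _, j, rfl⟩ := rt_surj a
    have h1 := tt_iter_x 30 y i j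
    rw [rt_thirty, etk_thirty, so_thirty] at h1
    have h2 : ((etk i j : ℤ) : O) * ((etk i j : ℤ) : O) = 1 := by
      rw [← Int.cast_mul, etk_sq, Int.cast_one]
    linear_combination (((etk i j : ℤ) : O)) * h1 + (y.x (rt i j) - (tt^[30] y).x (rt i j)) * h2

private theorem ev_tt (y : Chev O) : cm ev (tt y) = nn (cm sB (cm ev y)) := by
  change cm ev (nn (cm so y)) = _
  rw [cm_nn, cm_cm, cm_cm]
  congr 2
  funext t
  exact ev_so t

private theorem avg (y : Chev O) (h : Fx sB (cm ev y)) :
    ∃ X : Chev O, Fx so X ∧ cm ev X = cm ev y ∧ (y.x = 0 → X.x = 0) := by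
  rw [Fx_iff] at h
  have hk : ∀ k, cm ev (tt^[k] y) = cm ev y := by
    intro k
    induction k with
    | zero => rfl
    | succ k ih => rw [Function.iterate_succ_apply', ev_tt, ih, h]
  let E : Chev O →+ Chev B := AddMonoidHom.mk' (cm ev) (cm_add ev)
  have hE : ∀ z, E z = cm ev z := fun _ => rfl
  let S : Chev O := ∑ k ∈ Finset.range 30, tt^[k] y
  have hS : tt S = S := by
    have h1 : tt S = ∑ k ∈ Finset.range 30, tt^[k + 1] y := by
      change tt (∑ k ∈ Finset.range 30, tt^[k] y) = _
      rw [map_sum]
      refine Finset.sum_congr rfl fun k _ => ?_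
      rw [Function.iterate_succ_apply']
    have h2 := Finset.sum_range_succ (fun k => tt^[k] y) 30
    have h3 := Finset.sum_range_succ' (fun k => tt^[k] y) 30
    rw [h2, tt_thirty] at h3
    rw [h1]
    exact (add_right_cancel h3).symm
  refine ⟨(30 : O) • S, ?_, ?_, ?_⟩
  · apply Fx_smul so (by rw [map_ofNat])
    rw [Fx_iff]
    exact hS
  · rw [cm_smul]
    have h1 : cm ev S = (30 : B) • cm ev y := by
      rw [← hE]
      change E (∑ k ∈ Finset.range 30, tt^[k] y) = _
      rw [map_sum]
      simp only [hE, hk]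
      rw [Finset.sum_const, Finset.card_range]
      exact (Nat.cast_smul_eq_nsmul B 30 (cm ev y)).symm
    have h31 : (31 : B) = 0 := by
      have h4 : (31 : B) = algebraMap F B 31 := by rw [map_ofNat]
      have h5 : (31 : F) = 0 := by decide
      rw [h4, h5, map_zero]
    rw [h1, smul_smul, map_ofNat]
    have h6 : (30 : B) * 30 = 1 := by linear_combination 29 * h31
    rw [h6, one_smul]
  · intro h0
    have h1 : ∀ k, (tt^[k] y).x = 0 := by
      intro k
      induction k with
      | zero => exact h0
      | succ k ih =>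
        rw [Function.iterate_succ_apply']
        funext a
        obtain ⟨b, rfl⟩ := rW.surjective a
        rw [tt_x, ih]
        simp
    rw [Chev.smul_x]
    change (30 : O) • (∑ k ∈ Finset.range 30, tt^[k] y).x = 0
    rw [Chev.sum_x, Finset.sum_eq_zero fun k _ => h1 k, smul_zero]

theorem lift_B (b : Chev B) (h : Fx sB b) : ∃ X : Chev O, Fx so X ∧ cm ev X = b := by
  choose f hf using ev_surj
  have h1 : cm ev (⟨fun i => f (b.h i), fun a => f (b.x a)⟩ : Chev O) = b := by
    apply Chev.ext
    · funext i
      exact hf _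
    · funext a
      exact hf _
  obtain ⟨X, h2, h3, _⟩ := avg _ (by rw [h1]; exact h)
  exact ⟨X, h2, by rw [h3, h1]⟩

/-- A lift with Cartan part only. -/
theorem lift_cart (b : Chev B) (h : Fx sB b) (hx : b.x = 0) : ∃ X : Chev O, Fx so X ∧ cm ev X = b ∧ X.x = 0 := by
  choose f hf using ev_surj
  have h1 : cm ev (⟨fun i => f (b.h i), 0⟩ : Chev O) = b := by
    apply Chev.ext
    · funext i
      exact hf _
    · rw [hx]
      funext a
      exact map_zero ev
  obtain ⟨X, h2, h3, h4⟩ := avg _ (by rw [h1]; exact h)
  exact ⟨X, h2, by rw [h3, h1], h4 rfl⟩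

/-- If the reduction is zero, the element is divisible by 31. -/
theorem cm_ev_zero {X : Chev O} (h : cm ev X = 0) : ∃ Y : Chev O, X = (31 : O) • Y := by
  have h1 : ∀ i, ev (X.h i) = 0 := fun i => congrArg (fun z : Chev B => z.h i) h
  have h2 : ∀ a, ev (X.x a) = 0 := fun a => congrArg (fun z : Chev B => z.x a) h
  choose f hf using fun i => ev_ker (h1 i)
  choose g hg using fun a => ev_ker (h2 a)
  refine ⟨⟨f, g⟩, ?_⟩
  apply Chev.ext
  · funext i
    exact hf i
  · funext a
    exact hg a

end Pool.Agent.Helper64.E8C
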