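import Pool.Agent.Helper64.E8C.Rt
import Pool.Agent.Helper64.E8C.Rat

/-!
# Block E8C-LFT: lifting from `B` to `𝓞 K`; the integral vectors `ej`

* `ej_Fx`, `ej_lie`: `ej j` is the sum over `k < 30` of `n ^ k e_(α_j)` (coefficients `± 1`): `Fx so` holds because `etk (k + 1) j = etk k j * et (rt k j)`,
  `etk 30 = 1`, `so` fixes integers. `[c h, ej j]` (for `h` in the Cartan part): `brk_x` with a Cartan element.
* `lift_B`: choose `X₀` with `cm ev X₀ = b` coordinatewise (`ev_surj`) and put `X = 30 ∑_{k < 30} τ ^ k X₀`, `τ y = nn (cm so y)` (`30 * 30 = 1` modulo 31;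
  `cm ev (τ y) = nn (cm sB (cm ev y))`, `b` is fixed by it). `τ ^ 30 = 1`: `so ^ 30 = 1` (`σ30`), `W ^ 30 = 1`, `etk_thirty` (the signs of `n ^ 30` at the
  root `rt k j` is `etk (k + 30) j * etk k j = 1`). Or construct `X` directly from its values at the `α_j` for the root part, and by averaging for the
  Cartan part.
-/

set_option autoImplicit false

namespace Pool.Agent.Helper64.E8C

open Pool.Agent.Helper73.E8 Pool.Agent.Helper2.E8A NumberField Polynomial

/-- The sum of the `n ^ k e_(α_j)`. -/
noncomputable def ej (j : Fin 8) : Chev O :=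
  ⟨0, fun a => ∑ k ∈ Finset.range 30, if rt k j = a then (etk k j : O) else 0⟩

private theorem rt_mod42 (k : ℕ) (j : Fin 8) : rt k j = rt (k % 30) j := by
  have h : ∀ m r : ℕ, rt (r + 30 * m) j = rt r j := by
    intro m
    induction m with
    | zero => intro r; rfl
    | succ m ih =>
      intro r
      have e : r + 30 * (m + 1) = (r + 30 * m) + 30 := by ring
      rw [e, rt_thirty, ih]
  conv_lhs => rw [← Nat.mod_add_div k 30]
  exact h _ _

private theorem etk_mod42 (k : ℕ) (j : Fin 8) : etk k j = etk (k % 30) j := by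
  have h : ∀ m r : ℕ, etk (r + 30 * m) j = etk r j := by
    intro m
    induction m with
    | zero => intro r; rfl
    | succ m ih =>
      intro r
      have e : r + 30 * (m + 1) = (r + 30 * m) + 30 := by ring
      rw [e, etk_thirty, ih]
  conv_lhs => rw [← Nat.mod_add_div k 30]
  exact h _ _

theorem ej_x (k : ℕ) (i j : Fin 8) : (ej j).x (rt k i) = if i = j then (etk k j : O) else 0 := by
  rw [rt_mod42 k i, etk_mod42 k j]
  have hk : k % 30 < 30 := Nat.mod_lt _ (by norm_num)
  generalize k % 30 = r at hk
  change (∑ k' ∈ Finset.range 30, if rt k' j = rt r i then (etk k' j : O) else 0) = _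
  by_cases hij : i = j
  · subst hij
    rw [if_pos rfl, Finset.sum_eq_single r]
    · rw [if_pos rfl]
    · intro k' hk' hne
      rw [if_neg]
      intro h
      exact hne (rt_inj (Finset.mem_range.1 hk') hk h).1
    · intro h
      exact absurd (Finset.mem_range.2 hk) h
  · rw [if_neg hij]
    refine Finset.sum_eq_zero fun k' hk' => ?_
    rw [if_neg]
    intro h
    exact hij (rt_inj (Finset.mem_range.1 hk') hk h).2.symm

theorem ej_Fx (j : Fin 8) : Fx so (ej j) := by
  constructor
  · intro l
    change (0 : O) = ∑ i, so (0 : O) * (Wmat i l : O)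
    rw [map_zero]
    simp
  · intro a
    obtain ⟨k, hk, i, rfl⟩ := rt_surj a
    rw [← rt_succ, ej_x, ej_x]
    by_cases hij : i = j
    · subst hij
      rw [if_pos rfl, if_pos rfl, map_intCast, etk_succ]
      push_cast
      ring
    · rw [if_neg hij, if_neg hij, map_zero, mul_zero]

end Pool.Agent.Helper64.E8C
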