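import Pool.Agent.Helper64.E8C.G3
import Pool.Agent.Helper64.E8C.Iso

/-!
# E8 over the integers, part (2) at the prime 31: the lattice is unique

`InL y`: explicit conditions. `mem_iff`: every lattice with the properties `IsL` is equal to the set of all `y` with `InL y`. `sigma_mem`: it is stable under `σ`
(applied to the coordinates), which is an automorphism of order 30.
-/

set_option autoImplicit false

namespace Pool.Agent.Helper64.E8C

open Pool.Agent.Helper73.E8 Pool.Agent.Helper2.E8A NumberField Polynomial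

/-- The explicit description of the lattice. -/
def InL (y : Chev K) : Prop := Fx σ y ∧ ∃ y' : Chev O, inc y' = (31 : K) • y ∧ cmp 0 (cm ev y') = 0 ∧
  ∀ v < 30, 1 ≤ v → ∀ k < ud (30 - v), Chev.bf (cmp v (cm ev y')) (toE (30 - v) (uu (30 - v) k)) = 0

theorem isD {L : AddSubgroup (Chev K)} (hL : IsL L) : IsD (InD L) where
  zero := inD_zero hL
  add _ _ hb hc := inD_add hL hb hc
  smul c _ hb := inD_smul hL c hb
  fx _ hb := inD_fx hL hb
  c0 _ hb := inD_c0 hL hb
  lie _ _ hc hb := inD_lie hL hc hb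
  iso _ _ hb hc := inD_iso hL hb hc
  ex := inD_ex hL

theorem mem_iff {L : AddSubgroup (Chev K)} (hL : IsL L) (y : Chev K) : y ∈ L ↔ InL y := by
  constructor
  · intro hy
    obtain ⟨y', h'⟩ := L_bound hL hy
    have hD : InD L (cm ev (pO • y')) := ⟨y, hy, _, h', rfl⟩
    have h := (D_iff (isD hL) _).mp hD
    exact ⟨hL.fx y hy, _, h', h.2.1, h.2.2⟩
  · rintro ⟨hF, y', h', h0, hv⟩
    have h31 : Fx σ (inc y') := by
      have h1 := Fx_K_smul 31 hF
      have h2 : ((31 : ℚ) : K) = 31 := by norm_num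
      rw [h2] at h1
      rwa [h']
    have hB : Fx sB (cm ev y') := Fx_cm ev_so ((Fx_inc y').mp h31)
    exact mem_of_inD hL hF h' ((D_iff (isD hL) _).mpr ⟨hB, h0, hv⟩)

theorem InL_sigma {y : Chev K} (h : InL y) : InL (cm σ y) := by
  obtain ⟨hF, y', h', h0, hv⟩ := h
  have hs : ∀ v, cmp v (cm ev (cm so y')) = (3 : F) ^ v • cmp v (cm ev y') := by
    intro v
    refine Chev.ext (funext fun i => ?_) (funext fun a => ?_)
    · change cf v (ev (so (y'.h i))) = 3 ^ v * cf v (ev (y'.h i))
      rw [ev_so, cf_sB]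
    · change cf v (ev (so (y'.x a))) = 3 ^ v * cf v (ev (y'.x a))
      rw [ev_so, cf_sB]
  refine ⟨?_, cm so y', ?_, ?_, ?_⟩
  · rw [Fx_iff] at hF ⊢
    have h1 := congrArg (cm (σ : K →+* K)) hF
    rw [cm_nn] at h1
    exact h1
  · have h1 : (31 : K) • cm σ y = cm σ ((31 : K) • y) := by
      have h2 := cm_smul (σ : K →+* K) 31 y
      rw [map_ofNat] at h2
      exact h2.symm
    rw [h1, ← h']
    rfl
  · rw [hs, h0, smul_zero]
  · intro v hv30 h1 k hk
    rw [hs, Chev.bf_smul_left, hv v hv30 h1 k hk, mul_zero]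

/-- `σ` (on the coordinates) preserves the lattice. -/
theorem sigma_mem {L : AddSubgroup (Chev K)} (hL : IsL L) {y : Chev K} (hy : y ∈ L) : cm σ y ∈ L :=
  (mem_iff hL _).mpr (InL_sigma ((mem_iff hL y).mp hy))

/-- The lattice is unique. -/
theorem uniq {L L' : AddSubgroup (Chev K)} (hL : IsL L) (hL' : IsL L') : L = L' := by
  ext y
  rw [mem_iff hL, mem_iff hL']

end Pool.Agent.Helper64.E8C
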