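import Pool.Agent.Helper64.E8C.Rt
import Pool.Agent.Helper64.E8C.Cm

/-!
# Block E8C-VECA: the coordinates of the elements of `E_v`

* `toE_Ev`: root part: `toE_x` and `etk_succ`, `rt_succ`. Cartan part: `3 ^ v ∑_i vm_i Wmat i j = vm_j` for the row `v % 30` of `vmT` (`decide`; `3 ^ v` depends only
  on `v % 30`).
* `exists_toE`: root part: coordinates `s.x (sr j)` (`.val` of the elements of `ZMod 31`), and `s.x (rt k j)` follows by induction on `k`.
  Cartan part: `M h = 0` for `(M h)_j = 3 ^ v ∑_i h_i Wmat i j - h_j`; the table `cZ` satisfies `Z_v M_v = 1 - vm v ⊗ cP v` modulo 31 (`decide +kernel` over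
  `v < 30`, `i, j < 8`; `num_cart` below), so `h = (∑_i cP_i h_i) • vm v`.
* `Ev_ext`: an element of `E_v` is determined by its values at the simple roots and its Cartan part.
* `Ev_cart_zero`: row 0 of `vmT` is zero.
-/

set_option autoImplicit false

namespace Pool.Agent.Helper64.E8C

open Pool.Agent.Helper73.E8 Pool.Agent.Helper2.E8A NumberField Polynomial

private theorem three_pow_modV (v : ℕ) : (3 : F) ^ v = 3 ^ (v % 30) := by
  have h : (3 : F) ^ 30 = 1 := by decide +kernel
  conv_lhs => rw [← Nat.div_add_mod v 30, pow_add, pow_mul, h, one_pow, one_mul]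

private theorem en_mod (t : List (List ℕ)) (v i : ℕ) : en t v i = en t (v % 30) i := by
  unfold en
  rw [Nat.mod_mod]

private theorem vm_cart : ∀ v < 30, ∀ j : Fin 8,
    (en vmT v j : F) = ∑ i : Fin 8, 3 ^ v * (en vmT v i : F) * (Wmat i j : F) := by
  decide +kernel

theorem toE_Ev (v : ℕ) (s : List ℕ) : Ev v (toE v s) := by
  refine ⟨fun j => ?_, fun a => ?_⟩
  · change (s.getD 8 0 : F) * (en vmT v j : F) =
      ∑ i : Fin 8, 3 ^ v * ((s.getD 8 0 : F) * (en vmT v i : F)) * (Wmat i j : F)
    have h := vm_cart (v % 30) (Nat.mod_lt _ (by norm_num)) j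
    rw [← en_mod, ← three_pow_modV] at h
    rw [h, Finset.mul_sum]
    refine Finset.sum_congr rfl fun i _ => ?_
    rw [← en_mod]
    ring
  · obtain ⟨k, -, j, rfl⟩ := rt_surj a
    rw [← rt_succ, toE_x, toE_x, etk_succ, mul_add, mul_one, pow_add]
    push_cast
    ring

theorem Ev_ext {v : ℕ} {s t : Chev F} (hs : Ev v s) (ht : Ev v t) (h : s.h = t.h) (hx : ∀ j, s.x (sr j) = t.x (sr j)) :
    s = t := by
  have key : ∀ k j, s.x (rt k j) = t.x (rt k j) := by
    intro k j
    induction k with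
    | zero => exact hx j
    | succ k ih => rw [rt_succ, hs.2, ht.2, ih]
  apply Chev.ext h
  funext a
  obtain ⟨k, -, j, rfl⟩ := rt_surj a
  exact key k j

theorem toE_mod {v w : ℕ} (h : v % 30 = w % 30) (s : List ℕ) : toE v s = toE w s := by
  have h3 : (3 : F) ^ v = 3 ^ w := by rw [three_pow_modV v, three_pow_modV w, h]
  apply Chev.ext
  · funext i
    change (s.getD 8 0 : F) * (en vmT v i : F) = (s.getD 8 0 : F) * (en vmT w i : F)
    rw [en_mod vmT v, en_mod vmT w, h]
  · funext a
    change (∑ k ∈ Finset.range 30, ∑ j : Fin 8, if rt k j = a then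
      (etk k j : F) * 3 ^ (v * k) * (s.getD j 0 : F) else 0) = ∑ k ∈ Finset.range 30,
      ∑ j : Fin 8, if rt k j = a then (etk k j : F) * 3 ^ (w * k) * (s.getD j 0 : F) else 0
    simp only [pow_mul, h3]

theorem toE_congr (v : ℕ) {s t : List ℕ} (h : ∀ i < 9, s.getD i 0 % 31 = t.getD i 0 % 31) : toE v s = toE v t := by
  have hc : ∀ i < 9, (s.getD i 0 : F) = (t.getD i 0 : F) := fun i hi =>
    (ZMod.natCast_eq_natCast_iff' _ _ 31).2 (h i hi)
  apply Chev.ext
  · funext i
    change (s.getD 8 0 : F) * (en vmT v i : F) = (t.getD 8 0 : F) * (en vmT v i : F)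
    rw [hc 8 (by norm_num)]
  · funext a
    change (∑ k ∈ Finset.range 30, ∑ j : Fin 8, if rt k j = a then
      (etk k j : F) * 3 ^ (v * k) * (s.getD j 0 : F) else 0) = ∑ k ∈ Finset.range 30,
      ∑ j : Fin 8, if rt k j = a then (etk k j : F) * 3 ^ (v * k) * (t.getD j 0 : F) else 0
    refine Finset.sum_congr rfl fun k _ => Finset.sum_congr rfl fun j _ => ?_
    rw [hc j (by omega)]

/-- Sum of coordinate lists. -/
def ladd (s t : List ℕ) : List ℕ := (List.range 9).map fun i => (s.getD i 0 + t.getD i 0) % 31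

/-- Multiple of a coordinate list. -/
def lsc (c : ℕ) (s : List ℕ) : List ℕ := (List.range 9).map fun i => (c * s.getD i 0) % 31

private theorem getD_map9 (f : ℕ → ℕ) {i : ℕ} (hi : i < 9) :
    (((List.range 9).map f).getD i 0) = f i := by
  interval_cases i <;> rfl

private theorem cast_mod31 (n : ℕ) : ((n % 31 : ℕ) : F) = (n : F) :=
  (ZMod.natCast_eq_natCast_iff' _ _ 31).2 (Nat.mod_mod _ _)

theorem toE_add (v : ℕ) (s t : List ℕ) : toE v (ladd s t) = toE v s + toE v t := by
  have hc : ∀ i < 9, ((ladd s t).getD i 0 : F) = (s.getD i 0 : F) + (t.getD i 0 : F) := by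
    intro i hi
    unfold ladd
    rw [getD_map9 _ hi, cast_mod31, Nat.cast_add]
  apply Chev.ext
  · funext i
    change ((ladd s t).getD 8 0 : F) * (en vmT v i : F) =
      (s.getD 8 0 : F) * (en vmT v i : F) + (t.getD 8 0 : F) * (en vmT v i : F)
    rw [hc 8 (by norm_num), add_mul]
  · funext a
    change (∑ k ∈ Finset.range 30, ∑ j : Fin 8, if rt k j = a then
      (etk k j : F) * 3 ^ (v * k) * ((ladd s t).getD j 0 : F) else 0) =
      (∑ k ∈ Finset.range 30, ∑ j : Fin 8, if rt k j = a then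
      (etk k j : F) * 3 ^ (v * k) * (s.getD j 0 : F) else 0) +
      ∑ k ∈ Finset.range 30, ∑ j : Fin 8, if rt k j = a then
      (etk k j : F) * 3 ^ (v * k) * (t.getD j 0 : F) else 0
    rw [← Finset.sum_add_distrib]
    refine Finset.sum_congr rfl fun k _ => ?_
    rw [← Finset.sum_add_distrib]
    refine Finset.sum_congr rfl fun j _ => ?_
    rw [hc j (by omega)]
    split_ifs
    · ring
    · rw [add_zero]

theorem toE_smul (v c : ℕ) (s : List ℕ) : toE v (lsc c s) = (c : F) • toE v s := by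
  have hc : ∀ i < 9, ((lsc c s).getD i 0 : F) = (c : F) * (s.getD i 0 : F) := by
    intro i hi
    unfold lsc
    rw [getD_map9 _ hi, cast_mod31, Nat.cast_mul]
  apply Chev.ext
  · funext i
    change ((lsc c s).getD 8 0 : F) * (en vmT v i : F) =
      (c : F) * ((s.getD 8 0 : F) * (en vmT v i : F))
    rw [hc 8 (by norm_num), mul_assoc]
  · funext a
    change (∑ k ∈ Finset.range 30, ∑ j : Fin 8, if rt k j = a then
      (etk k j : F) * 3 ^ (v * k) * ((lsc c s).getD j 0 : F) else 0) =
      (c : F) * (∑ k ∈ Finset.range 30, ∑ j : Fin 8, if rt k j = a then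
      (etk k j : F) * 3 ^ (v * k) * (s.getD j 0 : F) else 0)
    rw [Finset.mul_sum]
    refine Finset.sum_congr rfl fun k _ => ?_
    rw [Finset.mul_sum]
    refine Finset.sum_congr rfl fun j _ => ?_
    rw [hc j (by omega)]
    split_ifs
    · ring
    · rw [mul_zero]

end Pool.Agent.Helper64.E8C
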